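import Pool.Agent.CFX.TA

/-! BC: a large set is seen exactly once by few vertices -/

namespace Pool.Agent.CFX

open Finset Pool.Agent.MD437 Pool.Agent.CFC

variable {n m : ℕ} {p l : ℝ}

/-- the edges between `Y` and `C \ Y` -/
private def bcF (Y C : Finset (Fin n)) : Finset (Sym2 (Fin n)) :=
  (Y ×ˢ (C \ Y)).image (fun q => s(q.1, q.2))

private lemma bcF_sub (Y C : Finset (Fin n)) : bcF Y C ⊆ E n := by
  intro e he
  rw [bcF, mem_image] at he
  obtain ⟨q, hq, rfl⟩ := he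
  rw [mem_product, mem_sdiff] at hq
  rw [mk_mem_E]
  intro h
  exact hq.2.2 (h ▸ hq.1)

private lemma bcF_card (Y C : Finset (Fin n)) : (bcF Y C).card = Y.card * (C \ Y).card := by
  rw [bcF, card_image_of_injOn, card_product]
  rintro ⟨a, b⟩ h1 ⟨a', b'⟩ h2 h
  rw [mem_coe, mem_product, mem_sdiff] at h1 h2
  simp only at h1 h2 h
  rw [Sym2.eq_iff] at h
  rcases h with ⟨rfl, rfl⟩ | ⟨rfl, rfl⟩
  · rfl
  · exact absurd h1.1 h2.2.2

private lemma bc_count (S : Finset (Sym2 (Fin n))) (Y C : Finset (Fin n))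
    (h : ∀ x ∈ Y, (cl S x ∩ C).card ≤ 1) : (S ∩ bcF Y C).card ≤ Y.card := by
  have hsub : S ∩ bcF Y C ⊆ Y.biUnion (fun x => (cl S x ∩ C).image (fun y => s(x, y))) := by
    intro e he
    rw [mem_inter, bcF, mem_image] at he
    obtain ⟨heS, q, hq, rfl⟩ := he
    rw [mem_product, mem_sdiff] at hq
    rw [mem_biUnion]
    refine ⟨q.1, hq.1, mem_image.2 ⟨q.2, mem_inter.2 ⟨mem_cl.2 (Or.inr ⟨?_, heS⟩), hq.2.1⟩, rfl⟩⟩
    intro h'
    exact hq.2.2 (h' ▸ hq.1)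
  calc (S ∩ bcF Y C).card
      ≤ (Y.biUnion (fun x => (cl S x ∩ C).image (fun y => s(x, y)))).card := card_le_card hsub
    _ ≤ ∑ x ∈ Y, ((cl S x ∩ C).image (fun y => s(x, y))).card := card_biUnion_le
    _ ≤ ∑ x ∈ Y, 1 := sum_le_sum fun x hx => card_image_le.trans (h x hx)
    _ = Y.card := by simp

private lemma bc_num {L y c q p : ℝ} (hp0 : 0 < p) (hp1 : p ≤ 1) (hL : 10000 ≤ L)
    (hy : 8 * L / p ≤ y) (hy' : y ≤ 8 * L / p + 1) (hc : 100 * L / p ≤ c) (hq : c - y ≤ q) :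
    (c + y) * L + (7 / 10 * y - p * (y * q) / 2) ≤ -(5 * L) := by
  have hp : L ≤ L / p := by
    rw [le_div_iff₀ hp0]
    nlinarith
  have h1 : 8 * L ≤ p * y := by
    have := mul_le_mul_of_nonneg_left hy hp0.le
    rwa [mul_div_cancel₀ _ hp0.ne'] at this
  have e1 : 8 * L / p = 8 * (L / p) := by ring
  have e2 : 100 * L / p = 100 * (L / p) := by ring
  rw [e1] at hy hy'
  rw [e2] at hc
  generalize L / p = t at *
  have hcy : 0 ≤ c - y := by linarith
  have h2 : 8 * L * (c - y) ≤ p * (y * q) := by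
    calc 8 * L * (c - y) ≤ (p * y) * (c - y) := mul_le_mul_of_nonneg_right h1 hcy
      _ ≤ (p * y) * q := mul_le_mul_of_nonneg_left hq (by linarith)
      _ = p * (y * q) := by ring
  have h3 : 7 / 10 * y ≤ L * y := mul_le_mul_of_nonneg_right (by linarith) (by linarith)
  have h4 : 5 * L ≤ L * (3 * c - 6 * y) := by
    have : 5 ≤ 3 * c - 6 * y := by linarith
    nlinarith
  linarith

/-- Let `c₀ = ⌈l / p⌉`, `y₀ = ⌈8 log n / p⌉` (so `6 y₀ ≤ c₀`, `1 / p ≥ l ^ 4000`). If `C` is a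
counterexample choose `C' ⊆ C` with `|C'| = c₀` and `Y ⊆ see1 S C` with `|Y| = y₀`. Every `x ∈ Y`
has at most one neighbour in `C' \ Y`. So at most `y₀` of the `y₀ |C' \ Y| ≥ y₀ (c₀ - y₀)` edges
between `Y` and `C' \ Y` are present: by `count_lower` the probability is at most
`exp (7/10 y₀ - p y₀ (c₀ - y₀) / 2) ≤ exp (y₀ - 4 log n (c₀ - y₀)) ≤ exp (- 3 c₀ log n)`-like;
there are at most `n ^ (c₀ + y₀)` pairs `(C', Y)` (`Finset.card_powersetCard`,
`Nat.choose_le_pow`). The total is at most `exp (- c₀ log n)`. -/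
theorem big_prob (hB : Big n l) (hp1 : p ≤ 1) (h1 : l ^ 222 ≤ n * p) (h2 : n * p ≤ l ^ 6000) :
    pr p (E n) (fun S => ∃ C : Finset (Fin n), l / p ≤ C.card ∧
      16 * Real.log n / p < ((see1 S C).card : ℝ)) ≤ 1 / (n : ℝ) ^ 5 := by
  have hn := hB.n_pos'
  have hp0 : 0 < p := by
    by_contra h
    have h3 := hB.pow_pos' 222
    have h4 : (n : ℝ) * p ≤ 0 := mul_nonpos_of_nonneg_of_nonpos hn.le (not_lt.1 h)
    exact absurd (h3.trans_le (h1.trans h4)) (lt_irrefl _)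
  clear h1 h2
  have hL := hB.log_n_ge
  have hLp : Real.log n ≤ Real.log n / p := by
    rw [le_div_iff₀ hp0]
    nlinarith
  obtain ⟨c₀, hc₀⟩ : ∃ c : ℕ, c = ⌈l / p⌉₊ := ⟨_, rfl⟩
  obtain ⟨y₀, hy₀⟩ : ∃ y : ℕ, y = ⌈8 * Real.log n / p⌉₊ := ⟨_, rfl⟩
  have hc : l / p ≤ (c₀ : ℝ) := by rw [hc₀]; exact Nat.le_ceil _
  have hc' : 100 * Real.log n / p ≤ (c₀ : ℝ) :=
    le_trans (div_le_div_of_nonneg_right hB.lg_le hp0.le) hc
  have hy : 8 * Real.log n / p ≤ (y₀ : ℝ) := by rw [hy₀]; exact Nat.le_ceil _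
  have hy' : (y₀ : ℝ) ≤ 8 * Real.log n / p + 1 := by
    rw [hy₀]
    exact (Nat.ceil_lt_add_one (div_nonneg (by linarith) hp0.le)).le
  have key : ∀ S ⊆ E n, (∃ C : Finset (Fin n), l / p ≤ C.card ∧
      16 * Real.log n / p < ((see1 S C).card : ℝ)) →
      ∃ q ∈ (univ : Finset (Fin n)).powersetCard c₀ ×ˢ
        (univ : Finset (Fin n)).powersetCard y₀,
        (((S ∩ bcF q.2 q.1).card : ℕ) : ℝ) ≤ y₀ := by
    rintro S - ⟨C, hC1, hC2⟩
    have hC3 : c₀ ≤ C.card := by rw [hc₀]; exact Nat.ceil_le.2 hC1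
    obtain ⟨C', hC', hCc⟩ := exists_subset_card_eq hC3
    have hY3 : y₀ ≤ (see1 S C).card := by
      have e1 : 16 * Real.log n / p = 16 * (Real.log n / p) := by ring
      have e2 : 8 * Real.log n / p = 8 * (Real.log n / p) := by ring
      rw [e1] at hC2
      rw [e2] at hy'
      have h3 : (y₀ : ℝ) ≤ ((see1 S C).card : ℝ) := by linarith
      exact_mod_cast h3
    obtain ⟨Y, hY, hYc⟩ := exists_subset_card_eq hY3
    refine ⟨(C', Y), mem_product.2 ⟨mem_powersetCard.2 ⟨subset_univ _, hCc⟩,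
      mem_powersetCard.2 ⟨subset_univ _, hYc⟩⟩, ?_⟩
    have h3 := bc_count S Y C' (fun x hx => by
      have h4 := hY hx
      rw [see1, mem_filter] at h4
      rw [← h4.2]
      exact card_le_card (inter_subset_inter_left hC'))
    rw [hYc] at h3
    exact_mod_cast h3
  have step1 := pr_mono hp0.le hp1 key
  have step2 := pr_union hp0.le hp1 (E n) ((univ : Finset (Fin n)).powersetCard c₀ ×ˢ
        (univ : Finset (Fin n)).powersetCard y₀)
    (fun q S => (((S ∩ bcF q.2 q.1).card : ℕ) : ℝ) ≤ y₀)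
  refine step1.trans (step2.trans ?_)
  have hterm : ∀ q ∈ (univ : Finset (Fin n)).powersetCard c₀ ×ˢ
        (univ : Finset (Fin n)).powersetCard y₀,
      pr p (E n) (fun S => (((S ∩ bcF q.2 q.1).card : ℕ) : ℝ) ≤ y₀) ≤
        Real.exp (-((c₀ + y₀ + 5 : ℕ) * Real.log n)) := by
    intro q hq
    rw [mem_product, mem_powersetCard, mem_powersetCard] at hq
    refine (count_lower hp0.le hp1 (E n) _ (bcF_sub q.2 q.1) _ (Nat.cast_nonneg _)).trans ?_
    rw [Real.exp_le_exp, bcF_card, hq.2.2]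
    have h3 : (c₀ : ℝ) - y₀ ≤ ((q.1 \ q.2).card : ℝ) := by
      have h4 := le_card_sdiff q.2 q.1
      rw [hq.1.2, hq.2.2] at h4
      have h5 : c₀ ≤ (q.1 \ q.2).card + y₀ := by omega
      have h6 : (c₀ : ℝ) ≤ ((q.1 \ q.2).card : ℝ) + y₀ := by exact_mod_cast h5
      linarith
    have h4 := bc_num hp0 hp1 hL hy hy' hc' h3
    push_cast
    linarith
  refine (sum_le_sum hterm).trans ?_
  rw [sum_const, card_product, card_powersetCard, card_powersetCard, card_univ, Fintype.card_fin,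
    nsmul_eq_mul]
  have h5 : ((n.choose c₀ * n.choose y₀ : ℕ) : ℝ) ≤ (n : ℝ) ^ (c₀ + y₀) := by
    rw [pow_add]
    push_cast
    exact mul_le_mul (by exact_mod_cast Nat.choose_le_pow n c₀)
      (by exact_mod_cast Nat.choose_le_pow n y₀) (Nat.cast_nonneg _) (by positivity)
  have h6 : Real.exp (-((c₀ + y₀ + 5 : ℕ) * Real.log n)) = 1 / (n : ℝ) ^ (c₀ + y₀ + 5) := by
    rw [Real.exp_neg, Real.exp_nat_mul, Real.exp_log hn, one_div]
  rw [h6]
  calc ((n.choose c₀ * n.choose y₀ : ℕ) : ℝ) * (1 / (n : ℝ) ^ (c₀ + y₀ + 5))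
      ≤ (n : ℝ) ^ (c₀ + y₀) * (1 / (n : ℝ) ^ (c₀ + y₀ + 5)) :=
        mul_le_mul_of_nonneg_right h5 (by positivity)
    _ = 1 / (n : ℝ) ^ 5 := by
        rw [pow_add (n : ℝ) (c₀ + y₀) 5]
        field_simp

end Pool.Agent.CFX
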