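import Pool.Agent.CFX.Props

/-! BO: the boost by the variance -/

namespace Pool.Agent.CFX

open Finset Pool.Agent.MD437 Pool.Agent.CFC

variable {ι : Type*} [DecidableEq ι]

private lemma bo_var (p : ℝ) (A : Finset ι) (f : Finset ι → ℝ) :
    ex p A (fun S => (f S - ex p A f) ^ 2) = ex p A (fun S => f S ^ 2) - (ex p A f) ^ 2 := by
  set m := ex p A f with hm
  have : ex p A (fun S => (f S - m) ^ 2)
      = ex p A (fun S => f S ^ 2) + ex p A (fun S => (-2 * m) * f S) + ex p A (fun _ => m ^ 2) := by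
    rw [← ex_add, ← ex_add]
    exact ex_congr p fun S _ => by ring
  rw [this, ex_mul_left, ex_const, ← hm]; ring

private lemma bo_cheb {p : ℝ} (hp0 : 0 ≤ p) (hp1 : p ≤ 1) (A : Finset ι) (f : Finset ι → ℝ)
    (Q : Finset ι → Prop) {V t : ℝ} (ht : 0 < t)
    (hV : ex p A (fun S => f S ^ 2) - (ex p A f) ^ 2 ≤ V)
    (hQ : ∀ S, Q S → t ^ 2 ≤ (f S - ex p A f) ^ 2) :
    pr p A Q ≤ V / t ^ 2 := by
  classical
  have ht2 : 0 < t ^ 2 := pow_pos ht 2
  rw [le_div_iff₀ ht2, mul_comm, pr_def, ← ex_mul_left]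
  refine le_trans ?_ hV
  rw [← bo_var]
  refine ex_mono hp0 hp1 fun S _ => ?_
  by_cases h : Q S
  · rw [if_pos h, mul_one]; exact hQ S h
  · rw [if_neg h, mul_zero]; positivity

/-- If `f ≤ a` has probability at least `η` and the variance of `f` is at most `V ≤ η t₁²` then
`f ≥ a + t₁ + t₂` has probability at most `V / t₂²`. Proof: Chebyshev twice. -/
lemma boost {p : ℝ} (hp0 : 0 ≤ p) (hp1 : p ≤ 1) (A : Finset ι) (f : Finset ι → ℝ)
    {V a t₁ t₂ η : ℝ} (ht1 : 0 < t₁) (ht2 : 0 < t₂) (hη : 0 < η)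
    (hV : ex p A (fun S => f S ^ 2) - (ex p A f) ^ 2 ≤ V) (hVt : V ≤ η * t₁ ^ 2)
    (hP : η ≤ pr p A (fun S => f S ≤ a)) :
    pr p A (fun S => a + t₁ + t₂ ≤ f S) ≤ V / t₂ ^ 2 := by
  have hm : ex p A f ≤ a + t₁ := by
    by_contra hcon
    push Not at hcon
    have hr : 0 < ex p A f - a := by linarith
    have h1 := bo_cheb hp0 hp1 A f (fun S => f S ≤ a) hr hV (fun S hS => by
      have h2 : ex p A f - a ≤ ex p A f - f S := by linarith
      have h3 := pow_le_pow_left₀ hr.le h2 2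
      calc (ex p A f - a) ^ 2 ≤ (ex p A f - f S) ^ 2 := h3
        _ = (f S - ex p A f) ^ 2 := by ring)
    have h2 : η ≤ V / (ex p A f - a) ^ 2 := hP.trans h1
    rw [le_div_iff₀ (pow_pos hr 2)] at h2
    have h3 : η * (ex p A f - a) ^ 2 ≤ η * t₁ ^ 2 := h2.trans hVt
    have h4 : (ex p A f - a) ^ 2 ≤ t₁ ^ 2 := le_of_mul_le_mul_left h3 hη
    have h5 : t₁ < ex p A f - a := by linarith
    have h6 := pow_lt_pow_left₀ h5 ht1.le two_ne_zero
    linarith
  refine bo_cheb hp0 hp1 A f _ ht2 hV (fun S hS => ?_)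
  have h2 : t₂ ≤ f S - ex p A f := by linarith
  exact pow_le_pow_left₀ ht2.le h2 2

end Pool.Agent.CFX
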