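import Pool.Agent.CFX.Defs

/-! Numerical facts about the scale `l = n ^ (1 / 10000)`. -/

namespace Pool.Agent.CFX

open Finset Pool.Agent.MD437 Pool.Agent.CFC

variable {n : ℕ} {l p : ℝ}

namespace Big

lemma one_le (h : Big n l) : 1 ≤ l := le_trans (by norm_num) h.big

lemma pos (h : Big n l) : 0 < l := lt_of_lt_of_le one_pos h.one_le

lemma pow_pos' (h : Big n l) (k : ℕ) : 0 < l ^ k := _root_.pow_pos h.pos k

lemma pow_le (h : Big n l) {a b : ℕ} (hab : a ≤ b) : l ^ a ≤ l ^ b :=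
  pow_le_pow_right₀ h.one_le hab

lemma one_le_pow (h : Big n l) (k : ℕ) : 1 ≤ l ^ k := one_le_pow₀ h.one_le

/-- a constant (up to `10^9`) times `l^a` is at most `l^b`, `a < b` -/
lemma mul_pow_le (h : Big n l) {C : ℝ} (hC : C ≤ 10 ^ 9) {a b : ℕ} (hab : a < b) :
    C * l ^ a ≤ l ^ b := by
  calc C * l ^ a ≤ l * l ^ a := mul_le_mul_of_nonneg_right (hC.trans h.big) (h.pow_pos' a).le
    _ = l ^ (a + 1) := by rw [pow_succ, mul_comm]
    _ ≤ l ^ b := h.pow_le hab

lemma n_pos' (h : Big n l) : (0 : ℝ) < n := by rw [← h.pow]; exact h.pow_pos' _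

lemma l_le_n (h : Big n l) : l ≤ n := by
  have := h.pow_le (show 1 ≤ 10000 by norm_num)
  rwa [pow_one, h.pow] at this

lemma big_n (h : Big n l) : (10 : ℝ) ^ 9 ≤ n := h.big.trans h.l_le_n

lemma n_pos (h : Big n l) : 0 < n := by exact_mod_cast h.n_pos'

lemma two_le_n (h : Big n l) : 2 ≤ n := by
  have := h.big_n
  have h2 : (2 : ℝ) ≤ n := le_trans (by norm_num) this
  exact_mod_cast h2

lemma log_n (h : Big n l) : Real.log n = 10000 * Real.log l := by
  rw [← h.pow, Real.log_pow]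
  norm_num

lemma log_l_ge (h : Big n l) : 1 ≤ Real.log l := by
  rw [Real.le_log_iff_exp_le h.pos]
  exact (Real.exp_one_lt_d9.le.trans (by norm_num)).trans h.big

lemma log_n_ge (h : Big n l) : 10000 ≤ Real.log n := by
  rw [h.log_n]
  have := h.log_l_ge
  linarith

lemma lg1 (h : Big n l) : 1 ≤ 100 * Real.log n := by
  have := h.log_n_ge
  linarith

/-- powers of `100 log n` up to 5000 are at most `l` -/
lemma lg_pow (h : Big n l) {k : ℕ} (hk : k ≤ 5000) : (100 * Real.log n) ^ k ≤ l :=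
  (pow_le_pow_right₀ h.lg1 hk).trans h.lg

lemma lg_le (h : Big n l) : 100 * Real.log n ≤ l := by
  have := h.lg_pow (show 1 ≤ 5000 by norm_num)
  rwa [pow_one] at this

/-- `5000 log (100 log n) ≤ log l` -/
lemma loglog (h : Big n l) : 5000 * Real.log (100 * Real.log n) ≤ Real.log l := by
  have h1 : 0 < 100 * Real.log n := lt_of_lt_of_le one_pos h.lg1
  have h2 := Real.log_le_log (_root_.pow_pos h1 5000) h.lg
  rw [Real.log_pow] at h2
  exact_mod_cast h2

/-- for union bounds -/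
lemma exp_le (h : Big n l) {k : ℕ} {x : ℝ} (hx : 6 * Real.log n * k ≤ x) :
    Real.exp (-x) ≤ (1 / (n : ℝ) ^ 6) ^ k := by
  have h1 : (1 / (n : ℝ) ^ 6) ^ k = Real.exp (-(6 * Real.log n * k)) := by
    have h2 : (n : ℝ) ^ 6 = Real.exp (6 * Real.log n) := by
      rw [show (6 : ℝ) * Real.log n = ((6 : ℕ) : ℝ) * Real.log n by norm_num, Real.exp_nat_mul,
        Real.exp_log h.n_pos']
    rw [h2, one_div, ← Real.exp_neg, ← Real.exp_nat_mul]
    congr 1
    ring
  rw [h1]
  exact Real.exp_le_exp.2 (by linarith)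

/-- for union bounds over `k` objects, `6 log n (k + 1) ≤ x` follows from `l (k + 1) ≤ 10 x` -/
lemma exp_le' (h : Big n l) {k : ℕ} {x : ℝ} (hx : l * k ≤ 10 * x) :
    Real.exp (-x) ≤ (1 / (n : ℝ) ^ 6) ^ k := by
  refine h.exp_le ?_
  have h1 := h.lg_le
  have h2 : (0 : ℝ) ≤ k := Nat.cast_nonneg _
  have h3 := mul_le_mul_of_nonneg_right h1 h2
  have h4 : 0 ≤ Real.log n * k := mul_nonneg (by have := h.log_n_ge; linarith) h2
  linarith

lemma inv_n_le (h : Big n l) : 1 / (n : ℝ) ≤ 1 / l :=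
  one_div_le_one_div_of_le h.pos h.l_le_n

end Big

open Filter Topology

/-- the scale is eventually large -/
lemma big_eventually : ∀ᶠ n : ℕ in atTop, Big n ((n : ℝ) ^ (1 / 10000 : ℝ)) := by
  have hlog : Tendsto (fun n : ℕ => Real.log (n : ℝ)) atTop atTop :=
    Real.tendsto_log_atTop.comp tendsto_natCast_atTop_atTop
  have h1 : ∀ᶠ L : ℝ in atTop, (10 : ℝ) ^ 9 ≤ Real.exp (1 / 10000 * L) := by
    filter_upwards [eventually_ge_atTop (10000 * (10 : ℝ) ^ 9)] with L hL
    have := Real.add_one_le_exp (1 / 10000 * L)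
    linarith
  have h2 : ∀ᶠ L : ℝ in atTop, (100 * L) ^ 5000 ≤ Real.exp (1 / 10000 * L) := by
    have h := (isLittleO_pow_exp_pos_mul_atTop (k := 5000) (b := 1 / 10000) (by norm_num)).bound
      (show (0 : ℝ) < 1 / 100 ^ 5000 by positivity)
    filter_upwards [h, eventually_ge_atTop 0] with L h1 h2
    rw [Real.norm_of_nonneg (by positivity), Real.norm_of_nonneg (Real.exp_pos _).le] at h1
    rw [mul_pow]
    have h3 : (0 : ℝ) < 100 ^ 5000 := by positivity
    rw [one_div, ← div_eq_inv_mul, le_div_iff₀ h3] at h1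
    linarith
  filter_upwards [hlog.eventually (h1.and h2), eventually_gt_atTop 0] with n h hn
  have hn' : (0 : ℝ) < n := by exact_mod_cast hn
  have e : (n : ℝ) ^ (1 / 10000 : ℝ) = Real.exp (1 / 10000 * Real.log n) := by
    rw [Real.rpow_def_of_pos hn']
    congr 1
    ring
  refine ⟨?_, ?_, ?_⟩
  · rw [← Real.rpow_natCast, ← Real.rpow_mul hn'.le]
    norm_num
  · rw [e]; exact h.1
  · rw [e]; exact h.2

/-- the scale is eventually large compared with a constant -/
lemma scale_tendsto : Tendsto (fun n : ℕ => (n : ℝ) ^ (1 / 10000 : ℝ)) atTop atTop :=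
  (tendsto_rpow_atTop (by norm_num)).comp tendsto_natCast_atTop_atTop

end Pool.Agent.CFX
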