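import Pool.Agent.CFX.ST

/-! CD: codegrees -/

namespace Pool.Agent.CFX

open Finset Pool.Agent.MD437 Pool.Agent.CFC

variable {n m : ℕ} {p l : ℝ}

private lemma cd_pair (p : ℝ) {x y : Fin n} (hxy : x ≠ y) :
    pr p ({x, y} : Finset (Fin n)) (fun T => T = {x, y}) = p ^ 2 := by
  classical
  rw [pr_def]
  unfold ex
  rw [Finset.sum_eq_single ({x, y} : Finset (Fin n))]
  · beta_reduce
    rw [if_pos rfl, Finset.card_pair hxy]
    simp
  · intro b _ hb
    beta_reduce
    rw [if_neg hb, mul_zero]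
  · intro h
    exact absurd (Finset.mem_powerset_self _) h

/-- Codegrees. For fixed `x ≠ y`: `star_upper` with `W = {x, y}`, `Z = Wᶜ`,
`Q z T := T = {x, y}` of probability `p²`, `k = l (1 + n p²)`. Union bound over `n²` pairs. -/
theorem cod_prob (hB : Big n l) (hp0 : 0 ≤ p) (hp1 : p ≤ 1) :
    pr p (E n) (fun S => ¬ CodOK (l * (1 + n * p ^ 2)) S) ≤ 1 / (n : ℝ) ^ 5 := by
  classical
  set k : ℝ := l * (1 + n * p ^ 2) with hk
  have hn := hB.n_pos'
  -- the single pair bound
  have hpair : ∀ q : Fin n × Fin n, pr p (E n)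
      (fun S => q.1 ≠ q.2 ∧ k ≤ ((nb S q.1 ∩ nb S q.2).card : ℝ)) ≤ Real.exp (-l) := by
    rintro ⟨x, y⟩
    simp only
    by_cases hxy : x = y
    · have : pr p (E n) (fun S => x ≠ y ∧ k ≤ ((nb S x ∩ nb S y).card : ℝ)) ≤
          pr p (E n) (fun _ => False) := pr_mono hp0 hp1 fun S _ h => h.1 hxy
      refine this.trans ?_
      rw [pr_def]
      simp only [if_false]
      rw [ex_const]
      exact (Real.exp_pos _).le
    · have h1 := star_upper hp0 hp1 (E n) ({x, y} : Finset (Fin n)) ({x, y} : Finset (Fin n))ᶜ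
        disjoint_compl_right (fun z hz w hw => by
          rw [mk_mem_E]
          rintro rfl
          exact (Finset.mem_compl.1 hz) hw) (fun _ T => T = {x, y}) k
      refine (pr_mono hp0 hp1 ?_).trans (h1.trans ?_)
      · rintro S _ ⟨_, hS⟩
        refine hS.trans ?_
        have : nb S x ∩ nb S y ⊆ (({x, y} : Finset (Fin n))ᶜ).filter (fun z =>
            (({x, y} : Finset (Fin n)).filter (fun y' => s(z, y') ∈ S)) = {x, y}) := by
          intro z hz
          rw [Finset.mem_inter, mem_nb, mem_nb] at hz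
          obtain ⟨⟨hxz, hxS⟩, ⟨hyz, hyS⟩⟩ := hz
          rw [Finset.mem_filter, Finset.mem_compl]
          refine ⟨?_, ?_⟩
          · simp only [Finset.mem_insert, Finset.mem_singleton, not_or]
            exact ⟨fun h => hxz h.symm, fun h => hyz h.symm⟩
          · refine Finset.filter_true_of_mem ?_
            intro w hw
            simp only [Finset.mem_insert, Finset.mem_singleton] at hw
            rcases hw with rfl | rfl
            · rw [Sym2.eq_swap]; exact hxS
            · rw [Sym2.eq_swap]; exact hyS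
        exact_mod_cast Finset.card_le_card this
      · rw [Real.exp_le_exp, Finset.sum_const, cd_pair p hxy, nsmul_eq_mul]
        have hc : ((({x, y} : Finset (Fin n))ᶜ).card : ℝ) ≤ n := by
          have := Finset.card_le_univ (({x, y} : Finset (Fin n))ᶜ)
          rw [Fintype.card_fin] at this
          exact_mod_cast this
        have hp2 : 0 ≤ p ^ 2 := sq_nonneg p
        have hnp : 0 ≤ (n : ℝ) * p ^ 2 := mul_nonneg hn.le hp2
        have h3 : ((({x, y} : Finset (Fin n))ᶜ).card : ℝ) * p ^ 2 ≤ n * p ^ 2 :=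
          mul_le_mul_of_nonneg_right hc hp2
        have hl2 : 2 ≤ l := le_trans (by norm_num) hB.big
        have h4 : 2 * (n * p ^ 2) ≤ l * (n * p ^ 2) := mul_le_mul_of_nonneg_right hl2 hnp
        rw [hk]
        nlinarith
  have hsub : pr p (E n) (fun S => ¬ CodOK k S) ≤
      pr p (E n) (fun S => ∃ q ∈ (univ : Finset (Fin n × Fin n)),
        q.1 ≠ q.2 ∧ k ≤ ((nb S q.1 ∩ nb S q.2).card : ℝ)) := by
    refine pr_mono hp0 hp1 fun S _ h => ?_
    unfold CodOK at h
    push Not at h
    obtain ⟨x, y, hxy, hc⟩ := h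
    exact ⟨(x, y), Finset.mem_univ _, hxy, hc.le⟩
  refine hsub.trans ((pr_union hp0 hp1 (E n) univ _).trans ?_)
  refine (Finset.sum_le_sum fun q _ => hpair q).trans ?_
  rw [Finset.sum_const, nsmul_eq_mul]
  have hcard : ((univ : Finset (Fin n × Fin n)).card : ℝ) = (n : ℝ) ^ 2 := by
    rw [Finset.card_univ, Fintype.card_prod, Fintype.card_fin]
    push_cast
    ring
  rw [hcard]
  have he := hB.exp_le (k := 2) (x := l) (by
    have h1 := hB.lg_le
    have h2 := hB.log_n_ge
    push_cast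
    linarith)
  have h6 : (1 / (n : ℝ) ^ 6) ^ 2 = 1 / (n : ℝ) ^ 12 := by
    rw [one_div, one_div, inv_pow, ← pow_mul]
  rw [h6] at he
  have h7 : (1 : ℝ) / (n : ℝ) ^ 12 ≤ 1 / (n : ℝ) ^ 7 := by
    apply one_div_le_one_div_of_le (pow_pos hn 7)
    exact pow_le_pow_right₀ (le_trans (by norm_num) hB.big_n) (by norm_num)
  calc (n : ℝ) ^ 2 * Real.exp (-l) ≤ (n : ℝ) ^ 2 * (1 / (n : ℝ) ^ 7) :=
        mul_le_mul_of_nonneg_left (he.trans h7) (by positivity)
    _ = 1 / (n : ℝ) ^ 5 := by
        field_simp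

end Pool.Agent.CFX
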