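import Pool.Agent.CFX.Props

/-! CO: exposing the edges which touch a set `W`, and an upper tail bound -/

namespace Pool.Agent.CFX

open Finset Pool.Agent.MD437 Pool.Agent.CFC

variable {n : ℕ}

/-- Condition on the edges which touch `W` (`ex_union` of `MD437/Base.lean` with
`E n = EW W ∪ (E n \ EW W)`). -/
lemma pr_cond {p : ℝ} (hp0 : 0 ≤ p) (hp1 : p ≤ 1) (W : Finset (Fin n))
    (Q : Finset (Sym2 (Fin n)) → Finset (Sym2 (Fin n)) → Prop) (δ : ℝ)
    (h : ∀ S₁ ⊆ EW W, pr p (E n \ EW W) (fun T => Q S₁ T) ≤ δ) :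
    pr p (E n) (fun S => Q (S ∩ EW W) (S \ EW W)) ≤ δ := by
  classical
  have hsub : EW W ⊆ E n := filter_subset _ _
  have hE : E n = EW W ∪ (E n \ EW W) := by rw [union_sdiff_of_subset hsub]
  have hu := ex_union p (disjoint_sdiff (s := EW W) (t := E n))
    (fun S => if Q (S ∩ EW W) (S \ EW W) then (1 : ℝ) else 0)
  rw [← hE] at hu
  rw [pr_def, hu]
  have h1 : ex p (EW W) (fun S => ex p (E n \ EW W) (fun T =>
      if Q ((S ∪ T) ∩ EW W) ((S ∪ T) \ EW W) then (1 : ℝ) else 0)) ≤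
      ex p (EW W) (fun _ => δ) := by
    refine ex_mono hp0 hp1 fun S hS => ?_
    refine le_trans (le_of_eq ?_) (h S hS)
    rw [pr_def]
    refine ex_congr p fun T hT => ?_
    have hTW : Disjoint T (EW W) := disjoint_of_subset_left hT sdiff_disjoint
    have e1 : (S ∪ T) ∩ EW W = S := by
      rw [union_inter_distrib_right, inter_eq_left.2 hS, disjoint_iff_inter_eq_empty.1 hTW,
        union_empty]
    have e2 : (S ∪ T) \ EW W = T := by
      rw [union_sdiff_distrib, sdiff_eq_empty_iff_subset.2 hS, empty_union,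
        sdiff_eq_self_of_disjoint hTW]
    rw [e1, e2]
  rw [ex_const] at h1
  exact h1

private lemma co_exp_le {y : ℝ} (h0 : 0 ≤ y) (h1 : y ≤ 1) : Real.exp y - 1 ≤ 7 / 4 * y := by
  have h := convexOn_exp.2 (Set.mem_univ (0 : ℝ)) (Set.mem_univ (1 : ℝ))
    (show 0 ≤ 1 - y by linarith) h0 (by ring)
  simp only [smul_eq_mul, mul_zero, mul_one, zero_add, Real.exp_zero] at h
  have h2 := Real.exp_one_lt_d9
  have h3 : y * Real.exp 1 ≤ y * 2.7182818286 := mul_le_mul_of_nonneg_left h2.le h0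
  linarith

private lemma co_mgf {ι : Type*} [DecidableEq ι] {p : ℝ} (hp0 : 0 ≤ p) (hp1 : p ≤ 1)
    (A : Finset ι) (y : ι → ℝ) (h0 : ∀ e ∈ A, 0 ≤ y e) (h1 : ∀ e ∈ A, y e ≤ 1) :
    ex p A (fun S => Real.exp (∑ e ∈ S, y e)) ≤ Real.exp (7 / 4 * (p * ∑ e ∈ A, y e)) := by
  induction A using Finset.induction_on with
  | empty => simp [ex_empty]
  | insert a A ha ih =>
    have ih' := ih (fun e he => h0 e (mem_insert_of_mem he))
      (fun e he => h1 e (mem_insert_of_mem he))
    rw [ex_insert p ha]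
    have h2 : ex p A (fun S => Real.exp (∑ e ∈ insert a S, y e)) =
        Real.exp (y a) * ex p A (fun S => Real.exp (∑ e ∈ S, y e)) := by
      rw [← ex_mul_left]
      refine ex_congr p fun S hS => ?_
      rw [sum_insert (fun h => ha (hS h)), Real.exp_add]
    rw [h2, sum_insert ha]
    have h3 := co_exp_le (h0 a (mem_insert_self a A)) (h1 a (mem_insert_self a A))
    have h4 : 1 + p * (Real.exp (y a) - 1) ≤ Real.exp (7 / 4 * (p * y a)) := by
      have h5 := Real.add_one_le_exp (7 / 4 * (p * y a))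
      have h6 := mul_le_mul_of_nonneg_left h3 hp0
      linarith
    have hE0 : 0 ≤ ex p A (fun S => Real.exp (∑ e ∈ S, y e)) :=
      ex_nonneg hp0 hp1 fun S _ => (Real.exp_pos _).le
    calc (1 - p) * ex p A (fun S => Real.exp (∑ e ∈ S, y e)) +
          p * (Real.exp (y a) * ex p A (fun S => Real.exp (∑ e ∈ S, y e)))
        = (1 + p * (Real.exp (y a) - 1)) * ex p A (fun S => Real.exp (∑ e ∈ S, y e)) := by ring
      _ ≤ Real.exp (7 / 4 * (p * y a)) * Real.exp (7 / 4 * (p * ∑ e ∈ A, y e)) :=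
          mul_le_mul h4 ih' hE0 (Real.exp_pos _).le
      _ = Real.exp (7 / 4 * (p * (y a + ∑ e ∈ A, y e))) := by
          rw [← Real.exp_add]
          congr 1
          ring

private lemma co_sum_ordered (C : Fin n → Fin n → ℝ) (T : Finset (Sym2 (Fin n)))
    (hT : T ⊆ E n) :
    ∑ v, ∑ w ∈ nb T v, C v w =
      ∑ e ∈ T, Sym2.lift ⟨fun v w => C v w + C w v, fun v w => by ring⟩ e := by
  classical
  have e1 : ∑ v, ∑ w ∈ nb T v, C v w =
      ∑ q ∈ (univ : Finset (Fin n × Fin n)).filter (fun q => ad T q.1 q.2), C q.1 q.2 := by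
    rw [sum_filter, ← univ_product_univ, sum_product]
    refine sum_congr rfl fun v _ => ?_
    unfold nb
    rw [sum_filter]
  rw [e1]
  have hmaps : ∀ q ∈ (univ : Finset (Fin n × Fin n)).filter (fun q => ad T q.1 q.2),
      s(q.1, q.2) ∈ T := by
    intro q hq
    exact (mem_filter.1 hq).2.2
  rw [← sum_fiberwise_of_maps_to hmaps]
  refine sum_congr rfl fun e he => ?_
  induction e using Sym2.inductionOn with
  | hf a b =>
    have hab : a ≠ b := mk_mem_E.1 (hT he)
    have h2 : ((univ : Finset (Fin n × Fin n)).filter (fun q => ad T q.1 q.2)).filter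
        (fun q => s(q.1, q.2) = s(a, b)) = {(a, b), (b, a)} := by
      ext q
      rw [mem_filter, mem_filter, mem_insert, mem_singleton]
      constructor
      · rintro ⟨_, h⟩
        rcases Sym2.eq_iff.1 h with ⟨h1, h2⟩ | ⟨h1, h2⟩
        · left; exact Prod.ext h1 h2
        · right; exact Prod.ext h1 h2
      · rintro (rfl | rfl)
        · exact ⟨⟨mem_univ _, hab, he⟩, rfl⟩
        · exact ⟨⟨mem_univ _, hab.symm, by rw [Sym2.eq_swap]; exact he⟩, Sym2.eq_swap⟩
    rw [h2, sum_pair]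
    · rfl
    · intro h
      exact hab (congrArg Prod.fst h)

/-- Weighted sums over the present edges which do not touch `W`, with weights `c S v w ∈ [0, h]`
which depend only on the edges which touch `W`. The sum is over ordered pairs. If `p` times the
total weight is at most `μ`, the probability that the sum over the ordered pairs of adjacent
vertices is at least `x` is at most `exp ((7 μ / 4 - x) / (2 h))`.
Proof: condition on `S₁ = S ∩ EW W`; then the sum is `∑_{e ∈ T} c_e` with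
`c_e = c v w + c w v ≤ 2 h`, and `E exp (∑_{e ∈ T} c_e / (2 h)) = ∏ (1 + p (exp (c_e/(2h)) - 1))
≤ exp ((7/4) p ∑ c_e / (2 h))` because `exp y - 1 ≤ (e - 1) y ≤ (7/4) y` for `0 ≤ y ≤ 1`. -/
lemma pair_sum_tail {p : ℝ} (hp0 : 0 ≤ p) (hp1 : p ≤ 1) (W : Finset (Fin n))
    (c : Finset (Sym2 (Fin n)) → Fin n → Fin n → ℝ) {h μ x : ℝ} (hh : 0 < h)
    (hloc : ∀ S, c S = c (S ∩ EW W)) (h0 : ∀ S v w, 0 ≤ c S v w) (h1 : ∀ S v w, c S v w ≤ h)
    (hW : ∀ S v w, v ∈ W ∨ w ∈ W → c S v w = 0) :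
    pr p (E n) (fun S => p * ∑ v, ∑ w, c S v w ≤ μ ∧ x ≤ ∑ v, ∑ w ∈ nb S v, c S v w)
      ≤ Real.exp ((7 / 4 * μ - x) / (2 * h)) := by
  classical
  have hstep : pr p (E n) (fun S => p * ∑ v, ∑ w, c S v w ≤ μ ∧
      x ≤ ∑ v, ∑ w ∈ nb S v, c S v w) ≤
      pr p (E n) (fun S => (fun S₁ T => p * ∑ v, ∑ w, c S₁ v w ≤ μ ∧
        x ≤ ∑ v, ∑ w ∈ nb T v, c S₁ v w) (S ∩ EW W) (S \ EW W)) := by
    refine pr_mono hp0 hp1 fun S _ hS => ?_
    obtain ⟨g1, g2⟩ := hS
    rw [hloc S] at g1 g2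
    refine ⟨g1, g2.trans (le_of_eq ?_)⟩
    refine sum_congr rfl fun v _ => ?_
    symm
    refine sum_subset ?_ ?_
    · intro w hw
      rw [mem_nb] at hw ⊢
      exact ad_mono sdiff_subset hw
    · intro w hw hw2
      rw [mem_nb] at hw hw2
      have hvw : s(v, w) ∈ EW W := by
        by_contra hcon
        exact hw2 ⟨hw.1, mem_sdiff.2 ⟨hw.2, hcon⟩⟩
      exact hW _ v w (mk_mem_EW.1 hvw).2
  refine hstep.trans (pr_cond hp0 hp1 W (fun S₁ T => p * ∑ v, ∑ w, c S₁ v w ≤ μ ∧
        x ≤ ∑ v, ∑ w ∈ nb T v, c S₁ v w) _ fun S₁ _ => ?_)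
  set C := c S₁ with hC
  by_cases hμ : p * ∑ v, ∑ w, C v w ≤ μ
  swap
  · refine le_trans (pr_mono hp0 hp1 (R := fun _ => False) fun T _ hT => hμ hT.1) ?_
    have : pr p (E n \ EW W) (fun _ => False) = 0 := by
      unfold pr ex
      simp
    rw [this]
    exact (Real.exp_pos _).le
  set Ce : Sym2 (Fin n) → ℝ := Sym2.lift ⟨fun v w => C v w + C w v, fun v w => by ring⟩ with hCe
  have hCe0 : ∀ e, 0 ≤ Ce e := by
    intro e
    induction e using Sym2.inductionOn with
    | hf a b =>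
      have := h0 S₁ a b
      have := h0 S₁ b a
      show 0 ≤ C a b + C b a
      linarith
  have hCe1 : ∀ e, Ce e ≤ 2 * h := by
    intro e
    induction e using Sym2.inductionOn with
    | hf a b =>
      have := h1 S₁ a b
      have := h1 S₁ b a
      show C a b + C b a ≤ 2 * h
      linarith
  have h2h : 0 < 2 * h := by linarith
  have hA : E n \ EW W ⊆ E n := sdiff_subset
  have htot : ∑ e ∈ E n \ EW W, Ce e ≤ ∑ v, ∑ w, C v w := by
    calc ∑ e ∈ E n \ EW W, Ce e ≤ ∑ e ∈ E n, Ce e :=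
          sum_le_sum_of_subset_of_nonneg hA fun e _ _ => hCe0 e
      _ = ∑ v, ∑ w ∈ nb (E n) v, C v w := (co_sum_ordered C (E n) (subset_refl _)).symm
      _ ≤ ∑ v, ∑ w, C v w :=
          sum_le_sum fun v _ => sum_le_sum_of_subset_of_nonneg (subset_univ _)
            fun w _ _ => h0 S₁ v w
  have hmgf := co_mgf hp0 hp1 (E n \ EW W) (fun e => Ce e / (2 * h))
    (fun e _ => div_nonneg (hCe0 e) h2h.le)
    (fun e _ => by rw [div_le_one h2h]; exact hCe1 e)
  have hexp := pr_exp hp0 hp1 (E n \ EW W) (fun T => ∑ e ∈ T, Ce e / (2 * h)) (x / (2 * h))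
  refine le_trans (le_trans (pr_mono hp0 hp1 fun T hT hx => ?_) hexp) ?_
  · have hx2 := hx.2
    rw [co_sum_ordered C T (hT.trans hA)] at hx2
    rw [← sum_div]
    exact div_le_div_of_nonneg_right hx2 h2h.le
  · calc Real.exp (-(x / (2 * h))) *
          ex p (E n \ EW W) (fun T => Real.exp (∑ e ∈ T, Ce e / (2 * h)))
        ≤ Real.exp (-(x / (2 * h))) *
          Real.exp (7 / 4 * (p * ∑ e ∈ E n \ EW W, Ce e / (2 * h))) :=
          mul_le_mul_of_nonneg_left hmgf (Real.exp_pos _).le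
      _ = Real.exp (-(x / (2 * h)) + 7 / 4 * (p * ∑ e ∈ E n \ EW W, Ce e / (2 * h))) := by
          rw [← Real.exp_add]
      _ ≤ Real.exp ((7 / 4 * μ - x) / (2 * h)) := by
          apply Real.exp_le_exp.2
          rw [← sum_div]
          have h3 : p * (∑ e ∈ E n \ EW W, Ce e) ≤ μ :=
            (mul_le_mul_of_nonneg_left htot hp0).trans hμ
          have h4 : -(x / (2 * h)) + 7 / 4 * (p * ((∑ e ∈ E n \ EW W, Ce e) / (2 * h))) =
              (7 / 4 * (p * ∑ e ∈ E n \ EW W, Ce e) - x) / (2 * h) := by ring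
          rw [h4]
          refine div_le_div_of_nonneg_right ?_ h2h.le
          linarith

end Pool.Agent.CFX
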