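import Pool.Agent.CFX.Props

/-! TA: a lower tail bound and a bound for disjoint structures -/

namespace Pool.Agent.CFX

open Finset Pool.Agent.MD437 Pool.Agent.CFC

variable {ι : Type*} [DecidableEq ι]

private lemma TA_half (p : ℝ) (F : Finset ι) :
    ex p F (fun S => (1 / 2 : ℝ) ^ S.card) = (1 - p / 2) ^ F.card := by
  induction F using Finset.induction_on with
  | empty => simp [ex_empty]
  | insert a F ha ih =>
    rw [ex_insert p ha, card_insert_of_notMem ha]
    have h : ex p F (fun S => (1 / 2 : ℝ) ^ (insert a S).card) =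
        1 / 2 * ex p F (fun S => (1 / 2 : ℝ) ^ S.card) := by
      rw [← ex_mul_left]
      refine ex_congr p fun S hS => ?_
      rw [card_insert_of_notMem (fun h => ha (hS h)), pow_succ]
      ring
    rw [h, ih, pow_succ]
    ring

private lemma TA_half' (p : ℝ) (A F : Finset ι) (hF : F ⊆ A) :
    ex p A (fun S => (1 / 2 : ℝ) ^ (S ∩ F).card) = (1 - p / 2) ^ F.card := by
  have hA : A = F ∪ (A \ F) := by rw [union_sdiff_of_subset hF]
  rw [hA, ex_union p disjoint_sdiff, ← TA_half]
  refine ex_congr p fun S hS => ?_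
  have : ex p (A \ F) (fun T => (1 / 2 : ℝ) ^ ((S ∪ T) ∩ F).card) =
      ex p (A \ F) (fun _ => (1 / 2 : ℝ) ^ S.card) := by
    refine ex_congr p fun T hT => ?_
    congr 2
    rw [union_inter_distrib_right, inter_eq_left.2 hS]
    have : T ∩ F = ∅ := by
      rw [← disjoint_iff_inter_eq_empty]
      exact disjoint_of_subset_left hT sdiff_disjoint
    rw [this, union_empty]
  rw [this, ex_const]

/-- Lower tail. Proof: `E 2^(- |S ∩ F|) = (1 - p/2)^|F| ≤ exp (- p |F| / 2)`, and
`log 2 ≤ 7/10`. -/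
lemma count_lower {p : ℝ} (hp0 : 0 ≤ p) (hp1 : p ≤ 1) (A F : Finset ι) (hF : F ⊆ A) (k : ℝ)
    (hk : 0 ≤ k) :
    pr p A (fun S => ((S ∩ F).card : ℝ) ≤ k) ≤ Real.exp (7 / 10 * k - p * F.card / 2) := by
  classical
  have h1 : pr p A (fun S => ((S ∩ F).card : ℝ) ≤ k) ≤
      ex p A (fun S => Real.exp (7 / 10 * k) * (1 / 2 : ℝ) ^ (S ∩ F).card) := by
    rw [pr_def]
    refine ex_mono hp0 hp1 fun S _ => ?_
    by_cases h : ((S ∩ F).card : ℝ) ≤ k
    · rw [if_pos h]
      have h2 : (1 / 2 : ℝ) = Real.exp (- Real.log 2) := by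
        rw [Real.exp_neg, Real.exp_log (by norm_num)]
        norm_num
      rw [h2, ← Real.exp_nat_mul, ← Real.exp_add]
      refine Real.one_le_exp ?_
      have h3 : Real.log 2 ≤ 7 / 10 := by
        have := Real.log_two_lt_d9
        linarith
      have h4 : 0 ≤ Real.log 2 := Real.log_nonneg (by norm_num)
      have h5 : ((S ∩ F).card : ℝ) * Real.log 2 ≤ k * (7 / 10) :=
        mul_le_mul h h3 h4 hk
      linarith
    · rw [if_neg h]
      positivity
  rw [ex_mul_left, TA_half' p A F hF] at h1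
  refine h1.trans ?_
  have h6 : (1 - p / 2) ^ F.card ≤ Real.exp (-(p / 2)) ^ F.card := by
    refine pow_le_pow_left₀ (by linarith) ?_ _
    have := Real.add_one_le_exp (-(p / 2))
    linarith
  rw [← Real.exp_nat_mul] at h6
  have h7 : Real.exp (7 / 10 * k - p * F.card / 2) =
      Real.exp (7 / 10 * k) * Real.exp (F.card * -(p / 2)) := by
    rw [← Real.exp_add]
    congr 1
    ring
  rw [h7]
  exact mul_le_mul_of_nonneg_left h6 (Real.exp_pos _).le

private lemma TA_sub (p : ℝ) (G : Finset ι) :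
    ex p G (fun S => if S = G then (1 : ℝ) else 0) = p ^ G.card := by
  unfold ex
  rw [Finset.sum_eq_single G]
  · simp
  · intro S _ h
    simp [h]
  · intro h
    exact absurd (mem_powerset_self G) h

private lemma TA_pr_sub {p : ℝ} (hp0 : 0 ≤ p) (A G : Finset ι) :
    pr p A (fun S => G ⊆ S) ≤ p ^ G.card := by
  classical
  by_cases hG : G ⊆ A
  · rw [pr_def]
    have hA : A = G ∪ (A \ G) := by rw [union_sdiff_of_subset hG]
    rw [hA, ex_union p disjoint_sdiff, ← TA_sub p G]
    refine le_of_eq (ex_congr p fun S hS => ?_)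
    have : ex p (A \ G) (fun T => if G ⊆ S ∪ T then (1 : ℝ) else 0) =
        ex p (A \ G) (fun _ => if S = G then (1 : ℝ) else 0) := by
      refine ex_congr p fun T hT => ?_
      have : G ⊆ S ∪ T ↔ S = G := by
        constructor
        · intro h
          refine Subset.antisymm hS fun x hx => ?_
          rcases mem_union.1 (h hx) with h1 | h1
          · exact h1
          · exact absurd hx (mem_sdiff.1 (hT h1)).2
        · rintro rfl
          exact subset_union_left
      simp only [this]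
    rw [this, ex_const]
  · have h0 : pr p A (fun S => G ⊆ S) = 0 := by
      rw [pr_def]
      refine (ex_congr p fun S hS => ?_).trans (ex_const p A 0)
      rw [if_neg]
      exact fun h => hG (h.trans hS)
    rw [h0]
    exact pow_nonneg hp0 _

private lemma TA_bern (W w : ℝ) (hW : 0 ≤ W) (hw : 0 ≤ w) (k : ℕ) :
    W ^ (k + 1) + (k + 1) * W ^ k * w ≤ (W + w) ^ (k + 1) := by
  induction k with
  | zero => simp
  | succ k ih =>
    have h1 : (W + w) ^ (k + 1 + 1) = (W + w) * (W + w) ^ (k + 1) := by rw [pow_succ]; ring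
    rw [h1]
    have h2 := mul_le_mul_of_nonneg_left ih (add_nonneg hW hw)
    refine le_trans ?_ h2
    have h3 : 0 ≤ (k + 1) * W ^ k * w ^ 2 := by positivity
    push_cast
    have e : (W + w) * (W ^ (k + 1) + (k + 1) * W ^ k * w) =
        W ^ (k + 1 + 1) + ((k : ℝ) + 1 + 1) * W ^ (k + 1) * w + (k + 1) * W ^ k * w ^ 2 := by
      ring
    rw [e]
    linarith

private lemma TA_esymm {α : Type*} [DecidableEq α] (P : Finset α) (w : α → ℝ)
    (hw : ∀ F, 0 ≤ w F) (k : ℕ) :
    (k.factorial : ℝ) * ∑ R ∈ P.powersetCard k, ∏ F ∈ R, w F ≤ (∑ F ∈ P, w F) ^ k := by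
  induction P using Finset.induction_on generalizing k with
  | empty =>
    cases k with
    | zero => simp
    | succ k =>
      rw [powersetCard_eq_empty.2 (by simp)]
      simp
  | insert a P ha ih =>
    cases k with
    | zero => simp
    | succ k =>
      have hW : 0 ≤ ∑ F ∈ P, w F := Finset.sum_nonneg fun F _ => hw F
      rw [sum_insert ha, powersetCard_succ_insert ha, sum_union, sum_image]
      · have e1 : ∑ R ∈ P.powersetCard k, ∏ F ∈ insert a R, w F =
            w a * ∑ R ∈ P.powersetCard k, ∏ F ∈ R, w F := by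
          rw [mul_sum]
          refine sum_congr rfl fun R hR => ?_
          rw [prod_insert]
          exact fun h => ha ((mem_powersetCard.1 hR).1 h)
        rw [e1]
        have i1 := ih (k + 1)
        have i2 := ih k
        have i3 := TA_bern (∑ F ∈ P, w F) (w a) hW (hw a) k
        have e2 : ((k + 1).factorial : ℝ) * (∑ R ∈ P.powersetCard (k + 1), ∏ F ∈ R, w F +
            w a * ∑ R ∈ P.powersetCard k, ∏ F ∈ R, w F) =
            ((k + 1).factorial : ℝ) * ∑ R ∈ P.powersetCard (k + 1), ∏ F ∈ R, w F +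
            (k + 1) * w a * ((k.factorial : ℝ) * ∑ R ∈ P.powersetCard k, ∏ F ∈ R, w F) := by
          rw [Nat.factorial_succ]
          push_cast
          ring
        rw [Nat.succ_eq_add_one, e2]
        have i4 : (k + 1) * w a * ((k.factorial : ℝ) * ∑ R ∈ P.powersetCard k, ∏ F ∈ R, w F) ≤
            (k + 1) * w a * (∑ F ∈ P, w F) ^ k :=
          mul_le_mul_of_nonneg_left i2 (mul_nonneg (by positivity) (hw a))
        have e3 : w a + ∑ F ∈ P, w F = ∑ F ∈ P, w F + w a := add_comm _ _
        rw [e3]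
        refine le_trans (add_le_add i1 i4) (le_trans (le_of_eq ?_) i3)
        ring
      · intro R hR R' hR' h
        have h1 : a ∉ R := fun h => ha ((mem_powersetCard.1 (mem_coe.1 hR)).1 h)
        have h2 : a ∉ R' := fun h => ha ((mem_powersetCard.1 (mem_coe.1 hR')).1 h)
        rw [← erase_insert h1, ← erase_insert h2]
        exact congrArg (fun s => s.erase a) h
      · rw [disjoint_left]
        intro R hR hR'
        obtain ⟨R', -, rfl⟩ := mem_image.1 hR'
        exact ha ((mem_powersetCard.1 hR).1 (mem_insert_self a R'))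

/-- The expected number of `k`-tuples of disjoint members of the family `P` which are contained in
the random set. Proof: union bound over the sets `R ⊆ P` with `R.card = k` and pairwise disjoint
members, for which the probability is at most `∏_{F ∈ R} p ^ F.card`; then
`k! ∑_{R ⊆ P, R.card = k} ∏_{F ∈ R} w F ≤ (∑_{F ∈ P} w F) ^ k` for weights `w ≥ 0`. -/
lemma disjoint_tail {p : ℝ} (hp0 : 0 ≤ p) (hp1 : p ≤ 1) (A : Finset ι) (P : Finset (Finset ι))
    (k : ℕ) :
    pr p A (fun S => ∃ R ⊆ P, R.card = k ∧ (∀ F ∈ R, ∀ F' ∈ R, F ≠ F' → Disjoint F F') ∧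
      ∀ F ∈ R, F ⊆ S) ≤ (∑ F ∈ P, p ^ F.card) ^ k / k.factorial := by
  classical
  have h1 : pr p A (fun S => ∃ R ⊆ P, R.card = k ∧
      (∀ F ∈ R, ∀ F' ∈ R, F ≠ F' → Disjoint F F') ∧ ∀ F ∈ R, F ⊆ S) ≤
      pr p A (fun S => ∃ R ∈ P.powersetCard k,
        (∀ F ∈ R, ∀ F' ∈ R, F ≠ F' → Disjoint F F') ∧ ∀ F ∈ R, F ⊆ S) := by
    refine pr_mono hp0 hp1 fun S _ h => ?_
    obtain ⟨R, hR, h2, h3, h4⟩ := h
    exact ⟨R, mem_powersetCard.2 ⟨hR, h2⟩, h3, h4⟩
  refine h1.trans ((pr_union hp0 hp1 A _ _).trans ?_)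
  have h5 : ∀ R ∈ P.powersetCard k, pr p A (fun S =>
      (∀ F ∈ R, ∀ F' ∈ R, F ≠ F' → Disjoint F F') ∧ ∀ F ∈ R, F ⊆ S) ≤
      ∏ F ∈ R, p ^ F.card := by
    intro R _
    by_cases hd : ∀ F ∈ R, ∀ F' ∈ R, F ≠ F' → Disjoint F F'
    · have h6 : pr p A (fun S => (∀ F ∈ R, ∀ F' ∈ R, F ≠ F' → Disjoint F F') ∧
          ∀ F ∈ R, F ⊆ S) ≤ pr p A (fun S => R.biUnion (fun F => F) ⊆ S) := by
        refine pr_mono hp0 hp1 fun S _ h => ?_
        rw [biUnion_subset]
        exact h.2
      refine h6.trans ((TA_pr_sub hp0 A _).trans (le_of_eq ?_))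
      rw [card_biUnion (fun F hF F' hF' hne => hd F hF F' hF' hne), prod_pow_eq_pow_sum]
    · have h6 : pr p A (fun S => (∀ F ∈ R, ∀ F' ∈ R, F ≠ F' → Disjoint F F') ∧
          ∀ F ∈ R, F ⊆ S) = 0 := by
        rw [pr_def]
        refine (ex_congr p fun S hS => ?_).trans (ex_const p A 0)
        rw [if_neg]
        exact fun h => hd h.1
      rw [h6]
      exact prod_nonneg fun F _ => pow_nonneg hp0 _
  refine (sum_le_sum h5).trans ?_
  have hk : (0 : ℝ) < k.factorial := by exact_mod_cast k.factorial_pos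
  rw [le_div_iff₀ hk, mul_comm]
  exact TA_esymm P (fun F => p ^ F.card) (fun F => pow_nonneg hp0 _) k

end Pool.Agent.CFX
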