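import Pool.Agent.CFX.CO
import Pool.Agent.CFX.TA

/-! DG: degrees -/

namespace Pool.Agent.CFX

open Finset Pool.Agent.MD437 Pool.Agent.CFC

variable {n m : ℕ} {p l : ℝ}

/-- Degrees. Lower tail: `count_lower` with `F` the `n - 1` edges at `x`, `k = d / 2`. Upper tail:
`pair_sum_tail` with `W = ∅`, `c S v w = if v = x then 1 else 0`, `h = 1`, `μ = n p`, `x = 2 n p`
(or `star_upper`-like arguments). Union bound over `n` vertices; `n p ≥ l ^ 222`. -/
theorem deg_prob (hB : Big n l) (hp0 : 0 ≤ p) (hp1 : p ≤ 1) (h1 : l ^ 222 ≤ n * p) :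
    pr p (E n) (fun S => ¬ DegOK (n * p) S) ≤ 1 / (n : ℝ) ^ 5 := by
  classical
  have hn := hB.n_pos'
  have hl0 := hB.pos
  have hd0 : 0 < (n : ℝ) * p := lt_of_lt_of_le (hB.pow_pos' _) h1
  set d := (n : ℝ) * p with hd
  have hbig : 1000 * (100 * Real.log n) ≤ d := by
    have h2 := hB.lg_le
    have h3 : 1000 * l ^ 1 ≤ l ^ 222 := hB.mul_pow_le (by norm_num) (by norm_num)
    rw [pow_one] at h3
    linarith
  have hlog := hB.log_n_ge
  have hexp : ∀ y : ℝ, d / 10 ≤ y → Real.exp (-y) ≤ (1 / (n : ℝ) ^ 6) ^ 2 := by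
    intro y hy
    refine hB.exp_le ?_
    push_cast
    linarith
  have hx : ∀ x : Fin n, pr p (E n) (fun S => ¬ (d / 2 ≤ ((nb S x).card : ℝ) ∧
      ((nb S x).card : ℝ) ≤ 2 * d)) ≤ 2 * (1 / (n : ℝ) ^ 6) ^ 2 := by
    intro x
    have hlow : pr p (E n) (fun S => ((nb S x).card : ℝ) ≤ d / 2) ≤ (1 / (n : ℝ) ^ 6) ^ 2 := by
      set F : Finset (Sym2 (Fin n)) := (univ.erase x).image (fun y => s(x, y)) with hF
      have hFE : F ⊆ E n := by
        intro e he
        obtain ⟨y, hy, rfl⟩ := mem_image.1 he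
        rw [mk_mem_E]
        exact (mem_erase.1 hy).1.symm
      have hFc : F.card = n - 1 := by
        rw [hF, card_image_of_injective, card_erase_of_mem (mem_univ _), card_univ,
          Fintype.card_fin]
        intro a b hab
        exact Sym2.congr_right.1 hab
      have h2 := count_lower hp0 hp1 (E n) F hFE (d / 2) (by positivity)
      refine le_trans (le_trans (pr_mono hp0 hp1 fun S _ h => ?_) h2) ?_
      · refine le_trans ?_ h
        have : (S ∩ F).card ≤ (nb S x).card := by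
          have h3 : S ∩ F ⊆ (nb S x).image (fun y => s(x, y)) := by
            intro e he
            rw [mem_inter] at he
            obtain ⟨y, hy, rfl⟩ := mem_image.1 he.2
            exact mem_image.2 ⟨y, mem_nb.2 ⟨(mem_erase.1 hy).1.symm, he.1⟩, rfl⟩
          exact (card_le_card h3).trans card_image_le
        exact_mod_cast this
      · have h3 : 7 / 10 * (d / 2) - p * F.card / 2 ≤ -(d / 10) := by
          have h4 : (F.card : ℝ) = n - 1 := by
            rw [hFc, Nat.cast_sub hB.n_pos]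
            simp
          rw [h4]
          have : p * ((n : ℝ) - 1) = d - p := by rw [hd]; ring
          rw [this]
          linarith
        exact (Real.exp_le_exp.2 h3).trans (hexp _ le_rfl)
    have hup : pr p (E n) (fun S => 2 * d ≤ ((nb S x).card : ℝ)) ≤ (1 / (n : ℝ) ^ 6) ^ 2 := by
      have h2 := pair_sum_tail hp0 hp1 (∅ : Finset (Fin n))
        (fun _ v _ => if v = x then (1 : ℝ) else 0) (h := 1) (μ := d) (x := 2 * d) one_pos
        (by intro S; rfl)
        (by intro S v w; split_ifs <;> norm_num)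
        (by intro S v w; split_ifs <;> norm_num)
        (by
          intro S v w h
          simp at h)
      refine le_trans (le_trans (pr_mono hp0 hp1 fun S _ h => ?_) h2) ?_
      · have e1 : ∑ v : Fin n, ∑ _w : Fin n, (if v = x then (1 : ℝ) else 0) = n := by
          simp
        have e2 : ∑ v : Fin n, ∑ _w ∈ nb S v, (if v = x then (1 : ℝ) else 0) =
            ((nb S x).card : ℝ) := by
          have : ∀ v : Fin n, ∑ _w ∈ nb S v, (if v = x then (1 : ℝ) else 0) =
              if v = x then ((nb S v).card : ℝ) else 0 := by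
            intro v
            by_cases hv : v = x
            · simp [hv]
            · simp [hv]
          rw [sum_congr rfl fun v _ => this v]
          simp
        rw [e1, e2]
        refine ⟨?_, h⟩
        rw [hd]
        linarith
      · have h3 : (7 / 4 * d - 2 * d) / (2 * 1) ≤ -(d / 10) := by linarith
        exact (Real.exp_le_exp.2 h3).trans (hexp _ le_rfl)
    have h3 := pr_or hp0 hp1 (E n) (fun S => ((nb S x).card : ℝ) ≤ d / 2)
      (fun S => 2 * d ≤ ((nb S x).card : ℝ))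
    have h4 : pr p (E n) (fun S => ¬ (d / 2 ≤ ((nb S x).card : ℝ) ∧
        ((nb S x).card : ℝ) ≤ 2 * d)) ≤
        pr p (E n) (fun S => ((nb S x).card : ℝ) ≤ d / 2 ∨ 2 * d ≤ ((nb S x).card : ℝ)) := by
      refine pr_mono hp0 hp1 fun S _ h => ?_
      by_contra hcon
      push Not at hcon
      exact h ⟨hcon.1.le, hcon.2.le⟩
    linarith
  have hun := pr_union hp0 hp1 (E n) (univ : Finset (Fin n))
    (fun x S => ¬ (d / 2 ≤ ((nb S x).card : ℝ) ∧ ((nb S x).card : ℝ) ≤ 2 * d))
  have h2 : pr p (E n) (fun S => ¬ DegOK d S) ≤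
      pr p (E n) (fun S => ∃ x ∈ (univ : Finset (Fin n)),
        ¬ (d / 2 ≤ ((nb S x).card : ℝ) ∧ ((nb S x).card : ℝ) ≤ 2 * d)) := by
    refine pr_mono hp0 hp1 fun S _ h => ?_
    unfold DegOK at h
    push Not at h
    obtain ⟨x, hx⟩ := h
    exact ⟨x, mem_univ _, fun hcon => absurd hcon.2 (not_le.2 (hx hcon.1))⟩
  refine h2.trans (hun.trans ((sum_le_sum fun x _ => hx x).trans ?_))
  rw [sum_const, card_univ, Fintype.card_fin, nsmul_eq_mul]
  have hn2 : (2 : ℝ) ≤ n := by
    have := hB.big_n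
    linarith
  have e : (n : ℝ) * (2 * (1 / (n : ℝ) ^ 6) ^ 2) = (2 / (n : ℝ) ^ 6) * (1 / (n : ℝ) ^ 5) := by
    field_simp
  rw [e]
  have h5 : 2 / (n : ℝ) ^ 6 ≤ 1 := by
    rw [div_le_one (by positivity)]
    calc (2 : ℝ) ≤ n := hn2
      _ = (n : ℝ) ^ 1 := (pow_one _).symm
      _ ≤ (n : ℝ) ^ 6 := pow_le_pow_right₀ (by linarith) (by norm_num)
  have h6 : 0 ≤ 1 / (n : ℝ) ^ 5 := by positivity
  calc (2 / (n : ℝ) ^ 6) * (1 / (n : ℝ) ^ 5) ≤ 1 * (1 / (n : ℝ) ^ 5) :=
        mul_le_mul_of_nonneg_right h5 h6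
    _ = _ := one_mul _

end Pool.Agent.CFX
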