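import Pool.Agent.CFX.Props

/-! UN: union bounds over sets of vertices and systems of classes -/

namespace Pool.Agent.CFX

open Finset Pool.Agent.MD437 Pool.Agent.CFC

variable {n m : ℕ}

private lemma UN_exp {n : ℕ} {y : ℝ} (hn : 2 ≤ n) (hy : y ≤ 1 / 2) :
    1 / (n : ℝ) ^ 6 * Real.exp y ≤ 1 / (n : ℝ) ^ 5 := by
  have hn' : (2 : ℝ) ≤ n := by exact_mod_cast hn
  have h1 : Real.exp y ≤ 2 := by
    have h2 : Real.exp y ≤ Real.exp (1 / 2) := Real.exp_le_exp.2 hy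
    have h3 : Real.exp (1 / 2) ≤ 2 := by
      have h4 : Real.exp (1 / 2) ^ 2 = Real.exp 1 := by
        rw [← Real.exp_nat_mul]
        norm_num
      have h5 := Real.exp_one_lt_d9
      have h6 := Real.exp_pos (1 / 2)
      nlinarith
    linarith
  have h2 : 1 / (n : ℝ) ^ 6 * Real.exp y ≤ 1 / (n : ℝ) ^ 6 * n :=
    mul_le_mul_of_nonneg_left (by linarith) (by positivity)
  refine h2.trans (le_of_eq ?_)
  have h3 : (n : ℝ) ≠ 0 := by linarith
  field_simp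

private lemma UN_sum {n : ℕ} (x : ℝ) : ∑ A : Finset (Fin n), x ^ A.card = (1 + x) ^ n := by
  have := Fintype.sum_pow_mul_eq_add_pow (Fin n) x 1
  simp only [one_pow, mul_one, Fintype.card_fin] at this
  rw [this, add_comm]

/-- Union bound over three sets of vertices. Proof: `∑_{A,B,C} x^(|A|+|B|+|C|+1) = x (1+x)^(3n)`
(`Finset.prod_one_add` / `Finset.sum_pow_mul_eq_add_pow`), `x = n^(-6)`. -/
lemma union3 {p : ℝ} (hp0 : 0 ≤ p) (hp1 : p ≤ 1) (hn : 2 ≤ n)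
    (Q : Finset (Fin n) → Finset (Fin n) → Finset (Fin n) → Finset (Sym2 (Fin n)) → Prop)
    (h : ∀ A B C, pr p (E n) (Q A B C) ≤ (1 / (n : ℝ) ^ 6) ^ (A.card + B.card + C.card + 1)) :
    pr p (E n) (fun S => ∃ A B C, Q A B C S) ≤ 1 / (n : ℝ) ^ 5 := by
  have hn' : (2 : ℝ) ≤ n := by exact_mod_cast hn
  set x : ℝ := 1 / (n : ℝ) ^ 6 with hx
  have hx0 : 0 ≤ x := by positivity
  have h1 : pr p (E n) (fun S => ∃ A B C, Q A B C S) ≤
      pr p (E n) (fun S => ∃ k ∈ (univ : Finset (Finset (Fin n) × Finset (Fin n) × Finset (Fin n))),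
        Q k.1 k.2.1 k.2.2 S) := by
    refine pr_mono hp0 hp1 fun S _ hS => ?_
    obtain ⟨A, B, C, hQ⟩ := hS
    exact ⟨(A, B, C), mem_univ _, hQ⟩
  have h2 := pr_union hp0 hp1 (E n)
    (univ : Finset (Finset (Fin n) × Finset (Fin n) × Finset (Fin n)))
    (fun k S => Q k.1 k.2.1 k.2.2 S)
  have h3 : ∑ k : Finset (Fin n) × Finset (Fin n) × Finset (Fin n),
      pr p (E n) (fun S => Q k.1 k.2.1 k.2.2 S) ≤
      ∑ k : Finset (Fin n) × Finset (Fin n) × Finset (Fin n),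
        x ^ (k.1.card + k.2.1.card + k.2.2.card + 1) :=
    sum_le_sum fun k _ => h k.1 k.2.1 k.2.2
  have h4 : ∑ k : Finset (Fin n) × Finset (Fin n) × Finset (Fin n),
      x ^ (k.1.card + k.2.1.card + k.2.2.card + 1) = x * (1 + x) ^ (3 * n) := by
    rw [Fintype.sum_prod_type]
    simp only [Fintype.sum_prod_type]
    simp only [pow_add, pow_one]
    simp only [← Finset.sum_mul, ← Finset.mul_sum, UN_sum]
    ring
  have h5 : (1 + x) ^ (3 * n) ≤ Real.exp (3 * n * x) := by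
    have h6 : 1 + x ≤ Real.exp x := by
      have := Real.add_one_le_exp x
      linarith
    calc (1 + x) ^ (3 * n) ≤ Real.exp x ^ (3 * n) := pow_le_pow_left₀ (by linarith) h6 _
      _ = Real.exp (3 * n * x) := by
        rw [← Real.exp_nat_mul]
        push_cast
        ring_nf
  have h6 : 3 * (n : ℝ) * x ≤ 1 / 2 := by
    have h7 : (n : ℝ) * x = 1 / (n : ℝ) ^ 5 := by
      rw [hx]
      have : (n : ℝ) ≠ 0 := by linarith
      field_simp
    have h8 : (2 : ℝ) ^ 5 ≤ (n : ℝ) ^ 5 := pow_le_pow_left₀ (by norm_num) hn' 5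
    have h9 : 1 / (n : ℝ) ^ 5 ≤ 1 / 2 ^ 5 := one_div_le_one_div_of_le (by norm_num) h8
    rw [mul_assoc, h7]
    linarith [h9, (by norm_num : 3 * (1 / 2 ^ 5 : ℝ) ≤ 1 / 2)]
  calc pr p (E n) (fun S => ∃ A B C, Q A B C S) ≤ _ := h1
    _ ≤ _ := h2
    _ ≤ _ := h3
    _ = x * (1 + x) ^ (3 * n) := h4
    _ ≤ x * Real.exp (3 * n * x) := mul_le_mul_of_nonneg_left h5 hx0
    _ ≤ 1 / (n : ℝ) ^ 5 := UN_exp hn h6

/-- Union bound over all systems of classes. Proof: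
`∑_c x^(|supp c| + 1) = x (1 + m x)^n ≤ x exp (n m x)`, `x = n^(-6)`, `m ≤ n`. -/
lemma union_sys {p : ℝ} (hp0 : 0 ≤ p) (hp1 : p ≤ 1) (hn : 2 ≤ n) (hm : m ≤ n)
    (Q : (Fin n → Option (Fin m)) → Finset (Sym2 (Fin n)) → Prop)
    (h : ∀ c, pr p (E n) (Q c) ≤ (1 / (n : ℝ) ^ 6) ^ ((supp c).card + 1)) :
    pr p (E n) (fun S => ∃ c, Q c S) ≤ 1 / (n : ℝ) ^ 5 := by
  have hn' : (2 : ℝ) ≤ n := by exact_mod_cast hn
  set x : ℝ := 1 / (n : ℝ) ^ 6 with hx
  have hx0 : 0 ≤ x := by positivity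
  have h1 : pr p (E n) (fun S => ∃ c, Q c S) ≤
      pr p (E n) (fun S => ∃ k ∈ (univ : Finset (Fin n → Option (Fin m))), Q k S) := by
    refine pr_mono hp0 hp1 fun S _ hS => ?_
    obtain ⟨c, hQ⟩ := hS
    exact ⟨c, mem_univ _, hQ⟩
  have h2 := pr_union hp0 hp1 (E n) (univ : Finset (Fin n → Option (Fin m))) Q
  have h3 : ∑ k : Fin n → Option (Fin m), pr p (E n) (Q k) ≤
      ∑ k : Fin n → Option (Fin m), x ^ ((supp k).card + 1) :=
    sum_le_sum fun k _ => h k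
  have h4 : ∑ k : Fin n → Option (Fin m), x ^ ((supp k).card + 1) = x * (1 + m * x) ^ n := by
    have h5 := Fintype.sum_pow (fun o : Option (Fin m) => if o ≠ none then x else 1) n
    have h6 : ∑ o : Option (Fin m), (if o ≠ none then x else 1) = 1 + m * x := by
      rw [Fintype.sum_option]
      simp
    have h7 : ∀ k : Fin n → Option (Fin m),
        ∏ i, (if k i ≠ none then x else 1) = x ^ (supp k).card := by
      intro k
      rw [Finset.prod_ite, Finset.prod_const, Finset.prod_const_one, mul_one]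
      rfl
    rw [h6] at h5
    rw [h5, Finset.mul_sum]
    refine sum_congr rfl fun k _ => ?_
    rw [h7 k, pow_succ, mul_comm]
  have hm' : (m : ℝ) ≤ n := by exact_mod_cast hm
  have h5 : (1 + m * x) ^ n ≤ Real.exp (n * (m * x)) := by
    have h6 : 1 + m * x ≤ Real.exp (m * x) := by
      have := Real.add_one_le_exp (m * x)
      linarith
    have h7 : 0 ≤ (m : ℝ) * x := by positivity
    calc (1 + m * x) ^ n ≤ Real.exp (m * x) ^ n := pow_le_pow_left₀ (by linarith) h6 _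
      _ = Real.exp (n * (m * x)) := by rw [← Real.exp_nat_mul]
  have h6 : (n : ℝ) * (m * x) ≤ 1 / 2 := by
    have h7 : (n : ℝ) * (n * x) = 1 / (n : ℝ) ^ 4 := by
      rw [hx]
      have : (n : ℝ) ≠ 0 := by linarith
      field_simp
    have h8 : (2 : ℝ) ^ 4 ≤ (n : ℝ) ^ 4 := pow_le_pow_left₀ (by norm_num) hn' 4
    have h9 : 1 / (n : ℝ) ^ 4 ≤ 1 / 2 ^ 4 := one_div_le_one_div_of_le (by norm_num) h8
    have h10 : (n : ℝ) * (m * x) ≤ n * (n * x) :=
      mul_le_mul_of_nonneg_left (mul_le_mul_of_nonneg_right hm' hx0) (by linarith)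
    linarith [h9, h10, h7, (by norm_num : (1 / 2 ^ 4 : ℝ) ≤ 1 / 2)]
  calc pr p (E n) (fun S => ∃ c, Q c S) ≤ _ := h1
    _ ≤ _ := h2
    _ ≤ _ := h3
    _ = x * (1 + m * x) ^ n := h4
    _ ≤ x * Real.exp (n * (m * x)) := mul_le_mul_of_nonneg_left h5 hx0
    _ ≤ 1 / (n : ℝ) ^ 5 := UN_exp hn h6

end Pool.Agent.CFX
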