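import Pool.Agent.CFX.CO
import Pool.Agent.CFX.UN

/-! DI: edge distribution -/

namespace Pool.Agent.CFX

open Finset Pool.Agent.MD437 Pool.Agent.CFC

variable {n m : ℕ} {p l : ℝ}

private lemma pr_false' {ι : Type*} [DecidableEq ι] (p : ℝ) (A : Finset ι) (Q : Finset ι → Prop)
    (hQ : ∀ S, ¬ Q S) : pr p A Q = 0 := by
  classical
  rw [pr_def]
  have : (fun S => if Q S then (1 : ℝ) else 0) = fun _ => 0 := by
    funext S
    rw [if_neg (hQ S)]
  rw [this, ex_const]

private lemma dist_fixed (hB : Big n l) (hp0 : 0 ≤ p) (hp1 : p ≤ 1) (A A' : Finset (Fin n))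
    (hA : A.Nonempty) :
    pr p (E n) (fun S => l * (A.card + A'.card) + l * p * A.card * A'.card < (ee S A A' : ℝ))
      ≤ (1 / (n : ℝ) ^ 6) ^ (A.card + A'.card + 0 + 1) := by
  classical
  set c : Finset (Sym2 (Fin n)) → Fin n → Fin n → ℝ :=
    fun _ v w => if v ∈ A ∧ w ∈ A' then 1 else 0 with hc
  set μ : ℝ := p * (A.card * A'.card) with hμ
  set x : ℝ := l * (A.card + A'.card) + l * p * A.card * A'.card with hx
  have hsum : ∀ S, ∑ v, ∑ w, c S v w = (A.card : ℝ) * A'.card := by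
    intro S
    have h1 : ∀ v w, c S v w = (if v ∈ A then (1 : ℝ) else 0) * (if w ∈ A' then (1 : ℝ) else 0) := by
      intro v w
      simp only [hc]
      by_cases h1 : v ∈ A <;> by_cases h2 : w ∈ A' <;> simp [h1, h2]
    simp_rw [h1]
    rw [← Finset.sum_mul_sum]
    simp
  have hee : ∀ S, ∑ v, ∑ w ∈ nb S v, c S v w = (ee S A A' : ℝ) := by
    intro S
    rw [ee_eq_sum, Nat.cast_sum]
    have h1 : ∀ v, ∑ w ∈ nb S v, c S v w = if v ∈ A then ((nb S v ∩ A').card : ℝ) else 0 := by
      intro v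
      simp only [hc]
      by_cases h1 : v ∈ A
      · simp only [h1, true_and, if_true]
        rw [← Finset.sum_filter, Finset.filter_mem_eq_inter]
        simp
      · simp [h1]
    simp_rw [h1]
    rw [← Finset.sum_filter, Finset.filter_mem_eq_inter, Finset.univ_inter]
  have ht := pair_sum_tail hp0 hp1 ∅ c (h := 1) (μ := μ) (x := x) one_pos (fun S => rfl)
    (fun S v w => by simp only [hc]; split_ifs <;> norm_num)
    (fun S v w => by simp only [hc]; split_ifs <;> norm_num)
    (fun S v w h => by simp at h)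
  refine (pr_mono hp0 hp1 ?_).trans (ht.trans ?_)
  · intro S _ hS
    refine ⟨?_, ?_⟩
    · rw [hsum S]
    · rw [hee S]; exact hS.le
  · have hl := hB.big
    have hlpos := hB.pos
    have e1 : (7 / 4 * μ - x) / (2 * 1) = -((x - 7 / 4 * μ) / 2) := by ring
    rw [e1]
    refine hB.exp_le' ?_
    have hA1 : (1 : ℝ) ≤ A.card := by exact_mod_cast hA.card_pos
    have hA2 : (0 : ℝ) ≤ A'.card := Nat.cast_nonneg _
    have hμ0 : 0 ≤ μ := by positivity
    have h3 : l * (A.card + A'.card) ≤ x - 7 / 4 * μ := by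
      have e2 : x = l * (A.card + A'.card) + l * μ := by rw [hx, hμ]; ring
      rw [e2]
      have : 7 / 4 * μ ≤ l * μ := mul_le_mul_of_nonneg_right (by linarith) hμ0
      linarith
    push_cast
    nlinarith [mul_le_mul_of_nonneg_left hA1 hlpos.le, mul_nonneg hlpos.le hA2]

/-- Edge distribution. For fixed `A, A'`: `pair_sum_tail` with `W = ∅`,
`c S v w = if v ∈ A ∧ w ∈ A' then 1 else 0`, `h = 1`, `μ = p |A| |A'|`; then `union3` (with the
third set unused, say restricted to be empty). If `A = ∅` or `A' = ∅` then `ee = 0`. -/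
theorem dist_prob (hB : Big n l) (hp0 : 0 ≤ p) (hp1 : p ≤ 1) :
    pr p (E n) (fun S => ¬ DistOK p l S) ≤ 1 / (n : ℝ) ^ 5 := by
  classical
  refine (pr_mono hp0 hp1 ?_).trans (union3 hp0 hp1 hB.two_le_n
    (fun A A' C S => (C = ∅ ∧ A.Nonempty) ∧
      l * (A.card + A'.card) + l * p * A.card * A'.card < (ee S A A' : ℝ)) ?_)
  · intro S _ hS
    simp only [DistOK, not_forall, not_le] at hS
    obtain ⟨A, A', h⟩ := hS
    refine ⟨A, A', ∅, ⟨rfl, ?_⟩, h⟩
    rw [Finset.nonempty_iff_ne_empty]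
    rintro rfl
    have hl := hB.pos
    rw [ee_eq_sum] at h
    simp only [Finset.sum_empty, Finset.card_empty, Nat.cast_zero] at h
    have : (0 : ℝ) ≤ A'.card := Nat.cast_nonneg _
    nlinarith
  · intro A A' C
    by_cases hC : C = ∅ ∧ A.Nonempty
    · obtain ⟨rfl, hA⟩ := hC
      refine (pr_mono hp0 hp1 ?_).trans (dist_fixed hB hp0 hp1 A A' hA)
      intro S _ hS
      exact hS.2
    · rw [pr_false' p (E n) _ (fun S hS => hC hS.1)]
      positivity

end Pool.Agent.CFX
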