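import Pool.Agent.CFC.Final

/-! Two-point concentration of the conflict-free chromatic number of `G(n,p)` for all `p`:
definitions and elementary facts used by all modules. -/

namespace Pool.Agent.CFX

open Finset Pool.Agent.MD437 Pool.Agent.CFC

variable {n m : ℕ}

/-- closed neighbourhood `N[x]` in the graph with edge set `S` -/
def cl (S : Finset (Sym2 (Fin n))) (x : Fin n) : Finset (Fin n) := insert x (nb S x)

lemma mem_cl {S : Finset (Sym2 (Fin n))} {x y : Fin n} : y ∈ cl S x ↔ y = x ∨ ad S x y := by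
  rw [cl, mem_insert, mem_nb]

lemma self_mem_cl (S : Finset (Sym2 (Fin n))) (x : Fin n) : x ∈ cl S x := mem_cl.2 (Or.inl rfl)

lemma mem_cl_comm {S : Finset (Sym2 (Fin n))} {x y : Fin n} : y ∈ cl S x ↔ x ∈ cl S y := by
  rw [mem_cl, mem_cl, ad_comm S x y]
  constructor
  · rintro (h | h)
    · exact Or.inl h.symm
    · exact Or.inr h
  · rintro (h | h)
    · exact Or.inl h.symm
    · exact Or.inr h

lemma not_ad_self (S : Finset (Sym2 (Fin n))) (x : Fin n) : ¬ ad S x x := fun h => h.1 rfl

lemma not_mem_nb_self (S : Finset (Sym2 (Fin n))) (x : Fin n) : x ∉ nb S x := by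
  rw [mem_nb]; exact not_ad_self S x

lemma card_cl (S : Finset (Sym2 (Fin n))) (x : Fin n) : (cl S x).card = (nb S x).card + 1 := by
  rw [cl, card_insert_of_notMem (not_mem_nb_self S x)]

lemma nb_sub_cl (S : Finset (Sym2 (Fin n))) (x : Fin n) : nb S x ⊆ cl S x := subset_insert _ _

/-- number of ordered pairs of adjacent vertices in `A × A'` -/
def ee (S : Finset (Sym2 (Fin n))) (A A' : Finset (Fin n)) : ℕ :=
  ((A ×ˢ A').filter (fun q => ad S q.1 q.2)).card

lemma ee_eq_sum (S : Finset (Sym2 (Fin n))) (A A' : Finset (Fin n)) :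
    ee S A A' = ∑ x ∈ A, (nb S x ∩ A').card := by
  rw [ee, card_filter, sum_product]
  refine sum_congr rfl fun x _ => ?_
  rw [← card_filter]
  congr 1
  ext y
  rw [mem_filter, mem_inter, mem_nb]
  tauto

lemma ee_comm (S : Finset (Sym2 (Fin n))) (A A' : Finset (Fin n)) : ee S A A' = ee S A' A := by
  unfold ee
  refine card_bij' (fun q _ => (q.2, q.1)) (fun q _ => (q.2, q.1)) ?_ ?_ ?_ ?_
  · intro q hq
    rw [mem_filter, mem_product] at hq ⊢
    exact ⟨⟨hq.1.2, hq.1.1⟩, ad_symm hq.2⟩
  · intro q hq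
    rw [mem_filter, mem_product] at hq ⊢
    exact ⟨⟨hq.1.2, hq.1.1⟩, ad_symm hq.2⟩
  · intro q _; rfl
  · intro q _; rfl

lemma ee_mono (S : Finset (Sym2 (Fin n))) {A A' B B' : Finset (Fin n)} (h : A ⊆ B) (h' : A' ⊆ B') :
    ee S A A' ≤ ee S B B' := by
  unfold ee
  exact card_le_card (filter_subset_filter _ (product_subset_product h h'))

/-- the class of the colour `j`; the colour `none` is neutral -/
def cls (c : Fin n → Option (Fin m)) (j : Fin m) : Finset (Fin n) :=
  univ.filter (fun y => c y = some j)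

lemma mem_cls {c : Fin n → Option (Fin m)} {j : Fin m} {y : Fin n} :
    y ∈ cls c j ↔ c y = some j := by
  simp [cls]

/-- the vertices with a (non-neutral) colour -/
def supp (c : Fin n → Option (Fin m)) : Finset (Fin n) := univ.filter (fun y => c y ≠ none)

lemma mem_supp {c : Fin n → Option (Fin m)} {y : Fin n} : y ∈ supp c ↔ c y ≠ none := by
  simp [supp]

/-- the colours which appear exactly once in `N[x]` -/
def uq (S : Finset (Sym2 (Fin n))) (c : Fin n → Option (Fin m)) (x : Fin n) : Finset (Fin m) :=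
  univ.filter (fun j => (cl S x ∩ cls c j).card = 1)

lemma mem_uq {S : Finset (Sym2 (Fin n))} {c : Fin n → Option (Fin m)} {x : Fin n} {j : Fin m} :
    j ∈ uq S c x ↔ (cl S x ∩ cls c j).card = 1 := by
  simp [uq]

/-- the vertices without a unique colour -/
def bad (S : Finset (Sym2 (Fin n))) (c : Fin n → Option (Fin m)) : Finset (Fin n) :=
  univ.filter (fun x => uq S c x = ∅)

lemma mem_bad {S : Finset (Sym2 (Fin n))} {c : Fin n → Option (Fin m)} {x : Fin n} :
    x ∈ bad S c ↔ uq S c x = ∅ := by
  simp [bad]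

/-- the vertices with at most `K` unique colours -/
def fr (S : Finset (Sym2 (Fin n))) (c : Fin n → Option (Fin m)) (K : ℕ) : Finset (Fin n) :=
  univ.filter (fun x => (uq S c x).card ≤ K)

lemma mem_fr {S : Finset (Sym2 (Fin n))} {c : Fin n → Option (Fin m)} {K : ℕ} {x : Fin n} :
    x ∈ fr S c K ↔ (uq S c x).card ≤ K := by
  simp [fr]

lemma bad_sub_fr (S : Finset (Sym2 (Fin n))) (c : Fin n → Option (Fin m)) (K : ℕ) :
    bad S c ⊆ fr S c K := by
  intro x hx
  rw [mem_bad] at hx
  rw [mem_fr, hx]
  simp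

lemma fr_mono (S : Finset (Sym2 (Fin n))) (c : Fin n → Option (Fin m)) {K K' : ℕ} (h : K ≤ K') :
    fr S c K ⊆ fr S c K' := by
  intro x hx
  rw [mem_fr] at hx ⊢
  exact hx.trans h

/-- a full colouring as a colouring without neutral vertices -/
def full (c : Fin n → Fin m) : Fin n → Option (Fin m) := fun x => some (c x)

lemma isCF_iff (S : Finset (Sym2 (Fin n))) (c : Fin n → Fin m) :
    IsCF (gr S) c ↔ bad S (full c) = ∅ := by
  have had : ∀ x y, (gr S).Adj x y ↔ ad S x y := by
    intro x y
    rw [gr_adj, ad, and_comm]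
  constructor
  · intro h
    rw [eq_empty_iff_forall_notMem]
    intro x hx
    rw [mem_bad] at hx
    obtain ⟨y, hy, hu⟩ := h x
    have : c y ∈ uq S (full c) x := by
      rw [mem_uq, card_eq_one]
      refine ⟨y, ?_⟩
      ext z
      rw [mem_inter, mem_cl, mem_cls, mem_singleton]
      constructor
      · rintro ⟨h1, h2⟩
        refine hu z ?_ (by simpa [full] using h2)
        rcases h1 with h1 | h1
        · exact Or.inl h1
        · exact Or.inr ((had x z).2 h1)
      · rintro rfl
        refine ⟨?_, rfl⟩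
        rcases hy with h1 | h1
        · exact Or.inl h1
        · exact Or.inr ((had x z).1 h1)
    rw [hx] at this
    exact absurd this (notMem_empty _)
  · intro h x
    have hx : x ∉ bad S (full c) := by rw [h]; exact notMem_empty _
    rw [mem_bad] at hx
    obtain ⟨j, hj⟩ := nonempty_iff_ne_empty.2 hx
    rw [mem_uq, card_eq_one] at hj
    obtain ⟨y, hy⟩ := hj
    have hy1 : y ∈ cl S x ∩ cls (full c) j := by rw [hy]; exact mem_singleton_self y
    rw [mem_inter, mem_cl, mem_cls] at hy1
    have hcy : c y = j := by simpa [full] using hy1.2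
    refine ⟨y, ?_, ?_⟩
    · rcases hy1.1 with h1 | h1
      · exact Or.inl h1
      · exact Or.inr ((had x y).2 h1)
    · intro z hz hc
      have : z ∈ cl S x ∩ cls (full c) j := by
        rw [mem_inter, mem_cl, mem_cls]
        refine ⟨?_, ?_⟩
        · rcases hz with h1 | h1
          · exact Or.inl h1
          · exact Or.inr ((had x z).1 h1)
        · simp [full, hc, hcy]
      rw [hy, mem_singleton] at this
      exact this

/-- the least number of defects of a colouring of the family `F`, cut off at `t` -/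
noncomputable def defect (F : Finset (Fin n → Option (Fin m))) (t : ℕ)
    (S : Finset (Sym2 (Fin n))) : ℕ :=
  (insert t (F.image (fun c => (bad S c).card))).min' (insert_nonempty _ _)

lemma defect_le_t (F : Finset (Fin n → Option (Fin m))) (t : ℕ) (S : Finset (Sym2 (Fin n))) :
    defect F t S ≤ t := min'_le _ _ (mem_insert_self _ _)

lemma defect_le {F : Finset (Fin n → Option (Fin m))} {c : Fin n → Option (Fin m)} (hc : c ∈ F)
    (t : ℕ) (S : Finset (Sym2 (Fin n))) : defect F t S ≤ (bad S c).card :=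
  min'_le _ _ (mem_insert_of_mem (mem_image_of_mem _ hc))

lemma exists_of_defect_lt {F : Finset (Fin n → Option (Fin m))} {t : ℕ}
    {S : Finset (Sym2 (Fin n))} (h : defect F t S < t) :
    ∃ c ∈ F, (bad S c).card = defect F t S := by
  have := min'_mem (insert t (F.image (fun c => (bad S c).card))) (insert_nonempty _ _)
  rw [mem_insert] at this
  rcases this with h1 | h1
  · exact absurd h1 h.ne
  · rw [mem_image] at h1
    exact h1

/-- the family of all full colourings with `m` colours -/
noncomputable def Full (n m : ℕ) : Finset (Fin n → Option (Fin m)) :=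
  univ.filter (fun c => ∀ x, c x ≠ none)

lemma full_mem_Full (c : Fin n → Fin m) : full c ∈ Full n m := by
  simp [Full, full]

lemma exists_full_of_mem {c : Fin n → Option (Fin m)} (h : c ∈ Full n m) :
    ∃ c', full c' = c := by
  simp only [Full, mem_filter, mem_univ, true_and] at h
  refine ⟨fun x => (c x).get (Option.ne_none_iff_isSome.1 (h x)), ?_⟩
  funext x
  simp [full]

/-- the family of all systems of `m` disjoint classes of size at most `b` -/
noncomputable def Sys (n m : ℕ) (b : ℝ) : Finset (Fin n → Option (Fin m)) := by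
  classical exact univ.filter (fun c => ∀ j, ((cls c j).card : ℝ) ≤ b)

lemma mem_Sys {b : ℝ} {c : Fin n → Option (Fin m)} :
    c ∈ Sys n m b ↔ ∀ j, ((cls c j).card : ℝ) ≤ b := by
  simp [Sys]

lemma card_supp_le {b : ℝ} {c : Fin n → Option (Fin m)} (h : c ∈ Sys n m b) :
    ((supp c).card : ℝ) ≤ m * b := by
  have h1 : supp c = univ.biUnion (fun j => cls c j) := by
    ext y
    rw [mem_supp, mem_biUnion]
    constructor
    · intro hy
      obtain ⟨j, hj⟩ := Option.ne_none_iff_exists'.1 hy
      exact ⟨j, mem_univ _, mem_cls.2 hj⟩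
    · rintro ⟨j, -, hj⟩
      rw [mem_cls] at hj
      rw [hj]
      simp
  have h2 : (supp c).card ≤ ∑ j : Fin m, (cls c j).card := by
    rw [h1]; exact card_biUnion_le
  have h3 : ((supp c).card : ℝ) ≤ ∑ j : Fin m, ((cls c j).card : ℝ) := by exact_mod_cast h2
  refine h3.trans ((sum_le_sum fun j _ => mem_Sys.1 h j).trans ?_)
  simp

/-- the edges which touch `W` -/
def EW (W : Finset (Fin n)) : Finset (Sym2 (Fin n)) := (E n).filter (fun e => ∃ v ∈ W, v ∈ e)

lemma mk_mem_EW {W : Finset (Fin n)} {x y : Fin n} :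
    s(x, y) ∈ EW W ↔ x ≠ y ∧ (x ∈ W ∨ y ∈ W) := by
  rw [EW, mem_filter, mk_mem_E]
  simp only [Sym2.mem_iff]
  constructor
  · rintro ⟨h1, v, hv, rfl | rfl⟩
    · exact ⟨h1, Or.inl hv⟩
    · exact ⟨h1, Or.inr hv⟩
  · rintro ⟨h1, h2 | h2⟩
    · exact ⟨h1, x, h2, Or.inl rfl⟩
    · exact ⟨h1, y, h2, Or.inr rfl⟩

/-- The scale: `l = n ^ (1 / 10000)`, and `n` is large. -/
structure Big (n : ℕ) (l : ℝ) : Prop where
  pow : l ^ 10000 = n
  big : 10 ^ 9 ≤ l
  lg : (100 * Real.log n) ^ 5000 ≤ l

/-- `Step n p η u`: if `G(n,p)` has a conflict-free colouring with `u` colours with probability at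
least `η / 2` then it has one with `u + 1` colours with probability at least `1 - η / 2`. -/
def Step (n : ℕ) (p η : ℝ) (u : ℕ) : Prop :=
  η / 2 ≤ pr p (E n) (fun S => ∃ c : Fin n → Fin u, IsCF (gr S) c) →
    1 - η / 2 ≤ pr p (E n) (fun S => ∃ c : Fin n → Fin (u + 1), IsCF (gr S) c)

end Pool.Agent.CFX
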