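import Pool.Agent.CFX.Props

/-! SQ: few unique colours -/

namespace Pool.Agent.CFX

open Finset Pool.Agent.MD437 Pool.Agent.CFC

variable {n m : ℕ} {p l : ℝ}

/-- If `p ≤ 1/4` then `qs p s ≤ 1/2` (`s p (1-p)^(s-1) ≤ s p exp (-p (s-1)) ≤ exp p / e`). -/
lemma qs_half (hp0 : 0 ≤ p) (hp1 : p ≤ 1 / 4) (s : ℕ) : qs p s ≤ 1 / 2 := by
  rcases s with _ | s
  · unfold qs
    norm_num
  · unfold qs
    rw [Nat.add_sub_cancel]
    have h1 : (1 - p) ^ s ≤ Real.exp (-(p * s)) := by
      have h2 : 1 - p ≤ Real.exp (-p) := Real.one_sub_le_exp_neg p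
      have h3 : (1 - p) ^ s ≤ (Real.exp (-p)) ^ s := pow_le_pow_left₀ (by linarith) h2 s
      rw [← Real.exp_nat_mul] at h3
      have e : (s : ℝ) * -p = -(p * s) := by ring
      rwa [e] at h3
    have h4 : ((s + 1 : ℕ) : ℝ) * p ≤ Real.exp (((s + 1 : ℕ) : ℝ) * p - 1) := by
      have := Real.add_one_le_exp (((s + 1 : ℕ) : ℝ) * p - 1)
      linarith
    have h5 : 0 ≤ ((s + 1 : ℕ) : ℝ) * p := by positivity
    have h6 : ((s + 1 : ℕ) : ℝ) * p * (1 - p) ^ s ≤
        Real.exp (((s + 1 : ℕ) : ℝ) * p - 1) * Real.exp (-(p * s)) :=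
      mul_le_mul h4 h1 (pow_nonneg (by linarith) _) (Real.exp_pos _).le
    have h7 : Real.exp (((s + 1 : ℕ) : ℝ) * p - 1) * Real.exp (-(p * s)) = Real.exp (p - 1) := by
      rw [← Real.exp_add]
      congr 1
      push_cast
      ring
    have h8 : Real.exp (p - 1) ≤ Real.exp (-(3 / 4)) := Real.exp_le_exp.2 (by linarith)
    have h9 : Real.exp (-(3 / 4)) ≤ 1 / 2 := by
      rw [Real.exp_neg, one_div]
      apply inv_anti₀ (by norm_num)
      have := Real.quadratic_le_exp_of_nonneg (show (0 : ℝ) ≤ 3 / 4 by norm_num)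
      refine le_trans ?_ this
      norm_num
    rw [h7] at h6
    linarith

private lemma sq_count (m K : ℕ) :
    ((univ : Finset (Finset (Fin m))).filter (fun J => J.card ≤ K)).card ≤ (m + 1) ^ K := by
  classical
  have h1 : (univ : Finset (Finset (Fin m))).filter (fun J => J.card ≤ K) ⊆
      (univ : Finset (Fin K → Option (Fin m))).image
        (fun f => univ.filter (fun j => ∃ i, f i = some j)) := by
    intro J hJ
    rw [mem_filter] at hJ
    rw [mem_image]
    refine ⟨fun i => if h : (i : ℕ) < J.card then some (J.equivFin.symm ⟨i, h⟩ : Fin m) else none,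
      mem_univ _, ?_⟩
    ext j
    rw [mem_filter]
    constructor
    · rintro ⟨-, i, hi⟩
      dsimp only at hi
      by_cases h : (i : ℕ) < J.card
      · rw [dif_pos h] at hi
        rw [← Option.some.inj hi]
        exact (J.equivFin.symm ⟨i, h⟩).2
      · rw [dif_neg h] at hi
        exact absurd hi (by simp)
    · intro hj
      refine ⟨mem_univ _, ⟨J.equivFin ⟨j, hj⟩, lt_of_lt_of_le (J.equivFin ⟨j, hj⟩).2 hJ.2⟩, ?_⟩
      have h2 : ((J.equivFin ⟨j, hj⟩ : Fin J.card) : ℕ) < J.card := (J.equivFin ⟨j, hj⟩).2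
      dsimp only
      rw [dif_pos h2]
      simp
  refine (card_le_card h1).trans (card_image_le.trans ?_)
  rw [card_univ, Fintype.card_fun, Fintype.card_option, Fintype.card_fin, Fintype.card_fin]

/-- `P(uT c T = J) = ∏_{j ∈ J} q_j ∏_{j ∉ J} (1 - q_j) ≤ wt p c` since `q_j ≤ 1 - q_j`, and there
are at most `(m + 1) ^ K` sets `J` with at most `K` elements. -/
lemma pr_uT_le (hp0 : 0 ≤ p) (hp1 : p ≤ 1 / 4) (c : Fin n → Option (Fin m)) (K : ℕ) :
    pr p (supp c) (fun T => (uT c T).card ≤ K) ≤ (m + 1) ^ K * wt p c := by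
  classical
  have hp1' : p ≤ 1 := by linarith
  have hdis : ∀ i ∈ (univ : Finset (Fin m)), ∀ j ∈ (univ : Finset (Fin m)), i ≠ j →
      Disjoint (cls c i) (cls c j) := by
    intro i _ j _ hij
    rw [Finset.disjoint_left]
    intro y hy hy'
    rw [mem_cls] at hy hy'
    rw [hy] at hy'
    exact hij (Option.some.inj hy')
  have hsub : ∀ i ∈ (univ : Finset (Fin m)), cls c i ⊆ supp c := by
    intro i _ y hy
    rw [mem_cls] at hy
    rw [mem_supp, hy]
    simp
  have hone : ∀ J : Finset (Fin m), pr p (supp c) (fun T => uT c T = J) ≤ wt p c := by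
    intro J
    have h1 : pr p (supp c) (fun T => uT c T = J) =
        pr p (supp c) (fun T => ∀ i ∈ (univ : Finset (Fin m)),
          ((T ∩ cls c i).card = 1 ↔ i ∈ J)) := by
      apply pr_congr
      intro T _
      constructor
      · intro h i _
        rw [← h, uT, mem_filter]
        simp
      · intro h
        ext i
        rw [uT, mem_filter]
        simp only [mem_univ, true_and]
        exact h i (mem_univ i)
    rw [h1, pr_blocks p univ (fun i => cls c i) hdis (supp c) hsub
      (fun i T => (T.card = 1 ↔ i ∈ J))]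
    unfold wt
    apply Finset.prod_le_prod
    · intro i _
      exact pr_nonneg hp0 hp1' _ _
    · intro i _
      by_cases hi : i ∈ J
      · have h2 : pr p (cls c i) (fun T => (T.card = 1 ↔ i ∈ J)) = qs p (cls c i).card := by
          rw [← pr_one']
          apply pr_congr
          intro T _
          simp [hi]
        rw [h2]
        have := qs_half hp0 hp1 (cls c i).card
        linarith
      · have h2 : pr p (cls c i) (fun T => (T.card = 1 ↔ i ∈ J)) = 1 - qs p (cls c i).card := by
          rw [← pr_ne_one]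
          apply pr_congr
          intro T _
          simp [hi]
        rw [h2]
  have hw : 0 ≤ wt p c := (pr_nonneg hp0 hp1' _ _).trans (hone ∅)
  calc pr p (supp c) (fun T => (uT c T).card ≤ K)
      = pr p (supp c) (fun T => ∃ J ∈ (univ : Finset (Finset (Fin m))).filter
          (fun J => J.card ≤ K), uT c T = J) := by
        apply pr_congr
        intro T _
        constructor
        · intro h
          exact ⟨uT c T, mem_filter.2 ⟨mem_univ _, h⟩, rfl⟩
        · rintro ⟨J, hJ, rfl⟩
          exact (mem_filter.1 hJ).2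
    _ ≤ ∑ J ∈ (univ : Finset (Finset (Fin m))).filter (fun J => J.card ≤ K),
          pr p (supp c) (fun T => uT c T = J) := pr_union hp0 hp1' _ _ _
    _ ≤ ∑ _J ∈ (univ : Finset (Finset (Fin m))).filter (fun J => J.card ≤ K), wt p c :=
        sum_le_sum fun J _ => hone J
    _ = (((univ : Finset (Finset (Fin m))).filter (fun J => J.card ≤ K)).card : ℝ) * wt p c := by
        rw [sum_const, nsmul_eq_mul]
    _ ≤ (m + 1) ^ K * wt p c := by
        apply mul_le_mul_of_nonneg_right _ hw
        exact_mod_cast sq_count m K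

end Pool.Agent.CFX
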