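import Pool.Agent.CFX.Props

/-! ST: stars of distinct vertices over a disjoint set `W` are independent -/

namespace Pool.Agent.CFX

open Finset Pool.Agent.MD437 Pool.Agent.CFC

variable {n : ℕ}

/-- Functions of the sets `N(x) ∩ W`, `x ∈ Z`, with `Z` and `W` disjoint, are independent.
(Use `ex_prod` of `CFC/Prob.lean` with the blocks `W.image (fun y => s(x, y))`, and `ex_image`, as
in `pr_star` of `CFC/Graph.lean`.) -/
lemma ex_star (p : ℝ) (A : Finset (Sym2 (Fin n))) (W Z : Finset (Fin n)) (hWZ : Disjoint W Z)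
    (hA : ∀ x ∈ Z, ∀ y ∈ W, s(x, y) ∈ A) (g : Fin n → Finset (Fin n) → ℝ) :
    ex p A (fun S => ∏ x ∈ Z, g x (W.filter (fun y => s(x, y) ∈ S))) =
      ∏ x ∈ Z, ex p W (g x) := by
  have hB : ∀ i ∈ Z, ∀ j ∈ Z, i ≠ j →
      Disjoint (W.image (fun y => s(i, y))) (W.image (fun y => s(j, y))) := by
    intro x hx y hy hxy
    rw [disjoint_left]
    intro e he he'
    obtain ⟨a, ha, rfl⟩ := mem_image.1 he
    obtain ⟨b, hb, hab⟩ := mem_image.1 he'
    rcases Sym2.eq_iff.1 hab with ⟨h1, -⟩ | ⟨h1, -⟩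
    · exact hxy h1.symm
    · rw [h1] at hy
      exact (disjoint_left.1 hWZ ha) hy
  have hA' : ∀ i ∈ Z, W.image (fun y => s(i, y)) ⊆ A := by
    intro x hx e he
    obtain ⟨y, hy, rfl⟩ := mem_image.1 he
    exact hA x hx y hy
  have h := ex_prod p Z (fun x => W.image (fun y => s(x, y))) hB A hA'
    (fun x S => g x (W.filter (fun y => s(x, y) ∈ S)))
  have d2 : ∀ (S : Finset (Sym2 (Fin n))) (x : Fin n),
      W.filter (fun y => s(x, y) ∈ S ∩ W.image (fun y => s(x, y))) =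
      W.filter (fun y => s(x, y) ∈ S) := by
    intro S x
    ext y
    rw [mem_filter, mem_filter, mem_inter]
    constructor
    · rintro ⟨h1, h2, -⟩
      exact ⟨h1, h2⟩
    · rintro ⟨h1, h2⟩
      exact ⟨h1, h2, mem_image.2 ⟨y, h1, rfl⟩⟩
  have e1 : ∀ x ∈ Z, ex p (W.image (fun y => s(x, y)))
      (fun S => g x (W.filter (fun y => s(x, y) ∈ S))) = ex p W (g x) := by
    intro x hx
    have hinj : Set.InjOn (fun y => s(x, y)) (W : Set (Fin n)) := by
      intro a ha b hb hab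
      rcases Sym2.eq_iff.1 hab with ⟨-, h1⟩ | ⟨h1, h2⟩
      · exact h1
      · rw [h2]; exact h1
    rw [ex_image p W _ hinj]
    refine ex_congr p fun T hT => ?_
    have : W.filter (fun y => s(x, y) ∈ T.image (fun y => s(x, y))) = T := by
      ext y
      rw [mem_filter, mem_image]
      constructor
      · rintro ⟨hy, z, hz, hzy⟩
        have := hinj (mem_coe.2 (hT hz)) (mem_coe.2 hy) hzy
        rwa [← this]
      · intro hy
        exact ⟨hT hy, y, hy, rfl⟩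
    rw [this]
  rw [prod_congr rfl e1] at h
  rw [← h]
  refine ex_congr p fun S _ => ?_
  refine prod_congr rfl fun x _ => ?_
  simp only [d2 S x]

/-- Exponential moments. -/
private lemma st_exp (c : ℝ) {p : ℝ} (A : Finset (Sym2 (Fin n)))
    (W Z : Finset (Fin n)) (hWZ : Disjoint W Z) (hA : ∀ x ∈ Z, ∀ y ∈ W, s(x, y) ∈ A)
    (Q : Fin n → Finset (Fin n) → Prop) [∀ x, DecidablePred (Q x)] :
    ex p A (fun S => Real.exp (c *
      ((Z.filter (fun x => Q x (W.filter (fun y => s(x, y) ∈ S)))).card : ℝ))) =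
      ∏ x ∈ Z, (1 + (Real.exp c - 1) * pr p W (Q x)) := by
  have h := ex_star p A W Z hWZ hA (fun x T => 1 + (Real.exp c - 1) * (if Q x T then (1 : ℝ) else 0))
  have h1 : ∀ x ∈ Z, ex p W (fun T => 1 + (Real.exp c - 1) * (if Q x T then (1 : ℝ) else 0)) =
      1 + (Real.exp c - 1) * pr p W (Q x) := by
    intro x _
    rw [ex_add, ex_const, ex_mul_left, pr_def]
  rw [prod_congr rfl h1] at h
  rw [← h]
  refine ex_congr p fun S _ => ?_
  rw [card_filter]
  push_cast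
  rw [mul_sum, Real.exp_sum]
  refine prod_congr rfl fun x _ => ?_
  by_cases hQ : Q x (W.filter (fun y => s(x, y) ∈ S))
  · rw [if_pos hQ]
    ring_nf
  · rw [if_neg hQ]
    simp

private lemma st_prod_le (c C : ℝ) (hc : ∀ q : ℝ, 0 ≤ q → (Real.exp c - 1) * q ≤ C * q)
    {p : ℝ} (hp0 : 0 ≤ p) (hp1 : p ≤ 1) (W Z : Finset (Fin n))
    (Q : Fin n → Finset (Fin n) → Prop) :
    ∏ x ∈ Z, (1 + (Real.exp c - 1) * pr p W (Q x)) ≤ Real.exp (C * ∑ x ∈ Z, pr p W (Q x)) := by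
  rw [mul_sum, Real.exp_sum]
  refine prod_le_prod (fun x _ => ?_) (fun x _ => ?_)
  · have h1 := pr_nonneg hp0 hp1 W (Q x)
    have h2 := pr_le_one hp0 hp1 W (Q x)
    have h3 := Real.exp_pos c
    nlinarith
  · have h1 := hc _ (pr_nonneg hp0 hp1 W (Q x))
    have h2 := Real.add_one_le_exp (C * pr p W (Q x))
    linarith

private lemma st_markov (c k : ℝ) {p : ℝ} (hp0 : 0 ≤ p) (hp1 : p ≤ 1)
    (A : Finset (Sym2 (Fin n))) (N : Finset (Sym2 (Fin n)) → ℝ)
    (R : Finset (Sym2 (Fin n)) → Prop) (hR : ∀ S, R S → c * k ≤ c * N S) :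
    pr p A R ≤ Real.exp (-(c * k)) * ex p A (fun S => Real.exp (c * N S)) := by
  classical
  rw [pr_def, ← ex_mul_left]
  refine ex_mono hp0 hp1 fun S _ => ?_
  by_cases h : R S
  · rw [if_pos h, ← Real.exp_add]
    apply Real.one_le_exp
    linarith [hR S h]
  · rw [if_neg h]
    positivity

/-- Upper tail for the number of `x ∈ Z` such that `N(x) ∩ W` has the property `Q x`.
Proof: Markov for `exp (#)`: `E exp (#) = ∏ (1 + (e - 1) q_x) ≤ exp (2 ∑ q_x)`. -/
lemma star_upper {p : ℝ} (hp0 : 0 ≤ p) (hp1 : p ≤ 1) (A : Finset (Sym2 (Fin n)))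
    (W Z : Finset (Fin n)) (hWZ : Disjoint W Z) (hA : ∀ x ∈ Z, ∀ y ∈ W, s(x, y) ∈ A)
    (Q : Fin n → Finset (Fin n) → Prop) [∀ x, DecidablePred (Q x)] (k : ℝ) :
    pr p A (fun S => k ≤ ((Z.filter (fun x => Q x (W.filter (fun y => s(x, y) ∈ S)))).card : ℝ))
      ≤ Real.exp (2 * ∑ x ∈ Z, pr p W (Q x) - k) := by
  have h1 := st_markov 1 k hp0 hp1 A
    (fun S => ((Z.filter (fun x => Q x (W.filter (fun y => s(x, y) ∈ S)))).card : ℝ))
    (fun S => k ≤ ((Z.filter (fun x => Q x (W.filter (fun y => s(x, y) ∈ S)))).card : ℝ))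
    (fun S h => by linarith)
  have h2 := st_exp 1 (p := p) A W Z hWZ hA Q
  rw [h2] at h1
  have h3 := st_prod_le 1 2 (fun q hq => by
    have := Real.exp_one_lt_d9
    nlinarith) hp0 hp1 W Z Q
  refine h1.trans ((mul_le_mul_of_nonneg_left h3 (Real.exp_pos _).le).trans ?_)
  rw [← Real.exp_add]
  apply Real.exp_le_exp.2
  linarith

/-- Lower tail for the number of `x ∈ Z` such that `N(x) ∩ W` has the property `Q x`.
Proof: Markov for `exp (- #)`: `E exp (- #) = ∏ (1 - (1 - 1/e) q_x) ≤ exp (- ∑ q_x / 2)`. -/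
lemma star_lower {p : ℝ} (hp0 : 0 ≤ p) (hp1 : p ≤ 1) (A : Finset (Sym2 (Fin n)))
    (W Z : Finset (Fin n)) (hWZ : Disjoint W Z) (hA : ∀ x ∈ Z, ∀ y ∈ W, s(x, y) ∈ A)
    (Q : Fin n → Finset (Fin n) → Prop) [∀ x, DecidablePred (Q x)] (k : ℝ) :
    pr p A (fun S => ((Z.filter (fun x => Q x (W.filter (fun y => s(x, y) ∈ S)))).card : ℝ) ≤ k)
      ≤ Real.exp (k - 1 / 2 * ∑ x ∈ Z, pr p W (Q x)) := by
  have h1 := st_markov (-1) k hp0 hp1 A
    (fun S => ((Z.filter (fun x => Q x (W.filter (fun y => s(x, y) ∈ S)))).card : ℝ))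
    (fun S => ((Z.filter (fun x => Q x (W.filter (fun y => s(x, y) ∈ S)))).card : ℝ) ≤ k)
    (fun S h => by linarith)
  have h2 := st_exp (-1) (p := p) A W Z hWZ hA Q
  rw [h2] at h1
  have h3 := st_prod_le (-1) (-(1 / 2)) (fun q hq => by
    have h5 : Real.exp (-1) ≤ 1 / 2 := by
      rw [Real.exp_neg]
      have := Real.exp_one_gt_d9
      rw [inv_le_comm₀ (Real.exp_pos 1) (by norm_num)]
      norm_num
      linarith
    nlinarith) hp0 hp1 W Z Q
  refine h1.trans ((mul_le_mul_of_nonneg_left h3 (Real.exp_pos _).le).trans ?_)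
  rw [← Real.exp_add]
  apply Real.exp_le_exp.2
  linarith

end Pool.Agent.CFX
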