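import Pool.Agent.CFX.SP
import Pool.Agent.CFX.SQ
import Pool.Agent.CFX.ST
import Pool.Agent.CFX.UN

/-! SF: systems with small weight have few fragile vertices -/

namespace Pool.Agent.CFX

open Finset Pool.Agent.MD437 Pool.Agent.CFC

variable {n m : ℕ} {p l : ℝ}

private lemma SF_pos (hB : Big n l) (h1 : l ^ 222 ≤ n * p) : 0 < p := by
  have h : 0 < (n : ℝ) * p := lt_of_lt_of_le (hB.pow_pos' 222) h1
  by_contra hc
  push Not at hc
  have := mul_nonpos_of_nonneg_of_nonpos hB.n_pos'.le hc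
  linarith

private lemma SF_small (hB : Big n l) (h2 : n * p ≤ l ^ 6000) : p ≤ 1 / 4 := by
  have h3 : l ^ 10000 = l ^ 4000 * l ^ 6000 := by rw [← pow_add]
  rw [← hB.pow, h3] at h2
  have h4 : 0 < l ^ 6000 := hB.pow_pos' 6000
  have h5 : l ^ 4000 * p ≤ 1 := by
    by_contra hc
    push Not at hc
    have : l ^ 6000 * 1 < l ^ 6000 * (l ^ 4000 * p) := mul_lt_mul_of_pos_left hc h4
    have e : l ^ 6000 * (l ^ 4000 * p) = l ^ 4000 * l ^ 6000 * p := by ring
    rw [e, mul_one] at this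
    exact absurd h2 (not_le.2 this)
  have h6 : (4 : ℝ) ≤ l ^ 4000 := by
    have h7 : (4 : ℝ) * l ^ 0 ≤ l ^ 4000 := hB.mul_pow_le (by norm_num) (by norm_num)
    rwa [pow_zero, mul_one] at h7
  by_contra hc
  push Not at hc
  have : 4 * (1 / 4 : ℝ) < l ^ 4000 * p := mul_lt_mul' h6 hc (by norm_num) (hB.pow_pos' 4000)
  linarith

/-- For a fixed system `c` with `wt p c ≤ l⁴ / (n p)`: by `star_upper` (`Q x T := |uT c T| ≤ K`,
`pr ≤ (m + 1)^K wt ≤ l · l⁴ / (n p)` because `(m + 1)^4000 ≤ (100 log n)^4000 ≤ l`) the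
probability that more than `l^7 / p` vertices outside `supp c` have at most `K` unique colours is
at most `exp (2 l^5 / p - l^7 / p) ≤ exp (- l^6 / p)`; `|supp c| ≤ m l / p ≤ l² / p`. Then
`union_sys`. -/
theorem sysfr_prob (hB : Big n l) (hp1 : p ≤ 1) (h1 : l ^ 222 ≤ n * p)
    (h2 : n * p ≤ l ^ 6000) (hm : (m : ℝ) ≤ 15 * Real.log n) {K : ℕ} (hK : K ≤ 4000) :
    pr p (E n) (fun S => ∃ c : Fin n → Option (Fin m), c ∈ Sys n m (l / p) ∧
      wt p c ≤ l ^ 4 / (n * p) ∧ l ^ 8 / p < ((fr S c K).card : ℝ)) ≤ 1 / (n : ℝ) ^ 5 := by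
  classical
  have hp0 : 0 < p := SF_pos hB h1
  have hp4 : p ≤ 1 / 4 := SF_small hB h2
  have hlog := hB.log_n_ge
  have hlg := hB.lg_le
  have hml : (m : ℝ) ≤ l := by linarith
  have hmn : m ≤ n := by
    have : (m : ℝ) ≤ n := hml.trans hB.l_le_n
    exact_mod_cast this
  have hm1 : ((m : ℝ) + 1) ^ K ≤ l := by
    have h3 : (m : ℝ) + 1 ≤ 100 * Real.log n := by linarith
    have h4 : (0 : ℝ) ≤ (m : ℝ) + 1 := by positivity
    exact (pow_le_pow_left₀ h4 h3 K).trans (hB.lg_pow (by omega))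
  refine union_sys hp0.le hp1 hB.two_le_n hmn _ fun c => ?_
  have hn0 := hB.n_pos'
  by_cases hc : c ∈ Sys n m (l / p) ∧ wt p c ≤ l ^ 4 / (n * p)
  swap
  · have h0 : pr p (E n) (fun S => c ∈ Sys n m (l / p) ∧
      wt p c ≤ l ^ 4 / (n * p) ∧ l ^ 8 / p < ((fr S c K).card : ℝ)) = 0 := by
      rw [pr_def]
      refine (ex_congr p fun S _ => ?_).trans (ex_const p (E n) 0)
      rw [if_neg]
      exact fun h => hc ⟨h.1, h.2.1⟩
    rw [h0]
    positivity
  obtain ⟨hc1, hc2⟩ := hc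
  have hsupp : ((supp c).card : ℝ) ≤ l ^ 2 / p := by
    refine (card_supp_le hc1).trans ?_
    have h3 : 0 < l / p := div_pos hB.pos hp0
    have h4 : (m : ℝ) * (l / p) ≤ l * (l / p) := mul_le_mul_of_nonneg_right hml h3.le
    refine h4.trans (le_of_eq ?_)
    ring
  have hpinv : 1 ≤ 1 / p := by
    rw [le_div_iff₀ hp0]
    linarith
  have key : pr p (E n) (fun S => c ∈ Sys n m (l / p) ∧
      wt p c ≤ l ^ 4 / (n * p) ∧ l ^ 8 / p < ((fr S c K).card : ℝ)) ≤
      pr p (E n) (fun S => l ^ 7 / p ≤ ((((supp c)ᶜ).filter (fun x =>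
        (fun (_ : Fin n) (T : Finset (Fin n)) => (uT c T).card ≤ K) x
          ((supp c).filter (fun y => s(x, y) ∈ S)))).card : ℝ)) := by
    refine pr_mono hp0.le hp1 fun S _ h => ?_
    obtain ⟨-, -, h5⟩ := h
    have h6 : fr S c K ⊆ supp c ∪ ((supp c)ᶜ).filter (fun x =>
        (uT c ((supp c).filter (fun y => s(x, y) ∈ S))).card ≤ K) := by
      intro x hx
      rw [mem_union]
      by_cases hxs : x ∈ supp c
      · exact Or.inl hxs
      · refine Or.inr ?_
        rw [mem_filter, mem_compl]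
        refine ⟨hxs, ?_⟩
        rw [← uq_eq_uT S c hxs]
        exact mem_fr.1 hx
    have h7 := (card_le_card h6).trans (card_union_le _ _)
    have h8 : ((fr S c K).card : ℝ) ≤ ((supp c).card : ℝ) +
        ((((supp c)ᶜ).filter (fun x =>
        (uT c ((supp c).filter (fun y => s(x, y) ∈ S))).card ≤ K)).card : ℝ) := by
      exact_mod_cast h7
    have h9 : l ^ 2 / p + l ^ 7 / p ≤ l ^ 8 / p := by
      rw [← add_div]
      refine div_le_div_of_nonneg_right ?_ hp0.le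
      have e1 : l ^ 2 ≤ l ^ 7 := hB.pow_le (by norm_num)
      have e2 : 2 * l ^ 7 ≤ l ^ 8 := hB.mul_pow_le (by norm_num) (by norm_num)
      linarith
    show l ^ 7 / p ≤ ((((supp c)ᶜ).filter (fun x =>
        (uT c ((supp c).filter (fun y => s(x, y) ∈ S))).card ≤ K)).card : ℝ)
    linarith
  refine key.trans ?_
  have hstar := star_upper hp0.le hp1 (E n) (supp c) (supp c)ᶜ disjoint_compl_right (by
    intro x hx y hy
    rw [mk_mem_E]
    rintro rfl
    exact (mem_compl.1 hx) hy)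
    (fun (_ : Fin n) (T : Finset (Fin n)) => (uT c T).card ≤ K) (l ^ 7 / p)
  refine hstar.trans ?_
  have hsum : ∑ x ∈ (supp c)ᶜ, pr p (supp c) (fun T => (uT c T).card ≤ K) ≤ l ^ 5 / p := by
    rw [sum_const, nsmul_eq_mul]
    have h3 := pr_uT_le hp0.le hp4 c K
    have h4 : pr p (supp c) (fun T => (uT c T).card ≤ K) ≤ l * (l ^ 4 / (n * p)) := by
      refine h3.trans ?_
      have h5 : 0 ≤ l ^ 4 / (n * p) := by
        have := hB.pow_pos' 4
        positivity
      calc ((m : ℝ) + 1) ^ K * wt p c ≤ ((m : ℝ) + 1) ^ K * (l ^ 4 / (n * p)) :=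
            mul_le_mul_of_nonneg_left hc2 (by positivity)
        _ ≤ l * (l ^ 4 / (n * p)) := mul_le_mul_of_nonneg_right hm1 h5
    have h5 : (((supp c)ᶜ.card : ℕ) : ℝ) ≤ n := by
      have : (supp c)ᶜ.card ≤ n := by
        have := card_le_univ (supp c)ᶜ
        rwa [Fintype.card_fin] at this
      exact_mod_cast this
    have h6 : 0 ≤ l * (l ^ 4 / (n * p)) := by
      have e1 := hB.pow_pos' 4
      have e2 := hB.pos
      positivity
    calc (((supp c)ᶜ.card : ℕ) : ℝ) * pr p (supp c) (fun T => (uT c T).card ≤ K)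
        ≤ (((supp c)ᶜ.card : ℕ) : ℝ) * (l * (l ^ 4 / (n * p))) :=
          mul_le_mul_of_nonneg_left h4 (Nat.cast_nonneg _)
      _ ≤ n * (l * (l ^ 4 / (n * p))) := mul_le_mul_of_nonneg_right h5 h6
      _ = l ^ 5 / p := by
          have e1 : (n : ℝ) ≠ 0 := hn0.ne'
          have e2 : p ≠ 0 := hp0.ne'
          have e3 : (n : ℝ) * (l * (l ^ 4 / (n * p))) = l ^ 4 * l / p := by
            field_simp
          rw [e3, ← pow_succ]
  have hexp : Real.exp (2 * ∑ x ∈ (supp c)ᶜ, pr p (supp c) (fun T => (uT c T).card ≤ K) -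
      l ^ 7 / p) ≤ Real.exp (-(l ^ 6 / p)) := by
    refine Real.exp_le_exp.2 ?_
    have e1 : 2 * (l ^ 5 / p) + l ^ 6 / p ≤ l ^ 7 / p := by
      have e2 : 2 * l ^ 5 ≤ l ^ 6 := hB.mul_pow_le (by norm_num) (by norm_num)
      have e3 : 2 * l ^ 6 ≤ l ^ 7 := hB.mul_pow_le (by norm_num) (by norm_num)
      have e4 : 2 * (l ^ 5 / p) + l ^ 6 / p = (2 * l ^ 5 + l ^ 6) / p := by ring
      rw [e4]
      refine div_le_div_of_nonneg_right ?_ hp0.le
      linarith
    linarith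
  refine hexp.trans (hB.exp_le' ?_)
  push_cast
  have e1 : l * (((supp c).card : ℝ) + 1) ≤ l * (l ^ 2 / p + 1 / p) :=
    mul_le_mul_of_nonneg_left (add_le_add hsupp hpinv) hB.pos.le
  refine e1.trans ?_
  have e2 : l * (l ^ 2 / p + 1 / p) = (l ^ 3 + l ^ 1) / p := by ring
  have e3 : 10 * (l ^ 6 / p) = 10 * l ^ 6 / p := by ring
  rw [e2, e3]
  refine div_le_div_of_nonneg_right ?_ hp0.le
  have e4 : l ^ 3 ≤ l ^ 6 := hB.pow_le (by norm_num)
  have e5 : l ^ 1 ≤ l ^ 6 := hB.pow_le (by norm_num)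
  have e6 := hB.pow_pos' 6
  linarith

end Pool.Agent.CFX
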