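import Pool.Agent.CFX.SB
import Pool.Agent.CFX.SF
import Pool.Agent.CFX.BC

/-! FS: colourings with few defects have few fragile vertices -/

namespace Pool.Agent.CFX

open Finset Pool.Agent.MD437 Pool.Agent.CFC

variable {n m : ℕ} {p l : ℝ}

private lemma fs_p_pos (hB : Big n l) (h1 : l ^ 222 ≤ n * p) : 0 < p := by
  have h3 : 0 < (n : ℝ) * p := lt_of_lt_of_le (hB.pow_pos' 222) h1
  exact (pos_iff_pos_of_mul_pos h3).1 hB.n_pos'

/-- From `sysbad_prob` and `sysfr_prob`. -/
theorem fragile_sys (hB : Big n l) (hp1 : p ≤ 1) (h1 : l ^ 222 ≤ n * p)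
    (h2 : n * p ≤ l ^ 6000) (hm : (m : ℝ) ≤ 15 * Real.log n) {K : ℕ} (hK : K ≤ 4000) :
    pr p (E n) (fun S => ∃ c : Fin n → Option (Fin m), c ∈ Sys n m (l / p) ∧
      ((bad S c).card : ℝ) ≤ l ^ 2 / p ∧ l ^ 8 / p < ((fr S c K).card : ℝ))
      ≤ 2 / (n : ℝ) ^ 5 := by
  have hp0 := (fs_p_pos hB h1).le
  have ha := sysbad_prob hB hp1 h1 h2 hm
  have hb := sysfr_prob hB hp1 h1 h2 hm hK
  refine (pr_mono hp0 hp1 ?_).trans ((pr_or hp0 hp1 (E n)
    (fun S => ∃ c : Fin n → Option (Fin m), c ∈ Sys n m (l / p) ∧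
      ((bad S c).card : ℝ) ≤ l ^ 2 / p ∧ l ^ 4 / (n * p) < wt p c)
    (fun S => ∃ c : Fin n → Option (Fin m), c ∈ Sys n m (l / p) ∧
      wt p c ≤ l ^ 4 / (n * p) ∧ l ^ 8 / p < ((fr S c K).card : ℝ))).trans ?_)
  · rintro S _ ⟨c, hc, hc1, hc2⟩
    rcases lt_or_ge (l ^ 4 / (n * p)) (wt p c) with h | h
    · exact Or.inl ⟨c, hc, hc1, h⟩
    · exact Or.inr ⟨c, hc, h, hc2⟩
  · calc _ ≤ 1 / (n : ℝ) ^ 5 + 1 / (n : ℝ) ^ 5 := add_le_add ha hb
      _ = 2 / (n : ℝ) ^ 5 := by ring

/-- remove the classes of size more than `b` -/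
private noncomputable def cut (c : Fin n → Option (Fin m)) (b : ℝ) : Fin n → Option (Fin m) := by
  classical exact fun x => if ∃ j, c x = some j ∧ b < ((cls c j).card : ℝ) then none else c x

private lemma cls_cut_big (c : Fin n → Option (Fin m)) (b : ℝ) {j : Fin m}
    (hj : b < ((cls c j).card : ℝ)) : cls (cut c b) j = ∅ := by
  classical
  rw [eq_empty_iff_forall_notMem]
  intro y hy
  rw [mem_cls] at hy
  unfold cut at hy
  split_ifs at hy with h
  exact h ⟨j, hy, hj⟩

private lemma cls_cut_small (c : Fin n → Option (Fin m)) (b : ℝ) {j : Fin m}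
    (hj : ¬ b < ((cls c j).card : ℝ)) : cls (cut c b) j = cls c j := by
  classical
  ext y
  rw [mem_cls, mem_cls]
  unfold cut
  split_ifs with h
  · obtain ⟨i, hi, hb⟩ := h
    constructor
    · intro h; exact absurd h (by simp)
    · intro h
      rw [hi] at h
      have := Option.some.inj h
      subst this
      exact absurd hb hj
  · rfl

private lemma cut_mem_Sys (c : Fin n → Option (Fin m)) {b : ℝ} (hb : 0 ≤ b) :
    cut c b ∈ Sys n m b := by
  rw [mem_Sys]
  intro j
  by_cases hj : b < ((cls c j).card : ℝ)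
  · rw [cls_cut_big c b hj]; simpa using hb
  · rw [cls_cut_small c b hj]; exact not_lt.1 hj

private lemma mem_uq_cut (S : Finset (Sym2 (Fin n))) (c : Fin n → Option (Fin m)) (b : ℝ)
    {x : Fin n} {j : Fin m} :
    j ∈ uq S (cut c b) x ↔ j ∈ uq S c x ∧ ¬ b < ((cls c j).card : ℝ) := by
  rw [mem_uq, mem_uq]
  by_cases hj : b < ((cls c j).card : ℝ)
  · rw [cls_cut_big c b hj]
    simp [hj]
  · rw [cls_cut_small c b hj]
    simp [hj]

private lemma fr_cut (S : Finset (Sym2 (Fin n))) (c : Fin n → Option (Fin m)) (b : ℝ) (K : ℕ) :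
    fr S c K ⊆ fr S (cut c b) K := by
  intro x hx
  rw [mem_fr] at hx ⊢
  refine (card_le_card ?_).trans hx
  intro j hj
  exact ((mem_uq_cut S c b).1 hj).1

private lemma bad_cut (S : Finset (Sym2 (Fin n))) (c : Fin n → Option (Fin m)) (b M : ℝ)
    (hM0 : 0 ≤ M)
    (hM : ∀ C : Finset (Fin n), b ≤ C.card → ((see1 S C).card : ℝ) ≤ M) :
    ((bad S (cut c b)).card : ℝ) ≤ (bad S c).card + m * M := by
  classical
  have hsub : bad S (cut c b) ⊆ bad S c ∪
      (univ.filter (fun j : Fin m => b < ((cls c j).card : ℝ))).biUnion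
        (fun j => see1 S (cls c j)) := by
    intro x hx
    rw [mem_bad] at hx
    rw [mem_union]
    by_cases h : uq S c x = ∅
    · exact Or.inl (mem_bad.2 h)
    · right
      obtain ⟨j, hj⟩ := nonempty_iff_ne_empty.2 h
      have hbig : b < ((cls c j).card : ℝ) := by
        by_contra hb
        have : j ∈ uq S (cut c b) x := (mem_uq_cut S c b).2 ⟨hj, hb⟩
        rw [hx] at this
        exact absurd this (notMem_empty _)
      rw [mem_biUnion]
      refine ⟨j, mem_filter.2 ⟨mem_univ _, hbig⟩, ?_⟩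
      rw [see1, mem_filter]
      exact ⟨mem_univ _, mem_uq.1 hj⟩
  have h1 : ((bad S (cut c b)).card : ℝ) ≤ (bad S c).card +
      ((univ.filter (fun j : Fin m => b < ((cls c j).card : ℝ))).biUnion
        (fun j => see1 S (cls c j))).card := by
    exact_mod_cast (card_le_card hsub).trans (card_union_le _ _)
  have h2 : (((univ.filter (fun j : Fin m => b < ((cls c j).card : ℝ))).biUnion
        (fun j => see1 S (cls c j))).card : ℝ) ≤
      ∑ j ∈ univ.filter (fun j : Fin m => b < ((cls c j).card : ℝ)),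
        ((see1 S (cls c j)).card : ℝ) := by
    exact_mod_cast card_biUnion_le
  have h3 : ∑ j ∈ univ.filter (fun j : Fin m => b < ((cls c j).card : ℝ)),
        ((see1 S (cls c j)).card : ℝ) ≤
      ∑ _j ∈ univ.filter (fun j : Fin m => b < ((cls c j).card : ℝ)), M :=
    sum_le_sum fun j hj => hM _ (mem_filter.1 hj).2.le
  have h4 : ∑ _j ∈ univ.filter (fun j : Fin m => b < ((cls c j).card : ℝ)), M ≤ m * M := by
    rw [sum_const, nsmul_eq_mul]
    refine mul_le_mul_of_nonneg_right ?_ hM0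
    have : (univ.filter (fun j : Fin m => b < ((cls c j).card : ℝ))).card ≤ m := by
      refine (card_filter_le _ _).trans ?_
      simp
    exact_mod_cast this
  linarith

/-- Deterministic part: remove the classes of size more than `l / p` (make them neutral). The
unique colours only get fewer, so `fr S c K ⊆ fr S c' K`, and
`bad S c' ⊆ bad S c ∪ ⋃_j see1 S (cls c j)` over the removed classes. By `big_prob` there are at
most `m * 16 log n / p` vertices in the union, and `l / p + 240 (log n)² / p ≤ l² / p`. -/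
theorem fragile_all (hB : Big n l) (hp1 : p ≤ 1) (h1 : l ^ 222 ≤ n * p)
    (h2 : n * p ≤ l ^ 6000) (hm : (m : ℝ) ≤ 15 * Real.log n) {K : ℕ} (hK : K ≤ 4000) :
    pr p (E n) (fun S => ∃ c : Fin n → Option (Fin m), ((bad S c).card : ℝ) ≤ l / p ∧
      l ^ 8 / p < ((fr S c K).card : ℝ)) ≤ 3 / (n : ℝ) ^ 5 := by
  have hp := fs_p_pos hB h1
  have hp0 := hp.le
  have ha := fragile_sys hB hp1 h1 h2 hm hK
  have hb := big_prob hB hp1 h1 h2
  refine (pr_mono hp0 hp1 ?_).trans ((pr_or hp0 hp1 (E n)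
    (fun S => ∃ c : Fin n → Option (Fin m), c ∈ Sys n m (l / p) ∧
      ((bad S c).card : ℝ) ≤ l ^ 2 / p ∧ l ^ 8 / p < ((fr S c K).card : ℝ))
    (fun S => ∃ C : Finset (Fin n), l / p ≤ C.card ∧
      16 * Real.log n / p < ((see1 S C).card : ℝ))).trans ?_)
  · rintro S _ ⟨c, hc1, hc2⟩
    by_cases hbig : ∃ C : Finset (Fin n), l / p ≤ C.card ∧
      16 * Real.log n / p < ((see1 S C).card : ℝ)
    · exact Or.inr hbig
    · left
      push Not at hbig
      have hl := hB.pos
      have hlog : 10000 ≤ Real.log n := hB.log_n_ge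
      have hM0 : 0 ≤ 16 * Real.log n / p := by positivity
      refine ⟨cut c (l / p), cut_mem_Sys c (by positivity), ?_, ?_⟩
      · refine (bad_cut S c (l / p) (16 * Real.log n / p) hM0 hbig).trans ?_
        have e1 : (m : ℝ) * (16 * Real.log n / p) ≤
            15 * Real.log n * (16 * Real.log n / p) := mul_le_mul_of_nonneg_right hm hM0
        have e2 : 15 * Real.log n * (16 * Real.log n / p) = 240 * (Real.log n) ^ 2 / p := by ring
        have e3 : (100 * Real.log n) ^ 2 ≤ l := hB.lg_pow (by norm_num)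
        have e4 : l + 240 * (Real.log n) ^ 2 ≤ l ^ 2 := by
          have h9 := hB.big
          nlinarith [sq_nonneg (Real.log n)]
        have e5 : l / p + 240 * (Real.log n) ^ 2 / p ≤ l ^ 2 / p := by
          rw [← add_div]
          exact div_le_div_of_nonneg_right e4 hp0
        linarith
      · refine hc2.trans_le ?_
        exact_mod_cast card_le_card (fr_cut S c (l / p) K)
  · calc _ ≤ 2 / (n : ℝ) ^ 5 + 1 / (n : ℝ) ^ 5 := add_le_add ha hb
      _ = 3 / (n : ℝ) ^ 5 := by ring

end Pool.Agent.CFX
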