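import Pool.Agent.CFX.Props

/-! GR: greedy choice of neighbours for a small set -/

namespace Pool.Agent.CFX

open Finset Pool.Agent.MD437 Pool.Agent.CFC

variable {n m : ℕ}

private lemma GR_cl_nb {S : Finset (Sym2 (Fin n))} {κ : ℝ} (hcod : CodOK κ S) {x e : Fin n}
    (h : x ≠ e) : ((cl S x ∩ nb S e).card : ℝ) ≤ κ + 1 := by
  have h1 : cl S x ∩ nb S e ⊆ insert x (nb S x ∩ nb S e) := by
    intro y hy
    rw [mem_inter, cl, mem_insert] at hy
    rw [mem_insert, mem_inter]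
    rcases hy.1 with h1 | h1
    · exact Or.inl h1
    · exact Or.inr ⟨h1, hy.2⟩
  have h2 : (cl S x ∩ nb S e).card ≤ (nb S x ∩ nb S e).card + 1 :=
    (card_le_card h1).trans (card_insert_le _ _)
  have h3 : ((cl S x ∩ nb S e).card : ℝ) ≤ ((nb S x ∩ nb S e).card : ℝ) + 1 := by exact_mod_cast h2
  linarith [hcod x e h]

private lemma GR_cl_cl {S : Finset (Sym2 (Fin n))} {κ : ℝ} (hcod : CodOK κ S) {x y : Fin n}
    (h : x ≠ y) : ((cl S x ∩ cl S y).card : ℝ) ≤ κ + 2 := by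
  have h1 : cl S x ∩ cl S y ⊆ insert x (insert y (nb S x ∩ nb S y)) := by
    intro z hz
    rw [mem_inter, cl, cl, mem_insert, mem_insert] at hz
    rw [mem_insert, mem_insert, mem_inter]
    rcases hz.1 with h1 | h1
    · exact Or.inl h1
    · rcases hz.2 with h2 | h2
      · exact Or.inr (Or.inl h2)
      · exact Or.inr (Or.inr ⟨h1, h2⟩)
  have h2 : (cl S x ∩ cl S y).card ≤ (nb S x ∩ nb S y).card + 1 + 1 :=
    (card_le_card h1).trans ((card_insert_le _ _).trans (Nat.add_le_add_right (card_insert_le _ _) 1))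
  have h3 : ((cl S x ∩ cl S y).card : ℝ) ≤ ((nb S x ∩ nb S y).card : ℝ) + 1 + 1 := by
    exact_mod_cast h2
  linarith [hcod x y h]

/-- vertices of `X` which see `T` -/
private lemma GR_see {S : Finset (Sym2 (Fin n))} {KE : ℝ} {X T : Finset (Fin n)}
    (hT : ∀ w ∈ T, ((cl S w ∩ X).card : ℝ) ≤ KE) :
    ((X.filter (fun z => (cl S z ∩ T).Nonempty)).card : ℝ) ≤ T.card * KE := by
  have h1 : X.filter (fun z => (cl S z ∩ T).Nonempty) ⊆ T.biUnion (fun w => cl S w ∩ X) := by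
    intro z hz
    rw [mem_filter] at hz
    obtain ⟨hz1, w, hw⟩ := hz
    rw [mem_inter] at hw
    rw [mem_biUnion]
    exact ⟨w, hw.2, mem_inter.2 ⟨mem_cl_comm.1 hw.1, hz1⟩⟩
  have h2 : ((X.filter (fun z => (cl S z ∩ T).Nonempty)).card : ℝ)
      ≤ ∑ w ∈ T, ((cl S w ∩ X).card : ℝ) := by
    exact_mod_cast (card_le_card h1).trans card_biUnion_le
  refine h2.trans ((sum_le_sum hT).trans (le_of_eq ?_))
  rw [sum_const, nsmul_eq_mul]

/-- neighbours of `e` hit by a set `Z` not containing `e` -/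
private lemma GR_hit {S : Finset (Sym2 (Fin n))} {κ : ℝ} (hcod : CodOK κ S) {e : Fin n}
    {Z : Finset (Fin n)} (he : e ∉ Z) :
    (((nb S e).filter (fun w => ∃ z ∈ Z, w ∈ cl S z)).card : ℝ) ≤ Z.card * (κ + 1) := by
  have h1 : (nb S e).filter (fun w => ∃ z ∈ Z, w ∈ cl S z) ⊆ Z.biUnion (fun z => cl S z ∩ nb S e) := by
    intro w hw
    rw [mem_filter] at hw
    obtain ⟨hw1, z, hz, hwz⟩ := hw
    rw [mem_biUnion]
    exact ⟨z, hz, mem_inter.2 ⟨hwz, hw1⟩⟩
  have h2 : (((nb S e).filter (fun w => ∃ z ∈ Z, w ∈ cl S z)).card : ℝ)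
      ≤ ∑ z ∈ Z, ((cl S z ∩ nb S e).card : ℝ) := by
    exact_mod_cast (card_le_card h1).trans card_biUnion_le
  have h3 : ∑ z ∈ Z, ((cl S z ∩ nb S e).card : ℝ) ≤ ∑ _z ∈ Z, (κ + 1) :=
    sum_le_sum fun z hz => GR_cl_nb hcod (fun h => he (h ▸ hz))
  rw [sum_const, nsmul_eq_mul] at h3
  exact h2.trans h3

/-- neighbours of `e` with many vertices of `X` -/
private lemma GR_many {S : Finset (Sym2 (Fin n))} {d κ x0 KE : ℝ} (hκ : 0 ≤ κ) (hK : 0 < KE)
    (hd : 0 < d) (hdeg : DegOK d S) (hcod : CodOK κ S) {X : Finset (Fin n)}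
    (hX : (X.card : ℝ) ≤ x0) (h1 : 8 * (x0 * (κ + 1) + 2 * d) ≤ d * KE) (e : Fin n) :
    (((nb S e).filter (fun w => KE < ((cl S w ∩ X).card : ℝ))).card : ℝ) ≤ d / 8 := by
  classical
  set F := (nb S e).filter (fun w => KE < ((cl S w ∩ X).card : ℝ)) with hF
  have a1 : (F.card : ℝ) * KE ≤ ∑ w ∈ nb S e, ((cl S w ∩ X).card : ℝ) := by
    calc (F.card : ℝ) * KE = ∑ _w ∈ F, KE := by rw [sum_const, nsmul_eq_mul]
      _ ≤ ∑ w ∈ F, ((cl S w ∩ X).card : ℝ) := sum_le_sum fun w hw => (mem_filter.1 hw).2.le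
      _ ≤ ∑ w ∈ nb S e, ((cl S w ∩ X).card : ℝ) :=
        sum_le_sum_of_subset_of_nonneg (filter_subset _ _) fun _ _ _ => Nat.cast_nonneg _
  have a2 : ∑ w ∈ nb S e, (cl S w ∩ X).card = ∑ x ∈ X, (cl S x ∩ nb S e).card := by
    have e1 : ∀ w, (cl S w ∩ X).card = ∑ x ∈ X, if x ∈ cl S w then 1 else 0 := by
      intro w
      rw [← card_filter]
      congr 1
      ext y
      rw [mem_inter, mem_filter, and_comm]
    have e2 : ∀ x, (cl S x ∩ nb S e).card = ∑ w ∈ nb S e, if w ∈ cl S x then 1 else 0 := by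
      intro x
      rw [← card_filter]
      congr 1
      ext y
      rw [mem_inter, mem_filter, and_comm]
    simp only [e1, e2]
    rw [sum_comm]
    refine sum_congr rfl fun x _ => sum_congr rfl fun w _ => ?_
    simp only [mem_cl_comm (x := w) (y := x)]
  have a3 : (∑ x ∈ X, ((cl S x ∩ nb S e).card : ℝ)) ≤ x0 * (κ + 1) + 2 * d := by
    have b1 : ∀ x ∈ X, ((cl S x ∩ nb S e).card : ℝ) ≤ (κ + 1) + if x = e then 2 * d else 0 := by
      intro x _
      by_cases hx : x = e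
      · rw [if_pos hx]
        have : ((cl S x ∩ nb S e).card : ℝ) ≤ ((nb S e).card : ℝ) := by
          exact_mod_cast card_le_card inter_subset_right
        linarith [(hdeg e).2]
      · rw [if_neg hx, add_zero]
        exact GR_cl_nb hcod hx
    refine (sum_le_sum b1).trans ?_
    rw [sum_add_distrib, sum_const, nsmul_eq_mul]
    have b2 : (∑ x ∈ X, if x = e then 2 * d else 0) ≤ 2 * d := by
      rw [Finset.sum_ite_eq']
      split_ifs
      · exact le_refl _
      · linarith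
    have b3 : (X.card : ℝ) * (κ + 1) ≤ x0 * (κ + 1) := mul_le_mul_of_nonneg_right hX (by linarith)
    linarith
  have a4 : (∑ w ∈ nb S e, ((cl S w ∩ X).card : ℝ)) = ∑ x ∈ X, ((cl S x ∩ nb S e).card : ℝ) := by
    exact_mod_cast a2
  have a5 : (F.card : ℝ) * KE ≤ d / 8 * KE := by
    rw [a4] at a1
    linarith
  exact le_of_mul_le_mul_right a5 hK

private lemma GR_step {S : Finset (Sym2 (Fin n))} {d κ e0 x0 KE : ℝ} (hd : 0 < d) (hκ : 0 ≤ κ)
    (hK : 0 < KE) (hdeg : DegOK d S) (hcod : CodOK κ S) {X T : Finset (Fin n)}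
    (hX : (X.card : ℝ) ≤ x0)
    (h1 : 8 * (x0 * (κ + 1) + 2 * d) ≤ d * KE) (h2 : 16 * (e0 * KE * (κ + 2)) ≤ d)
    (h3 : 16 * (e0 ^ 2 * (κ + 2) ^ 2) ≤ d) (hT : (T.card : ℝ) ≤ e0)
    (hTK : ∀ w ∈ T, ((cl S w ∩ X).card : ℝ) ≤ KE) (e : Fin n) (he : cl S e ∩ T = ∅) :
    ∃ w ∈ nb S e, ((cl S w ∩ X).card : ℝ) ≤ KE ∧
      (∀ z ∈ X, (cl S z ∩ T).Nonempty → w ∉ cl S z) ∧
      (∀ z, 2 ≤ (cl S z ∩ T).card → w ∉ cl S z) := by
  classical
  by_contra hcon
  push Not at hcon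
  set Z2 := X.filter (fun z => (cl S z ∩ T).Nonempty) with hZ2
  set Z3 := (univ : Finset (Fin n)).filter (fun z => 2 ≤ (cl S z ∩ T).card) with hZ3
  have e2 : e ∉ Z2 := by
    rw [hZ2, mem_filter, he]
    simp
  have e3 : e ∉ Z3 := by
    rw [hZ3, mem_filter, he]
    simp
  have hcover : nb S e ⊆ ((nb S e).filter (fun w => KE < ((cl S w ∩ X).card : ℝ))) ∪
      (((nb S e).filter (fun w => ∃ z ∈ Z2, w ∈ cl S z)) ∪
        ((nb S e).filter (fun w => ∃ z ∈ Z3, w ∈ cl S z))) := by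
    intro w hw
    rw [mem_union, mem_union, mem_filter, mem_filter, mem_filter]
    by_cases c1 : KE < ((cl S w ∩ X).card : ℝ)
    · exact Or.inl ⟨hw, c1⟩
    · right
      by_cases c2 : ∃ z ∈ Z2, w ∈ cl S z
      · exact Or.inl ⟨hw, c2⟩
      · right
        refine ⟨hw, ?_⟩
        obtain ⟨z, hz1, hz2⟩ := hcon w hw (not_lt.1 c1) (by
          intro z hz hzn hwz
          exact c2 ⟨z, mem_filter.2 ⟨hz, hzn⟩, hwz⟩)
        exact ⟨z, mem_filter.2 ⟨mem_univ _, hz1⟩, hz2⟩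
  have c0 := (card_le_card hcover).trans ((card_union_le _ _).trans
    (Nat.add_le_add_left (card_union_le _ _) _))
  have c0' : ((nb S e).card : ℝ) ≤ (((nb S e).filter (fun w => KE < ((cl S w ∩ X).card : ℝ))).card : ℝ)
      + ((((nb S e).filter (fun w => ∃ z ∈ Z2, w ∈ cl S z)).card : ℝ) +
        (((nb S e).filter (fun w => ∃ z ∈ Z3, w ∈ cl S z)).card : ℝ)) := by exact_mod_cast c0
  have c1 := GR_many hκ hK hd hdeg hcod hX h1 e
  have c2 := GR_hit hcod e2
  have c3 := GR_hit hcod e3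
  have e0n : 0 ≤ e0 := le_trans (Nat.cast_nonneg _) hT
  have d2 : (Z2.card : ℝ) ≤ e0 * KE := (GR_see hTK).trans (mul_le_mul_of_nonneg_right hT hK.le)
  have d2' : (Z2.card : ℝ) * (κ + 1) ≤ d / 16 := by
    have : (Z2.card : ℝ) * (κ + 1) ≤ e0 * KE * (κ + 2) :=
      mul_le_mul d2 (by linarith) (by linarith) (by positivity)
    linarith
  have d3 : (Z3.card : ℝ) ≤ e0 ^ 2 * (κ + 2) := by
    have f1 : Z3 ⊆ T.offDiag.biUnion (fun q => cl S q.1 ∩ cl S q.2) := by
      intro z hz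
      rw [hZ3, mem_filter] at hz
      obtain ⟨a, ha, b, hb, hab⟩ := one_lt_card.1 (Nat.lt_of_succ_le hz.2)
      rw [mem_inter] at ha hb
      rw [mem_biUnion]
      refine ⟨(a, b), mem_offDiag.2 ⟨ha.2, hb.2, hab⟩, ?_⟩
      exact mem_inter.2 ⟨mem_cl_comm.1 ha.1, mem_cl_comm.1 hb.1⟩
    have f2 : (Z3.card : ℝ) ≤ ∑ q ∈ T.offDiag, ((cl S q.1 ∩ cl S q.2).card : ℝ) := by
      exact_mod_cast (card_le_card f1).trans card_biUnion_le
    have f3 : ∑ q ∈ T.offDiag, ((cl S q.1 ∩ cl S q.2).card : ℝ) ≤ ∑ _q ∈ T.offDiag, (κ + 2) :=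
      sum_le_sum fun q hq => GR_cl_cl hcod (mem_offDiag.1 hq).2.2
    rw [sum_const, nsmul_eq_mul] at f3
    have f4 : ((T.offDiag.card : ℕ) : ℝ) ≤ e0 ^ 2 := by
      have : T.offDiag.card ≤ T.card * T.card := by
        rw [offDiag_card]
        exact Nat.sub_le _ _
      have h' : ((T.offDiag.card : ℕ) : ℝ) ≤ (T.card : ℝ) * T.card := by exact_mod_cast this
      have h'' : (T.card : ℝ) * T.card ≤ e0 * e0 := mul_le_mul hT hT (Nat.cast_nonneg _) e0n
      rw [pow_two]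
      linarith
    exact f2.trans (f3.trans (mul_le_mul_of_nonneg_right f4 (by linarith)))
  have d3' : (Z3.card : ℝ) * (κ + 1) ≤ d / 16 := by
    have g1 : (Z3.card : ℝ) * (κ + 1) ≤ e0 ^ 2 * (κ + 2) * (κ + 2) :=
      mul_le_mul d3 (by linarith) (by linarith) (by positivity)
    have g2 : e0 ^ 2 * (κ + 2) * (κ + 2) = e0 ^ 2 * (κ + 2) ^ 2 := by ring
    linarith
  have := (hdeg e).1
  linarith

private lemma GR_ind {S : Finset (Sym2 (Fin n))} {d κ e0 x0 KE : ℝ} (hd : 0 < d) (hκ : 0 ≤ κ)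
    (hK : 0 < KE) (hdeg : DegOK d S) (hcod : CodOK κ S) {A X : Finset (Fin n)} (hAX : A ⊆ X)
    (hA : (A.card : ℝ) ≤ e0) (hX : (X.card : ℝ) ≤ x0)
    (h1 : 8 * (x0 * (κ + 1) + 2 * d) ≤ d * KE) (h2 : 16 * (e0 * KE * (κ + 2)) ≤ d)
    (h3 : 16 * (e0 ^ 2 * (κ + 2) ^ 2) ≤ d) (A' : Finset (Fin n)) (hA' : A' ⊆ A) :
    ∃ T : Finset (Fin n), T.card ≤ A'.card ∧ (∀ e ∈ A', (cl S e ∩ T).card = 1) ∧
      (∀ z ∈ X, (cl S z ∩ T).card ≤ 1) ∧ (∀ z, (cl S z ∩ T).card ≤ 2) ∧
      (∀ w ∈ T, ((cl S w ∩ X).card : ℝ) ≤ KE) := by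
  classical
  induction A' using Finset.induction_on with
  | empty =>
    refine ⟨∅, le_refl _, ?_, ?_, ?_, ?_⟩
    · intro e he; exact absurd he (notMem_empty _)
    · intro z _; simp
    · intro z; simp
    · intro w hw; exact absurd hw (notMem_empty _)
  | insert e A'' heA ih =>
    obtain ⟨T, hT0, hT1, hT2, hT3, hT4⟩ := ih ((subset_insert _ _).trans hA')
    have heX : e ∈ X := hAX (hA' (mem_insert_self _ _))
    rw [card_insert_of_notMem heA]
    by_cases hne : (cl S e ∩ T).Nonempty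
    · refine ⟨T, by omega, ?_, hT2, hT3, hT4⟩
      intro e' he'
      rcases mem_insert.1 he' with h | h
      · subst h
        have := hT2 e' heX
        have h' := card_pos.2 hne
        omega
      · exact hT1 e' h
    · rw [not_nonempty_iff_eq_empty] at hne
      have hTe : (T.card : ℝ) ≤ e0 := by
        have : T.card ≤ A.card := hT0.trans (card_le_card ((subset_insert _ _).trans hA'))
        have h' : (T.card : ℝ) ≤ A.card := by exact_mod_cast this
        linarith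
      obtain ⟨w, hw, hw1, hw2, hw3⟩ :=
        GR_step hd hκ hK hdeg hcod hX h1 h2 h3 hTe hT4 e hne
      have hwe : w ∈ cl S e := nb_sub_cl S e hw
      have key : ∀ z, w ∉ cl S z → cl S z ∩ insert w T = cl S z ∩ T := by
        intro z hz
        ext y
        rw [mem_inter, mem_inter, mem_insert]
        constructor
        · rintro ⟨h1, h2⟩
          refine ⟨h1, ?_⟩
          rcases h2 with h2 | h2
          · exact absurd (h2 ▸ h1) hz
          · exact h2
        · rintro ⟨h1, h2⟩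
          exact ⟨h1, Or.inr h2⟩
      have key2 : ∀ z, (cl S z ∩ insert w T).card ≤ (cl S z ∩ T).card + 1 := by
        intro z
        have : cl S z ∩ insert w T ⊆ insert w (cl S z ∩ T) := by
          intro y hy
          rw [mem_inter, mem_insert] at hy
          rw [mem_insert, mem_inter]
          rcases hy.2 with h | h
          · exact Or.inl h
          · exact Or.inr ⟨hy.1, h⟩
        exact (card_le_card this).trans (card_insert_le _ _)
      refine ⟨insert w T, ?_, ?_, ?_, ?_, ?_⟩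
      · exact (card_insert_le _ _).trans (by omega)
      · intro e' he'
        rcases mem_insert.1 he' with h | h
        · subst h
          have h5 : 0 < (cl S e' ∩ insert w T).card :=
            card_pos.2 ⟨w, mem_inter.2 ⟨hwe, mem_insert_self _ _⟩⟩
          have h6 := key2 e'
          rw [hne, card_empty] at h6
          omega
        · have h5 := hT1 e' h
          have h6 : (cl S e' ∩ T).Nonempty := card_pos.1 (by omega)
          have h7 : e' ∈ X := hAX (hA' (mem_insert_of_mem h))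
          rw [key e' (hw2 e' h7 h6)]
          exact h5
      · intro z hz
        by_cases hzn : (cl S z ∩ T).Nonempty
        · rw [key z (hw2 z hz hzn)]
          exact hT2 z hz
        · rw [not_nonempty_iff_eq_empty] at hzn
          have := key2 z
          rw [hzn, card_empty] at this
          omega
      · intro z
        by_cases hz2 : 2 ≤ (cl S z ∩ T).card
        · rw [key z (hw3 z hz2)]
          exact hT3 z
        · have := key2 z
          omega
      · intro v hv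
        rcases mem_insert.1 hv with h | h
        · rw [h]; exact hw1
        · exact hT4 v h

/-- Induction over `A`: we add the elements `e` of `A` one by one and keep a set `T` with
* `|T| ≤` the number of treated elements, every treated `e` has `|N[e] ∩ T| = 1`;
* `|N[z] ∩ T| ≤ 1` for `z ∈ X`, `|N[z] ∩ T| ≤ 2` for all `z`;
* every `w ∈ T` has `|N[w] ∩ X| ≤ KE`.
If `N[e]` meets `T` already nothing is done (then `|N[e] ∩ T| = 1` as `e ∈ X`). Otherwise we need
`w ∈ N(e)` with (1) `|N[w] ∩ X| ≤ KE`; (2) `w ∉ N[z]` for all `z ∈ X` with `N[z] ∩ T ≠ ∅`;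
(3) `w ∉ N[z]` for all `z` with `|N[z] ∩ T| ≥ 2`. The numbers of `w ∈ N(e)` violating them:
(1) `∑_{w ∈ N(e)} |N[w] ∩ X| = ∑_{x ∈ X} |N[x] ∩ N(e)| ≤ x0 (κ + 1) + 2 d`, so at most
`(x0 (κ + 1) + 2 d) / KE ≤ d / 8`; (2) these `z` are at most `e0 KE` and different from `e`, so at
most `e0 KE (κ + 1) ≤ d / 16`; (3) these `z` are in `N[w] ∩ N[w']` for two distinct `w, w' ∈ T`,
so at most `e0² (κ + 2)` of them, different from `e`: at most `e0² (κ + 2) (κ + 1) ≤ d / 16`.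
Together at most `d / 4 < d / 2 ≤ |N(e)|`. The last claim: a vertex `z ∈ X` with `N[z] ∩ T ≠ ∅` is
in `N[w] ∩ X` for some `w ∈ T`. -/
theorem greedy (S : Finset (Sym2 (Fin n))) {d κ e0 x0 KE : ℝ} (hd : 0 < d) (hκ : 0 ≤ κ)
    (hK : 0 < KE) (hdeg : DegOK d S) (hcod : CodOK κ S) (A X : Finset (Fin n)) (hAX : A ⊆ X)
    (hA : (A.card : ℝ) ≤ e0) (hX : (X.card : ℝ) ≤ x0)
    (h1 : 8 * (x0 * (κ + 1) + 2 * d) ≤ d * KE) (h2 : 16 * (e0 * KE * (κ + 2)) ≤ d)
    (h3 : 16 * (e0 ^ 2 * (κ + 2) ^ 2) ≤ d) :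
    ∃ T : Finset (Fin n), (∀ e ∈ A, (cl S e ∩ T).card = 1) ∧
      (∀ z ∈ X, (cl S z ∩ T).card ≤ 1) ∧ (∀ z, (cl S z ∩ T).card ≤ 2) ∧
      ((X.filter (fun z => (cl S z ∩ T).Nonempty)).card : ℝ) ≤ e0 * KE := by
  obtain ⟨T, t0, t1, t2, t3, t4⟩ := GR_ind hd hκ hK hdeg hcod hAX hA hX h1 h2 h3 A (Finset.Subset.refl A)
  refine ⟨T, t1, t2, t3, (GR_see t4).trans (mul_le_mul_of_nonneg_right ?_ hK.le)⟩
  have : (T.card : ℝ) ≤ A.card := by exact_mod_cast t0
  linarith

end Pool.Agent.CFX
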