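import Pool.Agent.CFX.ST
import Pool.Agent.CFX.UN

/-! H1: the property `h1` -/

namespace Pool.Agent.CFX

open Finset Pool.Agent.MD437 Pool.Agent.CFC

variable {n m : ℕ} {p l : ℝ}

private lemma H1_two {ι : Type*} [DecidableEq ι] (p : ℝ) {A : Finset ι} {y z : ι} (hy : y ∈ A)
    (hz : z ∈ A) (h : y ≠ z) : pr p A (fun T => y ∈ T ∧ z ∈ T) = p ^ 2 := by
  have hA : A = insert y (A.erase y) := (Finset.insert_erase hy).symm
  rw [pr_def, hA, ex_insert p (Finset.notMem_erase y A)]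
  have h1 : ex p (A.erase y) (fun S => if y ∈ S ∧ z ∈ S then (1 : ℝ) else 0) = 0 := by
    refine (ex_congr p fun S hS => ?_).trans (ex_const p (A.erase y) 0)
    rw [if_neg (fun h => Finset.notMem_erase y A (hS h.1))]
  have h2 : ex p (A.erase y)
      (fun S => if y ∈ insert y S ∧ z ∈ insert y S then (1 : ℝ) else 0) = p := by
    refine (ex_congr p fun S _ => ?_).trans
      (ex_mem p (A := A.erase y) (e := z) (Finset.mem_erase.2 ⟨h.symm, hz⟩))
    have : (y ∈ insert y S ∧ z ∈ insert y S) ↔ z ∈ S := by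
      rw [Finset.mem_insert, Finset.mem_insert]
      constructor
      · rintro ⟨-, h3 | h3⟩
        · exact absurd h3.symm h
        · exact h3
      · exact fun h3 => ⟨Or.inl rfl, Or.inr h3⟩
    simp only [this]
  rw [h1, h2]
  ring

private lemma H1_pr {ι : Type*} [DecidableEq ι] (hp0 : 0 ≤ p) (hp1 : p ≤ 1) (A : Finset ι) :
    pr p A (fun T => 2 ≤ T.card) ≤ (A.card : ℝ) ^ 2 * p ^ 2 := by
  have h1 : pr p A (fun T => 2 ≤ T.card) ≤
      pr p A (fun T => ∃ q ∈ A.offDiag, q.1 ∈ T ∧ q.2 ∈ T) := by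
    refine pr_mono hp0 hp1 fun T hT h2 => ?_
    obtain ⟨a, ha, b, hb, hab⟩ := Finset.one_lt_card.1 (show 1 < T.card by omega)
    exact ⟨(a, b), Finset.mem_offDiag.2 ⟨hT ha, hT hb, hab⟩, ha, hb⟩
  refine h1.trans ((pr_union hp0 hp1 A A.offDiag (fun q T => q.1 ∈ T ∧ q.2 ∈ T)).trans ?_)
  have h2 : ∀ q ∈ A.offDiag, pr p A (fun T => q.1 ∈ T ∧ q.2 ∈ T) = p ^ 2 := by
    intro q hq
    rw [Finset.mem_offDiag] at hq
    exact H1_two p hq.1 hq.2.1 hq.2.2
  rw [Finset.sum_congr rfl h2, Finset.sum_const, nsmul_eq_mul]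
  refine mul_le_mul_of_nonneg_right ?_ (sq_nonneg p)
  have h3 : A.offDiag.card ≤ A.card ^ 2 := by
    rw [Finset.offDiag_card, sq]
    exact Nat.sub_le _ _
  exact_mod_cast h3

/-- For fixed `B`, `r = |B|`: `star_upper` with `W = B`, `Z = Bᶜ`, `Q w T := 2 ≤ T.card` (note
`aB S B w = (B.filter (fun y => s(w, y) ∈ S)).card` for `w ∉ B`), `pr p B (2 ≤ T.card) ≤ r² p²`, so
the sum is at most `n r² p² ≤ r (n p) l^(-795)`; `k = r (n p) / l³`. If `r = 0` the event is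
empty; otherwise `k ≥ r l^219`. Then `union3`. -/
theorem h1_prob (hB : Big n l) (hp0 : 0 ≤ p) (hp1 : p ≤ 1) (h1 : l ^ 222 ≤ n * p)
    (h2 : n * p ≤ l ^ 4200) :
    pr p (E n) (fun S => ∃ B : Finset (Fin n), (B.card : ℝ) ≤ l ^ 5005 ∧
      (B.card : ℝ) * (n * p) / l ^ 3 < ((Q2 S B).card : ℝ)) ≤ 1 / (n : ℝ) ^ 5 := by
  classical
  have hn0 := hB.n_pos'
  have hl0 := hB.pos
  have hl1 := hB.one_le
  have hstep : pr p (E n) (fun S => ∃ B : Finset (Fin n), (B.card : ℝ) ≤ l ^ 5005 ∧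
      (B.card : ℝ) * (n * p) / l ^ 3 < ((Q2 S B).card : ℝ)) ≤
      pr p (E n) (fun S => ∃ A B C : Finset (Fin n), (B = ∅ ∧ C = ∅) ∧
        (A.card : ℝ) ≤ l ^ 5005 ∧ (A.card : ℝ) * (n * p) / l ^ 3 < ((Q2 S A).card : ℝ)) :=
    pr_mono hp0 hp1 fun S _ ⟨B, hB'⟩ => ⟨B, ∅, ∅, ⟨rfl, rfl⟩, hB'⟩
  refine hstep.trans (union3 hp0 hp1 hB.two_le_n (fun A B C S => (B = ∅ ∧ C = ∅) ∧
        (A.card : ℝ) ≤ l ^ 5005 ∧ (A.card : ℝ) * (n * p) / l ^ 3 < ((Q2 S A).card : ℝ)) ?_)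
  intro A B C
  have hfalse : ∀ Q : Finset (Sym2 (Fin n)) → Prop, (∀ S, ¬ Q S) →
      pr p (E n) Q ≤ (1 / (n : ℝ) ^ 6) ^ (A.card + B.card + C.card + 1) := by
    intro Q hQ
    have h3 : pr p (E n) Q = 0 := by
      rw [pr_def]
      refine (ex_congr p fun S _ => ?_).trans (ex_const p (E n) 0)
      rw [if_neg (hQ S)]
    rw [h3]
    positivity
  by_cases hBC : B = ∅ ∧ C = ∅
  swap
  · exact hfalse _ fun S h => hBC h.1
  obtain ⟨rfl, rfl⟩ := hBC
  by_cases hA0 : A = ∅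
  · refine hfalse _ fun S h => ?_
    have h3 := h.2.2
    rw [hA0] at h3
    have h4 : (Q2 S (∅ : Finset (Fin n))) = ∅ := by
      unfold Q2
      rw [Finset.filter_eq_empty_iff]
      intro w _
      unfold aB
      simp
    rw [h4] at h3
    simp at h3
  by_cases hA1 : (A.card : ℝ) ≤ l ^ 5005
  swap
  · exact hfalse _ fun S h => hA1 h.2.1
  obtain ⟨r, hr⟩ : ∃ r : ℝ, r = A.card := ⟨_, rfl⟩
  obtain ⟨d, hd⟩ : ∃ d : ℝ, d = n * p := ⟨_, rfl⟩
  have hr1 : 1 ≤ r := by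
    rw [hr]
    exact_mod_cast Finset.card_pos.2 (Finset.nonempty_iff_ne_empty.2 hA0)
  rw [← hr] at hA1
  rw [← hd] at h1 h2
  have hd0 : 0 < d := lt_of_lt_of_le (hB.pow_pos' 222) h1
  -- `4 l^3 r p ≤ 1`
  have hrp : 4 * l ^ 3 * (r * p) ≤ 1 := by
    have h3 : r * d ≤ l ^ 5005 * l ^ 4200 :=
      mul_le_mul hA1 h2 hd0.le (hB.pow_pos' _).le
    have h4 : 4 * l ^ 3 * (r * d) ≤ 4 * l ^ 3 * (l ^ 5005 * l ^ 4200) :=
      mul_le_mul_of_nonneg_left h3 (by positivity)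
    have h5 : 4 * l ^ 3 * (l ^ 5005 * l ^ 4200) = 4 * l ^ 9208 := by
      rw [← pow_add, mul_assoc, ← pow_add]
    have h6 : (4 : ℝ) * l ^ 9208 ≤ l ^ 10000 := hB.mul_pow_le (by norm_num) (by norm_num)
    rw [h5] at h4
    have h7 := h4.trans h6
    rw [hB.pow, hd] at h7
    have h8 : (n : ℝ) * (4 * l ^ 3 * (r * p)) ≤ n * 1 := by
      rw [mul_one]
      have h9 : (n : ℝ) * (4 * l ^ 3 * (r * p)) = 4 * l ^ 3 * (r * (n * p)) := by ring
      rw [h9]
      exact h7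
    exact le_of_mul_le_mul_left h8 hn0
  have hWZ : Disjoint A Aᶜ := disjoint_compl_right
  have hEA : ∀ x ∈ Aᶜ, ∀ y ∈ A, s(x, y) ∈ E n := by
    intro x hx y hy
    rw [mk_mem_E]
    rintro rfl
    exact (Finset.mem_compl.1 hx) hy
  have hup := star_upper hp0 hp1 (E n) A Aᶜ hWZ hEA (fun _ T => 2 ≤ T.card) (r * d / l ^ 3)
  have hevent : pr p (E n) (fun S => ((∅ : Finset (Fin n)) = ∅ ∧ (∅ : Finset (Fin n)) = ∅) ∧
        (A.card : ℝ) ≤ l ^ 5005 ∧ (A.card : ℝ) * (n * p) / l ^ 3 < ((Q2 S A).card : ℝ)) ≤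
      pr p (E n) (fun S => r * d / l ^ 3 ≤ (((Aᶜ).filter
        (fun x => 2 ≤ (A.filter (fun y => s(x, y) ∈ S)).card)).card : ℝ)) := by
    refine pr_mono hp0 hp1 fun S _ h => ?_
    have h3 : (Q2 S A).card = ((Aᶜ).filter
        (fun x => 2 ≤ (A.filter (fun y => s(x, y) ∈ S)).card)).card := by
      unfold Q2
      congr 1
      refine Finset.filter_congr fun w hw => ?_
      have h4 : nb S w ∩ A = A.filter (fun y => s(w, y) ∈ S) := by
        ext y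
        rw [Finset.mem_inter, mem_nb, Finset.mem_filter]
        constructor
        · rintro ⟨h5, h6⟩
          exact ⟨h6, h5.2⟩
        · rintro ⟨h5, h6⟩
          refine ⟨⟨?_, h6⟩, h5⟩
          rintro rfl
          exact (Finset.mem_compl.1 hw) h5
      unfold aB
      rw [h4]
    have h5 := h.2.2
    rw [h3, ← hr, ← hd] at h5
    exact h5.le
  refine hevent.trans (hup.trans ?_)
  have hsum : (∑ x ∈ Aᶜ, pr p A (fun T => 2 ≤ T.card)) ≤ n * (r ^ 2 * p ^ 2) := by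
    rw [Finset.sum_const, nsmul_eq_mul]
    have h3 := H1_pr hp0 hp1 A
    rw [← hr] at h3
    have h4 : ((Aᶜ).card : ℝ) ≤ n := by
      have h5 : (Aᶜ).card ≤ Fintype.card (Fin n) := Finset.card_le_univ _
      rw [Fintype.card_fin] at h5
      exact_mod_cast h5
    exact mul_le_mul h4 h3 (pr_nonneg hp0 hp1 _ _) hn0.le
  have hnr : n * (r ^ 2 * p ^ 2) ≤ r * d / (4 * l ^ 3) := by
    rw [le_div_iff₀ (by positivity)]
    calc (n : ℝ) * (r ^ 2 * p ^ 2) * (4 * l ^ 3) = (r * d) * (4 * l ^ 3 * (r * p)) := by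
          rw [hd]; ring
      _ ≤ (r * d) * 1 := mul_le_mul_of_nonneg_left hrp (by positivity)
      _ = r * d := mul_one _
  have hexp : 2 * (∑ x ∈ Aᶜ, pr p A (fun T => 2 ≤ T.card)) - r * d / l ^ 3 ≤
      -(r * d / (2 * l ^ 3)) := by
    have h3 : r * d / (4 * l ^ 3) = (r * d / l ^ 3) / 4 := by
      field_simp
    have h4 : r * d / (2 * l ^ 3) = (r * d / l ^ 3) / 2 := by
      field_simp
    rw [h4]
    rw [h3] at hnr
    linarith [hsum.trans hnr]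
  refine (Real.exp_le_exp.2 hexp).trans ?_
  rw [Finset.card_empty, add_zero, add_zero]
  refine hB.exp_le' ?_
  have h3 : ((A.card + 1 : ℕ) : ℝ) = r + 1 := by
    rw [hr]
    push_cast
    ring
  rw [h3]
  have h4 : l * (r + 1) ≤ 2 * (l * r) := by nlinarith
  refine h4.trans ?_
  have h5 : l ^ 4 ≤ d := (hB.pow_le (by norm_num)).trans h1
  have h6 : l * r ≤ r * d / l ^ 3 := by
    rw [le_div_iff₀ (by positivity)]
    calc l * r * l ^ 3 = r * l ^ 4 := by ring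
      _ ≤ r * d := mul_le_mul_of_nonneg_left h5 (by linarith)
  have h7 : r * d / (2 * l ^ 3) = (r * d / l ^ 3) / 2 := by
    field_simp
  rw [h7]
  have h8 : 0 ≤ l * r := by positivity
  linarith

end Pool.Agent.CFX
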