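import Pool.Agent.CFX.CO
import Pool.Agent.CFX.UN

/-! H2: the property `h2` -/

namespace Pool.Agent.CFX

open Finset Pool.Agent.MD437 Pool.Agent.CFC

variable {n m : ℕ} {p l : ℝ}

private lemma H2_aB (S : Finset (Sym2 (Fin n))) (B : Finset (Fin n)) (w : Fin n) :
    aB S B w = aB (S ∩ EW B) B w := by
  unfold aB
  congr 1
  ext y
  rw [mem_inter, mem_inter, mem_nb, mem_nb]
  unfold ad
  rw [mem_inter, mk_mem_EW]
  tauto

private lemma H2_sum {d : ℝ} {S : Finset (Sym2 (Fin n))} (h : DegOK d S) (B : Finset (Fin n)) :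
    ∑ w, (aB S B w : ℝ) ≤ 2 * d * B.card := by
  have h1 : ∑ w, (aB S B w : ℝ) = (ee S univ B : ℝ) := by
    rw [ee_eq_sum]
    push_cast
    rfl
  rw [h1, ee_comm, ee_eq_sum]
  push_cast
  have h2 : ∀ b ∈ B, ((nb S b ∩ univ).card : ℝ) ≤ 2 * d := fun b _ => by
    rw [inter_univ]
    exact (h b).2
  refine (sum_le_sum h2).trans (le_of_eq ?_)
  rw [sum_const, nsmul_eq_mul]
  ring

private lemma H2_fix (hB : Big n l) (hp0 : 0 ≤ p) (hp1 : p ≤ 1) (B Z : Finset (Fin n))
    (hZ : Z.card = ⌊(B.card : ℝ) / l ^ 6⌋₊ + 1) :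
    pr p (E n) (fun S => DegOK (n * p) S ∧
      Z ⊆ heavy (RR n p B.card * l ^ 10) (RR n p B.card * l ^ 17) S B)
      ≤ (1 / (n : ℝ) ^ 6) ^ (B.card + Z.card + 1) := by
  classical
  have hR1 : 1 ≤ RR n p B.card := by
    unfold RR
    have : 0 ≤ (B.card : ℝ) * n * p ^ 2 := by positivity
    linarith
  have hR0 : 0 < RR n p B.card := by linarith
  have hk1 : (1 : ℝ) ≤ (Z.card : ℝ) := by
    rw [hZ]
    push_cast
    have : (0 : ℝ) ≤ (⌊(B.card : ℝ) / l ^ 6⌋₊ : ℝ) := Nat.cast_nonneg _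
    linarith
  have hk2 : (B.card : ℝ) ≤ Z.card * l ^ 6 := by
    have h1 := Nat.lt_floor_add_one ((B.card : ℝ) / l ^ 6)
    have h2 : (Z.card : ℝ) = (⌊(B.card : ℝ) / l ^ 6⌋₊ : ℝ) + 1 := by
      rw [hZ]; push_cast; rfl
    rw [← h2, div_lt_iff₀ (hB.pow_pos' 6)] at h1
    exact h1.le
  have hh : 0 < RR n p B.card * l ^ 10 := mul_pos hR0 (hB.pow_pos' 10)
  have key := pair_sum_tail hp0 hp1 B
    (fun S v w => if v ∈ Z ∧ v ∉ B ∧ w ∉ B ∧ (aB S B w : ℝ) < RR n p B.card * l ^ 10
      then (aB S B w : ℝ) else 0) (h := RR n p B.card * l ^ 10)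
    (μ := 2 * (Z.card * RR n p B.card))
    (x := Z.card * (RR n p B.card * l ^ 17)) hh
    (by
      intro S
      funext v w
      simp only [← H2_aB S B])
    (by
      intro S v w
      split_ifs
      · exact Nat.cast_nonneg _
      · exact le_refl _)
    (by
      intro S v w
      split_ifs with h
      · exact h.2.2.2.le
      · exact hh.le)
    (by
      intro S v w hvw
      rw [if_neg]
      rintro ⟨_, h1, h2, _⟩
      rcases hvw with h | h
      · exact h1 h
      · exact h2 h)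
  refine (pr_mono hp0 hp1 fun S _ hS => ?_).trans (key.trans ?_)
  · obtain ⟨hdeg, hsub⟩ := hS
    refine ⟨?_, ?_⟩
    · have e1 : ∀ v : Fin n, ∑ w, (if v ∈ Z ∧ v ∉ B ∧ w ∉ B ∧
          (aB S B w : ℝ) < RR n p B.card * l ^ 10 then (aB S B w : ℝ) else 0)
          ≤ if v ∈ Z then 2 * (n * p) * B.card else 0 := by
        intro v
        by_cases hv : v ∈ Z
        · rw [if_pos hv]
          refine (sum_le_sum fun w _ => ?_).trans (H2_sum hdeg B)
          split_ifs
          · exact le_refl _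
          · exact Nat.cast_nonneg _
        · rw [if_neg hv]
          refine le_of_eq (sum_eq_zero fun w _ => ?_)
          rw [if_neg (fun h => hv h.1)]
      have e2 : ∑ v : Fin n, (if v ∈ Z then 2 * ((n : ℝ) * p) * B.card else 0)
          = Z.card * (2 * (n * p) * B.card) := by
        rw [sum_ite_mem, univ_inter, sum_const, nsmul_eq_mul]
      have e3 := (sum_le_sum fun v (_ : v ∈ (univ : Finset (Fin n))) => e1 v).trans (le_of_eq e2)
      refine (mul_le_mul_of_nonneg_left e3 hp0).trans ?_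
      have e4 : p * ((Z.card : ℝ) * (2 * (n * p) * B.card))
          = 2 * (Z.card * ((B.card : ℝ) * n * p ^ 2)) := by ring
      rw [e4]
      have e5 : (B.card : ℝ) * n * p ^ 2 ≤ RR n p B.card := by
        unfold RR
        linarith
      have e6 := mul_le_mul_of_nonneg_left e5 (Nat.cast_nonneg (α := ℝ) Z.card)
      linarith
    · have e1 : ∀ v ∈ Z, RR n p B.card * l ^ 17 ≤ ∑ w ∈ nb S v, (if v ∈ Z ∧ v ∉ B ∧ w ∉ B ∧
          (aB S B w : ℝ) < RR n p B.card * l ^ 10 then (aB S B w : ℝ) else 0) := by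
        intro v hv
        have h1 := hsub hv
        unfold heavy at h1
        rw [mem_filter, mem_compl] at h1
        refine h1.2.trans (le_of_eq ?_)
        rw [← sum_subset (sdiff_subset : nb S v \ B ⊆ nb S v)]
        · refine sum_congr rfl fun w hw => ?_
          rw [mem_sdiff] at hw
          by_cases h3 : (aB S B w : ℝ) < RR n p B.card * l ^ 10
          · rw [if_pos h3, if_pos ⟨hv, h1.1, hw.2, h3⟩]
          · rw [if_neg h3, if_neg (fun h => h3 h.2.2.2)]
        · intro w hw hw'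
          rw [mem_sdiff] at hw'
          rw [if_neg]
          exact fun h => hw' ⟨hw, h.2.2.1⟩
      calc (Z.card : ℝ) * (RR n p B.card * l ^ 17) = ∑ _v ∈ Z, RR n p B.card * l ^ 17 := by
            rw [sum_const, nsmul_eq_mul]
        _ ≤ ∑ v ∈ Z, ∑ w ∈ nb S v, (if v ∈ Z ∧ v ∉ B ∧ w ∉ B ∧
          (aB S B w : ℝ) < RR n p B.card * l ^ 10 then (aB S B w : ℝ) else 0) := sum_le_sum e1
        _ ≤ _ := sum_le_sum_of_subset_of_nonneg (subset_univ _) fun v _ _ =>
            sum_nonneg fun w _ => by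
              split_ifs
              · exact Nat.cast_nonneg _
              · exact le_refl _
  · have h7 : (7 : ℝ) ≤ l ^ 17 := by
      have := hB.mul_pow_le (show (7 : ℝ) ≤ 10 ^ 9 by norm_num) (show 0 < 17 by norm_num)
      rwa [pow_zero, mul_one] at this
    have hl := hB.one_le
    have hl10 := hB.pow_pos' 10
    have h8 : Real.exp ((7 / 4 * (2 * (Z.card * RR n p B.card)) -
        Z.card * (RR n p B.card * l ^ 17)) / (2 * (RR n p B.card * l ^ 10)))
        ≤ Real.exp (-(Z.card * l ^ 7 / 4)) := by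
      refine Real.exp_le_exp.2 ?_
      rw [div_le_iff₀ (by positivity)]
      have e1 : l ^ 17 = l ^ 7 * l ^ 10 := by rw [← pow_add]
      have e2 : -((Z.card : ℝ) * l ^ 7 / 4) * (2 * (RR n p B.card * l ^ 10))
          = -(Z.card * RR n p B.card * l ^ 17 / 2) := by
        rw [e1]; ring
      rw [e2]
      have e3 : 0 ≤ (Z.card : ℝ) * RR n p B.card := by positivity
      have e4 := mul_le_mul_of_nonneg_left h7 e3
      linarith
    refine h8.trans (hB.exp_le' ?_)
    push_cast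
    have f1 : (B.card : ℝ) + Z.card + 1 ≤ Z.card * (l ^ 6 + 2) := by linarith
    have f2 : l * ((B.card : ℝ) + Z.card + 1) ≤ l * (Z.card * (l ^ 6 + 2)) :=
      mul_le_mul_of_nonneg_left f1 (by linarith)
    have f3 : 2 * l ≤ l ^ 7 := by
      have := hB.mul_pow_le (show (2 : ℝ) ≤ 10 ^ 9 by norm_num) (show 1 < 7 by norm_num)
      rwa [pow_one] at this
    have f4 : l * (Z.card * (l ^ 6 + 2)) = Z.card * (l ^ 7 + 2 * l) := by ring
    have f5 : (Z.card : ℝ) * (l ^ 7 + 2 * l) ≤ Z.card * (2 * l ^ 7) :=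
      mul_le_mul_of_nonneg_left (by linarith) (by linarith)
    have f6 : 0 ≤ (Z.card : ℝ) * l ^ 7 := by positivity
    linarith

/-- For fixed `B` (`r = |B|`) and `Z` with `|Z| = k := ⌊r / l^6⌋ + 1`: `pair_sum_tail` with
`W = B`, `c S v w = if v ∈ Z ∧ v ∉ B ∧ w ∉ B ∧ aB S B w < h then aB S B w else 0`,
`h = R l^10`, `R = RR n p r`. Since all degrees are at most `2 n p`, `∑_w aB S B w ≤ 2 n p r`, so
`p` times the total weight is at most `μ = 2 k r n p² ≤ 2 k R`; and if `Z` consists of heavy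
vertices the sum is at least `x = k R l^17`. The bound is `exp (- k l^7 / 4)`, and `k ≥ r / l^6`,
`k ≥ 1`. Then `union3` over `B, Z`. For `B = ∅` there are no heavy vertices. -/
theorem h2_prob (hB : Big n l) (hp0 : 0 ≤ p) (hp1 : p ≤ 1) :
    pr p (E n) (fun S => DegOK (n * p) S ∧ ∃ B : Finset (Fin n),
      (B.card : ℝ) / l ^ 6 <
        ((heavy (RR n p B.card * l ^ 10) (RR n p B.card * l ^ 17) S B).card : ℝ))
      ≤ 1 / (n : ℝ) ^ 5 := by
  classical
  have key := union3 hp0 hp1 hB.two_le_n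
    (fun A B Z S => A = ∅ ∧ Z.card = ⌊(B.card : ℝ) / l ^ 6⌋₊ + 1 ∧ (DegOK (n * p) S ∧
      Z ⊆ heavy (RR n p B.card * l ^ 10) (RR n p B.card * l ^ 17) S B)) (by
      intro A B Z
      by_cases hA : A = ∅
      · by_cases hZ : Z.card = ⌊(B.card : ℝ) / l ^ 6⌋₊ + 1
        · subst hA
          rw [card_empty, zero_add]
          exact (pr_mono hp0 hp1 fun S _ hS => hS.2.2).trans (H2_fix hB hp0 hp1 B Z hZ)
        · refine (pr_mono hp0 hp1 (R := fun _ => False) fun S _ hS => hZ hS.2.1).trans ?_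
          rw [pr_false]
          positivity
      · refine (pr_mono hp0 hp1 (R := fun _ => False) fun S _ hS => hA hS.1).trans ?_
        rw [pr_false]
        positivity)
  refine (pr_mono hp0 hp1 fun S _ hS => ?_).trans key
  obtain ⟨h1, B, h2⟩ := hS
  have h3 : ⌊(B.card : ℝ) / l ^ 6⌋₊ + 1 ≤
      (heavy (RR n p B.card * l ^ 10) (RR n p B.card * l ^ 17) S B).card := by
    have h4 : (0 : ℝ) ≤ (B.card : ℝ) / l ^ 6 :=
      div_nonneg (Nat.cast_nonneg _) (hB.pow_pos' 6).le
    exact (Nat.floor_lt h4).2 h2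
  obtain ⟨Z, hZ1, hZ2⟩ := exists_subset_card_eq h3
  exact ⟨∅, B, Z, rfl, hZ2, h1, hZ1⟩

end Pool.Agent.CFX
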