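import Pool.Agent.CFX.CO
import Pool.Agent.CFX.UN

/-! H3A: the property `h3a` -/

namespace Pool.Agent.CFX

open Finset Pool.Agent.MD437 Pool.Agent.CFC

variable {n m : ℕ} {p l : ℝ}

private lemma H3A_inter (S : Finset (Sym2 (Fin n))) (B : Finset (Fin n)) (w : Fin n) :
    nb S w ∩ B = nb (S ∩ EW B) w ∩ B := by
  ext y
  rw [mem_inter, mem_inter, mem_nb, mem_nb]
  unfold ad
  rw [mem_inter, mk_mem_EW]
  tauto

private lemma H3A_QQ (S : Finset (Sym2 (Fin n))) (B : Finset (Fin n)) :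
    QQ S B = QQ (S ∩ EW B) B := by
  unfold QQ aB
  refine filter_congr fun w _ => ?_
  rw [H3A_inter S B w]

private lemma H3A_card {d : ℝ} {S : Finset (Sym2 (Fin n))} (h : DegOK d S) (B : Finset (Fin n)) :
    ((QQ S B).card : ℝ) ≤ 2 * d * B.card := by
  have h1 : QQ S B ⊆ B.biUnion (fun b => nb S b) := by
    intro w hw
    rw [QQ, mem_filter] at hw
    have h0 : (nb S w ∩ B).Nonempty := card_pos.1 hw.2
    obtain ⟨b, hb⟩ := h0
    rw [mem_inter, mem_nb] at hb
    exact mem_biUnion.2 ⟨b, hb.2, mem_nb.2 (ad_symm hb.1)⟩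
  have h2 : ((QQ S B).card : ℝ) ≤ ∑ b ∈ B, ((nb S b).card : ℝ) := by
    exact_mod_cast (card_le_card h1).trans card_biUnion_le
  refine h2.trans ((sum_le_sum fun b _ => (h b).2).trans (le_of_eq ?_))
  rw [sum_const, nsmul_eq_mul]
  ring

private lemma H3A_fix (hB : Big n l) (hp0 : 0 ≤ p) (hp1 : p ≤ 1) (B : Finset (Fin n))
    (hne : B.Nonempty) :
    pr p (E n) (fun S => DegOK (n * p) S ∧
      l ^ 2 * B.card + (B.card : ℝ) ^ 2 * n ^ 2 * p ^ 3 * l ^ 10 <
        (ee S (QQ S B) (QQ S B) : ℝ)) ≤ (1 / (n : ℝ) ^ 6) ^ (B.card + 1) := by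
  classical
  have hr1 : (1 : ℝ) ≤ (B.card : ℝ) := by exact_mod_cast card_pos.2 hne
  have hM0 : 0 ≤ (B.card : ℝ) ^ 2 * n ^ 2 * p ^ 3 := by positivity
  have key := pair_sum_tail hp0 hp1 B
    (fun S v w => if v ∈ QQ S B ∧ w ∈ QQ S B then (1 : ℝ) else 0) (h := 1)
    (μ := 4 * ((B.card : ℝ) ^ 2 * n ^ 2 * p ^ 3))
    (x := l ^ 2 * B.card + (B.card : ℝ) ^ 2 * n ^ 2 * p ^ 3 * l ^ 10) one_pos
    (by
      intro S
      funext v w
      simp only [← H3A_QQ S B])
    (by intro S v w; split_ifs <;> norm_num)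
    (by intro S v w; split_ifs <;> norm_num)
    (by
      intro S v w hvw
      rw [if_neg]
      rintro ⟨h1, h2⟩
      rw [QQ, mem_filter, mem_compl] at h1 h2
      rcases hvw with h | h
      · exact h1.1 h
      · exact h2.1 h)
  refine (pr_mono hp0 hp1 fun S _ hS => ?_).trans (key.trans ?_)
  · obtain ⟨hdeg, hlt⟩ := hS
    have e1 : ∑ v, ∑ w, (if v ∈ QQ S B ∧ w ∈ QQ S B then (1 : ℝ) else 0)
        = ((QQ S B).card : ℝ) ^ 2 := by
      have : ∀ v w : Fin n, (if v ∈ QQ S B ∧ w ∈ QQ S B then (1 : ℝ) else 0)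
          = (if v ∈ QQ S B then (1 : ℝ) else 0) * (if w ∈ QQ S B then (1 : ℝ) else 0) := by
        intro v w
        by_cases h1 : v ∈ QQ S B <;> by_cases h2 : w ∈ QQ S B <;> simp [h1, h2]
      simp only [this]
      rw [← sum_mul_sum]
      have h3 : ∑ v : Fin n, (if v ∈ QQ S B then (1 : ℝ) else 0) = (QQ S B).card := by
        rw [sum_ite_mem, univ_inter, sum_const, nsmul_eq_mul, mul_one]
      rw [h3, pow_two]
    have e2 : ∑ v, ∑ w ∈ nb S v, (if v ∈ QQ S B ∧ w ∈ QQ S B then (1 : ℝ) else 0)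
        = (ee S (QQ S B) (QQ S B) : ℝ) := by
      rw [ee_eq_sum]
      push_cast
      rw [← sum_subset (subset_univ (QQ S B))]
      · refine sum_congr rfl fun v hv => ?_
        have : ∀ w, (if v ∈ QQ S B ∧ w ∈ QQ S B then (1 : ℝ) else 0)
            = if w ∈ QQ S B then (1 : ℝ) else 0 := by
          intro w; simp [hv]
        simp only [this]
        rw [sum_ite_mem, sum_const, nsmul_eq_mul, mul_one]
      · intro v _ hv
        refine sum_eq_zero fun w _ => ?_
        rw [if_neg]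
        exact fun h => hv h.1
    refine ⟨?_, ?_⟩
    · rw [e1]
      have h1 := H3A_card hdeg B
      have h2 : ((QQ S B).card : ℝ) ^ 2 ≤ (2 * (n * p) * B.card) ^ 2 :=
        pow_le_pow_left₀ (Nat.cast_nonneg _) h1 2
      have h3 := mul_le_mul_of_nonneg_left h2 hp0
      refine h3.trans (le_of_eq ?_)
      ring
    · rw [e2]
      exact hlt.le
  · have h7 : (7 : ℝ) ≤ l ^ 10 := by
      have := hB.mul_pow_le (show (7 : ℝ) ≤ 10 ^ 9 by norm_num) (show 0 < 10 by norm_num)
      rwa [pow_zero, mul_one] at this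
    have h8 : Real.exp ((7 / 4 * (4 * ((B.card : ℝ) ^ 2 * n ^ 2 * p ^ 3)) -
        (l ^ 2 * B.card + (B.card : ℝ) ^ 2 * n ^ 2 * p ^ 3 * l ^ 10)) / (2 * 1))
        ≤ Real.exp (-(l ^ 2 * B.card / 2)) := by
      refine Real.exp_le_exp.2 ?_
      have := mul_le_mul_of_nonneg_left h7 hM0
      linarith
    refine h8.trans (hB.exp_le' ?_)
    have hl := hB.one_le
    push_cast
    have h9 : l * ((B.card : ℝ) + 1) ≤ l * (2 * B.card) :=
      mul_le_mul_of_nonneg_left (by linarith) (by linarith)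
    have h10 : l * (2 * (B.card : ℝ)) ≤ l ^ 2 * (2 * B.card) := by
      refine mul_le_mul_of_nonneg_right ?_ (by linarith)
      rw [pow_two]
      exact le_mul_of_one_le_left (by linarith) hl
    have h11 : 0 ≤ l ^ 2 * (B.card : ℝ) := by positivity
    linarith

/-- For fixed `B ≠ ∅`, `r = |B|`: `pair_sum_tail` with `W = B`,
`c S v w = if v ∈ QQ S B ∧ w ∈ QQ S B then 1 else 0`, `h = 1`; `|QQ S B| ≤ 2 n p r` by the degree
condition, so `μ = p (2 n p r)² = 4 r² n² p³`; `x = l² r + r² n² p³ l^10`; the bound is at most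
`exp (- l² r / 2)`. Then `union3`. -/
theorem h3a_prob (hB : Big n l) (hp0 : 0 ≤ p) (hp1 : p ≤ 1) :
    pr p (E n) (fun S => DegOK (n * p) S ∧ ∃ B : Finset (Fin n),
      l ^ 2 * B.card + (B.card : ℝ) ^ 2 * n ^ 2 * p ^ 3 * l ^ 10 <
        (ee S (QQ S B) (QQ S B) : ℝ)) ≤ 1 / (n : ℝ) ^ 5 := by
  classical
  have key := union3 hp0 hp1 hB.two_le_n
    (fun A B C S => A = ∅ ∧ C = ∅ ∧ (DegOK (n * p) S ∧
      l ^ 2 * B.card + (B.card : ℝ) ^ 2 * n ^ 2 * p ^ 3 * l ^ 10 <
        (ee S (QQ S B) (QQ S B) : ℝ))) (by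
      intro A B C
      by_cases hA : A = ∅
      · by_cases hC : C = ∅
        · by_cases hne : B.Nonempty
          · subst hA
            subst hC
            rw [card_empty, zero_add, add_zero]
            refine (pr_mono hp0 hp1 fun S _ hS => hS.2.2).trans (H3A_fix hB hp0 hp1 B hne)
          · rw [not_nonempty_iff_eq_empty] at hne
            subst hne
            refine (pr_mono hp0 hp1 (R := fun _ => False) fun S _ hS => ?_).trans ?_
            · have h1 := hS.2.2.2
              have h2 : QQ S (∅ : Finset (Fin n)) = ∅ := by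
                rw [eq_empty_iff_forall_notMem]
                intro w hw
                rw [QQ, mem_filter, aB, inter_empty, card_empty] at hw
                omega
              rw [h2, ee_eq_sum, sum_empty, card_empty] at h1
              norm_num at h1
            · rw [pr_false]
              positivity
        · refine (pr_mono hp0 hp1 (R := fun _ => False) fun S _ hS => hC hS.2.1).trans ?_
          rw [pr_false]
          positivity
      · refine (pr_mono hp0 hp1 (R := fun _ => False) fun S _ hS => hA hS.1).trans ?_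
        rw [pr_false]
        positivity)
  refine (pr_mono hp0 hp1 fun S _ hS => ?_).trans key
  obtain ⟨h1, B, h2⟩ := hS
  exact ⟨∅, B, ∅, rfl, rfl, h1, h2⟩

end Pool.Agent.CFX
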