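import Pool.Agent.CFX.ST
import Pool.Agent.CFX.CO
import Pool.Agent.CFX.UN

/-! H3B: the property `h3b` -/

namespace Pool.Agent.CFX

open Finset Pool.Agent.MD437 Pool.Agent.CFC

variable {n m : ℕ} {p l : ℝ}

private noncomputable def hh (k : ℕ) : ℝ := if 2 ≤ k then (k : ℝ) else 0

private lemma pow_ineq {b : ℝ} (hb : 1 ≤ b) (k : ℕ) : b ^ (k + 2) + ((k + 2 : ℕ) : ℝ) * b ≤
    (1 + b) ^ (k + 2) := by
  induction k with
  | zero => norm_num; nlinarith
  | succ k ih =>
    have h0 : (0 : ℝ) ≤ b := by linarith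
    have h1 : b ≤ b ^ (k + 2) := by
      calc b = b ^ 1 := (pow_one b).symm
        _ ≤ b ^ (k + 2) := pow_le_pow_right₀ hb (by omega)
    have h2 := mul_le_mul_of_nonneg_right ih (show (0 : ℝ) ≤ 1 + b by linarith)
    have h3 : (0 : ℝ) ≤ ((k + 2 : ℕ) : ℝ) * b * b := by positivity
    have e1 : (1 + b) ^ (k + 1 + 2) = (1 + b) ^ (k + 2) * (1 + b) := by ring
    have e2 : b ^ (k + 1 + 2) = b ^ (k + 2) * b := by ring
    rw [e1, e2]
    push_cast at h2 h3 ⊢
    nlinarith [h1, h2, h3]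

private lemma exp_hh (k : ℕ) :
    Real.exp (hh k) ≤ (1 + Real.exp 1) ^ k - k * Real.exp 1 := by
  unfold hh
  split_ifs with hk
  · obtain ⟨j, rfl⟩ := Nat.exists_eq_add_of_le hk
    have h1 := pow_ineq (Real.one_le_exp zero_le_one) j
    have e1 : Real.exp (((2 + j : ℕ) : ℝ)) = Real.exp 1 ^ (2 + j) := by
      rw [← Real.exp_nat_mul, mul_one]
    rw [e1, add_comm 2 j]
    linarith
  · have : k = 0 ∨ k = 1 := by omega
    rcases this with rfl | rfl <;> simp

private lemma ex_pow_card {ι : Type*} [DecidableEq ι] (p c : ℝ) (A : Finset ι) :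
    ex p A (fun S => c ^ S.card) = (1 - p + p * c) ^ A.card := by
  induction A using Finset.induction_on with
  | empty => simp [ex_empty]
  | insert a A ha ih =>
    rw [ex_insert p ha, ih]
    have h : ex p A (fun S => c ^ (insert a S).card) = ex p A (fun S => c * c ^ S.card) := by
      refine ex_congr p fun S hS => ?_
      rw [card_insert_of_notMem (fun h => ha (hS h)), pow_succ, mul_comm]
    rw [h, ex_mul_left, ih, card_insert_of_notMem ha]
    ring

private lemma ex_card' {ι : Type*} [DecidableEq ι] (p : ℝ) (A : Finset ι) :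
    ex p A (fun S => (S.card : ℝ)) = p * A.card := by
  induction A using Finset.induction_on with
  | empty => simp [ex_empty]
  | insert a A ha ih =>
    rw [ex_insert p ha, ih]
    have h : ex p A (fun S => ((insert a S).card : ℝ)) =
        ex p A (fun S => (S.card : ℝ) + 1) := by
      refine ex_congr p fun S hS => ?_
      rw [card_insert_of_notMem (fun h => ha (hS h))]
      push_cast
      ring
    rw [h, ex_add p A (fun S => (S.card : ℝ)) (fun _ => 1), ih, ex_const,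
      card_insert_of_notMem ha]
    push_cast
    ring

private lemma one_star (hp0 : 0 ≤ p) (hp1 : p ≤ 1) (W : Finset (Fin n))
    (hρ : 3 * (W.card * p) ≤ 1) :
    ex p W (fun T => Real.exp (hh T.card)) ≤ Real.exp (9 * (W.card * p) ^ 2) := by
  have he3 : Real.exp 1 ≤ 3 := (Real.exp_one_lt_d9.le).trans (by norm_num)
  have he0 : 0 < Real.exp 1 := Real.exp_pos 1
  have hw : (0 : ℝ) ≤ W.card * p := mul_nonneg (Nat.cast_nonneg _) hp0
  have h1 : ex p W (fun T => Real.exp (hh T.card)) ≤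
      ex p W (fun T => (1 + Real.exp 1) ^ T.card - (T.card : ℝ) * Real.exp 1) :=
    ex_mono hp0 hp1 fun T _ => exp_hh T.card
  have h2 : ex p W (fun T => (1 + Real.exp 1) ^ T.card - (T.card : ℝ) * Real.exp 1) =
      (1 + p * Real.exp 1) ^ W.card - W.card * p * Real.exp 1 := by
    rw [ex_sub p W (fun T => (1 + Real.exp 1) ^ T.card) (fun T => (T.card : ℝ) * Real.exp 1),
      ex_pow_card]
    have h3 : ex p W (fun T => (T.card : ℝ) * Real.exp 1) = Real.exp 1 * (p * W.card) := by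
      rw [← ex_card', ← ex_mul_left]
      exact ex_congr p fun T _ => mul_comm _ _
    rw [h3]
    ring_nf
  set y : ℝ := W.card * p * Real.exp 1 with hy
  have hy0 : 0 ≤ y := mul_nonneg hw he0.le
  have hy1 : y ≤ 1 := by
    rw [hy]
    nlinarith
  have h4 : (1 + p * Real.exp 1) ^ W.card ≤ Real.exp y := by
    have h5 : 1 + p * Real.exp 1 ≤ Real.exp (p * Real.exp 1) := by
      have := Real.add_one_le_exp (p * Real.exp 1)
      linarith
    calc (1 + p * Real.exp 1) ^ W.card ≤ (Real.exp (p * Real.exp 1)) ^ W.card :=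
          pow_le_pow_left₀ (by positivity) h5 _
      _ = Real.exp y := by rw [← Real.exp_nat_mul]; congr 1; rw [hy]; ring
  have h6 : Real.exp y - 1 - y ≤ y ^ 2 :=
    (le_abs_self _).trans (Real.abs_exp_sub_one_sub_id_le (by rw [abs_of_nonneg hy0]; exact hy1))
  have h7 : y ^ 2 ≤ 9 * (W.card * p) ^ 2 := by
    have h8 : y ≤ 3 * (W.card * p) := by rw [hy]; nlinarith
    calc y ^ 2 ≤ (3 * (W.card * p)) ^ 2 := pow_le_pow_left₀ hy0 h8 2
      _ = 9 * (W.card * p) ^ 2 := by ring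
  have h9 := Real.add_one_le_exp (9 * ((W.card : ℝ) * p) ^ 2)
  rw [h2] at h1
  linarith

private lemma QQ_local (S : Finset (Sym2 (Fin n))) (B : Finset (Fin n)) :
    QQ (S ∩ EW B) B = QQ S B := by
  have h : ∀ w, aB (S ∩ EW B) B w = aB S B w := by
    intro w
    unfold aB
    congr 1
    ext y
    rw [mem_inter, mem_inter, mem_nb, mem_nb]
    unfold ad
    rw [mem_inter, mk_mem_EW]
    tauto
  unfold QQ
  simp only [h]

private lemma nb_local (S : Finset (Sym2 (Fin n))) (B W : Finset (Fin n)) {z : Fin n}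
    (hz : z ∉ B ∪ W) (hWB : ∀ w ∈ W, w ∉ B) :
    nb S z ∩ W = W.filter (fun y => s(z, y) ∈ S \ EW B) := by
  rw [mem_union, not_or] at hz
  ext y
  rw [mem_inter, mem_nb, mem_filter, mem_sdiff, mk_mem_EW]
  unfold ad
  constructor
  · rintro ⟨⟨h1, h2⟩, h3⟩
    refine ⟨h3, h2, ?_⟩
    rintro ⟨-, h4 | h4⟩
    · exact hz.1 h4
    · exact hWB y h3 h4
  · rintro ⟨h1, h2, h3⟩
    refine ⟨⟨?_, h2⟩, h1⟩
    rintro rfl
    exact hz.2 h1

private lemma QQ_card {S : Finset (Sym2 (Fin n))} {d : ℝ} (hd : DegOK d S)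
    (B : Finset (Fin n)) : ((QQ S B).card : ℝ) ≤ B.card * (2 * d) := by
  have h1 : QQ S B ⊆ B.biUnion (fun b => nb S b) := by
    intro w hw
    unfold QQ at hw
    rw [mem_filter] at hw
    obtain ⟨y, hy⟩ := card_pos.1 (lt_of_lt_of_le one_pos hw.2)
    rw [mem_inter, mem_nb] at hy
    rw [mem_biUnion]
    exact ⟨y, hy.2, mem_nb.2 (ad_symm hy.1)⟩
  have h2 : ((QQ S B).card : ℝ) ≤ ∑ b ∈ B, ((nb S b).card : ℝ) := by
    exact_mod_cast (card_le_card h1).trans card_biUnion_le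
  refine h2.trans ((sum_le_sum fun b _ => (hd b).2).trans ?_)
  rw [sum_const, nsmul_eq_mul]

/-- one fixed set -/
private lemma h3b_fixed (hB : Big n l) (hp0 : 0 ≤ p) (hp1 : p ≤ 1) (B : Finset (Fin n))
    (hc : (B.card : ℝ) * n * p ^ 2 * l ^ 70 ≤ 1) :
    pr p (E n) (fun S => DegOK (n * p) S ∧
      l ^ 2 * B.card + (B.card : ℝ) ^ 2 * n ^ 3 * p ^ 4 * l ^ 10 <
        ((∑ z ∈ cher S B, (nb S z ∩ QQ S B).card : ℕ) : ℝ)) ≤
      Real.exp (-(l ^ 2 * B.card)) := by
  classical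
  have hn := hB.n_pos'
  have hr0 : (0 : ℝ) ≤ B.card := Nat.cast_nonneg _
  set x : ℝ := l ^ 2 * B.card + (B.card : ℝ) ^ 2 * n ^ 3 * p ^ 4 * l ^ 10 with hx
  have hcond := pr_cond hp0 hp1 B (fun S₁ T => ((QQ S₁ B).card : ℝ) ≤ B.card * (2 * (n * p)) ∧
    (∀ w ∈ QQ S₁ B, w ∉ B) ∧
    x ≤ ∑ z ∈ (B ∪ QQ S₁ B)ᶜ, hh ((QQ S₁ B).filter (fun y => s(z, y) ∈ T)).card)
    (Real.exp (-(l ^ 2 * B.card))) ?_
  · refine (pr_mono hp0 hp1 fun S _ hS => ?_).trans hcond
    obtain ⟨hd, hlt⟩ := hS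
    have hWB : ∀ w ∈ QQ S B, w ∉ B := by
      intro w hw
      unfold QQ at hw
      rw [mem_filter, mem_compl] at hw
      exact hw.1
    show ((QQ (S ∩ EW B) B).card : ℝ) ≤ B.card * (2 * (n * p)) ∧
      (∀ w ∈ QQ (S ∩ EW B) B, w ∉ B) ∧
      x ≤ ∑ z ∈ (B ∪ QQ (S ∩ EW B) B)ᶜ,
        hh ((QQ (S ∩ EW B) B).filter (fun y => s(z, y) ∈ S \ EW B)).card
    rw [QQ_local]
    refine ⟨QQ_card hd B, hWB, hlt.le.trans (le_of_eq ?_)⟩
    rw [Nat.cast_sum]
    unfold cher
    rw [sum_filter]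
    refine sum_congr rfl fun z hz => ?_
    rw [mem_compl] at hz
    rw [← nb_local S B (QQ S B) hz hWB]
    unfold hh
    rfl
  · intro S₁ _
    set W := QQ S₁ B with hW
    by_cases hcard : (W.card : ℝ) ≤ B.card * (2 * (n * p)) ∧ (∀ w ∈ W, w ∉ B)
    swap
    · have h0 : pr p (E n \ EW B) (fun T => (W.card : ℝ) ≤ B.card * (2 * (n * p)) ∧
          (∀ w ∈ W, w ∉ B) ∧
          x ≤ ∑ z ∈ (B ∪ W)ᶜ, hh (W.filter (fun y => s(z, y) ∈ T)).card) = 0 := by
        rw [pr_def]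
        refine (ex_congr p fun T _ => ?_).trans (ex_const p _ 0)
        rw [if_neg]
        rintro ⟨h1, h2, -⟩
        exact hcard ⟨h1, h2⟩
      rw [h0]
      exact (Real.exp_pos _).le
    · obtain ⟨hWc, hWB⟩ := hcard
      have hmark := pr_exp hp0 hp1 (E n \ EW B)
        (fun T => ∑ z ∈ (B ∪ W)ᶜ, hh (W.filter (fun y => s(z, y) ∈ T)).card) x
      refine (pr_mono hp0 hp1 fun T _ hT => hT.2.2).trans (hmark.trans ?_)
      have hstar := ex_star p (E n \ EW B) W (B ∪ W)ᶜ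
        (by
          rw [disjoint_left]
          intro w hw hw'
          rw [mem_compl, mem_union, not_or] at hw'
          exact hw'.2 hw)
        (by
          intro z hz y hy
          rw [mem_compl, mem_union, not_or] at hz
          rw [mem_sdiff, mk_mem_E, mk_mem_EW]
          refine ⟨fun h => hz.2 (h ▸ hy), ?_⟩
          rintro ⟨-, h | h⟩
          · exact hz.1 h
          · exact hWB y hy h)
        (fun _ T => Real.exp (hh T.card))
      have hexp : ex p (E n \ EW B) (fun T => Real.exp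
          (∑ z ∈ (B ∪ W)ᶜ, hh (W.filter (fun y => s(z, y) ∈ T)).card)) =
          ∏ _z ∈ (B ∪ W)ᶜ, ex p W (fun T => Real.exp (hh T.card)) := by
        rw [← hstar]
        exact ex_congr p fun T _ => Real.exp_sum _ _
      rw [hexp, prod_const]
      -- the parameter `ρ`
      have hl70 : (10 : ℝ) ^ 9 ≤ l ^ 70 := by
        have h1 : l ^ 1 ≤ l ^ 70 := hB.pow_le (by norm_num)
        rw [pow_one] at h1
        exact hB.big.trans h1
      have hrp0 : (0 : ℝ) ≤ B.card * n * p ^ 2 := by positivity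
      have hrp : (B.card : ℝ) * n * p ^ 2 * 10 ^ 9 ≤ 1 :=
        (mul_le_mul_of_nonneg_left hl70 hrp0).trans hc
      have hρ1 : (W.card : ℝ) * p ≤ 2 * (B.card * n * p ^ 2) := by
        calc (W.card : ℝ) * p ≤ (B.card * (2 * (n * p))) * p :=
              mul_le_mul_of_nonneg_right hWc hp0
          _ = 2 * (B.card * n * p ^ 2) := by ring
      have hρ0 : (0 : ℝ) ≤ W.card * p := by positivity
      have hρ : 3 * ((W.card : ℝ) * p) ≤ 1 := by nlinarith
      have hone := one_star hp0 hp1 W hρ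
      have hnn : 0 ≤ ex p W (fun T => Real.exp (hh T.card)) :=
        ex_nonneg hp0 hp1 fun T _ => (Real.exp_pos _).le
      have hZ : ((B ∪ W)ᶜ : Finset (Fin n)).card ≤ n := by
        have := card_le_univ ((B ∪ W)ᶜ : Finset (Fin n))
        rwa [Fintype.card_fin] at this
      have hprod : (ex p W (fun T => Real.exp (hh T.card))) ^ ((B ∪ W)ᶜ : Finset (Fin n)).card ≤
          Real.exp ((n : ℝ) * (9 * (W.card * p) ^ 2)) := by
        calc (ex p W (fun T => Real.exp (hh T.card))) ^ ((B ∪ W)ᶜ : Finset (Fin n)).card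
            ≤ (Real.exp (9 * (W.card * p) ^ 2)) ^ ((B ∪ W)ᶜ : Finset (Fin n)).card :=
              pow_le_pow_left₀ hnn hone _
          _ ≤ (Real.exp (9 * (W.card * p) ^ 2)) ^ n :=
              pow_le_pow_right₀ (Real.one_le_exp (by positivity)) hZ
          _ = Real.exp ((n : ℝ) * (9 * (W.card * p) ^ 2)) := by rw [← Real.exp_nat_mul]
      calc Real.exp (-x) *
            (ex p W (fun T => Real.exp (hh T.card))) ^ ((B ∪ W)ᶜ : Finset (Fin n)).card
          ≤ Real.exp (-x) * Real.exp ((n : ℝ) * (9 * (W.card * p) ^ 2)) :=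
            mul_le_mul_of_nonneg_left hprod (Real.exp_pos _).le
        _ = Real.exp (-x + (n : ℝ) * (9 * (W.card * p) ^ 2)) := (Real.exp_add _ _).symm
        _ ≤ Real.exp (-(l ^ 2 * B.card)) := by
            refine Real.exp_le_exp.2 ?_
            have h1 : ((W.card : ℝ) * p) ^ 2 ≤ (2 * (B.card * n * p ^ 2)) ^ 2 :=
              pow_le_pow_left₀ hρ0 hρ1 2
            have h2 : (n : ℝ) * (9 * (W.card * p) ^ 2) ≤
                36 * ((B.card : ℝ) ^ 2 * n ^ 3 * p ^ 4) := by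
              calc (n : ℝ) * (9 * (W.card * p) ^ 2)
                  ≤ n * (9 * (2 * (B.card * n * p ^ 2)) ^ 2) := by gcongr
                _ = 36 * ((B.card : ℝ) ^ 2 * n ^ 3 * p ^ 4) := by ring
            have h3 : (36 : ℝ) ≤ l ^ 10 := by
              have h4 : l ^ 1 ≤ l ^ 10 := hB.pow_le (by norm_num)
              rw [pow_one] at h4
              exact le_trans (by norm_num) (hB.big.trans h4)
            have h5 : 36 * ((B.card : ℝ) ^ 2 * n ^ 3 * p ^ 4) ≤
                l ^ 10 * ((B.card : ℝ) ^ 2 * n ^ 3 * p ^ 4) :=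
              mul_le_mul_of_nonneg_right h3 (by positivity)
            rw [hx]
            nlinarith [h2, h5]

/-- For fixed `B ≠ ∅`, `r = |B|`, condition on the edges which touch `B` (`pr_cond`): `Q = QQ S B`
is then fixed, `|Q| ≤ 2 n p r`, and `ρ := |Q| p ≤ 2 r n p² ≤ 2 l^(-70)`. By `ex_star` (with
`A = E n \ EW B`, `W = Q`, `Z = (B ∪ Q)ᶜ`, `g z T = exp (if 2 ≤ T.card then T.card else 0)`) the
expectation of `exp (∑_{z ∈ cher} |N(z) ∩ Q|)` is at most `(1 + (3 ρ)²)^n ≤ exp (9 n ρ²)`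
(`P(|T| = k) ≤ ρ^k / k!` and `∑_{k ≥ 2} (e ρ)^k / k! ≤ (e ρ)²`), and
`9 n ρ² ≤ 36 r² n³ p⁴`. Markov with `x = l² r + r² n³ p⁴ l^10` gives at most `exp (- l² r)`.
Then `union3`. -/
theorem h3b_prob (hB : Big n l) (hp0 : 0 ≤ p) (hp1 : p ≤ 1) :
    pr p (E n) (fun S => DegOK (n * p) S ∧ ∃ B : Finset (Fin n),
      (B.card : ℝ) * n * p ^ 2 * l ^ 70 ≤ 1 ∧
      l ^ 2 * B.card + (B.card : ℝ) ^ 2 * n ^ 3 * p ^ 4 * l ^ 10 <
        ((∑ z ∈ cher S B, (nb S z ∩ QQ S B).card : ℕ) : ℝ)) ≤ 1 / (n : ℝ) ^ 5 := by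
  classical
  have hu := union3 hp0 hp1 hB.two_le_n (fun A B C S => B = ∅ ∧ C = ∅ ∧
    (A.card : ℝ) * n * p ^ 2 * l ^ 70 ≤ 1 ∧ (DegOK (n * p) S ∧
      l ^ 2 * A.card + (A.card : ℝ) ^ 2 * n ^ 3 * p ^ 4 * l ^ 10 <
        ((∑ z ∈ cher S A, (nb S z ∩ QQ S A).card : ℕ) : ℝ))) ?_
  · refine (pr_mono hp0 hp1 fun S _ hS => ?_).trans hu
    obtain ⟨hd, B, h1, h2⟩ := hS
    exact ⟨B, ∅, ∅, rfl, rfl, h1, hd, h2⟩
  · intro A B C
    have hzero : ∀ Q : Finset (Sym2 (Fin n)) → Prop, (∀ S, ¬ Q S) →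
        pr p (E n) Q ≤ (1 / (n : ℝ) ^ 6) ^ (A.card + B.card + C.card + 1) := by
      intro Q hQ
      have h0 : pr p (E n) Q = 0 := by
        rw [pr_def]
        refine (ex_congr p fun T _ => ?_).trans (ex_const p _ 0)
        rw [if_neg (hQ T)]
      rw [h0]
      positivity
    by_cases hBC : B = ∅ ∧ C = ∅ ∧ (A.card : ℝ) * n * p ^ 2 * l ^ 70 ≤ 1 ∧ A.Nonempty
    · obtain ⟨rfl, rfl, hc, hA⟩ := hBC
      refine (pr_mono hp0 hp1 fun S _ hS => hS.2.2.2).trans
        ((h3b_fixed hB hp0 hp1 A hc).trans ?_)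
      rw [card_empty, Nat.add_zero, Nat.add_zero]
      refine hB.exp_le' ?_
      have hc1 : (1 : ℝ) ≤ A.card := by exact_mod_cast card_pos.2 hA
      have hl1 := hB.one_le
      push_cast
      nlinarith [mul_nonneg (sub_nonneg.2 hl1) (sub_nonneg.2 hc1), hB.pos,
        mul_nonneg hB.pos.le (mul_nonneg (sub_nonneg.2 hl1) (le_trans zero_le_one hc1))]
    · refine hzero _ fun S hS => hBC ⟨hS.1, hS.2.1, hS.2.2.1, ?_⟩
      by_contra hA
      rw [not_nonempty_iff_eq_empty] at hA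
      have h1 := hS.2.2.2.2
      have h2 : QQ S A = ∅ := by
        rw [eq_empty_iff_forall_notMem]
        intro w hw
        unfold QQ aB at hw
        rw [mem_filter, hA, inter_empty, card_empty] at hw
        omega
      rw [h2] at h1
      simp [hA] at h1

end Pool.Agent.CFX
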