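import Pool.Agent.CFX.Props

/-! TY1: level sets and typical vertices -/

namespace Pool.Agent.CFX

open Finset Pool.Agent.MD437 Pool.Agent.CFC

variable {n m : ℕ} {p l : ℝ}

private lemma mem_HH {h : ℝ} {S : Finset (Sym2 (Fin n))} {B : Finset (Fin n)} {v : Fin n} :
    v ∈ HH h S B ↔ h ≤ (aB S B v : ℝ) := by
  unfold HH
  rw [mem_filter]
  exact ⟨fun h => h.2, fun h => ⟨mem_univ _, h⟩⟩

/-- `h |H| ≤ ee H B ≤ l (|H| + |B|) + l p |H| |B| ≤ (l + 1) |H| + l |B|` since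
`l p |B| ≤ l · l^4200 / n · l^5005 ≤ 1`; and `l + 1 ≤ h / 2`. -/
theorem level_card (hB : Big n l) (hp0 : 0 ≤ p) (h2 : n * p ≤ l ^ 4200)
    {S : Finset (Sym2 (Fin n))} (hd : DistOK p l S) (B : Finset (Fin n))
    (hs : (B.card : ℝ) ≤ l ^ 5005) {h : ℝ} (hh : 4 * l ≤ h) :
    h * ((HH h S B).card : ℝ) ≤ 2 * l * B.card := by
  have hl := hB.pos
  have hl1 := hB.one_le
  have hn := hB.n_pos'
  have h1 : h * ((HH h S B).card : ℝ) ≤ (ee S (HH h S B) B : ℝ) := by
    rw [ee_eq_sum]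
    push_cast
    calc h * ((HH h S B).card : ℝ) = ∑ _x ∈ HH h S B, h := by
          rw [sum_const, nsmul_eq_mul, mul_comm]
      _ ≤ ∑ x ∈ HH h S B, ((nb S x ∩ B).card : ℝ) := by
          refine sum_le_sum fun x hx => ?_
          exact mem_HH.1 hx
  have h3 := hd (HH h S B) B
  have h4 : l * p * B.card ≤ 1 := by
    have e1 : l * p * B.card * n ≤ l ^ 9206 := by
      calc l * p * B.card * n = l ^ 1 * (n * p) * B.card := by rw [pow_one]; ring
        _ ≤ l ^ 1 * l ^ 4200 * l ^ 5005 := by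
            refine mul_le_mul ?_ hs (Nat.cast_nonneg _)
              (mul_nonneg (hB.pow_pos' _).le (hB.pow_pos' _).le)
            exact mul_le_mul_of_nonneg_left h2 (hB.pow_pos' _).le
        _ = l ^ 9206 := by rw [← pow_add, ← pow_add]
    have e2 : l ^ 9206 ≤ n := by
      have := hB.pow_le (show 9206 ≤ 10000 by norm_num)
      rwa [hB.pow] at this
    have e3 : l * p * B.card * n ≤ 1 * n := by
      rw [one_mul]
      exact e1.trans e2
    exact le_of_mul_le_mul_right e3 hn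
  have h5 : l * p * ((HH h S B).card : ℝ) * B.card ≤ (HH h S B).card := by
    have := mul_le_mul_of_nonneg_right h4 (Nat.cast_nonneg (α := ℝ) (HH h S B).card)
    linarith
  have h6 : 0 ≤ ((HH h S B).card : ℝ) := Nat.cast_nonneg _
  have h7 : (l + 1) * ((HH h S B).card : ℝ) ≤ h / 2 * ((HH h S B).card : ℝ) :=
    mul_le_mul_of_nonneg_right (by linarith) h6
  linarith

/-- For a typical `w` and `z ∈ N[w] \ B`: if `w' ∈ N(z)` then `aB w' < h = R l^10` (for `z = w`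
because `w` has no neighbour in `H`; for `z ≠ w` because `z ∉ H` (it is adjacent to `w`) and `w` is
not near `H`). So `∑_{w' ∈ N[z]} aB w' ≤ aB z + R l^17 (z not heavy) + |N(z) ∩ B| h ≤
l^7 + R l^17 + l^7 R l^10 ≤ R l^18`. -/
theorem typ_sum (hB : Big n l) (hp0 : 0 ≤ p) {S : Finset (Sym2 (Fin n))} (B : Finset (Fin n))
    {w z : Fin n} (hw : w ∈ typ p l S B) (hz : z ∈ cl S w) (hzB : z ∉ B) :
    (∑ w' ∈ cl S z, (aB S B w' : ℝ)) ≤ RR n p B.card * l ^ 18 := by
  have hR : 1 ≤ RR n p B.card := by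
    unfold RR
    have : 0 ≤ (B.card : ℝ) * n * p ^ 2 := by positivity
    linarith
  set R := RR n p B.card with hRdef
  have hl1 := hB.one_le
  have hl := hB.pos
  unfold typ at hw
  rw [mem_filter] at hw
  obtain ⟨hwQ, hw1, hwH, hwn, hwz⟩ := hw
  obtain ⟨hzh, hz7⟩ := hwz z hz
  have hz7 := hz7 hzB
  rw [← hRdef] at hwH hwn hzh
  have h10 : 1 < R * l ^ 10 := by
    have e1 : (10 : ℝ) ^ 9 * l ^ 9 ≤ l ^ 10 := hB.mul_pow_le le_rfl (by norm_num)
    have e2 := hB.one_le_pow 9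
    have e3 : 1 * l ^ 10 ≤ R * l ^ 10 := mul_le_mul_of_nonneg_right hR (hB.pow_pos' _).le
    nlinarith
  -- all neighbours of z are below the level
  have hlow : ∀ w' ∈ nb S z, (aB S B w' : ℝ) < R * l ^ 10 := by
    intro w' hw'
    rw [mem_nb] at hw'
    by_contra hcon
    rw [not_lt] at hcon
    have hH : w' ∈ HH (R * l ^ 10) S B := mem_HH.2 hcon
    rcases mem_cl.1 hz with hzw | hzw
    · subst hzw
      exact hwH w' hH hw'
    · apply hwn
      unfold near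
      rw [mem_filter]
      refine ⟨hwQ, ?_, hwH, z, hzw, ?_, hzB, w', hH, hw'⟩
      · intro hc
        rw [mem_HH, hw1, Nat.cast_one] at hc
        linarith
      · intro hc
        exact hwH z hc hzw
  have hsplit : (∑ w' ∈ cl S z, (aB S B w' : ℝ)) = (aB S B z : ℝ) +
      ((∑ w' ∈ nb S z \ B, (aB S B w' : ℝ)) + ∑ w' ∈ nb S z ∩ B, (aB S B w' : ℝ)) := by
    rw [cl, sum_insert (not_mem_nb_self S z)]
    have := Finset.sum_inter_add_sum_sdiff (nb S z) B (fun w' => (aB S B w' : ℝ))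
    rw [← this, add_comm (∑ w' ∈ nb S z ∩ B, (aB S B w' : ℝ))]
  have hA : (∑ w' ∈ nb S z \ B, (aB S B w' : ℝ)) < R * l ^ 17 := by
    unfold heavy at hzh
    rw [mem_filter, not_and] at hzh
    have h1 := hzh (by rw [mem_compl]; exact hzB)
    rw [not_le] at h1
    refine lt_of_eq_of_lt ?_ h1
    refine sum_congr rfl fun w' hw' => ?_
    rw [if_pos (hlow w' (mem_sdiff.1 hw').1)]
  have hC : (∑ w' ∈ nb S z ∩ B, (aB S B w' : ℝ)) ≤ l ^ 7 * (R * l ^ 10) := by
    calc (∑ w' ∈ nb S z ∩ B, (aB S B w' : ℝ)) ≤ ∑ _w' ∈ nb S z ∩ B, (R * l ^ 10) :=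
          sum_le_sum fun w' hw' => (hlow w' (mem_inter.1 hw').1).le
      _ = (aB S B z : ℝ) * (R * l ^ 10) := by rw [sum_const, nsmul_eq_mul]; rfl
      _ ≤ l ^ 7 * (R * l ^ 10) := mul_le_mul_of_nonneg_right hz7.le (by linarith)
  rw [hsplit]
  have e1 : l ^ 7 * (R * l ^ 10) = R * l ^ 17 := by
    rw [mul_left_comm, ← pow_add]
  rw [e1] at hC
  have e2 : l ^ 7 ≤ R * l ^ 17 := by
    calc l ^ 7 ≤ l ^ 17 := hB.pow_le (by norm_num)
      _ = 1 * l ^ 17 := (one_mul _).symm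
      _ ≤ R * l ^ 17 := mul_le_mul_of_nonneg_right hR (hB.pow_pos' _).le
  have e3 : 3 * l ^ 17 ≤ l ^ 18 := hB.mul_pow_le (by norm_num) (by norm_num)
  have e4 : R * (3 * l ^ 17) ≤ R * l ^ 18 := mul_le_mul_of_nonneg_left e3 (by linarith)
  linarith

end Pool.Agent.CFX
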