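import Pool.Agent.CFX.TC0
import Pool.Agent.CFX.TY1

/-! TC1: few typical vertices have many conflicts, case I -/

namespace Pool.Agent.CFX

open Finset Pool.Agent.MD437 Pool.Agent.CFC

variable {n m : ℕ} {p l : ℝ}

private lemma tc1_rr (hB : Big n l) (hp0 : 0 < p) (h1 : l ^ 222 ≤ n * p)
    (h2 : n * p ≤ l ^ 4200) {r : ℕ} (hs : (r : ℝ) ≤ l ^ 5005) :
    RR n p r * l ^ 219 ≤ n * p := by
  have hn := hB.n_pos'
  have hd0 : 0 < (n : ℝ) * p := mul_pos hn hp0
  have hp4 : p * l ^ 5800 ≤ 1 := by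
    have h3 : (n : ℝ) = l ^ 5800 * l ^ 4200 := by rw [← hB.pow, ← pow_add]
    have h4 : l ^ 4200 * (p * l ^ 5800) ≤ l ^ 4200 * 1 := by
      calc l ^ 4200 * (p * l ^ 5800) = n * p := by rw [h3]; ring
        _ ≤ l ^ 4200 * 1 := by linarith
    exact le_of_mul_le_mul_left h4 (hB.pow_pos' _)
  unfold RR
  have e : (1 + (r : ℝ) * n * p ^ 2) * l ^ 219 =
      l ^ 219 + (r * (p * l ^ 219)) * (n * p) := by ring
  rw [e]
  have h3 : 4 * l ^ 219 ≤ n * p := (hB.mul_pow_le (by norm_num) (by norm_num)).trans h1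
  have h4 : (r : ℝ) * (p * l ^ 219) ≤ 1 / 4 := by
    have h5 : (r : ℝ) * (p * l ^ 219) ≤ l ^ 5005 * (p * l ^ 219) :=
      mul_le_mul_of_nonneg_right hs (mul_nonneg hp0.le (hB.pow_pos' 219).le)
    have h6 : l ^ 5005 * (p * l ^ 219) = p * l ^ 5224 := by
      rw [show (5224 : ℕ) = 5005 + 219 by norm_num, pow_add]; ring
    have h7 : 4 * l ^ 5224 ≤ l ^ 5800 := hB.mul_pow_le (by norm_num) (by norm_num)
    have h8 := mul_le_mul_of_nonneg_left h7 hp0.le
    linarith
  have h5 := mul_le_mul_of_nonneg_right h4 hd0.le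
  linarith

private lemma tc1_aB {S : Finset (Sym2 (Fin n))} {B : Finset (Fin n)} {w : Fin n}
    (hw : w ∈ typ p l S B) : aB S B w = 1 := by
  unfold typ at hw
  rw [mem_filter] at hw
  exact hw.2.1

/-- Case I, `n < r d² l^70` (here `r d² / n = r n p²`). By `conf_le`, `gz_le`, `typ_sum` a typical
`w` with `conf ≥ d / 1024` has `|N[w] ∩ X| ≥ α = d / (1024 R l^18) ≥ l^200` (`R ≤ d / l^221`). By
`DistOK` for the set `W` of these `w` and `X`: `(α - 1) |W| ≤ l (|W| + |X|) + l p |X| |W|` and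
`l p |X| ≤ l^9`, so `|W| ≤ 2 l |X| / α ≤ 2048 (n / d²) R l^27 = 2048 (n / d² + r) l^27
≤ 4096 r l^97 ≤ r d / 200`. Every `w` is in one pair only (`aB w = 1`). -/
theorem conf_count_I (hB : Big n l) (hp0 : 0 < p) (hp1 : p ≤ 1) (h1 : l ^ 222 ≤ n * p)
    (h2 : n * p ≤ l ^ 4200) {S : Finset (Sym2 (Fin n))} (hG : GoodH p l S)
    (B X : Finset (Fin n)) (hs : (B.card : ℝ) ≤ l ^ 5005) (hBX : B ⊆ X)
    (hX : (X.card : ℝ) ≤ l ^ 8 / p) (hI : 1 < (B.card : ℝ) * n * p ^ 2 * l ^ 70) :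
    ((∑ b ∈ B, ((nb S b).filter (fun w => w ∈ typ p l S B ∧
      n * p ≤ 1024 * (conf S X (B.erase b) b w : ℝ))).card : ℕ) : ℝ)
      ≤ B.card * (n * p) / 200 := by
  classical
  have hn := hB.n_pos'
  have hl0 := hB.pos
  have hl1 := hB.one_le
  have hbig := hB.big
  have hd0 : 0 < (n : ℝ) * p := mul_pos hn hp0
  have hrr := tc1_rr hB hp0 h1 h2 hs
  set R := RR n p B.card with hR
  have hR1 : 1 ≤ R := by
    rw [hR]
    unfold RR
    have : 0 ≤ (B.card : ℝ) * n * p ^ 2 := by positivity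
    linarith
  set F : Fin n → Finset (Fin n) := fun b => (nb S b).filter (fun w => w ∈ typ p l S B ∧
      n * p ≤ 1024 * (conf S X (B.erase b) b w : ℝ)) with hF
  have hdisj : ∀ b ∈ B, ∀ b' ∈ B, b ≠ b' → Disjoint (F b) (F b') := by
    intro b hb b' hb' hne
    rw [disjoint_left]
    intro w hw hw'
    rw [hF, mem_filter] at hw hw'
    have ha := tc1_aB hw.2.1
    have : 1 < aB S B w := by
      unfold aB
      rw [one_lt_card]
      exact ⟨b, mem_inter.2 ⟨mem_nb.2 (ad_symm (mem_nb.1 hw.1)), hb⟩, b',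
        mem_inter.2 ⟨mem_nb.2 (ad_symm (mem_nb.1 hw'.1)), hb'⟩, hne⟩
    omega
  have hcard : ∑ b ∈ B, (F b).card = (B.biUnion F).card := by
    rw [card_biUnion]
    exact hdisj
  rw [hcard]
  set W := B.biUnion F with hW
  set K := 1024 * (R * l ^ 18) with hK
  have hK0 : 0 < K := by
    rw [hK]
    have := hB.pow_pos' 18
    positivity
  -- every `w ∈ W` sees many vertices of `X`
  have hsee : ∀ w ∈ W, (n : ℝ) * p ≤ K * ((cl S w ∩ X).card : ℝ) := by
    intro w hw
    rw [hW, mem_biUnion] at hw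
    obtain ⟨b, hb, hwb⟩ := hw
    rw [hF, mem_filter] at hwb
    obtain ⟨hwb1, hwt, hwc⟩ := hwb
    have h3 := conf_le hB (X := X) hb hwb1 hwt
    have h4 : ∀ z ∈ (cl S w ∩ X) \ B, (gz S (B.erase b) w z : ℝ) ≤ R * l ^ 18 := by
      intro z hz
      rw [mem_sdiff, mem_inter] at hz
      have h5 := gz_le S B (B.erase b) (erase_subset _ _) w z
      have h6 := typ_sum hB hp0.le B hwt hz.1.1 hz.2
      have h7 : (gz S (B.erase b) w z : ℝ) ≤ ∑ w' ∈ cl S z, (aB S B w' : ℝ) := by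
        exact_mod_cast h5
      linarith
    have h5 : (conf S X (B.erase b) b w : ℝ) ≤
        ∑ z ∈ (cl S w ∩ X) \ B, (gz S (B.erase b) w z : ℝ) := by exact_mod_cast h3
    have h6 : (conf S X (B.erase b) b w : ℝ) ≤ ((cl S w ∩ X).card : ℝ) * (R * l ^ 18) := by
      refine h5.trans ((sum_le_sum h4).trans ?_)
      rw [sum_const, nsmul_eq_mul]
      refine mul_le_mul_of_nonneg_right ?_ (by have := hB.pow_pos' 18; positivity)
      exact_mod_cast card_le_card sdiff_subset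
    calc (n : ℝ) * p ≤ 1024 * (conf S X (B.erase b) b w : ℝ) := hwc
      _ ≤ 1024 * (((cl S w ∩ X).card : ℝ) * (R * l ^ 18)) :=
          mul_le_mul_of_nonneg_left h6 (by norm_num)
      _ = _ := by rw [hK]; ring
  have hlpX : l * p * (X.card : ℝ) ≤ l ^ 9 := by
    have h3 := mul_le_mul_of_nonneg_left hX (show 0 ≤ l * p by positivity)
    refine h3.trans (le_of_eq ?_)
    field_simp
  have hdist := hG.dist W X
  have hsum : (W.card : ℝ) * (n * p) ≤ K * (ee S W X + W.card) := by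
    have h3 : ∀ w ∈ W, ((cl S w ∩ X).card : ℝ) ≤ ((nb S w ∩ X).card : ℝ) + 1 := by
      intro w _
      have h4 : cl S w ∩ X ⊆ insert w (nb S w ∩ X) := by
        intro z hz
        rw [mem_inter, mem_cl] at hz
        rw [mem_insert, mem_inter, mem_nb]
        rcases hz.1 with h | h
        · exact Or.inl h
        · exact Or.inr ⟨h, hz.2⟩
      exact_mod_cast (card_le_card h4).trans (card_insert_le _ _)
    calc (W.card : ℝ) * (n * p) = ∑ _w ∈ W, (n : ℝ) * p := by rw [sum_const, nsmul_eq_mul]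
      _ ≤ ∑ w ∈ W, K * ((cl S w ∩ X).card : ℝ) := sum_le_sum hsee
      _ ≤ ∑ w ∈ W, K * (((nb S w ∩ X).card : ℝ) + 1) :=
          sum_le_sum fun w hw => mul_le_mul_of_nonneg_left (h3 w hw) hK0.le
      _ = K * (ee S W X + W.card) := by
          rw [← mul_sum, sum_add_distrib, ee_eq_sum]
          push_cast
          rw [sum_const, nsmul_eq_mul, mul_one]
  have hKl : K * (3 * l ^ 9) ≤ n * p / 2 := by
    have h3 : K * (3 * l ^ 9) = R * (3072 * l ^ 27) := by
      rw [hK, show (27 : ℕ) = 18 + 9 by norm_num, pow_add]; ring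
    have h4 : 2 * 3072 * l ^ 27 ≤ l ^ 219 := hB.mul_pow_le (by norm_num) (by norm_num)
    have h5 := mul_le_mul_of_nonneg_left h4 (show 0 ≤ R by linarith)
    rw [h3]
    linarith
  have hW0 : (0 : ℝ) ≤ W.card := Nat.cast_nonneg _
  have hmain : (W.card : ℝ) * (n * p) ≤ 2 * K * (l ^ 9 / p) := by
    have h3 : (ee S W X : ℝ) + W.card ≤ (3 * l ^ 9) * W.card + l ^ 9 / p := by
      have h4 : l * p * (W.card : ℝ) * X.card = (l * p * X.card) * W.card := by ring
      have h5 : (l * p * (X.card : ℝ)) * W.card ≤ l ^ 9 * W.card :=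
        mul_le_mul_of_nonneg_right hlpX hW0
      have h6 : l * (X.card : ℝ) ≤ l ^ 9 / p := by
        have h7 := mul_le_mul_of_nonneg_left hX hl0.le
        refine h7.trans (le_of_eq ?_)
        ring
      have h7 : l + 1 ≤ 2 * l ^ 9 := by
        have h8 := hB.pow_le (show 1 ≤ 9 by norm_num)
        rw [pow_one] at h8
        linarith
      have h8 := mul_le_mul_of_nonneg_right h7 hW0
      rw [h4] at hdist
      linarith
    have h4 := mul_le_mul_of_nonneg_left h3 hK0.le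
    have h5 := mul_le_mul_of_nonneg_right hKl hW0
    have h6 : K * ((3 * l ^ 9) * W.card + l ^ 9 / p) =
        K * (3 * l ^ 9) * W.card + K * (l ^ 9 / p) := by ring
    rw [h6] at h4
    linarith
  have hRle : R ≤ 2 * ((B.card : ℝ) * n * p ^ 2 * l ^ 70) := by
    have h3 : (B.card : ℝ) * n * p ^ 2 ≤ (B.card : ℝ) * n * p ^ 2 * l ^ 70 := by
      have h4 : 0 ≤ (B.card : ℝ) * n * p ^ 2 := by positivity
      have h5 := mul_le_mul_of_nonneg_left (hB.one_le_pow 70) h4
      linarith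
    have h4 : R = 1 + (B.card : ℝ) * n * p ^ 2 := rfl
    linarith
  have hfin : (W.card : ℝ) * (n * p) ≤ (4096 * l ^ 97 * B.card) * (n * p) := by
    refine hmain.trans ?_
    have h3 : 2 * K * (l ^ 9 / p) = R * (2048 * l ^ 27 / p) := by
      rw [hK, show (27 : ℕ) = 18 + 9 by norm_num, pow_add]; ring
    rw [h3]
    have h4 := mul_le_mul_of_nonneg_right hRle
      (show 0 ≤ 2048 * l ^ 27 / p by have := hB.pow_pos' 27; positivity)
    refine h4.trans (le_of_eq ?_)
    rw [show (97 : ℕ) = 70 + 27 by norm_num, pow_add]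
    field_simp
    ring
  have h5 : (W.card : ℝ) ≤ 4096 * l ^ 97 * B.card := le_of_mul_le_mul_right hfin hd0
  have h6 : 200 * 4096 * l ^ 97 ≤ l ^ 222 := hB.mul_pow_le (by norm_num) (by norm_num)
  have h7 : 200 * 4096 * l ^ 97 ≤ n * p := h6.trans h1
  have h8 := mul_le_mul_of_nonneg_left h7 (show (0 : ℝ) ≤ B.card from Nat.cast_nonneg _)
  linarith

end Pool.Agent.CFX
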