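import Pool.Agent.CFX.TC0
import Pool.Agent.CFX.TY1

/-! TC2: few typical vertices have many conflicts, case II -/

namespace Pool.Agent.CFX

open Finset Pool.Agent.MD437 Pool.Agent.CFC

variable {n m : ℕ} {p l : ℝ}

private lemma typ_mem {S : Finset (Sym2 (Fin n))} {B : Finset (Fin n)} {w : Fin n}
    (hw : w ∈ typ p l S B) : w ∈ QQ S B ∧ aB S B w = 1 := by
  unfold typ at hw
  rw [mem_filter] at hw
  exact ⟨hw.1, hw.2.1⟩

private lemma qq_mem {S : Finset (Sym2 (Fin n))} {B : Finset (Fin n)} {w : Fin n} :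
    w ∈ QQ S B ↔ w ∉ B ∧ ∃ b ∈ B, ad S w b := by
  unfold QQ aB
  rw [mem_filter, mem_compl]
  constructor
  · rintro ⟨h1, h2⟩
    have h3 : (nb S w ∩ B).Nonempty := card_pos.1 h2
    obtain ⟨b, hb⟩ := h3
    rw [mem_inter, mem_nb] at hb
    exact ⟨h1, b, hb.2, hb.1⟩
  · rintro ⟨h1, b, hb, h2⟩
    exact ⟨h1, card_pos.2 ⟨b, mem_inter.2 ⟨mem_nb.2 h2, hb⟩⟩⟩

private lemma uniq {S : Finset (Sym2 (Fin n))} {B : Finset (Fin n)} {w b b' : Fin n}
    (hw : w ∈ typ p l S B) (hb : b ∈ B) (hb' : b' ∈ B) (h : ad S w b) (h' : ad S w b') :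
    b = b' := by
  have h1 := (typ_mem hw).2
  unfold aB at h1
  exact card_le_one.1 h1.le b (mem_inter.2 ⟨mem_nb.2 h, hb⟩) b' (mem_inter.2 ⟨mem_nb.2 h', hb'⟩)

/-- the vertices which can occur in conflicts of `w` -/
private def zs (S : Finset (Sym2 (Fin n))) (B : Finset (Fin n)) (w : Fin n) : Finset (Fin n) :=
  ((if (nb S w ∩ QQ S B).Nonempty then {w} else ∅) ∪ (nb S w ∩ QQ S B)) ∪ (nb S w ∩ cher S B)

private lemma zs_card (S : Finset (Sym2 (Fin n))) (B : Finset (Fin n)) (w : Fin n) :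
    (zs S B w).card ≤ 2 * (nb S w ∩ QQ S B).card + (nb S w ∩ cher S B).card := by
  unfold zs
  refine (card_union_le _ _).trans ?_
  refine Nat.add_le_add_right ((card_union_le _ _).trans ?_) _
  split_ifs with h
  · have := card_pos.2 h
    rw [card_singleton]
    omega
  · rw [card_empty]
    omega

private lemma conf_zs {S : Finset (Sym2 (Fin n))} {X B : Finset (Fin n)} {b w : Fin n}
    (hb : b ∈ B) (hbw : w ∈ nb S b) (hw : w ∈ typ p l S B) :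
    conf S X (B.erase b) b w ≤ ∑ z ∈ zs S B w, gz S (B.erase b) w z := by
  have hwQ := (typ_mem hw).1
  have hwB := (qq_mem.1 hwQ).1
  have hwb : ad S w b := ad_symm (mem_nb.1 hbw)
  unfold conf gz
  refine le_trans (card_le_card ?_) card_biUnion_le
  intro q hq
  rw [mem_filter, mem_product, mem_erase, mem_nb] at hq
  obtain ⟨⟨⟨hq1, hq2⟩, -⟩, hq3, hq4, hq5, z, hz⟩ := hq
  rw [mem_inter, mem_inter] at hz
  obtain ⟨⟨hz1, hz2⟩, -⟩ := hz
  rw [mem_biUnion]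
  refine ⟨z, ?_, ?_⟩
  swap
  · rw [mem_filter, mem_product, mem_erase, mem_nb]
    exact ⟨⟨⟨hq1, hq2⟩, mem_univ _⟩, hq3, mem_cl_comm.1 hz2, hq5⟩
  have hzB : z ∉ B := by
    intro h
    rw [mem_cl] at hz1
    rcases hz1 with h1 | h1
    · rw [h1] at h
      exact hwB h
    · have h2 := uniq hw h hb h1 hwb
      rw [h2] at hz2
      exact hq4 (mem_cl_comm.1 hz2)
  have hqb : q.2 ≠ b := by
    intro h
    rw [h] at hq4
    exact hq4 (self_mem_cl S b)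
  unfold zs
  rw [mem_union, mem_union]
  by_cases hzw : z = w
  · subst hzw
    rw [mem_cl] at hz2
    have h1 : ad S q.2 z := hz2.resolve_left (fun h => hq5 h.symm)
    have h2 : q.2 ∉ B := fun h => hqb (uniq hw h hb (ad_symm h1) hwb)
    have h3 : (nb S z ∩ QQ S B).Nonempty :=
      ⟨q.2, mem_inter.2 ⟨mem_nb.2 (ad_symm h1), qq_mem.2 ⟨h2, q.1, hq2, ad_symm hq3⟩⟩⟩
    refine Or.inl (Or.inl ?_)
    rw [if_pos h3]
    exact mem_singleton_self z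
  · have h1 : ad S w z := (mem_cl.1 hz1).resolve_left hzw
    by_cases hzQ : z ∈ QQ S B
    · exact Or.inl (Or.inr (mem_inter.2 ⟨mem_nb.2 h1, hzQ⟩))
    · refine Or.inr (mem_inter.2 ⟨mem_nb.2 h1, ?_⟩)
      have hzn : ∀ b' ∈ B, ¬ ad S z b' := fun b' hb' h => hzQ (qq_mem.2 ⟨hzB, b', hb', h⟩)
      have h2 : q.2 ≠ z := by
        intro h
        rw [h] at hq3
        exact hzn _ hq2 (ad_symm hq3)
      have h3 : ad S z q.2 := ad_symm ((mem_cl.1 hz2).resolve_left (fun h => h2 h.symm))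
      have h4 : q.2 ∉ B := fun h => hzn _ h h3
      unfold cher
      rw [mem_filter, mem_compl, mem_union]
      refine ⟨fun h => h.elim hzB hzQ, ?_⟩
      have h5 : ({w, q.2} : Finset (Fin n)) ⊆ nb S z ∩ QQ S B := by
        intro v hv
        rw [mem_insert, mem_singleton] at hv
        rcases hv with rfl | rfl
        · exact mem_inter.2 ⟨mem_nb.2 (ad_symm h1), hwQ⟩
        · exact mem_inter.2 ⟨mem_nb.2 h3, qq_mem.2 ⟨h4, q.1, hq2, ad_symm hq3⟩⟩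
      have h6 := card_le_card h5
      rwa [card_pair (fun h => hq5 h.symm)] at h6

private lemma zs_cl {S : Finset (Sym2 (Fin n))} {B : Finset (Fin n)} {w z : Fin n}
    (hw : w ∈ typ p l S B) (hz : z ∈ zs S B w) : z ∈ cl S w ∧ z ∉ B := by
  have hwQ := (typ_mem hw).1
  have hwB := (qq_mem.1 hwQ).1
  unfold zs at hz
  rw [mem_union, mem_union] at hz
  rcases hz with (hz | hz) | hz
  · split_ifs at hz with h
    · rw [mem_singleton] at hz
      subst hz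
      exact ⟨self_mem_cl S z, hwB⟩
    · exact absurd hz (notMem_empty _)
  · rw [mem_inter] at hz
    exact ⟨nb_sub_cl S w hz.1, (qq_mem.1 hz.2).1⟩
  · rw [mem_inter] at hz
    refine ⟨nb_sub_cl S w hz.1, ?_⟩
    have := hz.2
    unfold cher at this
    rw [mem_filter, mem_compl, mem_union] at this
    exact fun h => this.1 (Or.inl h)

private lemma conf_bd (hB : Big n l) (hp0 : 0 ≤ p) {S : Finset (Sym2 (Fin n))}
    {X B : Finset (Fin n)} {b w : Fin n} (hII : (B.card : ℝ) * n * p ^ 2 * l ^ 70 ≤ 1)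
    (hb : b ∈ B) (hbw : w ∈ nb S b) (hw : w ∈ typ p l S B) :
    (conf S X (B.erase b) b w : ℝ) ≤
      2 * l ^ 18 * (2 * (nb S w ∩ QQ S B).card + (nb S w ∩ cher S B).card : ℕ) := by
  have hR : RR n p B.card ≤ 2 := by
    unfold RR
    have h1 : 0 ≤ (B.card : ℝ) * n * p ^ 2 := by positivity
    have h2 : (B.card : ℝ) * n * p ^ 2 * 1 ≤ (B.card : ℝ) * n * p ^ 2 * l ^ 70 :=
      mul_le_mul_of_nonneg_left (hB.one_le_pow 70) h1
    linarith
  have h1 : (conf S X (B.erase b) b w : ℝ) ≤ ∑ z ∈ zs S B w, (gz S (B.erase b) w z : ℝ) := by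
    exact_mod_cast conf_zs hb hbw hw
  have h2 : ∀ z ∈ zs S B w, (gz S (B.erase b) w z : ℝ) ≤ 2 * l ^ 18 := by
    intro z hz
    obtain ⟨hz1, hz2⟩ := zs_cl hw hz
    have h3 := typ_sum hB hp0 B hw hz1 hz2
    have h4 : (gz S (B.erase b) w z : ℝ) ≤ ∑ w' ∈ cl S z, (aB S B w' : ℝ) := by
      exact_mod_cast gz_le S B (B.erase b) (erase_subset b B) w z
    refine h4.trans (h3.trans ?_)
    exact mul_le_mul_of_nonneg_right hR (hB.pow_pos' 18).le
  have h3 : (conf S X (B.erase b) b w : ℝ) ≤ (zs S B w).card * (2 * l ^ 18) := by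
    refine h1.trans ((sum_le_sum h2).trans ?_)
    rw [sum_const, nsmul_eq_mul]
  refine h3.trans ?_
  rw [mul_comm]
  refine mul_le_mul_of_nonneg_left ?_ (by have := hB.pow_pos' 18; linarith)
  exact_mod_cast zs_card S B w

/-- Case II, `r n p² l^70 ≤ 1`, so `R ≤ 2`. Put `Q = QQ S B`. For a typical `w` (with `b`) and
a pair `(b', w')` counted by `conf` with `z` as in `conf_le`:
* `z = w`: then `w' ∈ N(w)`, `w' ∉ B` (as `w' ≠ b`), so `w' ∈ N(w) ∩ Q`;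
* `z ≠ w`, `z ∈ Q`: then `z ∈ N(w) ∩ Q`;
* `z ≠ w`, `z ∉ Q`, `z ∉ B`: then `z` has no neighbour in `B`, so `w' ≠ z`, `w' ∈ N(z)`, `w' ∉ B`,
  `w' ∈ Q`, and `z ∈ cher S B` (neighbours `w ≠ w'` in `Q`).
For given `z` there are at most `R l^18 ≤ 2 l^18` pairs. So
`conf ≤ 2 l^18 (2 |N(w) ∩ Q| + |N(w) ∩ cher|)`, and the sum over the typical `w ∈ Q` is at most
`2 l^18 (2 ee Q Q + ∑_{z ∈ cher} |N(z) ∩ Q|) ≤ 2 l^18 (3 l² r + 3 r² n³ p⁴ l^10)` by `h3a`, `h3b`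
(`r² n² p³ ≤ r² n³ p⁴` as `n p ≥ 1`). Markov: at most `(1024 / d) (6 l^20 r + 6 r² n³ p⁴ l^28)
≤ 6144 r (l^20 / d + d l^28 l^(-70)) ≤ r d / 200`. -/
theorem conf_count_II (hB : Big n l) (hp0 : 0 < p) (hp1 : p ≤ 1) (h1 : l ^ 222 ≤ n * p)
    (h2 : n * p ≤ l ^ 4200) {S : Finset (Sym2 (Fin n))} (hG : GoodH p l S)
    (B X : Finset (Fin n)) (hs : (B.card : ℝ) ≤ l ^ 5005) (hBX : B ⊆ X)
    (hX : (X.card : ℝ) ≤ l ^ 8 / p) (hII : (B.card : ℝ) * n * p ^ 2 * l ^ 70 ≤ 1) :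
    ((∑ b ∈ B, ((nb S b).filter (fun w => w ∈ typ p l S B ∧
      n * p ≤ 1024 * (conf S X (B.erase b) b w : ℝ))).card : ℕ) : ℝ)
      ≤ B.card * (n * p) / 200 := by
  classical
  have hl := hB.pos
  have hd : 0 < (n : ℝ) * p := mul_pos hB.n_pos' hp0
  set F : Fin n → Finset (Fin n) := fun b => (nb S b).filter (fun w => w ∈ typ p l S B ∧
      n * p ≤ 1024 * (conf S X (B.erase b) b w : ℝ)) with hF
  have memF : ∀ b w, w ∈ F b ↔ w ∈ nb S b ∧ w ∈ typ p l S B ∧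
      n * p ≤ 1024 * (conf S X (B.erase b) b w : ℝ) := by
    intro b w
    rw [hF]
    exact mem_filter
  set g : Fin n → ℕ := fun w => 2 * (nb S w ∩ QQ S B).card + (nb S w ∩ cher S B).card with hg
  have e1 : (∑ b ∈ B, ((nb S b).filter (fun w => w ∈ typ p l S B ∧
      n * p ≤ 1024 * (conf S X (B.erase b) b w : ℝ))).card) = ∑ b ∈ B, (F b).card := by
    refine sum_congr rfl fun b _ => ?_
    rw [hF]
  rw [e1]
  -- the first step of the Markov bound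
  have e2 : ∀ b ∈ B, ((F b).card : ℝ) * (n * p) ≤ ∑ w ∈ F b, 2048 * l ^ 18 * (g w : ℝ) := by
    intro b hb
    rw [← nsmul_eq_mul, ← sum_const]
    refine sum_le_sum fun w hw => ?_
    obtain ⟨h3, h4, h5⟩ := (memF b w).1 hw
    have h6 := conf_bd (X := X) hB hp0.le hII hb h3 h4
    have h7 : 1024 * (conf S X (B.erase b) b w : ℝ) ≤ 1024 * (2 * l ^ 18 * (g w : ℝ)) :=
      mul_le_mul_of_nonneg_left h6 (by norm_num)
    linarith
  have hdisj : ((B : Finset (Fin n)) : Set (Fin n)).PairwiseDisjoint F := by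
    intro b hb b' hb' hne
    rw [Function.onFun, disjoint_left]
    intro w hw hw'
    obtain ⟨h3, h4, -⟩ := (memF b w).1 hw
    obtain ⟨h5, -, -⟩ := (memF b' w).1 hw'
    exact hne (uniq h4 hb hb' (ad_symm (mem_nb.1 h3)) (ad_symm (mem_nb.1 h5)))
  have e3 : ∑ b ∈ B, ∑ w ∈ F b, (g w : ℝ) ≤ ∑ w ∈ QQ S B, (g w : ℝ) := by
    rw [← sum_biUnion hdisj]
    refine sum_le_sum_of_subset_of_nonneg ?_ fun _ _ _ => Nat.cast_nonneg _
    intro w hw
    rw [mem_biUnion] at hw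
    obtain ⟨b, -, hw⟩ := hw
    exact (typ_mem ((memF b w).1 hw).2.1).1
  have e4 : ∑ w ∈ QQ S B, (g w : ℝ) =
      2 * (ee S (QQ S B) (QQ S B) : ℝ) +
        ((∑ z ∈ cher S B, (nb S z ∩ QQ S B).card : ℕ) : ℝ) := by
    have h3 : ∑ w ∈ QQ S B, g w = 2 * ee S (QQ S B) (QQ S B) +
        ∑ z ∈ cher S B, (nb S z ∩ QQ S B).card := by
      rw [← ee_eq_sum, ee_comm S (cher S B), ee_eq_sum, ee_eq_sum, mul_sum, ← sum_add_distrib]
    exact_mod_cast h3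
  have e5 := hG.h3a B
  have e6 := hG.h3b B hII
  have hnp1 : 1 ≤ (n : ℝ) * p := (hB.one_le_pow 222).trans h1
  have e7 : (B.card : ℝ) ^ 2 * n ^ 2 * p ^ 3 * l ^ 10 ≤ (B.card : ℝ) ^ 2 * n ^ 3 * p ^ 4 * l ^ 10 := by
    have h3 : 0 ≤ (B.card : ℝ) ^ 2 * n ^ 2 * p ^ 3 * l ^ 10 := by positivity
    calc (B.card : ℝ) ^ 2 * n ^ 2 * p ^ 3 * l ^ 10
        = (B.card : ℝ) ^ 2 * n ^ 2 * p ^ 3 * l ^ 10 * 1 := (mul_one _).symm
      _ ≤ (B.card : ℝ) ^ 2 * n ^ 2 * p ^ 3 * l ^ 10 * (n * p) :=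
          mul_le_mul_of_nonneg_left hnp1 h3
      _ = _ := by ring
  have e8 : ∑ w ∈ QQ S B, (g w : ℝ) ≤
      3 * (l ^ 2 * B.card) + 3 * ((B.card : ℝ) ^ 2 * n ^ 3 * p ^ 4 * l ^ 10) := by
    rw [e4]
    linarith
  have hLHS : ((∑ b ∈ B, (F b).card : ℕ) : ℝ) * (n * p) ≤
      2048 * l ^ 18 * (3 * (l ^ 2 * B.card) + 3 * ((B.card : ℝ) ^ 2 * n ^ 3 * p ^ 4 * l ^ 10)) := by
    rw [Nat.cast_sum, sum_mul]
    refine (sum_le_sum e2).trans ?_
    rw [show (∑ b ∈ B, ∑ w ∈ F b, 2048 * l ^ 18 * (g w : ℝ)) =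
        2048 * l ^ 18 * ∑ b ∈ B, ∑ w ∈ F b, (g w : ℝ) by
      rw [mul_sum]
      refine sum_congr rfl fun b _ => ?_
      rw [mul_sum]]
    exact mul_le_mul_of_nonneg_left (e3.trans e8) (by positivity)
  have hr : (0 : ℝ) ≤ B.card := Nat.cast_nonneg _
  -- numerical estimates
  have n1 : 2457600 * l ^ 20 ≤ ((n : ℝ) * p) ^ 2 := by
    have h3 : 2457600 * l ^ 20 ≤ l ^ 444 := hB.mul_pow_le (by norm_num) (by norm_num)
    have h4 : (l ^ 222) ^ 2 ≤ ((n : ℝ) * p) ^ 2 := pow_le_pow_left₀ (hB.pow_pos' _).le h1 2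
    rw [← pow_mul] at h4
    exact h3.trans h4
  have n2 : (B.card : ℝ) * n * p ^ 2 * (2457600 * l ^ 28) ≤ 1 := by
    refine le_trans ?_ hII
    refine mul_le_mul_of_nonneg_left ?_ (by positivity)
    exact hB.mul_pow_le (by norm_num) (by norm_num)
  have f1 : 6144 * l ^ 20 * B.card ≤ (B.card : ℝ) * ((n : ℝ) * p) ^ 2 / 400 := by
    have := mul_le_mul_of_nonneg_left n1 hr
    linarith
  have f2 : 6144 * l ^ 28 * ((B.card : ℝ) ^ 2 * n ^ 3 * p ^ 4) ≤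
      (B.card : ℝ) * ((n : ℝ) * p) ^ 2 / 400 := by
    have h3 : 0 ≤ (B.card : ℝ) * ((n : ℝ) * p) ^ 2 := by positivity
    have h4 := mul_le_mul_of_nonneg_left n2 h3
    have h5 : (B.card : ℝ) * ((n : ℝ) * p) ^ 2 * ((B.card : ℝ) * n * p ^ 2 * (2457600 * l ^ 28)) =
        2457600 * l ^ 28 * ((B.card : ℝ) ^ 2 * n ^ 3 * p ^ 4) := by ring
    rw [h5] at h4
    linarith
  have fin : ((∑ b ∈ B, (F b).card : ℕ) : ℝ) * (n * p) ≤
      (B.card : ℝ) * ((n : ℝ) * p) / 200 * (n * p) := by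
    refine hLHS.trans ?_
    have h3 : 2048 * l ^ 18 * (3 * (l ^ 2 * B.card) +
        3 * ((B.card : ℝ) ^ 2 * n ^ 3 * p ^ 4 * l ^ 10)) =
        6144 * l ^ 20 * B.card + 6144 * l ^ 28 * ((B.card : ℝ) ^ 2 * n ^ 3 * p ^ 4) := by ring
    rw [h3]
    have h4 : (B.card : ℝ) * ((n : ℝ) * p) / 200 * (n * p) =
        (B.card : ℝ) * ((n : ℝ) * p) ^ 2 / 400 + (B.card : ℝ) * ((n : ℝ) * p) ^ 2 / 400 := by ring
    rw [h4]
    exact add_le_add f1 f2
  exact le_of_mul_le_mul_right fin hd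

end Pool.Agent.CFX
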