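import Pool.Agent.CFX.TY2
import Pool.Agent.CFX.TC1
import Pool.Agent.CFX.TC2

/-! HE: every nonempty set of defects contains a vertex with few dangerous neighbours -/

namespace Pool.Agent.CFX

open Finset Pool.Agent.MD437 Pool.Agent.CFC

variable {n m : ℕ} {p l : ℝ}

private lemma he_rr (hB : Big n l) (hp0 : 0 < p) (h1 : l ^ 222 ≤ n * p)
    (h2 : n * p ≤ l ^ 4200) {r : ℕ} (hs : (r : ℝ) ≤ l ^ 5005) :
    RR n p r * l ^ 18 < n * p / l ^ 12 := by
  have hn := hB.n_pos'
  have hd0 : 0 < (n : ℝ) * p := mul_pos hn hp0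
  have hp4 : p * l ^ 5800 ≤ 1 := by
    have h3 : (n : ℝ) = l ^ 5800 * l ^ 4200 := by rw [← hB.pow, ← pow_add]
    have h4 : l ^ 4200 * (p * l ^ 5800) ≤ l ^ 4200 * 1 := by
      calc l ^ 4200 * (p * l ^ 5800) = n * p := by rw [h3]; ring
        _ ≤ l ^ 4200 * 1 := by linarith
    exact le_of_mul_le_mul_left h4 (hB.pow_pos' _)
  rw [lt_div_iff₀ (hB.pow_pos' 12)]
  unfold RR
  have e : (1 + (r : ℝ) * n * p ^ 2) * l ^ 18 * l ^ 12 =
      l ^ 30 + (r * (p * l ^ 30)) * (n * p) := by ring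
  rw [e]
  have h3 : 4 * l ^ 30 ≤ n * p := (hB.mul_pow_le (by norm_num) (by norm_num)).trans h1
  have h4 : (r : ℝ) * (p * l ^ 30) ≤ 1 / 4 := by
    have h5 : (r : ℝ) * (p * l ^ 30) ≤ l ^ 5005 * (p * l ^ 30) :=
      mul_le_mul_of_nonneg_right hs (by have := hB.pow_pos' 30; positivity)
    have h6 : l ^ 5005 * (p * l ^ 30) = p * l ^ 5035 := by
      rw [show (5035 : ℕ) = 5005 + 30 by norm_num, pow_add]; ring
    have h7 : 4 * l ^ 5035 ≤ l ^ 5800 := hB.mul_pow_le (by norm_num) (by norm_num)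
    have h8 := mul_le_mul_of_nonneg_left h7 hp0.le
    linarith
  have h5 := mul_le_mul_of_nonneg_right h4 hd0.le
  linarith

open Classical in
/-- By `typ_count`, `conf_count_I`, `conf_count_II` all but `|B| n p / 100` pairs `(b, w)`
(`b ∈ B`, `w ∈ N(b)`) have `w` typical and `conf < n p / 1024`. For these `w` is not dangerous:
if `z ∈ N[w]`, `z ∉ X` (so `z ∉ B`) then by `gz_le`, `typ_sum`
`gz S (B.erase b) w z ≤ RR n p |B| l^18 < n p / l^12`, because
`RR n p |B| = 1 + |B| n p² ≤ n p / l^221` (`|B| ≤ l^5005`, `n p ≤ l^4200`, `n = l^10000`). So some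
`b ∈ B` has at most `n p / 32` dangerous neighbours (average). -/
theorem hered (hB : Big n l) (hp0 : 0 < p) (hp1 : p ≤ 1) (h1 : l ^ 222 ≤ n * p)
    (h2 : n * p ≤ l ^ 4200) {S : Finset (Sym2 (Fin n))} (hG : GoodH p l S)
    (B X : Finset (Fin n)) (hne : B.Nonempty) (hs : (B.card : ℝ) ≤ l ^ 5005) (hBX : B ⊆ X)
    (hX : (X.card : ℝ) ≤ l ^ 8 / p) :
    ∃ b ∈ B, (((nb S b).filter (fun w => dang S X (B.erase b) (n * p) l b w)).card : ℝ)
      ≤ n * p / 32 := by
  by_contra hcon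
  push Not at hcon
  have hn := hB.n_pos'
  have hd0 : 0 < (n : ℝ) * p := mul_pos hn hp0
  have hrr := he_rr hB hp0 h1 h2 hs
  have hconf : ((∑ b ∈ B, ((nb S b).filter (fun w => w ∈ typ p l S B ∧
      n * p ≤ 1024 * (conf S X (B.erase b) b w : ℝ))).card : ℕ) : ℝ)
      ≤ B.card * (n * p) / 200 := by
    rcases lt_or_ge 1 ((B.card : ℝ) * n * p ^ 2 * l ^ 70) with h | h
    · exact conf_count_I hB hp0 hp1 h1 h2 hG B X hs hBX hX h
    · exact conf_count_II hB hp0 hp1 h1 h2 hG B X hs hBX hX h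
  have htyp := typ_count hB hp0.le hp1 h1 h2 hG B hs
  have hpt : ∀ b ∈ B, ((nb S b).filter (fun w => dang S X (B.erase b) (n * p) l b w)).card ≤
      (nb S b \ typ p l S B).card + ((nb S b).filter (fun w => w ∈ typ p l S B ∧
      n * p ≤ 1024 * (conf S X (B.erase b) b w : ℝ))).card := by
    intro b hb
    refine le_trans (card_le_card ?_) (card_union_le _ _)
    intro w hw
    rw [mem_filter] at hw
    obtain ⟨hwb, hdang⟩ := hw
    rw [mem_union, mem_sdiff, mem_filter]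
    by_cases hwt : w ∈ typ p l S B
    · right
      refine ⟨hwb, hwt, ?_⟩
      rcases hdang with h | ⟨z, hz, hzX, h⟩
      · linarith
      · exfalso
        have hzB : z ∉ B := fun h => hzX (hBX h)
        have h3 := gz_le S B (B.erase b) (erase_subset _ _) w z
        have h4 := typ_sum hB hp0.le B hwt hz hzB
        have h5 : (gz S (B.erase b) w z : ℝ) ≤ ∑ w' ∈ cl S z, (aB S B w' : ℝ) := by
          exact_mod_cast h3
        linarith
    · left
      exact ⟨hwb, hwt⟩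
  have hsum : (∑ b ∈ B, ((nb S b).filter (fun w => dang S X (B.erase b) (n * p) l b w)).card) ≤
      (∑ b ∈ B, (nb S b \ typ p l S B).card) + ∑ b ∈ B, ((nb S b).filter
        (fun w => w ∈ typ p l S B ∧
      n * p ≤ 1024 * (conf S X (B.erase b) b w : ℝ))).card := by
    rw [← sum_add_distrib]
    exact sum_le_sum hpt
  have hsum' : ((∑ b ∈ B, ((nb S b).filter
      (fun w => dang S X (B.erase b) (n * p) l b w)).card : ℕ) : ℝ) ≤
      ((∑ b ∈ B, (nb S b \ typ p l S B).card : ℕ) : ℝ) + ((∑ b ∈ B, ((nb S b).filter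
        (fun w => w ∈ typ p l S B ∧
      n * p ≤ 1024 * (conf S X (B.erase b) b w : ℝ))).card : ℕ) : ℝ) := by
    exact_mod_cast hsum
  have hlow : (B.card : ℝ) * (n * p / 32) ≤ ((∑ b ∈ B, ((nb S b).filter
      (fun w => dang S X (B.erase b) (n * p) l b w)).card : ℕ) : ℝ) := by
    push_cast
    calc (B.card : ℝ) * (n * p / 32) = ∑ _b ∈ B, ((n : ℝ) * p / 32) := by
          rw [sum_const, nsmul_eq_mul]
      _ ≤ _ := sum_le_sum fun b hb => (hcon b hb).le
  have hc : (0 : ℝ) < B.card := by exact_mod_cast card_pos.2 hne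
  have hpos : 0 < (B.card : ℝ) * (n * p) := mul_pos hc hd0
  linarith

end Pool.Agent.CFX
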