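import Pool.Agent.CFX.Props

/-! PE: peeling -/

namespace Pool.Agent.CFX

open Finset

/-- Peeling: choose the last element first. (Induction on `B.card`: take `b ∈ B` with
`P (B.erase b) b`, enumerate `B.erase b` by induction and put `b` at the end,
`Function.update f (B.card - 1) b`.) -/
theorem peel {α : Type*} [DecidableEq α] [Nonempty α] (B : Finset α) (P : Finset α → α → Prop)
    (h : ∀ B' ⊆ B, B'.Nonempty → ∃ b ∈ B', P (B'.erase b) b) :
    ∃ f : ℕ → α, Set.InjOn f (Finset.range B.card : Set ℕ) ∧ (Finset.range B.card).image f = B ∧
      ∀ i < B.card, P ((Finset.range i).image f) (f i) := by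
  induction hn : B.card generalizing B with
  | zero =>
    rw [card_eq_zero] at hn
    subst hn
    exact ⟨fun _ => Classical.arbitrary α, by simp, by simp, by simp⟩
  | succ k ih =>
    obtain ⟨b, hb, hP⟩ := h B (Subset.refl B) (card_pos.1 (by omega))
    have hc : (B.erase b).card = k := by rw [card_erase_of_mem hb]; omega
    obtain ⟨f, hf1, hf2, hf3⟩ := ih (B.erase b)
      (fun B' hB' => h B' (hB'.trans (erase_subset _ _))) hc
    have hv : ∀ x < k, Function.update f k b x = f x := fun x hx =>
      Function.update_of_ne (by omega) _ _
    have key : ∀ i ≤ k, (range i).image (Function.update f k b) = (range i).image f := by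
      intro i hi
      refine image_congr ?_
      intro x hx
      have hx' : x < i := by simpa using hx
      exact hv x (by omega)
    refine ⟨Function.update f k b, ?_, ?_, ?_⟩
    · intro x hx y hy hxy
      have hx' : x < k + 1 := by simpa using hx
      have hy' : y < k + 1 := by simpa using hy
      have hnb : ∀ z < k, f z ≠ b := by
        intro z hz hzb
        have : f z ∈ (range k).image f := mem_image_of_mem _ (mem_range.2 hz)
        rw [hf2, hzb] at this
        exact notMem_erase b B this
      by_cases hxk : x = k
      · by_cases hyk : y = k
        · omega
        · rw [hv y (by omega), hxk, Function.update_self] at hxy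
          exact absurd hxy.symm (hnb y (by omega))
      · by_cases hyk : y = k
        · rw [hv x (by omega), hyk, Function.update_self] at hxy
          exact absurd hxy (hnb x (by omega))
        · rw [hv x (by omega), hv y (by omega)] at hxy
          refine hf1 ?_ ?_ hxy
          · simp; omega
          · simp; omega
    · rw [range_add_one, image_insert, key k le_rfl, hf2, Function.update_self, insert_erase hb]
    · intro i hi
      rcases Nat.lt_or_ge i k with hik | hik
      · rw [key i hik.le, hv i hik]
        exact hf3 i hik
      · have : i = k := by omega
        subst this
        rw [key i le_rfl, hf2, Function.update_self]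
        exact hP

end Pool.Agent.CFX
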