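import Pool.Agent.CFX.HE
import Pool.Agent.CFX.PE

/-! L1: enumeration with long lists -/

namespace Pool.Agent.CFX

open Finset Pool.Agent.MD437 Pool.Agent.CFC

variable {n m : ℕ} {p l : ℝ}

/-- Enumeration of `B` by `hered` and `peel`: the list of every `b i` has at least `7 n p / 16`
elements (`d / 2 - d / 32`). -/
theorem exists_enum (hB : Big n l) (hp0 : 0 < p) (hp1 : p ≤ 1) (h1 : l ^ 222 ≤ n * p)
    (h2 : n * p ≤ l ^ 4200) {S : Finset (Sym2 (Fin n))} (hG : GoodR2 p l S)
    (B X : Finset (Fin n)) (hs : (B.card : ℝ) ≤ l ^ 5005) (hBX : B ⊆ X)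
    (hX : (X.card : ℝ) ≤ l ^ 8 / p) :
    ∃ b : ℕ → Fin n, Set.InjOn b (Finset.range B.card : Set ℕ) ∧ pre b B.card = B ∧
      ∀ i < B.card, 7 / 16 * (n * p) ≤ ((lst S X (n * p) l b i).card : ℝ) := by
  classical
  have : Nonempty (Fin n) := ⟨⟨0, hB.n_pos⟩⟩
  obtain ⟨b, hb1, hb2, hb3⟩ := peel B
    (fun B' b => (((nb S b).filter (fun w => dang S X B' (n * p) l b w)).card : ℝ)
      ≤ n * p / 32) (by
    intro B' hB' hne
    have hc : (B'.card : ℝ) ≤ l ^ 5005 := by
      refine le_trans ?_ hs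
      exact_mod_cast card_le_card hB'
    obtain ⟨b, hb, h⟩ := hered hB hp0 hp1 h1 h2 hG.toH B' X hne hc (hB'.trans hBX) hX
    refine ⟨b, hb, ?_⟩
    convert h)
  refine ⟨b, hb1, hb2, fun i hi => ?_⟩
  have h3 := hb3 i hi
  have h4 := (hG.toH.deg (b i)).1
  have h5 : (nb S (b i)).card =
      ((nb S (b i)).filter (fun w => dang S X (pre b i) (n * p) l (b i) w)).card +
      (lst S X (n * p) l b i).card := by
    rw [← card_filter_add_card_filter_not (s := nb S (b i))
      (fun w => dang S X (pre b i) (n * p) l (b i) w)]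
    congr 1
  have h6 : ((nb S (b i)).card : ℝ) =
      (((nb S (b i)).filter (fun w => dang S X (pre b i) (n * p) l (b i) w)).card : ℝ) +
      ((lst S X (n * p) l b i).card : ℝ) := by exact_mod_cast h5
  have h7 : (((nb S (b i)).filter (fun w => dang S X (pre b i) (n * p) l (b i) w)).card : ℝ) ≤
      n * p / 32 := h3
  have h8 : 0 ≤ (n : ℝ) * p := mul_nonneg (Nat.cast_nonneg _) hp0.le
  linarith

end Pool.Agent.CFX
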