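import Pool.Agent.CFX.Props

/-! L2: lists: adjacency and incidences -/

namespace Pool.Agent.CFX

open Finset Pool.Agent.MD437 Pool.Agent.CFC

variable {n m : ℕ} {p l : ℝ}

private lemma l2_d (hB : Big n l) (h1 : l ^ 222 ≤ n * p) : 10 ^ 9 * l ≤ n * p := by
  have h := hB.mul_pow_le (C := 10 ^ 9) le_rfl (show 1 < 222 by norm_num)
  rw [pow_one] at h
  exact h.trans h1

private lemma l2_mem {S : Finset (Sym2 (Fin n))} {X : Finset (Fin n)} {d l : ℝ} {b : ℕ → Fin n}
    {i : ℕ} {w : Fin n} : w ∈ lst S X d l b i ↔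
      w ∈ nb S (b i) ∧ ¬ dang S X (pre b i) d l (b i) w := by
  classical
  unfold lst
  rw [mem_filter]

/-- A member `w` of the list of `b i` is not adjacent to an earlier `b j`: otherwise
`b j ∈ N[w] ∩ N[w'] ∩ X` for all `w' ∈ N(b j)`, and `conf ≥ |N(b j) \ (N[b i] ∪ {w})| ≥
d / 2 - 2 l - 2 > d / 1024`. -/
theorem lst_not_ad (hB : Big n l) (hp0 : 0 < p) (h1 : l ^ 222 ≤ n * p)
    {S : Finset (Sym2 (Fin n))} (hG : GoodR2 p l S) {X : Finset (Fin n)} {b : ℕ → Fin n}
    {N i j : ℕ} (hinj : Set.InjOn b (Finset.range N : Set ℕ)) (hX : pre b N ⊆ X) (hi : i < N)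
    (hj : j < i) {w : Fin n} (hw : w ∈ lst S X (n * p) l b i) : ¬ ad S w (b j) := by
  intro had
  rw [l2_mem] at hw
  apply hw.2
  left
  have hne : b j ≠ b i := by
    intro h
    have := hinj (by simp; omega) (by simp; omega) h
    omega
  have hd := l2_d hB h1
  have hbj : b j ∈ pre b i := mem_image_of_mem _ (Finset.mem_range.2 hj)
  have hbX : b j ∈ X := hX (mem_image_of_mem _ (Finset.mem_range.2 (by omega)))
  have hinjc : (nb S (b j) \ insert w (cl S (b i))).card ≤ conf S X (pre b i) (b i) w := by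
    unfold conf
    refine card_le_card_of_injOn (fun w' => (b j, w')) ?_ ?_
    · intro w' hw'
      have hw'' : w' ∈ nb S (b j) \ insert w (cl S (b i)) := hw'
      rw [mem_sdiff, mem_insert, not_or] at hw''
      have : (b j, w') ∈ ((pre b i) ×ˢ (univ : Finset (Fin n))).filter
          (fun q : Fin n × Fin n => q.2 ∈ nb S q.1 ∧ q.2 ∉ cl S (b i) ∧ q.2 ≠ w ∧
            (cl S w ∩ cl S q.2 ∩ X).Nonempty) := by
        rw [mem_filter, mem_product]
        refine ⟨⟨hbj, mem_univ _⟩, hw''.1, hw''.2.2, hw''.2.1, ⟨b j, ?_⟩⟩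
        rw [mem_inter, mem_inter]
        refine ⟨⟨mem_cl.2 (Or.inr had), mem_cl.2 (Or.inr ?_)⟩, hbX⟩
        exact ad_symm (mem_nb.1 hw''.1)
      exact this
    · intro x _ y _ hxy
      exact (Prod.mk.inj hxy).2
  have hcod := hG.cod (b j) (b i) hne
  have hdeg := (hG.toH.deg (b j)).1
  have hc1 : (nb S (b j)).card ≤ (nb S (b j) \ insert w (cl S (b i))).card +
      ((nb S (b j) ∩ nb S (b i)).card + 2) := by
    have h2 : nb S (b j) ⊆ (nb S (b j) \ insert w (cl S (b i))) ∪
        ((nb S (b j) ∩ nb S (b i)) ∪ {w, b i}) := by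
      intro x hx
      rw [mem_union, mem_union, mem_sdiff, mem_insert, mem_inter, mem_insert, mem_singleton,
        mem_cl, mem_nb (v := b i)]
      tauto
    have h3 := card_le_card h2
    have h4 := card_union_le (nb S (b j) \ insert w (cl S (b i)))
      ((nb S (b j) ∩ nb S (b i)) ∪ {w, b i})
    have h5 := card_union_le (nb S (b j) ∩ nb S (b i)) {w, b i}
    have h6 : ({w, b i} : Finset (Fin n)).card ≤ 2 := card_le_two
    omega
  have hc2 : ((nb S (b j)).card : ℝ) ≤ (conf S X (pre b i) (b i) w : ℝ) +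
      (((nb S (b j) ∩ nb S (b i)).card : ℝ) + 2) := by
    exact_mod_cast hc1.trans (by omega)
  have hl := hB.big
  linarith

/-- The list incidences at a vertex `z ∉ X`: let `i < N` be the last index such that the list of
`b i` meets `N[z]`, and `w` in both. The pairs `(b j, w')` with `j < i`, `w'` in the list of `b j`,
`w' ∈ N[z]`, are counted by `gz S (pre b i) w z < d / l^12` (`w' ≠ w` by `lst_not_ad`), and the
list of `b i` meets `N[z]` in at most `2 l + 1` vertices (`z ≠ b i`). -/
theorem lst_inc (hB : Big n l) (hp0 : 0 < p) (h1 : l ^ 222 ≤ n * p)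
    {S : Finset (Sym2 (Fin n))} (hG : GoodR2 p l S) {X : Finset (Fin n)} {b : ℕ → Fin n}
    {N : ℕ} (hinj : Set.InjOn b (Finset.range N : Set ℕ)) (hX : pre b N ⊆ X) {z : Fin n}
    (hz : z ∉ X) :
    ((∑ j ∈ Finset.range N, (lst S X (n * p) l b j ∩ cl S z).card : ℕ) : ℝ)
      ≤ 2 * (n * p) / l ^ 12 := by
  classical
  have hd := l2_d hB h1
  have hl := hB.big
  have hl12 : 3 * l ^ 13 ≤ n * p :=
    (hB.mul_pow_le (by norm_num) (show 13 < 222 by norm_num)).trans h1
  have hpos := hB.pow_pos' 12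
  have hsmall : 2 * l + 1 ≤ n * p / l ^ 12 := by
    rw [le_div_iff₀ hpos]
    have e : l ^ 13 = l * l ^ 12 := by ring
    have h2 : 1 * l ^ 12 ≤ l * l ^ 12 := mul_le_mul_of_nonneg_right (by linarith) hpos.le
    rw [e] at hl12
    linarith
  have hpos2 : 0 ≤ n * p / l ^ 12 := by
    have := hB.one_le
    linarith
  by_cases hall : ∀ j ∈ Finset.range N, lst S X (n * p) l b j ∩ cl S z = ∅
  · have : ∑ j ∈ Finset.range N, (lst S X (n * p) l b j ∩ cl S z).card = 0 := by
      refine sum_eq_zero fun j hj => ?_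
      rw [hall j hj, card_empty]
    rw [this]
    have e : 2 * (n * p) / l ^ 12 = 2 * (n * p / l ^ 12) := by ring
    rw [e]
    push_cast
    linarith
  · push Not at hall
    obtain ⟨j0, hj0, hj0n⟩ := hall
    have hFne : ((Finset.range N).filter
        (fun j => (lst S X (n * p) l b j ∩ cl S z).Nonempty)).Nonempty :=
      ⟨j0, mem_filter.2 ⟨hj0, hj0n⟩⟩
    obtain ⟨i, hi, himax⟩ : ∃ i ∈ (Finset.range N).filter
        (fun j => (lst S X (n * p) l b j ∩ cl S z).Nonempty), ∀ j ∈ (Finset.range N).filter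
        (fun j => (lst S X (n * p) l b j ∩ cl S z).Nonempty), j ≤ i :=
      ⟨_, max'_mem _ hFne, fun j hj => le_max' _ j hj⟩
    rw [mem_filter, Finset.mem_range] at hi
    obtain ⟨hiN, w, hw⟩ := hi
    rw [mem_inter] at hw
    have hwl := l2_mem.1 hw.1
    have hzw : z ∈ cl S w := mem_cl_comm.1 hw.2
    have hgz : (gz S (pre b i) w z : ℝ) < n * p / l ^ 12 := by
      by_contra hcon
      rw [not_lt] at hcon
      exact hwl.2 (Or.inr ⟨z, hzw, hz, hcon⟩)
    have hsum : ∑ j ∈ Finset.range N, (lst S X (n * p) l b j ∩ cl S z).card =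
        ∑ j ∈ Finset.range i, (lst S X (n * p) l b j ∩ cl S z).card +
          (lst S X (n * p) l b i ∩ cl S z).card := by
      rw [← sum_range_succ]
      symm
      refine sum_subset ?_ ?_
      · intro j hj
        rw [Finset.mem_range] at hj ⊢
        omega
      · intro j hj hj2
        rw [card_eq_zero]
        by_contra hne
        have := himax j (mem_filter.2 ⟨hj, nonempty_iff_ne_empty.2 hne⟩)
        exact hj2 (Finset.mem_range.2 (by omega))
    have hs1 : ∑ j ∈ Finset.range i, (lst S X (n * p) l b j ∩ cl S z).card ≤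
        gz S (pre b i) w z := by
      rw [← card_sigma]
      unfold gz
      refine card_le_card_of_injOn (fun q => (b q.1, q.2)) ?_ ?_
      · rintro ⟨j, w'⟩ hq
        have hq' : (⟨j, w'⟩ : (_ : ℕ) × Fin n) ∈ (Finset.range i).sigma
          (fun j => lst S X (n * p) l b j ∩ cl S z) := hq
        rw [mem_sigma, Finset.mem_range, mem_inter, l2_mem] at hq'
        simp only at hq'
        have : (b j, w') ∈ ((pre b i) ×ˢ (univ : Finset (Fin n))).filter
            (fun q : Fin n × Fin n => q.2 ∈ nb S q.1 ∧ q.2 ∈ cl S z ∧ q.2 ≠ w) := by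
          rw [mem_filter, mem_product]
          refine ⟨⟨mem_image_of_mem _ (Finset.mem_range.2 hq'.1), mem_univ _⟩, hq'.2.1.1,
            hq'.2.2, ?_⟩
          intro hww
          simp only at hww
          refine lst_not_ad hB hp0 h1 hG hinj hX hiN hq'.1 hw.1 ?_
          rw [← hww]
          exact ad_symm (mem_nb.1 hq'.2.1.1)
        exact this
      · rintro ⟨j, w'⟩ hq ⟨j', w''⟩ hq' heq
        have hq1 : (⟨j, w'⟩ : (_ : ℕ) × Fin n) ∈ (Finset.range i).sigma
          (fun j => lst S X (n * p) l b j ∩ cl S z) := hq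
        have hq2 : (⟨j', w''⟩ : (_ : ℕ) × Fin n) ∈ (Finset.range i).sigma
          (fun j => lst S X (n * p) l b j ∩ cl S z) := hq'
        rw [mem_sigma, Finset.mem_range] at hq1 hq2
        simp only at hq1 hq2 heq
        have h2 := Prod.mk.inj heq
        have h3 : j = j' := hinj (by simp; omega) (by simp; omega) h2.1
        subst h3
        rw [h2.2]
    have hzb : b i ≠ z := by
      intro h
      exact hz (h ▸ hX (mem_image_of_mem _ (Finset.mem_range.2 hiN)))
    have hs2 : (lst S X (n * p) l b i ∩ cl S z).card ≤ (nb S (b i) ∩ nb S z).card + 1 := by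
      have h2 : lst S X (n * p) l b i ∩ cl S z ⊆ insert z (nb S (b i) ∩ nb S z) := by
        intro x hx
        rw [mem_inter, l2_mem, mem_cl] at hx
        rw [mem_insert, mem_inter, mem_nb (v := z)]
        tauto
      exact (card_le_card h2).trans (card_insert_le _ _)
    have hcod := hG.cod (b i) z hzb
    have e : 2 * (n * p) / l ^ 12 = n * p / l ^ 12 + n * p / l ^ 12 := by ring
    rw [e, hsum]
    have hs1' : ((∑ j ∈ Finset.range i, (lst S X (n * p) l b j ∩ cl S z).card : ℕ) : ℝ) ≤
        gz S (pre b i) w z := by exact_mod_cast hs1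
    have hs2' : ((lst S X (n * p) l b i ∩ cl S z).card : ℝ) ≤
        ((nb S (b i) ∩ nb S z).card : ℝ) + 1 := by exact_mod_cast hs2
    push_cast at hs1' ⊢
    linarith

end Pool.Agent.CFX
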