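import Pool.Agent.CFX.Props

/-! L3: lists: conflicts -/

namespace Pool.Agent.CFX

open Finset Pool.Agent.MD437 Pool.Agent.CFC

variable {n m : ℕ} {p l : ℝ}

private lemma L3_mem {S : Finset (Sym2 (Fin n))} {X : Finset (Fin n)} {d : ℝ} {b : ℕ → Fin n}
    {i : ℕ} {w : Fin n} : w ∈ lst S X d l b i ↔
      w ∈ nb S (b i) ∧ ¬ dang S X (pre b i) d l (b i) w := by
  classical
  simp only [lst, mem_filter]

/-- The conflicts of the list of `b i` with the earlier lists: for `w` in the list the pairs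
`(j, w')`, `j < i`, `w'` in the list of `b j`, `w' ∉ N[b i]`, such that `N[w]` and `N[w']` meet in
`X`, are counted by `conf S X (pre b i) (b i) w < d / 1024`, and the list has at most `2 d`
elements. -/
theorem lst_conf (hB : Big n l) (hp0 : 0 < p) (h1 : l ^ 222 ≤ n * p)
    {S : Finset (Sym2 (Fin n))} (hG : GoodR2 p l S) {X : Finset (Fin n)} {b : ℕ → Fin n}
    {N : ℕ} (hinj : Set.InjOn b (Finset.range N : Set ℕ)) {i : ℕ} (hi : i < N) :
    ((∑ j ∈ Finset.range i, ∑ w' ∈ lst S X (n * p) l b j \ cl S (b i),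
      ((lst S X (n * p) l b i).filter (fun w => (cl S w ∩ cl S w' ∩ X).Nonempty)).card : ℕ) : ℝ)
      ≤ (n * p) ^ 2 / 512 := by
  obtain ⟨d, hd⟩ : ∃ d : ℝ, d = n * p := ⟨_, rfl⟩
  rw [← hd]
  have hd0 : 0 < d := by
    rw [hd]
    exact mul_pos hB.n_pos' hp0
  have hswap : (∑ j ∈ Finset.range i, ∑ w' ∈ lst S X d l b j \ cl S (b i),
      ((lst S X d l b i).filter (fun w => (cl S w ∩ cl S w' ∩ X).Nonempty)).card) =
      ∑ w ∈ lst S X d l b i, ∑ j ∈ Finset.range i,
        ((lst S X d l b j \ cl S (b i)).filter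
          (fun w' => (cl S w ∩ cl S w' ∩ X).Nonempty)).card := by
    simp only [card_filter]
    rw [sum_comm]
    refine sum_congr rfl fun j _ => ?_
    rw [sum_comm]
  rw [hswap, Nat.cast_sum]
  have hterm : ∀ w ∈ lst S X d l b i, ((∑ j ∈ Finset.range i,
        ((lst S X d l b j \ cl S (b i)).filter
          (fun w' => (cl S w ∩ cl S w' ∩ X).Nonempty)).card : ℕ) : ℝ) ≤ d / 1024 := by
    intro w hw
    rw [L3_mem] at hw
    obtain ⟨hw1, hw2⟩ := hw
    unfold dang at hw2
    push Not at hw2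
    have h3 : (∑ j ∈ Finset.range i, ((lst S X d l b j \ cl S (b i)).filter
          (fun w' => (cl S w ∩ cl S w' ∩ X).Nonempty)).card) ≤ conf S X (pre b i) (b i) w := by
      rw [← card_sigma]
      unfold conf
      refine card_le_card_of_injOn (fun q : (Σ _ : ℕ, Fin n) => (b q.1, q.2)) ?_ ?_
      · rintro ⟨j, w'⟩ hq
        have hq' := mem_sigma.1 hq
        obtain ⟨hj, hw'⟩ := hq'
        rw [mem_filter, mem_sdiff] at hw'
        obtain ⟨⟨h4, h5⟩, h6⟩ := hw'
        simp only at h4 h5 h6 hj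
        rw [L3_mem] at h4
        change (b j, w') ∈ _
        rw [mem_coe, mem_filter, mem_product]
        refine ⟨⟨?_, mem_univ _⟩, h4.1, h5, ?_, h6⟩
        · exact mem_image_of_mem b hj
        · rintro rfl
          exact h5 (nb_sub_cl S _ hw1)
      · rintro ⟨j, w'⟩ hq ⟨j', w''⟩ hq' heq
        have hj : j ∈ Finset.range i := (mem_sigma.1 hq).1
        have hj' : j' ∈ Finset.range i := (mem_sigma.1 hq').1
        simp only [Prod.mk.injEq] at heq
        rw [Finset.mem_range] at hj hj'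
        have h7 : j = j' := hinj (by simp; omega) (by simp; omega) heq.1
        rw [h7, heq.2]
    have h4 : ((∑ j ∈ Finset.range i, ((lst S X d l b j \ cl S (b i)).filter
          (fun w' => (cl S w ∩ cl S w' ∩ X).Nonempty)).card : ℕ) : ℝ) ≤
        (conf S X (pre b i) (b i) w : ℝ) := Nat.cast_le.2 h3
    exact h4.trans hw2.1.le
  have hcard : ((lst S X d l b i).card : ℝ) ≤ 2 * d := by
    have h3 : (lst S X d l b i).card ≤ (nb S (b i)).card :=
      card_le_card fun w hw => (L3_mem.1 hw).1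
    have h4 := (hG.toH.deg (b i)).2
    rw [← hd] at h4
    exact (Nat.cast_le.2 h3).trans h4
  refine (sum_le_sum hterm).trans ?_
  rw [sum_const, nsmul_eq_mul]
  calc ((lst S X d l b i).card : ℝ) * (d / 1024) ≤ 2 * d * (d / 1024) :=
        mul_le_mul_of_nonneg_right hcard (by positivity)
    _ = d ^ 2 / 512 := by ring

/-- A vertex `v ∉ N[b i]`, `b i ∈ X`, is in conflict with at most `n p / l^50` members of the list
of `b i` (`PathOK`). -/
theorem lst_one {S : Finset (Sym2 (Fin n))} (hG : GoodR2 p l S) {X : Finset (Fin n)}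
    {b : ℕ → Fin n} {i : ℕ} {v : Fin n} (hv : v ∉ cl S (b i)) :
    (((lst S X (n * p) l b i).filter (fun w => (cl S w ∩ cl S v ∩ X).Nonempty)).card : ℝ)
      ≤ n * p / l ^ 50 := by
  have hbv : b i ≠ v := by
    rintro rfl
    exact hv (self_mem_cl S _)
  refine le_trans (Nat.cast_le.2 (card_le_card ?_)) (hG.path (b i) v hbv)
  intro w hw
  rw [mem_filter, L3_mem] at hw
  obtain ⟨⟨hw1, -⟩, z, hz⟩ := hw
  rw [mem_inter, mem_inter] at hz
  rw [mem_filter]
  refine ⟨hw1, ?_, z, ?_, hz.1.1, hz.1.2⟩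
  · rintro rfl
    exact hv (nb_sub_cl S _ hw1)
  · rintro rfl
    exact hv (mem_cl_comm.1 hz.1.2)

end Pool.Agent.CFX
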