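import Pool.Agent.CFX.TA

/-! LC: the largest class is seen exactly once by few vertices -/

namespace Pool.Agent.CFX

open Finset Pool.Agent.MD437 Pool.Agent.CFC

variable {n m : ℕ} {p l : ℝ}

/-- the pairs between `Y` and `D` -/
private def lcF (Y D : Finset (Fin n)) : Finset (Sym2 (Fin n)) :=
  (Y ×ˢ D).image (fun q => s(q.1, q.2))

private lemma lcF_sub {Y D : Finset (Fin n)} (h : Disjoint Y D) : lcF Y D ⊆ E n := by
  intro e he
  obtain ⟨q, hq, rfl⟩ := mem_image.1 he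
  rw [mem_product] at hq
  rw [mk_mem_E]
  exact fun hh => disjoint_left.1 h hq.1 (hh ▸ hq.2)

private lemma lcF_inj {Y D : Finset (Fin n)} (h : Disjoint Y D) :
    Set.InjOn (fun q : Fin n × Fin n => s(q.1, q.2)) ((Y ×ˢ D : Finset (Fin n × Fin n)) : Set _) := by
  intro q hq q' hq' hqq
  have h1 := mem_product.1 (mem_coe.1 hq)
  have h2 := mem_product.1 (mem_coe.1 hq')
  rcases Sym2.eq_iff.1 hqq with h3 | h3
  · exact Prod.ext h3.1 h3.2
  · exact absurd (h3.1 ▸ h1.1) (fun h4 => disjoint_left.1 h h4 h2.2)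

private lemma lcF_card {Y D : Finset (Fin n)} (h : Disjoint Y D) :
    (lcF Y D).card = Y.card * D.card := by
  unfold lcF
  rw [card_image_of_injOn (lcF_inj h), card_product]

private lemma lc_count {S : Finset (Sym2 (Fin n))} {C Y D : Finset (Fin n)} (hYD : Disjoint Y D)
    (hD : D ⊆ C) (hY : Y ⊆ see1 S C) : (S ∩ lcF Y D).card ≤ Y.card := by
  have h1 : S ∩ lcF Y D ⊆ Y.biUnion (fun x => (D.filter (fun z => s(x, z) ∈ S)).image
      (fun z => s(x, z))) := by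
    intro e he
    rw [mem_inter] at he
    obtain ⟨q, hq, rfl⟩ := mem_image.1 he.2
    rw [mem_product] at hq
    rw [mem_biUnion]
    exact ⟨q.1, hq.1, mem_image.2 ⟨q.2, mem_filter.2 ⟨hq.2, he.1⟩, rfl⟩⟩
  refine (card_le_card h1).trans (card_biUnion_le.trans ?_)
  have h2 : ∀ x ∈ Y, ((D.filter (fun z => s(x, z) ∈ S)).image (fun z => s(x, z))).card ≤ 1 := by
    intro x hx
    refine card_image_le.trans ?_
    have h3 := hY hx
    unfold see1 at h3
    rw [mem_filter] at h3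
    rw [← h3.2]
    refine card_le_card ?_
    intro z hz
    rw [mem_filter] at hz
    rw [mem_inter, mem_cl]
    refine ⟨Or.inr ⟨?_, hz.2⟩, hD hz.1⟩
    exact fun h => disjoint_left.1 hYD hx (h ▸ hz.1)
  refine (sum_le_sum h2).trans ?_
  simp

private lemma lc_choose {m c0 : ℕ} (hn : n ≤ (m + 1) * c0) :
    (n.choose c0 : ℝ) ≤ Real.exp (c0 * (1 + Real.log (m + 1))) := by
  have hm0 : (0 : ℝ) < (m : ℝ) + 1 := by positivity
  have h1 : (n.choose c0 : ℝ) ≤ (n : ℝ) ^ c0 / (c0.factorial : ℝ) := Nat.choose_le_pow_div c0 n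
  have hf : (0 : ℝ) < (c0.factorial : ℝ) := by exact_mod_cast Nat.factorial_pos c0
  have h2 : (n : ℝ) ^ c0 ≤ (((m : ℝ) + 1) * c0) ^ c0 :=
    pow_le_pow_left₀ (Nat.cast_nonneg n) (by exact_mod_cast hn) c0
  have h3 := Real.pow_div_factorial_le_exp (c0 : ℝ) (Nat.cast_nonneg c0) c0
  have h4 : (((m : ℝ) + 1) * c0) ^ c0 / (c0.factorial : ℝ) =
      ((m : ℝ) + 1) ^ c0 * ((c0 : ℝ) ^ c0 / (c0.factorial : ℝ)) := by
    rw [mul_pow]
    ring
  have h5 : Real.exp (c0 * (1 + Real.log (m + 1))) = ((m : ℝ) + 1) ^ c0 * Real.exp c0 := by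
    rw [mul_add, mul_one, Real.exp_add, Real.exp_nat_mul (Real.log (m + 1)), Real.exp_log hm0]
    ring
  rw [h5]
  calc (n.choose c0 : ℝ) ≤ (n : ℝ) ^ c0 / (c0.factorial : ℝ) := h1
    _ ≤ (((m : ℝ) + 1) * c0) ^ c0 / (c0.factorial : ℝ) := div_le_div_of_nonneg_right h2 hf.le
    _ = ((m : ℝ) + 1) ^ c0 * ((c0 : ℝ) ^ c0 / (c0.factorial : ℝ)) := h4
    _ ≤ _ := mul_le_mul_of_nonneg_left h3 (by positivity)

private lemma lc_union (hp0 : 0 < p) (hp1 : p ≤ 1) {Λ : ℝ} {c0 y0 : ℕ} (hc : y0 ≤ c0)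
    (hΛ : 8 * Λ ≤ p * y0) (hn : n ≤ (m + 1) * c0) (hm : (m + 1) * c0 ≤ n + m)
    (hΛd : Λ = 1 + Real.log (m + 1)) (hs : (y0 : ℝ) ≤ 16 * Λ / p) (hn0 : 0 < n) :
    pr p (E n) (fun S => ∃ C : Finset (Fin n), n ≤ (m + 1) * C.card ∧
      16 * Λ / p < ((see1 S C).card : ℝ)) ≤
      Real.exp (c0 * Λ) * (Real.exp (y0 * Real.log n) *
        Real.exp (7 / 10 * y0 - 4 * Λ * (c0 - y0))) := by
  have hev : pr p (E n) (fun S => ∃ C : Finset (Fin n), n ≤ (m + 1) * C.card ∧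
      16 * Λ / p < ((see1 S C).card : ℝ)) ≤ pr p (E n) (fun S =>
        ∃ C ∈ powersetCard c0 (univ : Finset (Fin n)),
          ∃ Y ∈ powersetCard y0 (univ : Finset (Fin n)),
            ((S ∩ lcF Y (C \ Y)).card : ℝ) ≤ (y0 : ℝ)) := by
    refine pr_mono hp0.le hp1 fun S _ hS => ?_
    obtain ⟨C, hC, hs2⟩ := hS
    have hc0 : c0 ≤ C.card := by
      by_contra hcon
      rw [not_le] at hcon
      have h2 : (m + 1) * (C.card + 1) ≤ (m + 1) * c0 := Nat.mul_le_mul_left _ hcon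
      have h3 : (m + 1) * (C.card + 1) = (m + 1) * C.card + (m + 1) := by ring
      omega
    have hy0 : y0 ≤ (see1 S C).card := by
      have : (y0 : ℝ) ≤ ((see1 S C).card : ℝ) := hs.trans hs2.le
      exact_mod_cast this
    obtain ⟨C', hC', hC'c⟩ := exists_subset_card_eq hc0
    obtain ⟨Y, hY, hYc⟩ := exists_subset_card_eq hy0
    refine ⟨C', mem_powersetCard.2 ⟨subset_univ _, hC'c⟩, Y,
      mem_powersetCard.2 ⟨subset_univ _, hYc⟩, ?_⟩
    have := lc_count (D := C' \ Y) disjoint_sdiff (sdiff_subset.trans hC') hY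
    rw [hYc] at this
    exact_mod_cast this
  refine hev.trans ?_
  refine (pr_union hp0.le hp1 (E n) _ _).trans ?_
  have hΛ0 : 0 < Λ := by
    rw [hΛd]
    have := Real.log_nonneg (show (1 : ℝ) ≤ (m : ℝ) + 1 by
      have : (0 : ℝ) ≤ (m : ℝ) := Nat.cast_nonneg m
      linarith)
    linarith
  have hcr : (y0 : ℝ) ≤ c0 := by exact_mod_cast hc
  have hn0' : (0 : ℝ) < n := by exact_mod_cast hn0
  have hin : ∀ C ∈ powersetCard c0 (univ : Finset (Fin n)), pr p (E n) (fun S =>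
          ∃ Y ∈ powersetCard y0 (univ : Finset (Fin n)),
            ((S ∩ lcF Y (C \ Y)).card : ℝ) ≤ (y0 : ℝ)) ≤
      Real.exp (y0 * Real.log n) * Real.exp (7 / 10 * y0 - 4 * Λ * (c0 - y0)) := by
    intro C hC
    rw [mem_powersetCard] at hC
    refine (pr_union hp0.le hp1 (E n) _ _).trans ?_
    have hin2 : ∀ Y ∈ powersetCard y0 (univ : Finset (Fin n)), pr p (E n) (fun S =>
            ((S ∩ lcF Y (C \ Y)).card : ℝ) ≤ (y0 : ℝ)) ≤
        Real.exp (7 / 10 * y0 - 4 * Λ * (c0 - y0)) := by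
      intro Y hY
      rw [mem_powersetCard] at hY
      have hdis : Disjoint Y (C \ Y) := disjoint_sdiff
      refine (count_lower hp0.le hp1 (E n) (lcF Y (C \ Y)) (lcF_sub hdis) (y0 : ℝ)
        (Nat.cast_nonneg _)).trans (Real.exp_le_exp.2 ?_)
      rw [lcF_card hdis, hY.2]
      have h3 : c0 ≤ (C \ Y).card + y0 := by
        have := le_card_sdiff Y C
        rw [hC.2, hY.2] at this
        omega
      have h4 : (c0 : ℝ) - y0 ≤ ((C \ Y).card : ℝ) := by
        have : (c0 : ℝ) ≤ ((C \ Y).card : ℝ) + y0 := by exact_mod_cast h3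
        linarith
      have h5 : 8 * Λ * (c0 - y0) ≤ p * y0 * ((C \ Y).card : ℝ) := by
        have h6 : 0 ≤ (c0 : ℝ) - y0 := by linarith
        exact mul_le_mul hΛ h4 h6 (by positivity)
      push_cast
      linarith
    refine (sum_le_sum hin2).trans ?_
    rw [sum_const, nsmul_eq_mul, card_powersetCard, card_univ, Fintype.card_fin]
    refine mul_le_mul_of_nonneg_right ?_ (Real.exp_pos _).le
    rw [Real.exp_nat_mul, Real.exp_log hn0']
    exact_mod_cast Nat.choose_le_pow n y0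
  refine (sum_le_sum hin).trans ?_
  rw [sum_const, nsmul_eq_mul, card_powersetCard, card_univ, Fintype.card_fin]
  refine mul_le_mul_of_nonneg_right ?_ (by positivity)
  rw [hΛd]
  exact lc_choose hn

/-- The same for sets `C` with `|C| ≥ n / (m + 1)`: `c₀ = ⌈n / (m + 1)⌉`,
`y₀ = ⌈8 (1 + log (m + 1)) / p⌉`; the number of sets `C'` is at most
`(e n / c₀)^c₀ ≤ exp (c₀ (1 + log (m + 1)))` (`Nat.choose_le_pow_div`/ `c₀! ≥ (c₀ / e)^c₀`), the
number of sets `Y` at most `n ^ y₀`, and `y₀ log n` is much smaller than `c₀`. The exponent is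
`c₀ (1 + log (m + 1)) + y₀ (log n + 1) - 4 (1 + log (m + 1)) (c₀ - y₀) ≤ - c₀`. -/
theorem largest_prob (hB : Big n l) (hp1 : p ≤ 1) (h1 : l ^ 222 ≤ n * p)
    (h2 : n * p ≤ l ^ 6000) (hm : (m : ℝ) ≤ 15 * Real.log n) :
    pr p (E n) (fun S => ∃ C : Finset (Fin n), n ≤ (m + 1) * C.card ∧
      16 * (1 + Real.log (m + 1)) / p < ((see1 S C).card : ℝ)) ≤ 1 / (n : ℝ) ^ 5 := by
  have hn0 := hB.n_pos'
  have hp0 : 0 < p := by
    have h3 : 0 < n * p := lt_of_lt_of_le (hB.pow_pos' 222) h1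
    exact (mul_pos_iff_of_pos_left hn0).1 h3
  have hlg := hB.log_n_ge
  have hl2 : 10000 * Real.log n ^ 2 ≤ l := by
    have h3 := hB.lg_pow (show 2 ≤ 5000 by norm_num)
    have e : (100 * Real.log n) ^ 2 = 10000 * Real.log n ^ 2 := by ring
    rwa [e] at h3
  have hnp : l ≤ n * p := by
    have h3 := hB.pow_le (show 1 ≤ 222 by norm_num)
    rw [pow_one] at h3
    exact h3.trans h1
  have hln := hB.l_le_n
  have hm1 : (m : ℝ) + 1 ≤ 16 * Real.log n := by linarith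
  have hm0 : (0 : ℝ) ≤ (m : ℝ) := Nat.cast_nonneg m
  obtain ⟨Λ, hΛd⟩ : ∃ Λ : ℝ, Λ = 1 + Real.log (m + 1) := ⟨_, rfl⟩
  have hΛ1 : 1 ≤ Λ := by
    rw [hΛd]
    have := Real.log_nonneg (show (1 : ℝ) ≤ (m : ℝ) + 1 by linarith)
    linarith
  have hΛ2 : Λ ≤ Real.log n := by
    have h3 : Real.log ((m : ℝ) + 1) ≤ Real.log (100 * Real.log n) :=
      Real.log_le_log (by linarith) (by linarith)
    have h4 := hB.loglog
    have h5 := hB.log_n
    rw [hΛd]
    linarith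
  rw [← hΛd]
  obtain ⟨c0, hc0⟩ : ∃ c0 : ℕ, c0 = (n + m) / (m + 1) := ⟨_, rfl⟩
  have hcA : n ≤ (m + 1) * c0 := by
    have h3 := Nat.lt_mul_div_succ (n + m) (show 0 < m + 1 by omega)
    rw [← hc0] at h3
    have h4 : (m + 1) * (c0 + 1) = (m + 1) * c0 + (m + 1) := by ring
    omega
  have hcB : (m + 1) * c0 ≤ n + m := by
    rw [hc0]
    exact Nat.mul_div_le _ _
  have hcA' : (n : ℝ) ≤ ((m : ℝ) + 1) * c0 := by exact_mod_cast hcA
  have hc0r : (0 : ℝ) ≤ (c0 : ℝ) := Nat.cast_nonneg c0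
  have hcl : (n : ℝ) ≤ 16 * Real.log n * c0 :=
    hcA'.trans (mul_le_mul_of_nonneg_right hm1 hc0r)
  have hΛp : 1 ≤ Λ / p := by
    rw [le_div_iff₀ hp0]
    linarith
  obtain ⟨y0, hy0⟩ : ∃ y0 : ℕ, y0 = ⌈8 * Λ / p⌉₊ := ⟨_, rfl⟩
  have hyA : 8 * Λ / p ≤ y0 := by rw [hy0]; exact Nat.le_ceil _
  have e8 : 8 * Λ / p = 8 * (Λ / p) := by ring
  have hyB : (y0 : ℝ) ≤ 9 * (Λ / p) := by
    have h3 : (y0 : ℝ) < 8 * Λ / p + 1 := by
      rw [hy0]
      exact Nat.ceil_lt_add_one (by rw [e8]; linarith)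
    rw [e8] at h3
    linarith
  have hyC : 8 * Λ ≤ p * y0 := by
    rw [div_le_iff₀ hp0] at hyA
    linarith
  have hyD : (y0 : ℝ) ≤ 16 * Λ / p := by
    have e : 16 * Λ / p = 16 * (Λ / p) := by ring
    rw [e]
    linarith
  have hlg0 : 0 < Real.log n := by linarith
  -- the main comparison
  have hkey : 54 * Real.log n / p ≤ c0 := by
    rw [div_le_iff₀ hp0]
    have h3 : 864 * Real.log n ^ 2 ≤ n * p := by
      have : 0 ≤ Real.log n ^ 2 := sq_nonneg _
      linarith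
    have h4 : n * p ≤ 16 * Real.log n * c0 * p := mul_le_mul_of_nonneg_right hcl hp0.le
    have h5 : 16 * Real.log n * (54 * Real.log n) ≤ 16 * Real.log n * (c0 * p) := by
      linarith
    exact le_of_mul_le_mul_left h5 (by positivity)
  have hyE : (y0 : ℝ) * (6 * Real.log n) ≤ Λ * c0 := by
    have h3 : (y0 : ℝ) * (6 * Real.log n) ≤ 9 * (Λ / p) * (6 * Real.log n) :=
      mul_le_mul_of_nonneg_right hyB (by positivity)
    have h4 : 9 * (Λ / p) * (6 * Real.log n) = Λ * (54 * Real.log n / p) := by ring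
    rw [h4] at h3
    exact h3.trans (mul_le_mul_of_nonneg_left hkey (by linarith))
  have hyF : (y0 : ℝ) ≤ c0 := by
    have h3 : (y0 : ℝ) * (6 * Real.log n) ≤ c0 * Real.log n := by
      have := mul_le_mul_of_nonneg_right hΛ2 hc0r
      linarith
    have h4 : Real.log n * (6 * (y0 : ℝ)) ≤ Real.log n * c0 := by linarith
    have h5 := le_of_mul_le_mul_left h4 hlg0
    have h6 : (0 : ℝ) ≤ y0 := Nat.cast_nonneg y0
    linarith
  have hcbig : 5 * Real.log n ≤ 2 * c0 := by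
    have h3 : Real.log n * (10000 * Real.log n) ≤ Real.log n * (16 * c0) := by
      have : Real.log n ^ 2 = Real.log n * Real.log n := by ring
      rw [this] at hl2
      linarith
    have := le_of_mul_le_mul_left h3 hlg0
    linarith
  refine (lc_union hp0 hp1 (by exact_mod_cast hyF) hyC hcA hcB hΛd hyD hB.n_pos).trans ?_
  have e5 : 1 / (n : ℝ) ^ 5 = Real.exp (-(5 * Real.log n)) := by
    rw [Real.exp_neg, show (5 : ℝ) * Real.log n = ((5 : ℕ) : ℝ) * Real.log n by norm_num,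
      Real.exp_nat_mul, Real.exp_log hn0, one_div]
  rw [e5, ← Real.exp_add, ← Real.exp_add]
  refine Real.exp_le_exp.2 ?_
  have h6 : (y0 : ℝ) * (Real.log n + 7 / 10 + 4 * Λ) ≤ y0 * (6 * Real.log n) :=
    mul_le_mul_of_nonneg_left (by linarith) (Nat.cast_nonneg _)
  have h7 : (1 : ℝ) * c0 ≤ Λ * c0 := mul_le_mul_of_nonneg_right hΛ1 hc0r
  have h8 : c0 * Λ + (y0 * Real.log n + (7 / 10 * y0 - 4 * Λ * (c0 - y0))) =
      -(3 * (Λ * c0)) + y0 * (Real.log n + 7 / 10 + 4 * Λ) := by ring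
  rw [h8]
  linarith

end Pool.Agent.CFX
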