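import Pool.Agent.CFX.Props

/-! LU: a colouring with `O(log n)` colours -/

namespace Pool.Agent.CFX

open Finset Pool.Agent.MD437 Pool.Agent.CFC

variable {n m : ℕ} {p l : ℝ}

private lemma LU_pos (hB : Big n l) (h1 : l ^ 222 ≤ n * p) : 0 < p := by
  have h : 0 < (n : ℝ) * p := lt_of_lt_of_le (hB.pow_pos' 222) h1
  by_contra hc
  push Not at hc
  have := mul_nonpos_of_nonneg_of_nonpos hB.n_pos'.le hc
  linarith

private lemma LU_small (hB : Big n l) (h2 : n * p ≤ l ^ 6000) : p ≤ 1 / 4 := by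
  have h3 : l ^ 10000 = l ^ 4000 * l ^ 6000 := by rw [← pow_add]
  rw [← hB.pow, h3] at h2
  have h4 : 0 < l ^ 6000 := hB.pow_pos' 6000
  have h5 : l ^ 4000 * p ≤ 1 := by
    by_contra hc
    push Not at hc
    have : l ^ 6000 * 1 < l ^ 6000 * (l ^ 4000 * p) := mul_lt_mul_of_pos_left hc h4
    have e : l ^ 6000 * (l ^ 4000 * p) = l ^ 4000 * l ^ 6000 * p := by ring
    rw [e, mul_one] at this
    exact absurd h2 (not_le.2 this)
  have h6 : (4 : ℝ) ≤ l ^ 4000 := by
    have h7 : (4 : ℝ) * l ^ 0 ≤ l ^ 4000 := hB.mul_pow_le (by norm_num) (by norm_num)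
    rwa [pow_zero, mul_one] at h7
  by_contra hc
  push Not at hc
  have : 4 * (1 / 4 : ℝ) < l ^ 4000 * p := mul_lt_mul' h6 hc (by norm_num) (hB.pow_pos' 4000)
  linarith

private lemma LU_card (S : Finset (Sym2 (Fin n))) (x : Fin n) (V : Finset (Fin n)) (hx : x ∉ V) :
    (S ∩ V.image (fun y => s(x, y))).card = (cl S x ∩ V).card := by
  have hinj : Set.InjOn (fun y => s(x, y)) ((V.filter (fun y => s(x, y) ∈ S) : Finset (Fin n)) :
      Set (Fin n)) := by
    intro a _ b _ hab
    rcases Sym2.eq_iff.1 hab with ⟨-, h1⟩ | ⟨h1, h2⟩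
    · exact h1
    · rw [h2]; exact h1
  have e1 : S ∩ V.image (fun y => s(x, y)) =
      (V.filter (fun y => s(x, y) ∈ S)).image (fun y => s(x, y)) := by
    ext e
    rw [mem_inter, mem_image, mem_image]
    constructor
    · rintro ⟨h1, y, hy, rfl⟩
      exact ⟨y, mem_filter.2 ⟨hy, h1⟩, rfl⟩
    · rintro ⟨y, hy, rfl⟩
      rw [mem_filter] at hy
      exact ⟨hy.2, y, hy.1, rfl⟩
  have e2 : cl S x ∩ V = V.filter (fun y => s(x, y) ∈ S) := by
    ext y
    rw [mem_inter, mem_cl, mem_filter, ad]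
    constructor
    · rintro ⟨h1 | h1, h2⟩
      · subst h1
        exact absurd h2 hx
      · exact ⟨h2, h1.2⟩
    · rintro ⟨h1, h2⟩
      refine ⟨Or.inr ⟨?_, h2⟩, h1⟩
      rintro rfl
      exact hx h1
  rw [e1, card_image_of_injOn hinj, e2]

/-- a colouring with given disjoint classes and one more colour -/
private lemma LU_col {a : ℕ} (V : Fin a → Finset (Fin n))
    (hV : ∀ i j, i ≠ j → Disjoint (V i) (V j)) :
    ∃ c : Fin n → Fin (a + 1), ∀ j : Fin a, cls (full c) j.castSucc = V j := by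
  classical
  refine ⟨fun x => if h : ∃ i, x ∈ V i then (h.choose).castSucc else Fin.last a, fun j => ?_⟩
  ext x
  rw [mem_cls, full, Option.some_inj]
  constructor
  · intro h
    by_cases hx : ∃ i, x ∈ V i
    · rw [dif_pos hx] at h
      rw [← Fin.castSucc_injective _ h]
      exact hx.choose_spec
    · rw [dif_neg hx] at h
      exact absurd h.symm (Fin.castSucc_lt_last j).ne
  · intro h
    have hx : ∃ i, x ∈ V i := ⟨j, h⟩
    rw [dif_pos hx]
    congr 1
    by_contra hne
    exact disjoint_left.1 (hV _ _ hne) hx.choose_spec h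

private lemma LU_vertex (hp0 : 0 < p) (hp : p ≤ 7 / 8) {a : ℕ} (V : Fin a → Finset (Fin n))
    (hV : ∀ i j, i ≠ j → Disjoint (V i) (V j)) (hk : ∀ i, (V i).card = kk p)
    (c : Fin n → Fin (a + 1)) (hc : ∀ j : Fin a, cls (full c) j.castSucc = V j) (x : Fin n) :
    pr p (E n) (fun S => x ∈ bad S (full c)) ≤ (5 / 6) ^ (a - 1) := by
  classical
  have hp1 : p ≤ 1 := by linarith
  set J : Finset (Fin a) := univ.filter (fun j => x ∉ V j) with hJ
  have hJc : a - 1 ≤ J.card := by
    have h1 : (univ.filter (fun j : Fin a => x ∈ V j)).card ≤ 1 := by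
      rw [card_le_one]
      intro i hi j hj
      rw [mem_filter] at hi hj
      by_contra hne
      exact disjoint_left.1 (hV _ _ hne) hi.2 hj.2
    have h2 := card_filter_add_card_filter_not (s := (univ : Finset (Fin a)))
      (fun j => x ∈ V j)
    rw [card_univ, Fintype.card_fin] at h2
    have h3 : J.card = (univ.filter (fun j : Fin a => ¬ x ∈ V j)).card := by
      rw [hJ]
    omega
  have h1 : pr p (E n) (fun S => x ∈ bad S (full c)) ≤
      pr p (E n) (fun S => ∀ j ∈ J, (fun (_ : Fin a) (T : Finset (Sym2 (Fin n))) => T.card ≠ 1) j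
        (S ∩ (V j).image (fun y => s(x, y)))) := by
    refine pr_mono hp0.le hp1 fun S _ h => ?_
    intro j hj
    show (S ∩ (V j).image (fun y => s(x, y))).card ≠ 1
    rw [LU_card S x (V j) (mem_filter.1 hj).2, ← hc j]
    intro h2
    have h3 : j.castSucc ∈ uq S (full c) x := mem_uq.2 h2
    rw [mem_bad.1 h] at h3
    exact notMem_empty _ h3
  refine h1.trans ?_
  have hinj : ∀ j ∈ J, Set.InjOn (fun y => s(x, y)) (V j : Set (Fin n)) := by
    intro j _ b _ d _ hab
    rcases Sym2.eq_iff.1 hab with ⟨-, h1⟩ | ⟨h1, h2⟩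
    · exact h1
    · rw [h2]; exact h1
  have hd : ∀ i ∈ J, ∀ j ∈ J, i ≠ j →
      Disjoint ((V i).image (fun y => s(x, y))) ((V j).image (fun y => s(x, y))) := by
    intro i hi j hj hij
    rw [disjoint_left]
    intro e he he'
    obtain ⟨y, hy, rfl⟩ := mem_image.1 he
    obtain ⟨z, hz, hzy⟩ := mem_image.1 he'
    have : z = y := by
      rcases Sym2.eq_iff.1 hzy with ⟨-, h1⟩ | ⟨h1, h2⟩
      · exact h1
      · rw [h2]; exact h1
    subst this
    exact disjoint_left.1 (hV i j hij) hy hz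
  have hE : ∀ i ∈ J, (V i).image (fun y => s(x, y)) ⊆ E n := by
    intro j hj e he
    obtain ⟨y, hy, rfl⟩ := mem_image.1 he
    rw [mk_mem_E]
    rintro rfl
    exact (mem_filter.1 hj).2 hy
  have hb := pr_blocks p J (fun j => (V j).image (fun y => s(x, y))) hd (E n) hE
    (fun (_ : Fin a) (T : Finset (Sym2 (Fin n))) => T.card ≠ 1)
  have h2 : ∀ j ∈ J, pr p ((V j).image (fun y => s(x, y)))
        (fun (T : Finset (Sym2 (Fin n))) => T.card ≠ 1) = 1 - qs p (kk p) := by
    intro j hj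
    have h3 := pr_ne_one p ((V j).image (fun y => s(x, y)))
    rw [card_image_of_injOn (hinj j hj), hk j] at h3
    exact h3
  have hb2 := hb.trans (prod_congr rfl h2)
  refine (le_of_eq hb2).trans ?_
  rw [prod_const]
  have h4 := qs_kk hp0 hp
  have h5 := qs_le_one hp0.le hp1 (kk p)
  calc (1 - qs p (kk p)) ^ J.card ≤ (5 / 6) ^ J.card :=
        pow_le_pow_left₀ (by linarith) (by linarith) _
    _ ≤ (5 / 6) ^ (a - 1) := pow_le_pow_of_le_one (by norm_num) (by norm_num) hJc

/-- Take `a = ⌊15 log n⌋ - 1` disjoint classes of size `kk p = ⌊1 / p⌋` (`a kk p ≤ n` since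
`n p ≥ l ^ 222`), and one more colour for all other vertices. A vertex `x` is in at most one class;
for every other class `C`, `|N(x) ∩ C| = 1` has probability `qs p (kk p) ≥ 1/6` (`qs_kk`), and
these events are independent (the edges from `x` to distinct classes; `pr_blocks`). So `x` has no
unique colour among the classes with probability at most `(5/6)^(a - 1)`, and
`n (5/6)^(15 log n - 3) ≤ 1 / n` because `15 log (6/5) ≥ 2.7`. -/
theorem log_upper (hB : Big n l) (hp1 : p ≤ 1) (h1 : l ^ 222 ≤ n * p) (h2 : n * p ≤ l ^ 6000) :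
    pr p (E n) (fun S => ¬ ∃ c : Fin n → Fin ⌊15 * Real.log n⌋₊, IsCF (gr S) c) ≤ 1 / (n : ℝ) := by
  classical
  have hp0 := LU_pos hB h1
  have hp4 := LU_small hB h2
  have hlog := hB.log_n_ge
  have hlg := hB.lg_le
  obtain ⟨a, ha⟩ : ∃ a, ⌊15 * Real.log n⌋₊ = a + 1 := by
    refine ⟨⌊15 * Real.log n⌋₊ - 1, ?_⟩
    have : 1 ≤ ⌊15 * Real.log n⌋₊ := by
      rw [Nat.one_le_floor_iff]
      linarith
    omega
  have ha1 : 15 * Real.log n < (a : ℝ) + 2 := by
    have := Nat.lt_floor_add_one (15 * Real.log n)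
    rw [ha] at this
    push_cast at this
    linarith
  have ha2 : (a : ℝ) + 1 ≤ 15 * Real.log n := by
    have := Nat.floor_le (show 0 ≤ 15 * Real.log n by linarith)
    rw [ha] at this
    push_cast at this
    linarith
  rw [ha]
  have hVn : a * kk p ≤ n := by
    have e1 := kk_mul_le hp0
    have e2 : (a : ℝ) ≤ l := by linarith
    have e3 : l ≤ n * p := by
      have : l ^ 1 ≤ l ^ 222 := hB.pow_le (by norm_num)
      rw [pow_one] at this
      linarith
    have e4 : ((a * kk p : ℕ) : ℝ) * p ≤ n * p := by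
      push_cast
      have e5 : (a : ℝ) * kk p * p = a * (kk p * p) := by ring
      rw [e5]
      have e6 : (a : ℝ) * (kk p * p) ≤ a * 1 :=
        mul_le_mul_of_nonneg_left e1 (Nat.cast_nonneg _)
      linarith
    have e7 : ((a * kk p : ℕ) : ℝ) ≤ n := le_of_mul_le_mul_right e4 hp0
    exact_mod_cast e7
  obtain ⟨V, hV, hk⟩ := exists_V n a (kk p) hVn
  obtain ⟨c, hc⟩ := LU_col V hV
  have h3 : pr p (E n) (fun S => ¬ ∃ c : Fin n → Fin (a + 1), IsCF (gr S) c) ≤
      pr p (E n) (fun S => ∃ x ∈ (univ : Finset (Fin n)), x ∈ bad S (full c)) := by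
    refine pr_mono hp0.le hp1 fun S _ h => ?_
    by_contra hcon
    apply h
    refine ⟨c, ?_⟩
    rw [isCF_iff, eq_empty_iff_forall_notMem]
    intro x hx
    exact hcon ⟨x, mem_univ _, hx⟩
  refine h3.trans ((pr_union hp0.le hp1 (E n) univ (fun x S => x ∈ bad S (full c))).trans ?_)
  have h4 : ∑ x : Fin n, pr p (E n) (fun S => x ∈ bad S (full c)) ≤ n * (5 / 6) ^ (a - 1) := by
    refine (sum_le_sum fun x _ => LU_vertex hp0 (by linarith) V hV hk c hc x).trans ?_
    rw [sum_const, card_univ, Fintype.card_fin, nsmul_eq_mul]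
  refine h4.trans ?_
  have ha3 : 1 ≤ a := by
    have : (1 : ℝ) ≤ a := by linarith
    exact_mod_cast this
  have h5 : ((5 : ℝ) / 6) ^ (a - 1) ≤ Real.exp (-(1 / 6)) ^ (a - 1) := by
    refine pow_le_pow_left₀ (by norm_num) ?_ _
    have := Real.add_one_le_exp (-(1 / 6 : ℝ))
    linarith
  rw [← Real.exp_nat_mul] at h5
  have hn0 := hB.n_pos'
  have h6 : (n : ℝ) * (5 / 6) ^ (a - 1) ≤
      Real.exp (Real.log n) * Real.exp (((a - 1 : ℕ) : ℝ) * -(1 / 6)) := by
    rw [Real.exp_log hn0]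
    exact mul_le_mul_of_nonneg_left h5 hn0.le
  refine h6.trans ?_
  have h7 : 1 / (n : ℝ) = Real.exp (-Real.log n) := by
    rw [Real.exp_neg, Real.exp_log hn0, one_div]
  rw [← Real.exp_add, h7]
  refine Real.exp_le_exp.2 ?_
  rw [Nat.cast_sub ha3]
  push_cast
  linarith

end Pool.Agent.CFX
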