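import Pool.Agent.CFX.UA

/-! MA: the theorem, for sequences which are edge probabilities for all large `n` -/

namespace Pool.Agent.CFX

open Filter Topology Pool.Agent.CFC

theorem main_ev (p : ℕ → ℝ) (hp : ∀ᶠ n : ℕ in atTop, 0 ≤ p n ∧ p n ≤ 1) :
    ∃ a : ℕ → ℕ, Tendsto (fun n : ℕ => gnp n (p n) (fun G => chiCF G = a n ∨ chiCF G = a n + 1))
      atTop (𝓝 1) := by
  classical
  obtain ⟨a, ha⟩ := main_all (fun n => if 0 ≤ p n ∧ p n ≤ 1 then p n else 0) (fun n => by
    by_cases h : 0 ≤ p n ∧ p n ≤ 1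
    · simp only [if_pos h]
      exact h
    · simp only [if_neg h]
      norm_num)
  refine ⟨a, ha.congr' ?_⟩
  filter_upwards [hp] with n hn
  simp only [if_pos hn]

end Pool.Agent.CFX
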