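import Pool.Agent.CFX.Props

/-! PA: a system with few defects becomes a colouring with two more colours -/

namespace Pool.Agent.CFX

open Finset Pool.Agent.MD437 Pool.Agent.CFC

variable {n m : ℕ}

private lemma pa_w {S : Finset (Sym2 (Fin n))} {κ z1 L : ℝ} (hκ : 0 ≤ κ) (hcod : CodOK κ S)
    {b : Fin n} {F Z : Finset (Fin n)} (hbZ : b ∉ Z) (hF : F ⊆ nb S b) (hz : (Z.card : ℝ) ≤ z1)
    (hL : L ≤ (F.card : ℝ)) (h6 : z1 * (κ + 1) < L) : ∃ w ∈ F, ∀ z ∈ Z, w ∉ cl S z := by
  by_contra hcon
  push Not at hcon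
  have hsub : F ⊆ Z.biUnion (fun z => nb S b ∩ cl S z) := by
    intro w hw
    obtain ⟨z, hz, hwz⟩ := hcon w hw
    rw [mem_biUnion]
    exact ⟨z, hz, mem_inter.2 ⟨hF hw, hwz⟩⟩
  have hc : ∀ z ∈ Z, ((nb S b ∩ cl S z).card : ℝ) ≤ κ + 1 := by
    intro z hzZ
    have hne : b ≠ z := fun h => hbZ (h ▸ hzZ)
    have h2 : nb S b ∩ cl S z ⊆ insert z (nb S b ∩ nb S z) := by
      intro x hx
      rw [mem_inter, mem_cl] at hx
      rw [mem_insert, mem_inter, mem_nb (v := z)]
      tauto
    have h3 := (card_le_card h2).trans (card_insert_le _ _)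
    have h4 := hcod b z hne
    have h5 : ((nb S b ∩ cl S z).card : ℝ) ≤ ((nb S b ∩ nb S z).card : ℝ) + 1 := by
      exact_mod_cast h3
    linarith
  have h7 : (F.card : ℝ) ≤ ∑ z ∈ Z, ((nb S b ∩ cl S z).card : ℝ) := by
    exact_mod_cast (card_le_card hsub).trans card_biUnion_le
  have h8 := h7.trans (sum_le_sum hc)
  rw [sum_const, nsmul_eq_mul] at h8
  have h9 : (Z.card : ℝ) * (κ + 1) ≤ z1 * (κ + 1) := mul_le_mul_of_nonneg_right hz (by linarith)
  linarith

/-- Let `B = bad S c`, `X = fr S c 2 ⊇ B`, `T₁` hits `A` and the vertices of `X` at most once, all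
vertices at most twice, and `Z₁ = {z ∈ X : N[z] ∩ T₁ ≠ ∅}` has at most `z1` elements. Every
`b ∈ B \ A` has at least `L` private neighbours (outside `B ∪ supp c`, with `N(w) ∩ B = {b}`), and
`z1 (κ + 1) < L`. For `b ∈ B \ A` not hit by `T₁` (so `b ∉ Z₁`) choose a private neighbour `w_b`
outside `⋃_{z ∈ Z₁} N[z]` (`|N(b) ∩ N[z]| ≤ κ + 1`). Let `T = T₁ ∪ {w_b}`, colour `T` by the new
colour `m + 1`, the other neutral vertices by the colour `m`, all other vertices as before.
* `b ∈ B` hit by `T₁`: `b ∈ Z₁`, `|N[b] ∩ T₁| = 1`, and no `w_{b'}` is in `N[b]`.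
* `b ∈ B` not hit by `T₁`: `N[b] ∩ T = {w_b}` (the other `w_{b'}` are not in `B` and their only
  neighbour in `B` is `b'`).
* `z ∈ X \ B` hit by `T₁`: exactly once, and no `w_b` is in `N[z]`: the new colour is unique.
* `z ∈ X \ B` not hit by `T₁`: the vertices of `T` in `N[z]` were neutral, so the unique colours
  of `z` are still unique (all other changes concern neutral vertices).
* `z ∉ X`: at least three unique colours, at most two of them lose their witness (to `T₁`), the
  vertices `w_b` were neutral. -/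
theorem patch (S : Finset (Sym2 (Fin n))) (c : Fin n → Option (Fin m)) {κ z1 L : ℝ}
    (hκ : 0 ≤ κ) (hcod : CodOK κ S) (A T₁ : Finset (Fin n)) (hA : A ⊆ bad S c)
    (h1 : ∀ e ∈ A, (cl S e ∩ T₁).card = 1) (h2 : ∀ z ∈ fr S c 2, (cl S z ∩ T₁).card ≤ 1)
    (h3 : ∀ z, (cl S z ∩ T₁).card ≤ 2)
    (h4 : (((fr S c 2).filter (fun z => (cl S z ∩ T₁).Nonempty)).card : ℝ) ≤ z1)
    (h5 : ∀ b ∈ bad S c, b ∉ A → L ≤ ((priv S (bad S c) (supp c) b).card : ℝ))
    (h6 : z1 * (κ + 1) < L) :
    ∃ c' : Fin n → Fin (m + 2), IsCF (gr S) c' := by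
  classical
  set B := bad S c with hBdef
  set Z := (fr S c 2).filter (fun z => (cl S z ∩ T₁).Nonempty) with hZ
  have hW : ∀ b : Fin n, ∃ w : Fin n, b ∈ B → cl S b ∩ T₁ = ∅ →
      w ∈ priv S B (supp c) b ∧ ∀ z ∈ Z, w ∉ cl S z := by
    intro b
    by_cases hb : b ∈ B ∧ cl S b ∩ T₁ = ∅
    · obtain ⟨hb1, hb2⟩ := hb
      have hbA : b ∉ A := by
        intro h
        have := h1 b h
        rw [hb2] at this
        simp at this
      have hbZ : b ∉ Z := by
        intro h
        rw [hZ, mem_filter, hb2] at h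
        exact not_nonempty_empty h.2
      obtain ⟨w, hw1, hw2⟩ := pa_w hκ hcod hbZ (F := priv S B (supp c) b)
        (filter_subset _ _) h4 (h5 b hb1 hbA) h6
      exact ⟨w, fun _ _ => ⟨hw1, hw2⟩⟩
    · exact ⟨b, fun h1 h2 => absurd ⟨h1, h2⟩ hb⟩
  choose W hW using hW
  obtain ⟨T₂, hT₂⟩ : ∃ T₂ : Finset (Fin n), T₂ = (B.filter (fun b => cl S b ∩ T₁ = ∅)).image W :=
    ⟨_, rfl⟩
  have hT₂m : ∀ t, t ∈ T₂ ↔ ∃ b, (b ∈ B ∧ cl S b ∩ T₁ = ∅) ∧ W b = t := by
    intro t
    rw [hT₂, mem_image]
    constructor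
    · rintro ⟨b, hb, hbt⟩
      exact ⟨b, mem_filter.1 hb, hbt⟩
    · rintro ⟨b, hb, hbt⟩
      exact ⟨b, mem_filter.2 hb, hbt⟩
  have hpriv : ∀ b w, w ∈ priv S B (supp c) b ↔
      w ∈ nb S b ∧ w ∉ B ∧ w ∉ supp c ∧ nb S w ∩ B = {b} := by
    intro b w
    unfold priv
    rw [mem_filter]
  have hT₂s : ∀ t ∈ T₂, t ∉ supp c := by
    intro t ht
    obtain ⟨b, hb, rfl⟩ := (hT₂m t).1 ht
    exact ((hpriv b _).1 (hW b hb.1 hb.2).1).2.2.1
  obtain ⟨c', hc'⟩ : ∃ c' : Fin n → Fin (m + 2), ∀ x, c' x = if x ∈ T₁ ∪ T₂ then Fin.last (m + 1)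
      else (c x).elim ⟨m, by omega⟩ (fun j => ⟨j.1, by omega⟩) := ⟨_, fun _ => rfl⟩
  have hnew : cls (full c') (Fin.last (m + 1)) = T₁ ∪ T₂ := by
    ext x
    rw [mem_cls]
    unfold full
    rw [hc']
    by_cases hx : x ∈ T₁ ∪ T₂
    · simp [hx]
    · rw [if_neg hx]
      constructor
      · intro h
        exfalso
        have h7 := congrArg Fin.val (Option.some.inj h)
        rcases hcx : c x with _ | j
        · rw [hcx] at h7
          simp at h7
        · rw [hcx] at h7
          simp at h7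
          omega
      · intro h
        exact absurd h hx
  have hold : ∀ j : Fin m, cls (full c') ⟨j.1, by omega⟩ = cls c j \ (T₁ ∪ T₂) := by
    intro j
    ext x
    rw [mem_sdiff, mem_cls, mem_cls]
    unfold full
    rw [hc']
    by_cases hx : x ∈ T₁ ∪ T₂
    · rw [if_pos hx]
      constructor
      · intro h
        have h7 := congrArg Fin.val (Option.some.inj h)
        simp at h7
        omega
      · intro h
        exact absurd hx h.2
    · rw [if_neg hx]
      rcases hcx : c x with _ | k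
      · constructor
        · intro h
          have h7 := congrArg Fin.val (Option.some.inj h)
          simp at h7
          omega
        · intro h
          exact absurd h.1 (by simp)
      · constructor
        · intro h
          have h7 := congrArg Fin.val (Option.some.inj h)
          simp at h7
          refine ⟨?_, hx⟩
          rw [Fin.ext h7]
        · intro h
          have h7 := Option.some.inj h.1
          rw [h7]
          rfl
  refine ⟨c', ?_⟩
  rw [isCF_iff, eq_empty_iff_forall_notMem]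
  intro x hx
  rw [mem_bad] at hx
  have hno : ∀ j, (cl S x ∩ cls (full c') j).card ≠ 1 := by
    intro j hj
    have : j ∈ uq S (full c') x := mem_uq.2 hj
    rw [hx] at this
    exact notMem_empty _ this
  have hkeep : ∀ j ∈ uq S c x, cl S x ∩ cls c j ∩ T₁ = ∅ → False := by
    intro j hj hT
    apply hno ⟨j.1, by omega⟩
    rw [hold j]
    rw [← mem_uq.1 hj]
    congr 1
    ext y
    rw [mem_inter, mem_inter, mem_sdiff, mem_union]
    constructor
    · rintro ⟨h7, h8, -⟩
      exact ⟨h7, h8⟩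
    · rintro ⟨h7, h8⟩
      refine ⟨h7, h8, ?_⟩
      rintro (h9 | h9)
      · have : y ∈ cl S x ∩ cls c j ∩ T₁ := mem_inter.2 ⟨mem_inter.2 ⟨h7, h8⟩, h9⟩
        rw [hT] at this
        exact notMem_empty _ this
      · refine hT₂s y h9 ?_
        rw [mem_supp, mem_cls.1 h8]
        simp
  by_cases hxX : x ∈ fr S c 2
  · by_cases hhit : (cl S x ∩ T₁).Nonempty
    · -- hit
      apply hno (Fin.last (m + 1))
      rw [hnew]
      have hxZ : x ∈ Z := mem_filter.2 ⟨hxX, hhit⟩
      have : cl S x ∩ (T₁ ∪ T₂) = cl S x ∩ T₁ := by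
        ext y
        rw [mem_inter, mem_inter, mem_union]
        constructor
        · rintro ⟨h7, h8 | h8⟩
          · exact ⟨h7, h8⟩
          · exfalso
            obtain ⟨b, hb, rfl⟩ := (hT₂m y).1 h8
            exact (hW b hb.1 hb.2).2 x hxZ h7
        · rintro ⟨h7, h8⟩
          exact ⟨h7, Or.inl h8⟩
      rw [this]
      have h7 := h2 x hxX
      have h8 := card_pos.2 hhit
      omega
    · rw [not_nonempty_iff_eq_empty] at hhit
      by_cases hxB : x ∈ B
      · apply hno (Fin.last (m + 1))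
        rw [hnew, card_eq_one]
        have hWx := (hpriv x _).1 (hW x hxB hhit).1
        refine ⟨W x, ?_⟩
        ext y
        rw [mem_inter, mem_union, mem_singleton]
        constructor
        · rintro ⟨h7, h8 | h8⟩
          · exfalso
            have : y ∈ cl S x ∩ T₁ := mem_inter.2 ⟨h7, h8⟩
            rw [hhit] at this
            exact notMem_empty _ this
          · obtain ⟨b, hb, rfl⟩ := (hT₂m y).1 h8
            have hWb := (hpriv b _).1 (hW b hb.1 hb.2).1
            have hne : W b ≠ x := fun h => hWb.2.1 (h ▸ hxB)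
            have had : ad S x (W b) := by
              rcases mem_cl.1 h7 with h | h
              · exact absurd h hne
              · exact h
            have : x ∈ nb S (W b) ∩ B := mem_inter.2 ⟨mem_nb.2 (ad_symm had), hxB⟩
            rw [hWb.2.2.2, mem_singleton] at this
            rw [this]
        · rintro rfl
          exact ⟨nb_sub_cl S x hWx.1, Or.inr ((hT₂m _).2 ⟨x, ⟨hxB, hhit⟩, rfl⟩)⟩
      · have hne : uq S c x ≠ ∅ := fun h => hxB (mem_bad.2 h)
        obtain ⟨j, hj⟩ := nonempty_iff_ne_empty.2 hne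
        refine hkeep j hj ?_
        rw [eq_empty_iff_forall_notMem]
        intro y hy
        rw [mem_inter, mem_inter] at hy
        have : y ∈ cl S x ∩ T₁ := mem_inter.2 ⟨hy.1.1, hy.2⟩
        rw [hhit] at this
        exact notMem_empty _ this
  · have h3x : 3 ≤ (uq S c x).card := by
      by_contra h
      exact hxX (mem_fr.2 (by omega))
    have hyex : ∀ j : Fin m, ∃ y : Fin n, j ∈ uq S c x → y ∈ cl S x ∩ cls c j ∩ T₁ := by
      intro j
      by_cases hj : j ∈ uq S c x
      · have h7 : (cl S x ∩ cls c j ∩ T₁).Nonempty := by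
          rw [nonempty_iff_ne_empty]
          intro h
          exact hkeep j hj h
        obtain ⟨y, hy⟩ := h7
        exact ⟨y, fun _ => hy⟩
      · exact ⟨x, fun h => absurd h hj⟩
    choose Y hY using hyex
    have hle : (uq S c x).card ≤ (cl S x ∩ T₁).card := by
      refine card_le_card_of_injOn Y ?_ ?_
      · intro j hj
        have h7 := hY j hj
        rw [mem_inter, mem_inter] at h7
        have : Y j ∈ cl S x ∩ T₁ := mem_inter.2 ⟨h7.1.1, h7.2⟩
        exact this
      · intro j hj k hk hjk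
        have h7 := hY j hj
        have h8 := hY k hk
        rw [mem_inter, mem_inter, mem_cls] at h7 h8
        rw [hjk] at h7
        exact Option.some.inj (h7.1.2.symm.trans h8.1.2)
    have h7 := h3 x
    omega

end Pool.Agent.CFX
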