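import Pool.Agent.CFX.TA

/-! PT: few neighbours of `b` reach `v` in two steps avoiding `b` -/

namespace Pool.Agent.CFX

open Finset Pool.Agent.MD437 Pool.Agent.CFC

variable {n m : ℕ} {p l : ℝ}

/-- the three edges of the walk `b, w, z, v` -/
private def pt_tri (b v : Fin n) (q : Fin n × Fin n) : Finset (Sym2 (Fin n)) :=
  {s(b, q.1), s(q.1, q.2), s(q.2, v)}

/-- the admissible pairs `(w, z)` -/
private def pt_ok (b v : Fin n) : Finset (Fin n × Fin n) :=
  univ.filter (fun q => q.1 ≠ b ∧ q.1 ≠ v ∧ q.2 ≠ b ∧ q.2 ≠ v ∧ q.1 ≠ q.2)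

/-- the family of all edge sets of such walks -/
private def pt_fam (b v : Fin n) : Finset (Finset (Sym2 (Fin n))) :=
  (pt_ok b v).image (pt_tri b v)

private lemma pt_mem_ok {b v : Fin n} {q : Fin n × Fin n} :
    q ∈ pt_ok b v ↔ q.1 ≠ b ∧ q.1 ≠ v ∧ q.2 ≠ b ∧ q.2 ≠ v ∧ q.1 ≠ q.2 := by
  simp [pt_ok]

private lemma pt_card {b v : Fin n} (hbv : b ≠ v) {q : Fin n × Fin n} (hq : q ∈ pt_ok b v) :
    (pt_tri b v q).card = 3 := by
  obtain ⟨w, z⟩ := q
  rw [pt_mem_ok] at hq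
  obtain ⟨h1, h2, h3, h4, h5⟩ := hq
  simp only at h1 h2 h3 h4 h5
  unfold pt_tri
  rw [card_eq_three]
  refine ⟨s(b, w), s(w, z), s(z, v), ?_, ?_, ?_, rfl⟩
  · intro h
    rw [Sym2.eq_iff] at h
    rcases h with ⟨h, -⟩ | ⟨h, -⟩
    · exact h1 h.symm
    · exact h3 h.symm
  · intro h
    rw [Sym2.eq_iff] at h
    rcases h with ⟨h, -⟩ | ⟨h, -⟩
    · exact h3 h.symm
    · exact hbv h
  · intro h
    rw [Sym2.eq_iff] at h
    rcases h with ⟨h, -⟩ | ⟨h, -⟩
    · exact h5 h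
    · exact h2 h

private lemma pt_disj {b v : Fin n} (hbv : b ≠ v) {q q' : Fin n × Fin n} (hq : q ∈ pt_ok b v)
    (hq' : q' ∈ pt_ok b v) (e1 : q.1 ≠ q'.1) (e2 : q.2 ≠ q'.2) (e3 : q.1 ≠ q'.2)
    (e4 : q'.1 ≠ q.2) : Disjoint (pt_tri b v q) (pt_tri b v q') := by
  obtain ⟨w, z⟩ := q
  obtain ⟨w', z'⟩ := q'
  rw [pt_mem_ok] at hq hq'
  obtain ⟨h1, h2, h3, h4, h5⟩ := hq
  obtain ⟨g1, g2, g3, g4, g5⟩ := hq'
  simp only at h1 h2 h3 h4 h5 g1 g2 g3 g4 g5 e1 e2 e3 e4
  unfold pt_tri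
  rw [disjoint_left]
  intro e he he'
  simp only [mem_insert, mem_singleton] at he he'
  rcases he with rfl | rfl | rfl <;> rcases he' with h | h | h <;> rw [Sym2.eq_iff] at h <;>
    rcases h with ⟨h, h'⟩ | ⟨h, h'⟩ <;>
    first
    | exact h1 h | exact h1 h.symm | exact h2 h | exact h2 h.symm | exact h3 h | exact h3 h.symm
    | exact h4 h | exact h4 h.symm | exact g1 h | exact g1 h.symm | exact g2 h | exact g2 h.symm
    | exact g3 h | exact g3 h.symm | exact g4 h | exact g4 h.symm | exact e1 h | exact e1 h.symm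
    | exact e2 h | exact e2 h.symm | exact e3 h | exact e3 h.symm | exact e4 h | exact e4 h.symm
    | exact hbv h | exact hbv h.symm
    | exact h1 h' | exact h1 h'.symm | exact h2 h' | exact h2 h'.symm | exact h3 h'
    | exact h3 h'.symm | exact h4 h' | exact h4 h'.symm | exact g1 h' | exact g1 h'.symm
    | exact g2 h' | exact g2 h'.symm | exact g3 h' | exact g3 h'.symm | exact g4 h'
    | exact g4 h'.symm | exact e1 h'

/-- the deterministic part -/
private lemma pt_det {κ M : ℝ} (hκ : 0 < κ) {S : Finset (Sym2 (Fin n))} (hS : CodOK κ S)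
    {b v : Fin n} (hbv : b ≠ v)
    (hM : M < (((nb S b).filter
      (fun w => w ≠ v ∧ ∃ z, z ≠ b ∧ z ∈ cl S w ∧ z ∈ cl S v)).card : ℝ))
    {k : ℕ} (hk : κ * k ≤ M - κ) :
    ∃ R ⊆ pt_fam b v, R.card = k ∧ (∀ F ∈ R, ∀ F' ∈ R, F ≠ F' → Disjoint F F') ∧
      ∀ F ∈ R, F ⊆ S := by
  classical
  set N := (nb S b).filter (fun w => w ≠ v ∧ ∃ z, z ≠ b ∧ z ∈ cl S w ∧ z ∈ cl S v) with hN
  set N' := N.filter (fun w => ¬ ad S w v) with hN'
  have hcard : (N.card : ℝ) ≤ κ + N'.card := by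
    have h1 : (N.filter (fun w => ad S w v)).card + N'.card = N.card := by
      rw [hN']; exact card_filter_add_card_filter_not _
    have h2 : (N.filter (fun w => ad S w v)).card ≤ (nb S b ∩ nb S v).card := by
      refine card_le_card fun w hw => ?_
      rw [mem_filter, hN, mem_filter] at hw
      rw [mem_inter]
      exact ⟨hw.1.1, mem_nb.2 (ad_symm hw.2)⟩
    have h3 : ((N.filter (fun w => ad S w v)).card : ℝ) ≤ κ :=
      le_trans (by exact_mod_cast h2) (hS b v hbv)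
    have h4 : (N.card : ℝ) = (N.filter (fun w => ad S w v)).card + N'.card := by
      exact_mod_cast h1.symm
    linarith
  -- the middle vertex
  have hz : ∀ w ∈ N', ∃ z, z ≠ b ∧ z ≠ v ∧ z ≠ w ∧ ad S w z ∧ ad S z v := by
    intro w hw
    rw [hN', mem_filter, hN, mem_filter] at hw
    obtain ⟨⟨hbw, hwv, z, hzb, hzw, hzv⟩, hnv⟩ := hw
    rw [mem_cl] at hzw hzv
    have hzw' : z ≠ w := by
      rintro rfl
      rcases hzv with h | h
      · exact hwv h
      · exact hnv (ad_symm h)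
    have hzv' : z ≠ v := by
      rintro rfl
      rcases hzw with h | h
      · exact hwv h.symm
      · exact hnv h
    exact ⟨z, hzb, hzv', hzw', hzw.resolve_left hzw', ad_symm (hzv.resolve_left hzv')⟩
  choose! f hf using hz
  set Z := N'.image f with hZ
  have hfib : (N'.card : ℝ) ≤ κ * Z.card := by
    have h1 : (N'.card : ℝ) = ∑ a ∈ Z, ((N'.filter (fun w => f w = a)).card : ℝ) := by
      rw [hZ]
      exact_mod_cast card_eq_sum_card_image f N'
    rw [h1]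
    have h2 : ∀ a ∈ Z, ((N'.filter (fun w => f w = a)).card : ℝ) ≤ κ := by
      intro a ha
      rw [hZ, mem_image] at ha
      obtain ⟨w₀, hw₀, rfl⟩ := ha
      refine le_trans ?_ (hS b (f w₀) (hf w₀ hw₀).1.symm)
      have : (N'.filter (fun w => f w = f w₀)).card ≤ (nb S b ∩ nb S (f w₀)).card := by
        refine card_le_card fun w hw => ?_
        rw [mem_filter] at hw
        have hw1 := hw.1
        rw [hN', mem_filter, hN, mem_filter] at hw1
        rw [mem_inter]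
        refine ⟨hw1.1.1, mem_nb.2 ?_⟩
        rw [← hw.2]
        exact ad_symm (hf w hw.1).2.2.2.1
      exact_mod_cast this
    calc ∑ a ∈ Z, ((N'.filter (fun w => f w = a)).card : ℝ) ≤ ∑ _a ∈ Z, κ := sum_le_sum h2
      _ = κ * Z.card := by rw [sum_const, nsmul_eq_mul, mul_comm]
  have hkZ : k ≤ Z.card := by
    have h1 : κ * k < κ * Z.card := by linarith
    have h2 := lt_of_mul_lt_mul_left h1 hκ.le
    exact_mod_cast h2.le
  obtain ⟨Z', hZ', hZc⟩ := exists_subset_card_eq hkZ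
  have hg : ∀ z ∈ Z', ∃ w ∈ N', f w = z := by
    intro z hz
    have := hZ' hz
    rw [hZ, mem_image] at this
    exact this
  choose! g hg using hg
  have hok : ∀ z ∈ Z', (g z, z) ∈ pt_ok b v := by
    intro z hz
    obtain ⟨h1, h2⟩ := hg z hz
    have h3 := hf _ h1
    rw [h2] at h3
    rw [hN', mem_filter, hN, mem_filter] at h1
    rw [pt_mem_ok]
    exact ⟨fun h => not_mem_nb_self S b (by simp only at h; rw [← h]; rw [h]; exact h ▸ h1.1.1),
      h1.1.2.1, h3.1, h3.2.1, fun h => h3.2.2.1 h.symm⟩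
  have hdis : ∀ z ∈ Z', ∀ z' ∈ Z', z ≠ z' →
      Disjoint (pt_tri b v (g z, z)) (pt_tri b v (g z', z')) := by
    intro z hz z' hz' hne
    obtain ⟨h1, h2⟩ := hg z hz
    obtain ⟨h1', h2'⟩ := hg z' hz'
    have h3 := hf _ h1
    have h3' := hf _ h1'
    rw [h2] at h3
    rw [h2'] at h3'
    refine pt_disj hbv (hok z hz) (hok z' hz') ?_ hne ?_ ?_
    · intro h
      simp only at h
      rw [← h2, ← h2', h] at hne
      exact hne rfl
    · intro h
      simp only at h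
      rw [hN', mem_filter] at h1
      exact h1.2 (h ▸ h3'.2.2.2.2)
    · intro h
      simp only at h
      rw [hN', mem_filter] at h1'
      exact h1'.2 (h ▸ h3.2.2.2.2)
  have hinj : Set.InjOn (fun z => pt_tri b v (g z, z)) (Z' : Set (Fin n)) := by
    intro z hz z' hz' h
    by_contra hne
    have h1 := hdis z hz z' hz' hne
    simp only at h
    rw [h, disjoint_self] at h1
    have h2 := pt_card hbv (hok z' hz')
    rw [h1] at h2
    simp at h2
  refine ⟨Z'.image (fun z => pt_tri b v (g z, z)), ?_, ?_, ?_, ?_⟩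
  · intro F hF
    rw [mem_image] at hF
    obtain ⟨z, hz, rfl⟩ := hF
    exact mem_image_of_mem _ (hok z hz)
  · rw [card_image_of_injOn hinj, hZc]
  · intro F hF F' hF' hne
    rw [mem_image] at hF hF'
    obtain ⟨z, hz, rfl⟩ := hF
    obtain ⟨z', hz', rfl⟩ := hF'
    exact hdis z hz z' hz' (fun h => hne (by rw [h]))
  · intro F hF
    rw [mem_image] at hF
    obtain ⟨z, hz, rfl⟩ := hF
    obtain ⟨h1, h2⟩ := hg z hz
    have h3 := hf _ h1
    rw [h2] at h3
    rw [hN', mem_filter, hN, mem_filter, mem_nb] at h1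
    intro e he
    unfold pt_tri at he
    simp only [mem_insert, mem_singleton] at he
    rcases he with rfl | rfl | rfl
    · exact h1.1.1.2
    · exact h3.2.2.2.1.2
    · exact h3.2.2.2.2.2

private lemma pt_sum (hp0 : 0 ≤ p) {b v : Fin n} (hbv : b ≠ v) :
    ∑ F ∈ pt_fam b v, p ^ F.card ≤ (n : ℝ) ^ 2 * p ^ 3 := by
  have h1 : ∑ F ∈ pt_fam b v, p ^ F.card = ∑ _F ∈ pt_fam b v, p ^ 3 := by
    refine sum_congr rfl fun F hF => ?_
    unfold pt_fam at hF
    rw [mem_image] at hF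
    obtain ⟨q, hq, rfl⟩ := hF
    rw [pt_card hbv hq]
  rw [h1, sum_const, nsmul_eq_mul]
  refine mul_le_mul_of_nonneg_right ?_ (pow_nonneg hp0 3)
  have h2 : (pt_fam b v).card ≤ n ^ 2 := by
    unfold pt_fam pt_ok
    refine card_image_le.trans ((card_filter_le _ _).trans ?_)
    rw [card_univ, Fintype.card_prod, Fintype.card_fin, sq]
  exact_mod_cast h2

/-- the numerical part -/
private lemma pt_num {x y : ℝ} (hx : 0 ≤ x) {k : ℕ} (hk : 0 < k) (h : 3 * x ≤ y * k) :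
    x ^ k / (k.factorial : ℝ) ≤ y ^ k := by
  have hk' : (0 : ℝ) < k := by exact_mod_cast hk
  have h1 := Real.pow_div_factorial_le_exp (k : ℝ) hk'.le k
  have h2 : Real.exp (k : ℝ) ≤ 3 ^ k := by
    have h3 : Real.exp (k : ℝ) = Real.exp 1 ^ k := by
      rw [← Real.exp_nat_mul, mul_one]
    rw [h3]
    exact pow_le_pow_left₀ (Real.exp_pos _).le (Real.exp_one_lt_d9.le.trans (by norm_num)) k
  have h3 : x ^ k / (k.factorial : ℝ) = (x / k) ^ k * ((k : ℝ) ^ k / (k.factorial : ℝ)) := by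
    rw [div_pow]
    have h4 : ((k : ℝ) ^ k) ≠ 0 := (pow_pos hk' k).ne'
    field_simp
  have h5 : 0 ≤ x / k := div_nonneg hx hk'.le
  rw [h3]
  calc (x / k) ^ k * ((k : ℝ) ^ k / (k.factorial : ℝ)) ≤ (x / k) ^ k * 3 ^ k :=
        mul_le_mul_of_nonneg_left (h1.trans h2) (pow_nonneg h5 k)
    _ = (x / k * 3) ^ k := by rw [mul_pow]
    _ ≤ y ^ k := by
        refine pow_le_pow_left₀ (mul_nonneg h5 (by norm_num)) ?_ k
        rw [div_mul_eq_mul_div, div_le_iff₀ hk']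
        linarith

/-- Fix `b ≠ v`. Let `M = n p / l^50`, `κ = 2 l` and suppose more than `M` neighbours `w ≠ v` of
`b` have a `z ≠ b` in `N[w] ∩ N[v]`. At most `κ` of them are adjacent to `v` (this covers `z = w`
and `z = v`). For the others `z` is adjacent to `w` and `v`. At most `κ` vertices `z` are adjacent
to both `b` and `v`, each adjacent to at most `κ` neighbours of `b`. So there is a set of at least
`M - κ - κ²` vertices `w`, adjacent to `b`, not to `v`, each with a `z(w)` adjacent to `w` and `v`,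
not to `b`; each `z` is used at most `κ` times. Choosing one `w` for every value of `z(w)` we get
`k = ⌈M / (4 l)⌉` pairs `(w, z)` such that the sets of edges `{bw, wz, zv}` are pairwise disjoint.
By `disjoint_tail` with `P` the family of all sets `{bw, wz, zv}`
(`w ≠ z` outside `{b, v}`; total weight at most `n² p³ = d³ / n`, `d = n p ≤ l ^ 4200`)
the probability is at most `(d³/n)^k / k! ≤ (3 d³ / (n k))^k ≤ (1/l)^k`. Union over `b, v`. -/
theorem path_prob (hB : Big n l) (hp0 : 0 ≤ p) (hp1 : p ≤ 1) (h1 : l ^ 222 ≤ n * p)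
    (h2 : n * p ≤ l ^ 4200) :
    pr p (E n) (fun S => CodOK (2 * l) S ∧ ¬ PathOK (n * p / l ^ 50) S) ≤ 1 / (n : ℝ) ^ 5 := by
  have hl := hB.pos
  have hn := hB.n_pos'
  set M : ℝ := n * p / l ^ 50 with hM
  have hM1 : l ^ 172 ≤ M := by
    rw [hM, le_div_iff₀ (hB.pow_pos' 50), ← pow_add]
    exact h1
  have hM0 : 0 ≤ M := (hB.pow_pos' 172).le.trans hM1
  have h8 : 8 * l ≤ M := by
    have := hB.mul_pow_le (show (8 : ℝ) ≤ 10 ^ 9 by norm_num) (show 1 < 172 by norm_num)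
    rw [pow_one] at this
    exact this.trans hM1
  obtain ⟨k, hk1, hk2⟩ : ∃ k : ℕ, M / (4 * l) ≤ k ∧ (k : ℝ) < M / (4 * l) + 1 :=
    ⟨⌈M / (4 * l)⌉₊, Nat.le_ceil _, Nat.ceil_lt_add_one (div_nonneg hM0 (by linarith))⟩
  have hk3 : M ≤ 4 * l * k := by
    rw [div_le_iff₀ (by linarith)] at hk1
    linarith
  have hk4 : 2 * l * (k : ℝ) ≤ M - 2 * l := by
    have h3 : 2 * l * (k : ℝ) ≤ 2 * l * (M / (4 * l) + 1) :=
      mul_le_mul_of_nonneg_left hk2.le (by linarith)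
    have h4 : 2 * l * (M / (4 * l) + 1) = M / 2 + 2 * l := by
      field_simp
      ring
    linarith
  have hk5 : l ^ 170 ≤ k := by
    have h3 := hB.mul_pow_le (show (4 : ℝ) ≤ 10 ^ 9 by norm_num) (show 171 < 172 by norm_num)
    have h4 : 4 * l * l ^ 170 ≤ 4 * l * k := by
      calc 4 * l * l ^ 170 = 4 * l ^ 171 := by ring
        _ ≤ l ^ 172 := h3
        _ ≤ M := hM1
        _ ≤ 4 * l * k := hk3
    exact le_of_mul_le_mul_left h4 (by linarith)
  have hk6 : 70000 ≤ k := by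
    have h3 : (10 : ℝ) ^ 9 ≤ k :=
      (hB.big.trans (by
        have := hB.pow_le (show 1 ≤ 170 by norm_num)
        rwa [pow_one] at this)).trans hk5
    have h4 : (70000 : ℝ) ≤ k := le_trans (by norm_num) h3
    exact_mod_cast h4
  have hk0 : 0 < k := lt_of_lt_of_le (by norm_num) hk6
  -- the bound for a fixed pair
  have hnum : 3 * ((n : ℝ) ^ 2 * p ^ 3) ≤ 1 / l * k := by
    have hnp : 0 ≤ (n : ℝ) * p := mul_nonneg hn.le hp0
    have h3 : ((n : ℝ) * p) ^ 2 ≤ l ^ 8400 := by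
      have := pow_le_pow_left₀ hnp h2 2
      rwa [← pow_mul] at this
    have h4 : 12 * ((n : ℝ) * p) ^ 2 * l ^ 52 ≤ n := by
      have h5 := hB.mul_pow_le (show (12 : ℝ) ≤ 10 ^ 9 by norm_num)
        (show 8452 < 10000 by norm_num)
      rw [hB.pow] at h5
      refine le_trans ?_ h5
      calc 12 * ((n : ℝ) * p) ^ 2 * l ^ 52 ≤ 12 * l ^ 8400 * l ^ 52 :=
            mul_le_mul_of_nonneg_right (mul_le_mul_of_nonneg_left h3 (by norm_num))
              (hB.pow_pos' 52).le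
        _ = 12 * l ^ 8452 := by rw [mul_assoc, ← pow_add]
    have h5 : n * p ≤ 4 * l * k * l ^ 50 := by
      have := mul_le_mul_of_nonneg_right hk3 (hB.pow_pos' 50).le
      rwa [hM, div_mul_cancel₀ _ (hB.pow_pos' 50).ne'] at this
    have h6 : 12 * ((n : ℝ) ^ 2 * p ^ 3) * l ^ 52 ≤ n * p := by
      have h7 := mul_le_mul_of_nonneg_right h4 hp0
      calc 12 * ((n : ℝ) ^ 2 * p ^ 3) * l ^ 52 = 12 * ((n : ℝ) * p) ^ 2 * l ^ 52 * p := by ring
        _ ≤ n * p := h7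
    have h7 : 12 * ((n : ℝ) ^ 2 * p ^ 3) * l ^ 52 ≤ 4 * l * k * l ^ 50 := h6.trans h5
    rw [one_div, ← div_eq_inv_mul, le_div_iff₀ hl]
    have h8 : (4 * l ^ 51) * (3 * ((n : ℝ) ^ 2 * p ^ 3) * l) ≤ (4 * l ^ 51) * k := by
      calc (4 * l ^ 51) * (3 * ((n : ℝ) ^ 2 * p ^ 3) * l)
          = 12 * ((n : ℝ) ^ 2 * p ^ 3) * l ^ 52 := by ring
        _ ≤ 4 * l * k * l ^ 50 := h7
        _ = (4 * l ^ 51) * k := by ring
    exact le_of_mul_le_mul_left h8 (by have := hB.pow_pos' 51; linarith)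
  have hpow : (1 / l) ^ k ≤ 1 / (n : ℝ) ^ 7 := by
    rw [one_div_pow]
    refine one_div_le_one_div_of_le (pow_pos hn 7) ?_
    rw [← hB.pow, ← pow_mul]
    exact hB.pow_le (by omega)
  have hone : ∀ b v : Fin n, b ≠ v → pr p (E n) (fun S => ∃ R ⊆ pt_fam b v, R.card = k ∧
      (∀ F ∈ R, ∀ F' ∈ R, F ≠ F' → Disjoint F F') ∧ ∀ F ∈ R, F ⊆ S) ≤ 1 / (n : ℝ) ^ 7 := by
    intro b v hbv
    refine (disjoint_tail hp0 hp1 (E n) (pt_fam b v) k).trans ?_
    refine le_trans ?_ hpow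
    refine le_trans ?_ (pt_num (x := (n : ℝ) ^ 2 * p ^ 3)
      (mul_nonneg (pow_nonneg hn.le 2) (pow_nonneg hp0 3)) hk0 hnum)
    refine div_le_div_of_nonneg_right ?_ (Nat.cast_nonneg _)
    exact pow_le_pow_left₀ (sum_nonneg fun F _ => pow_nonneg hp0 _) (pt_sum hp0 hbv) k
  -- union bound
  have hun : pr p (E n) (fun S => CodOK (2 * l) S ∧ ¬ PathOK M S) ≤
      pr p (E n) (fun S => ∃ q ∈ (univ : Finset (Fin n × Fin n)).filter (fun q => q.1 ≠ q.2),
        ∃ R ⊆ pt_fam q.1 q.2, R.card = k ∧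
        (∀ F ∈ R, ∀ F' ∈ R, F ≠ F' → Disjoint F F') ∧ ∀ F ∈ R, F ⊆ S) := by
    refine pr_mono hp0 hp1 fun S _ hS => ?_
    obtain ⟨hc, hP⟩ := hS
    unfold PathOK at hP
    push Not at hP
    obtain ⟨b, v, hbv, hlt⟩ := hP
    refine ⟨(b, v), ?_, pt_det (by linarith) hc hbv hlt hk4⟩
    simp [hbv]
  refine hun.trans ((pr_union hp0 hp1 _ _ _).trans ?_)
  have hle : ∀ q ∈ (univ : Finset (Fin n × Fin n)).filter (fun q => q.1 ≠ q.2),
      pr p (E n) (fun S => ∃ R ⊆ pt_fam q.1 q.2, R.card = k ∧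
      (∀ F ∈ R, ∀ F' ∈ R, F ≠ F' → Disjoint F F') ∧ ∀ F ∈ R, F ⊆ S) ≤ 1 / (n : ℝ) ^ 7 := by
    intro q hq
    rw [mem_filter] at hq
    exact hone q.1 q.2 hq.2
  refine (sum_le_sum hle).trans ?_
  rw [sum_const, nsmul_eq_mul]
  have hc : (((univ : Finset (Fin n × Fin n)).filter (fun q => q.1 ≠ q.2)).card : ℝ)
      ≤ (n : ℝ) ^ 2 := by
    have : ((univ : Finset (Fin n × Fin n)).filter (fun q => q.1 ≠ q.2)).card ≤ n ^ 2 := by
      refine (card_filter_le _ _).trans ?_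
      rw [card_univ, Fintype.card_prod, Fintype.card_fin, sq]
    exact_mod_cast this
  calc (((univ : Finset (Fin n × Fin n)).filter (fun q => q.1 ≠ q.2)).card : ℝ)
        * (1 / (n : ℝ) ^ 7) ≤ (n : ℝ) ^ 2 * (1 / (n : ℝ) ^ 7) :=
        mul_le_mul_of_nonneg_right hc (by positivity)
    _ = 1 / (n : ℝ) ^ 5 := by
        have := hn.ne'
        field_simp

end Pool.Agent.CFX
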