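import Pool.Agent.CFX.ST
import Pool.Agent.CFX.UN

/-! PV: most vertices of a set `B` have many private neighbours -/

namespace Pool.Agent.CFX

open Finset Pool.Agent.MD437 Pool.Agent.CFC

variable {n m : ℕ} {p l : ℝ}

private lemma PV_pos (hB : Big n l) {k : ℕ} (h1 : l ^ k ≤ n * p) : 0 < p := by
  have h2 : 0 < (n : ℝ) * p := lt_of_lt_of_le (hB.pow_pos' k) h1
  exact pos_of_mul_pos_right h2 hB.n_pos'.le

private lemma PV_single {ι : Type*} [DecidableEq ι] (p : ℝ) (B : Finset ι) {b : ι} (hb : b ∈ B) :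
    ex p B (fun T => if T = {b} then (1 : ℝ) else 0) = p * (1 - p) ^ (B.card - 1) := by
  unfold ex
  rw [Finset.sum_eq_single ({b} : Finset ι)]
  · simp
  · intro T _ hT
    simp only [if_neg hT, mul_zero]
  · intro h
    exact absurd (mem_powerset.2 (singleton_subset_iff.2 hb)) h

private lemma PV_ex {ι : Type*} [DecidableEq ι] {p : ℝ} (hp0 : 0 ≤ p) (hp1 : p ≤ 1)
    (A B : Finset ι) (hAB : A ⊆ B) :
    (A.card : ℝ) * (p * (1 - p) ^ (B.card - 1)) ≤ pr p B (fun T => ∃ b ∈ A, T = {b}) := by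
  classical
  have h1 : ∑ b ∈ A, ex p B (fun T => if T = {b} then (1 : ℝ) else 0) =
      (A.card : ℝ) * (p * (1 - p) ^ (B.card - 1)) := by
    rw [sum_congr rfl (fun b hb => PV_single p B (hAB hb)), sum_const, nsmul_eq_mul]
  rw [← h1, ← ex_sum, pr_def]
  refine ex_mono hp0 hp1 fun T _ => ?_
  by_cases h : ∃ b ∈ A, T = {b}
  · rw [if_pos h]
    obtain ⟨b, hb, rfl⟩ := h
    rw [sum_eq_single b]
    · simp
    · intro c _ hc
      rw [if_neg]
      intro h2
      exact hc (singleton_injective h2).symm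
    · intro h2
      exact absurd hb h2
  · rw [if_neg h]
    refine le_of_eq (sum_eq_zero fun b hb => ?_)
    rw [if_neg]
    intro h2
    exact h ⟨b, hb, h2⟩

private lemma PV_exp {p : ℝ} (hp0 : 0 ≤ p) (hp1 : p ≤ 1 / 2) (k : ℕ) :
    Real.exp (-(2 * (p * k))) ≤ (1 - p) ^ (k - 1) := by
  have h1 : Real.exp (-(2 * p)) ≤ 1 - p := by
    rw [Real.exp_neg, inv_eq_one_div, div_le_iff₀ (Real.exp_pos _)]
    have := Real.add_one_le_exp (2 * p)
    nlinarith
  have h2 : (1 - p) ^ k ≤ (1 - p) ^ (k - 1) :=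
    pow_le_pow_of_le_one (by linarith) (by linarith) (Nat.sub_le k 1)
  refine le_trans ?_ h2
  calc Real.exp (-(2 * (p * k))) = Real.exp (-(2 * p)) ^ k := by
        rw [← Real.exp_nat_mul]
        congr 1
        ring
    _ ≤ _ := pow_le_pow_left₀ (Real.exp_pos _).le h1 k

private lemma PV_one (hB : Big n l) (h1 : l ^ 4100 ≤ n * p)
    (h2 : n * p ≤ l ^ 6000) (A B U : Finset (Fin n)) (hAB : A ⊆ B)
    (hb : p * B.card ≤ Real.log l / 8) (hu : (U.card : ℝ) ≤ l ^ 2 / p)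
    (hk : (1 + 1 / (n * p ^ 2)) * l ^ 5 ≤ (A.card : ℝ)) :
    pr p (E n) (fun S => ∀ b ∈ A, ((priv S B U b).card : ℝ) < n * p / l) ≤
      (1 / (n : ℝ) ^ 6) ^ (A.card + B.card + U.card + 1) := by
  classical
  have hp0 : 0 < p := PV_pos hB h1
  have hn0 : (0 : ℝ) < n := hB.n_pos'
  have hl0 : 0 < l := hB.pos
  have hl1 : (1000 : ℝ) ≤ l := le_trans (by norm_num) hB.big
  have hph : p ≤ 1 / 2 := by
    have h3 : 2 * l ^ 6000 ≤ l ^ 10000 := hB.mul_pow_le (by norm_num) (by norm_num)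
    rw [hB.pow] at h3
    have h4 : (n : ℝ) * p ≤ n * (1 / 2) := by linarith
    exact le_of_mul_le_mul_left h4 hn0
  have hp1 : p ≤ 1 := by linarith
  have hlp : (1 : ℝ) ≤ 1 / p := by rw [le_div_iff₀ hp0]; linarith
  have hl2p : 0 ≤ l ^ 2 / p := by positivity
  -- sizes
  have hlogl : Real.log l ≤ l := (Real.log_le_sub_one_of_pos hl0).trans (by linarith)
  have hBc : (B.card : ℝ) ≤ l ^ 2 / p := by
    rw [le_div_iff₀ hp0, mul_comm]
    have : l ≤ l ^ 2 := by nlinarith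
    linarith
  have h3 : l ^ 2 / p ≤ n / 4 := by
    rw [div_le_iff₀ hp0]
    have h4 : 4 * l ^ 2 ≤ l ^ 4100 := hB.mul_pow_le (by norm_num) (by norm_num)
    linarith
  have hZ : (n : ℝ) / 2 ≤ (((B ∪ U)ᶜ).card : ℝ) := by
    rw [card_compl, Fintype.card_fin, Nat.cast_sub (by
      have := card_le_univ (B ∪ U)
      rwa [Fintype.card_fin] at this)]
    have : ((B ∪ U).card : ℝ) ≤ B.card + U.card := by exact_mod_cast card_union_le B U
    linarith
  set k : ℝ := (A.card : ℝ) with hkd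
  have hk0 : 0 ≤ k := Nat.cast_nonneg _
  -- the star bound
  have hmain : pr p (E n) (fun S => ∀ b ∈ A, ((priv S B U b).card : ℝ) < n * p / l) ≤
      Real.exp (k * (n * p / l) - 1 / 2 *
        ∑ _x ∈ (B ∪ U)ᶜ, pr p B (fun T => ∃ b ∈ A, T = {b})) := by
    refine le_trans ?_ (star_lower hp0.le hp1 (E n) B ((B ∪ U)ᶜ)
      (disjoint_compl_right.mono_left subset_union_left |>.mono_right (le_refl _))
      ?_ (fun _ T => ∃ b ∈ A, T = {b}) (k * (n * p / l)))
    · refine pr_mono hp0.le hp1 fun S _ hS => ?_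
      have hsub : ((B ∪ U)ᶜ.filter (fun x => ∃ b ∈ A, B.filter (fun y => s(x, y) ∈ S) = {b})) ⊆
          A.biUnion (fun b => priv S B U b) := by
        intro x hx
        rw [mem_filter, mem_compl, mem_union] at hx
        obtain ⟨hx1, b, hbA, hxb⟩ := hx
        rw [mem_biUnion]
        refine ⟨b, hbA, ?_⟩
        have hxB : x ∉ B := fun h => hx1 (Or.inl h)
        have hxU : x ∉ U := fun h => hx1 (Or.inr h)
        have hbf : b ∈ B.filter (fun y => s(x, y) ∈ S) := by rw [hxb]; exact mem_singleton_self b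
        rw [mem_filter] at hbf
        have hxb' : x ≠ b := by
          rintro rfl
          exact hxB hbf.1
        have had : ad S x b := ⟨hxb', hbf.2⟩
        rw [priv, mem_filter]
        refine ⟨mem_nb.2 ((ad_comm S x b).1 had), hxB, hxU, ?_⟩
        rw [← hxb]
        ext y
        rw [mem_inter, mem_filter, mem_nb]
        constructor
        · rintro ⟨h5, h6⟩
          exact ⟨h6, h5.2⟩
        · rintro ⟨h5, h6⟩
          refine ⟨⟨?_, h6⟩, h5⟩
          rintro rfl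
          exact hxB h5
      have h5 : (((B ∪ U)ᶜ.filter (fun x => ∃ b ∈ A,
          B.filter (fun y => s(x, y) ∈ S) = {b})).card : ℝ) ≤
          ((∑ b ∈ A, (priv S B U b).card : ℕ) : ℝ) := by
        exact_mod_cast (card_le_card hsub).trans card_biUnion_le
      refine h5.trans ?_
      push_cast
      refine (sum_le_sum fun b hbA => (hS b hbA).le).trans ?_
      rw [sum_const, nsmul_eq_mul]
    · intro x hx y hy
      rw [mk_mem_E]
      rintro rfl
      exact (mem_compl.1 hx) (mem_union_left _ hy)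
  refine hmain.trans ?_
  rw [sum_const, nsmul_eq_mul]
  -- the probability of one vertex
  set y : ℝ := Real.exp (Real.log l / 4) with hy
  have hy4 : y ^ 4 = l := by
    rw [hy, ← Real.exp_nat_mul]
    push_cast
    rw [show (4 : ℝ) * (Real.log l / 4) = Real.log l by ring, Real.exp_log hl0]
  have hy0 : 0 < y := Real.exp_pos _
  have hy2 : 2 ≤ y := by
    by_contra h
    push Not at h
    have : y ^ 4 < 2 ^ 4 := pow_lt_pow_left₀ h hy0.le (by norm_num)
    rw [hy4] at this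
    norm_num at this
    linarith
  have hq : k * (p * (1 / y)) ≤ pr p B (fun T => ∃ b ∈ A, T = {b}) := by
    refine le_trans ?_ (PV_ex hp0.le hp1 A B hAB)
    refine mul_le_mul_of_nonneg_left (mul_le_mul_of_nonneg_left ?_ hp0.le) hk0
    refine le_trans ?_ (PV_exp hp0.le hph B.card)
    rw [one_div, hy, ← Real.exp_neg]
    apply Real.exp_le_exp.2
    linarith
  have hx8 : 8 / l ≤ 1 / y := by
    rw [div_le_div_iff₀ hl0 hy0, one_mul, ← hy4]
    have : 8 ≤ y ^ 3 := by
      calc (8 : ℝ) = 2 ^ 3 := by norm_num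
        _ ≤ y ^ 3 := pow_le_pow_left₀ (by norm_num) hy2 3
    nlinarith
  have h6 : k * (n * p / l) - 1 / 2 * ((((B ∪ U)ᶜ).card : ℝ) *
      pr p B (fun T => ∃ b ∈ A, T = {b})) ≤ -(k * (n * p / l)) := by
    have h7 : (n : ℝ) / 2 * (k * (p * (8 / l))) ≤ (((B ∪ U)ᶜ).card : ℝ) *
        pr p B (fun T => ∃ b ∈ A, T = {b}) := by
      refine mul_le_mul hZ (le_trans ?_ hq) (by positivity) (Nat.cast_nonneg _)
      exact mul_le_mul_of_nonneg_left (mul_le_mul_of_nonneg_left hx8 hp0.le) hk0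
    have h8 : (n : ℝ) / 2 * (k * (p * (8 / l))) = 4 * (k * (n * p / l)) := by
      field_simp
      ring
    rw [h8] at h7
    linarith
  refine (Real.exp_le_exp.2 h6).trans (hB.exp_le' ?_)
  push_cast
  rw [← hkd]
  -- numerics
  have hnp : 0 < (n : ℝ) * p := by positivity
  have hM : l ^ 4 / p ≤ k * (n * p / l) := by
    have h9 : 1 / (n * p ^ 2) * l ^ 5 ≤ k := by
      refine le_trans ?_ hk
      have : 0 ≤ l ^ 5 := by positivity
      nlinarith
    calc l ^ 4 / p = (1 / (n * p ^ 2) * l ^ 5) * (n * p / l) := by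
          field_simp
      _ ≤ k * (n * p / l) := mul_le_mul_of_nonneg_right h9 (by positivity)
  have hM2 : l * k ≤ k * (n * p / l) := by
    rw [mul_comm l k]
    refine mul_le_mul_of_nonneg_left ?_ hk0
    rw [le_div_iff₀ hl0]
    have : 1 * l ^ 2 ≤ l ^ 4100 := hB.mul_pow_le (by norm_num) (by norm_num)
    nlinarith
  have hM3 : l * (l ^ 2 / p) ≤ l ^ 4 / p := by
    have : l * (l ^ 2 / p) = l ^ 3 / p := by ring
    rw [this]
    exact div_le_div_of_nonneg_right (hB.pow_le (by norm_num)) hp0.le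
  have hM4 : (1 : ℝ) ≤ l ^ 2 / p := by
    have := hB.one_le_pow 2
    calc (1 : ℝ) = 1 * 1 := by ring
      _ ≤ l ^ 2 * (1 / p) := mul_le_mul this hlp (by norm_num) (by positivity)
      _ = l ^ 2 / p := by ring
  have hM5 : l * (k + (B.card : ℝ) + (U.card : ℝ) + 1) ≤
      l * k + 3 * (l * (l ^ 2 / p)) := by
    have : k + (B.card : ℝ) + (U.card : ℝ) + 1 ≤ k + 3 * (l ^ 2 / p) := by linarith
    calc l * (k + (B.card : ℝ) + (U.card : ℝ) + 1) ≤ l * (k + 3 * (l ^ 2 / p)) :=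
          mul_le_mul_of_nonneg_left this hl0.le
      _ = _ := by ring
  have hM6 : 0 ≤ k * (n * p / l) := by positivity
  linarith

/-- For fixed `B, U` and `A ⊆ B` with `|A| = k := ⌊(1 + 1 / (n p²)) l^5⌋ + 1`: if every `b ∈ A` has
fewer than `n p / l` private neighbours then at most `k n p / l` vertices `x ∉ B ∪ U` satisfy
`N(x) ∩ B = {b}` with `b ∈ A`. By `star_lower` (`W = B`, `Z = (B ∪ U)ᶜ`,
`Q x T := ∃ b ∈ A, T = {b}` of probability `k p (1 - p)^(|B| - 1)`, and
`(1 - p)^|B| ≥ exp (- 2 p |B|) ≥ l^(-1/4)`, `|Z| ≥ n / 2`) the probability is at most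
`exp (k n p / l - k n p / (4 l^(1/4))) ≤ exp (- k n p / l)`. Here `k n p ≥ (n p + 1 / p) l^5` and
`|B| ≤ log l / (8 p)`, `|U| ≤ l² / p`, `|A| = k`, so this is small enough for `union3` over
`B, U, A`. -/
theorem priv_prob (hB : Big n l) (hp1 : p ≤ 1) (h1 : l ^ 4100 ≤ n * p)
    (h2 : n * p ≤ l ^ 6000) :
    pr p (E n) (fun S => ∃ B U : Finset (Fin n), p * B.card ≤ Real.log l / 8 ∧
      (U.card : ℝ) ≤ l ^ 2 / p ∧ (1 + 1 / (n * p ^ 2)) * l ^ 5 <
        ((B.filter (fun b => ((priv S B U b).card : ℝ) < n * p / l)).card : ℝ))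
      ≤ 1 / (n : ℝ) ^ 5 := by
  classical
  have hp0 : 0 < p := PV_pos hB h1
  refine le_trans ?_ (union3 hp0.le hp1 hB.two_le_n
    (fun A B U S => (A ⊆ B ∧ p * B.card ≤ Real.log l / 8 ∧ (U.card : ℝ) ≤ l ^ 2 / p ∧
      (1 + 1 / (n * p ^ 2)) * l ^ 5 ≤ (A.card : ℝ)) ∧
      ∀ b ∈ A, ((priv S B U b).card : ℝ) < n * p / l) ?_)
  · refine pr_mono hp0.le hp1 fun S _ hS => ?_
    obtain ⟨B, U, hb, hu, hk⟩ := hS
    exact ⟨B.filter (fun b => ((priv S B U b).card : ℝ) < n * p / l), B, U,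
      ⟨filter_subset _ _, hb, hu, hk.le⟩, fun b hb => (mem_filter.1 hb).2⟩
  · intro A B U
    by_cases hc : A ⊆ B ∧ p * B.card ≤ Real.log l / 8 ∧ (U.card : ℝ) ≤ l ^ 2 / p ∧
      (1 + 1 / (n * p ^ 2)) * l ^ 5 ≤ (A.card : ℝ)
    · refine le_trans ?_ (PV_one hB h1 h2 A B U hc.1 hc.2.1 hc.2.2.1 hc.2.2.2)
      exact pr_mono hp0.le hp1 fun S _ hS => hS.2
    · have : pr p (E n) (fun S => (A ⊆ B ∧ p * B.card ≤ Real.log l / 8 ∧
          (U.card : ℝ) ≤ l ^ 2 / p ∧ (1 + 1 / (n * p ^ 2)) * l ^ 5 ≤ (A.card : ℝ)) ∧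
          ∀ b ∈ A, ((priv S B U b).card : ℝ) < n * p / l) = 0 := by
        rw [pr_congr p (R := fun _ => False) (fun S _ => ?_), pr_def]
        · simp [ex_const]
        · constructor
          · rintro ⟨a, -⟩
            exact hc a
          · exact False.elim
      rw [this]
      have := hB.n_pos'
      positivity

end Pool.Agent.CFX
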