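import Pool.Agent.CFX.Basic

/-! The properties of the random graph used in the proof (definitions). In all of them `d` is
`n * p`, the expected degree. -/

namespace Pool.Agent.CFX

open Finset Pool.Agent.MD437 Pool.Agent.CFC

variable {n m : ℕ}

/-- all degrees are between `d / 2` and `2 d` -/
def DegOK (d : ℝ) (S : Finset (Sym2 (Fin n))) : Prop :=
  ∀ x : Fin n, d / 2 ≤ ((nb S x).card : ℝ) ∧ ((nb S x).card : ℝ) ≤ 2 * d

/-- all codegrees are at most `κ` -/
def CodOK (κ : ℝ) (S : Finset (Sym2 (Fin n))) : Prop :=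
  ∀ x y : Fin n, x ≠ y → ((nb S x ∩ nb S y).card : ℝ) ≤ κ

/-- for `b ≠ v` at most `M` neighbours of `b` reach `v` in at most two steps avoiding `b` -/
def PathOK (M : ℝ) (S : Finset (Sym2 (Fin n))) : Prop :=
  ∀ b v : Fin n, b ≠ v →
    (((nb S b).filter (fun w => w ≠ v ∧ ∃ z, z ≠ b ∧ z ∈ cl S w ∧ z ∈ cl S v)).card : ℝ) ≤ M

/-- edge distribution -/
def DistOK (p l : ℝ) (S : Finset (Sym2 (Fin n))) : Prop :=
  ∀ A A' : Finset (Fin n),
    (ee S A A' : ℝ) ≤ l * (A.card + A'.card) + l * p * A.card * A'.card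

/-- number of neighbours of `w` in `B` -/
def aB (S : Finset (Sym2 (Fin n))) (B : Finset (Fin n)) (w : Fin n) : ℕ := (nb S w ∩ B).card

/-- the vertices outside `B` with a neighbour in `B` -/
def QQ (S : Finset (Sym2 (Fin n))) (B : Finset (Fin n)) : Finset (Fin n) :=
  Bᶜ.filter (fun w => 1 ≤ aB S B w)

/-- the vertices outside `B` with at least two neighbours in `B` -/
def Q2 (S : Finset (Sym2 (Fin n))) (B : Finset (Fin n)) : Finset (Fin n) :=
  Bᶜ.filter (fun w => 2 ≤ aB S B w)

/-- `R = 1 + r d² / n` where `r = |B|` -/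
noncomputable def RR (n : ℕ) (p : ℝ) (r : ℕ) : ℝ := 1 + r * n * p ^ 2

/-- the vertices `z` outside `B` such that the sum of `aB w` over the neighbours `w` of `z`
outside `B` with `aB w < h` is at least `x` -/
noncomputable def heavy (h x : ℝ) (S : Finset (Sym2 (Fin n))) (B : Finset (Fin n)) :
    Finset (Fin n) := by
  classical exact Bᶜ.filter (fun z => x ≤ ∑ w ∈ nb S z \ B,
    if (aB S B w : ℝ) < h then (aB S B w : ℝ) else 0)

/-- the vertices `z` outside `B ∪ QQ` with at least two neighbours in `QQ` -/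
def cher (S : Finset (Sym2 (Fin n))) (B : Finset (Fin n)) : Finset (Fin n) :=
  (B ∪ QQ S B)ᶜ.filter (fun z => 2 ≤ (nb S z ∩ QQ S B).card)

/-- the vertices of `QQ` outside the closed neighbourhood of `A` which are adjacent to a vertex
outside `A ∪ B` with a neighbour in `A` -/
def near (S : Finset (Sym2 (Fin n))) (B A : Finset (Fin n)) : Finset (Fin n) :=
  (QQ S B).filter (fun w => w ∉ A ∧ (∀ v ∈ A, ¬ ad S w v) ∧
    ∃ z, ad S w z ∧ z ∉ A ∧ z ∉ B ∧ ∃ v ∈ A, ad S z v)

/-- The properties used for sets `B` of defects. -/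
structure GoodH (p l : ℝ) (S : Finset (Sym2 (Fin n))) : Prop where
  deg : DegOK (n * p) S
  dist : DistOK p l S
  h1 : ∀ B : Finset (Fin n), (B.card : ℝ) ≤ l ^ 5005 →
    ((Q2 S B).card : ℝ) ≤ B.card * (n * p) / l ^ 3
  h2 : ∀ B : Finset (Fin n),
    ((heavy (RR n p B.card * l ^ 10) (RR n p B.card * l ^ 17) S B).card : ℝ) ≤ B.card / l ^ 6
  h3a : ∀ B : Finset (Fin n),
    (ee S (QQ S B) (QQ S B) : ℝ) ≤ l ^ 2 * B.card + B.card ^ 2 * n ^ 2 * p ^ 3 * l ^ 10
  h3b : ∀ B : Finset (Fin n), (B.card : ℝ) * n * p ^ 2 * l ^ 70 ≤ 1 →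
    ((∑ z ∈ cher S B, (nb S z ∩ QQ S B).card : ℕ) : ℝ) ≤
      l ^ 2 * B.card + B.card ^ 2 * n ^ 3 * p ^ 4 * l ^ 10
  u3 : ∀ B A : Finset (Fin n), (A.card : ℝ) * RR n p B.card * l ^ 8 ≤ B.card →
    ((near S B A).card : ℝ) ≤ B.card * (n * p) / l ^ 2

/-- The properties used in the regime `l ^ 222 ≤ n p ≤ l ^ 4200`. -/
structure GoodR2 (p l : ℝ) (S : Finset (Sym2 (Fin n))) : Prop where
  toH : GoodH p l S
  cod : CodOK (2 * l) S
  path : PathOK (n * p / l ^ 50) S

/-- the number of pairs `(b', w')`, `b' ∈ B`, `w' ∈ N(b')`, `w' ∉ N[b]`, `w' ≠ w` such that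
`N[w]` and `N[w']` meet in `X` -/
def conf (S : Finset (Sym2 (Fin n))) (X B : Finset (Fin n)) (b w : Fin n) : ℕ :=
  ((B ×ˢ (univ : Finset (Fin n))).filter (fun q : Fin n × Fin n => q.2 ∈ nb S q.1 ∧
    q.2 ∉ cl S b ∧ q.2 ≠ w ∧ (cl S w ∩ cl S q.2 ∩ X).Nonempty)).card

/-- the number of pairs `(b', w')`, `b' ∈ B`, `w' ∈ N(b') ∩ N[z]`, `w' ≠ w` -/
def gz (S : Finset (Sym2 (Fin n))) (B : Finset (Fin n)) (w z : Fin n) : ℕ :=
  ((B ×ˢ (univ : Finset (Fin n))).filter (fun q : Fin n × Fin n => q.2 ∈ nb S q.1 ∧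
    q.2 ∈ cl S z ∧ q.2 ≠ w)).card

/-- `w` is dangerous for `b` with respect to `B` -/
def dang (S : Finset (Sym2 (Fin n))) (X B : Finset (Fin n)) (d l : ℝ) (b w : Fin n) : Prop :=
  d / 1024 ≤ (conf S X B b w : ℝ) ∨ ∃ z ∈ cl S w, z ∉ X ∧ d / l ^ 12 ≤ (gz S B w z : ℝ)

/-- the probability that a vertex outside has no unique colour -/
noncomputable def wt (p : ℝ) (c : Fin n → Option (Fin m)) : ℝ := ∏ j, (1 - qs p (cls c j).card)

/-- the private neighbours of `b ∈ B` outside `B ∪ U` -/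
def priv (S : Finset (Sym2 (Fin n))) (B U : Finset (Fin n)) (b : Fin n) : Finset (Fin n) :=
  (nb S b).filter (fun w => w ∉ B ∧ w ∉ U ∧ nb S w ∩ B = {b})

/-- the number of vertices `x` which see exactly one vertex of `C` in `N[x]` -/
def see1 (S : Finset (Sym2 (Fin n))) (C : Finset (Fin n)) : Finset (Fin n) :=
  univ.filter (fun x => (cl S x ∩ C).card = 1)

/-- the vertices with at least `h` neighbours in `B` -/
noncomputable def HH (h : ℝ) (S : Finset (Sym2 (Fin n))) (B : Finset (Fin n)) :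
    Finset (Fin n) := by
  classical exact univ.filter (fun v => h ≤ (aB S B v : ℝ))

/-- The typical vertices: exactly one neighbour in `B`, no neighbour in `H`, not near `H`, no
heavy vertex and no vertex (outside `B`) with `l^7` neighbours in `B` in the closed
neighbourhood. Here `H = HH (R l^10) S B`. -/
noncomputable def typ (p l : ℝ) (S : Finset (Sym2 (Fin n))) (B : Finset (Fin n)) :
    Finset (Fin n) := by
  classical exact (QQ S B).filter (fun w => aB S B w = 1 ∧
    (∀ v ∈ HH (RR n p B.card * l ^ 10) S B, ¬ ad S w v) ∧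
    w ∉ near S B (HH (RR n p B.card * l ^ 10) S B) ∧
    ∀ z ∈ cl S w, z ∉ heavy (RR n p B.card * l ^ 10) (RR n p B.card * l ^ 17) S B ∧
      (z ∉ B → (aB S B z : ℝ) < l ^ 7))

/-- the first `i` elements of the enumeration `b` -/
def pre (b : ℕ → Fin n) (i : ℕ) : Finset (Fin n) := (Finset.range i).image b

/-- the list of the non-dangerous neighbours of `b i` with respect to the first `i` elements -/
noncomputable def lst (S : Finset (Sym2 (Fin n))) (X : Finset (Fin n)) (d l : ℝ) (b : ℕ → Fin n)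
    (i : ℕ) : Finset (Fin n) := by
  classical exact (nb S (b i)).filter (fun w => ¬ dang S X (pre b i) d l (b i) w)

/-- The `i`-th choice is fine: either it is skipped, because an earlier choice is in `N[b i]`, or
it is a member `w` of the list of `b i`, no earlier choice is in `N[b i]`, and no earlier choice is
in conflict with `w`. -/
def okc (S : Finset (Sym2 (Fin n))) (X : Finset (Fin n)) (d l : ℝ) (b : ℕ → Fin n) (i : ℕ)
    (f : ℕ → Option (Fin n)) : Prop :=
  (f i = none ∧ ∃ j < i, ∃ w, f j = some w ∧ w ∈ cl S (b i)) ∨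
  ∃ w ∈ lst S X d l b i, f i = some w ∧
    ∀ j < i, ∀ w', f j = some w' → w' ∉ cl S (b i) ∧ cl S w ∩ cl S w' ∩ X = ∅

/-- value of a constraint at a possibly skipped step -/
def yv {α κ : Type*} (y : κ → ℕ → α → ℝ) (q : κ) (j : ℕ) : Option α → ℝ
  | none => 0
  | some w => y q j w

/-- the colours which appear exactly once in `T` -/
def uT (c : Fin n → Option (Fin m)) (T : Finset (Fin n)) : Finset (Fin m) :=
  univ.filter (fun j => (T ∩ cls c j).card = 1)

/-- `w` is blocked for `b`: there is a walk of length at most three (with possible stops) from `w`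
to `B \ {b}` avoiding `b` (`w` itself is a neighbour of `b` in the applications). -/
def blk (S : Finset (Sym2 (Fin n))) (B : Finset (Fin n)) (b w : Fin n) : Prop :=
  ∃ z t b' : Fin n, b' ∈ B ∧ b' ≠ b ∧ z ≠ b ∧ t ≠ b ∧ z ∈ cl S w ∧ t ∈ cl S z ∧ b' ∈ cl S t

/-- a colouring of the family with the least number of defects, if this number is less than `t` -/
noncomputable def mn (F : Finset (Fin n → Option (Fin m))) (t : ℕ)
    (S : Finset (Sym2 (Fin n))) : Fin n → Option (Fin m) := by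
  classical exact if h : defect F t S < t then (exists_of_defect_lt h).choose else fun _ => none

lemma mn_spec {F : Finset (Fin n → Option (Fin m))} {t : ℕ} {S : Finset (Sym2 (Fin n))}
    (h : defect F t S < t) : mn F t S ∈ F ∧ (bad S (mn F t S)).card = defect F t S := by
  unfold mn
  rw [dif_pos h]
  exact (exists_of_defect_lt h).choose_spec

/-- the ordered pairs `(v, w)` such that adding the edge may make `v` a defect -/
def upP (S : Finset (Sym2 (Fin n))) (c : Fin n → Option (Fin m)) : Finset (Fin n × Fin n) :=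
  univ.filter (fun q => q.1 ≠ q.2 ∧ ¬ ad S q.1 q.2 ∧ q.1 ∈ fr S c 1 ∧
    ∃ j ∈ uq S c q.1, q.2 ∈ cls c j)

/-- the ordered pairs `(v, w)` such that removing the edge may make `v` a defect -/
def dnP (S : Finset (Sym2 (Fin n))) (c : Fin n → Option (Fin m)) : Finset (Fin n × Fin n) :=
  univ.filter (fun q => ad S q.1 q.2 ∧ q.1 ∈ fr S c 1 ∧
    ∃ j ∈ uq S c q.1, cl S q.1 ∩ cls c j = {q.2})

end Pool.Agent.CFX
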