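import Pool.Agent.CFX.Props

/-! QT: from steps to two-point concentration -/

namespace Pool.Agent.CFX

open Finset Filter Topology Pool.Agent.MD437 Pool.Agent.CFC

/-- Let `u` be the least number with `P(χ ≤ u) ≥ η / 2` (`u ≥ 1` because `n > 0`, `u ≤ n`); use
`combine` of `CFC/Asym.lean` with `b = u - 1`. -/
theorem quantile {n : ℕ} {p η : ℝ} (hn : 0 < n) (hp0 : 0 ≤ p) (hp1 : p ≤ 1) (hη : 0 < η)
    (hη1 : η ≤ 1) (h : ∀ u, Step n p η u) :
    ∃ a : ℕ, 1 - η ≤ gnp n p (fun G => chiCF G = a ∨ chiCF G = a + 1) := by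
  classical
  have hone : pr p (E n) (fun S => ∃ c : Fin n → Fin n, IsCF (gr S) c) = 1 := by
    rw [pr_def]
    have : ∀ S ⊆ E n, (if ∃ c : Fin n → Fin n, IsCF (gr S) c then (1 : ℝ) else 0) = 1 := by
      intro S _
      rw [if_pos ⟨_, isCF_id (gr S)⟩]
    rw [ex_congr p this, ex_const]
  have hzero : pr p (E n) (fun S => ∃ c : Fin n → Fin 0, IsCF (gr S) c) = 0 := by
    rw [pr_def]
    have : ∀ S ⊆ E n, (if ∃ c : Fin n → Fin 0, IsCF (gr S) c then (1 : ℝ) else 0) = 0 := by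
      intro S _
      rw [if_neg]
      rintro ⟨c, -⟩
      exact (c ⟨0, hn⟩).elim0
    rw [ex_congr p this, ex_const]
  have hex : ∃ u : ℕ, η / 2 ≤ pr p (E n) (fun S => ∃ c : Fin n → Fin u, IsCF (gr S) c) :=
    ⟨n, by rw [hone]; linarith⟩
  set u := Nat.find hex with hu
  have hu1 : η / 2 ≤ pr p (E n) (fun S => ∃ c : Fin n → Fin u, IsCF (gr S) c) :=
    Nat.find_spec hex
  obtain ⟨b, hb⟩ : ∃ b, u = b + 1 := by
    rcases Nat.eq_zero_or_pos u with h0 | h0
    · exfalso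
      rw [h0, hzero] at hu1
      linarith
    · exact ⟨u - 1, by omega⟩
  have hlow : pr p (E n) (fun S => ∃ c : Fin n → Fin b, IsCF (gr S) c) ≤ η / 2 := by
    have := Nat.find_min hex (m := b) (by rw [← hu]; omega)
    exact (not_le.1 this).le
  have hup := h u hu1
  refine ⟨b + 1, combine (b := b) hp0 hp1 ?_ hlow⟩
  rw [pr_not]
  rw [hb] at hup
  have e : b + 1 + 1 = b + 2 := by omega
  rw [e] at hup
  linarith

end Pool.Agent.CFX
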