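import Pool.Agent.CFX.Props

/-! RA: sparse regime: defects of degree at most two -/

namespace Pool.Agent.CFX

open Finset Pool.Agent.MD437 Pool.Agent.CFC

variable {n m u : ℕ}

private lemma ra_mono (S : Finset (Sym2 (Fin n))) (c : Fin n → Fin u) {x : Fin n}
    (hx : x ∈ bad S (full c)) (hd : (nb S x).card ≤ 2) : ∀ y ∈ cl S x, c y = c x := by
  intro y hy
  by_contra hne
  rw [mem_bad] at hx
  have key : ∀ z ∈ cl S x, 2 ≤ (cl S x ∩ cls (full c) (c z)).card := by
    intro z hz
    have h1 : 0 < (cl S x ∩ cls (full c) (c z)).card :=
      card_pos.2 ⟨z, mem_inter.2 ⟨hz, mem_cls.2 rfl⟩⟩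
    have h2 : (cl S x ∩ cls (full c) (c z)).card ≠ 1 := by
      intro h
      have : c z ∈ uq S (full c) x := mem_uq.2 h
      rw [hx] at this
      exact notMem_empty _ this
    omega
  have h1 := key x (self_mem_cl S x)
  have h2 := key y hy
  have hdis : Disjoint (cl S x ∩ cls (full c) (c x)) (cl S x ∩ cls (full c) (c y)) := by
    rw [disjoint_left]
    intro z hz1 hz2
    rw [mem_inter, mem_cls] at hz1 hz2
    have := hz1.2.symm.trans hz2.2
    exact hne (Option.some.inj this).symm
  have h3 : (cl S x ∩ cls (full c) (c x) ∪ cl S x ∩ cls (full c) (c y)).card ≤ (cl S x).card :=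
    card_le_card (union_subset inter_subset_left inter_subset_left)
  rw [card_union_of_disjoint hdis, card_cl] at h3
  omega

private lemma ra_step (S : Finset (Sym2 (Fin n))) (hu : 2 ≤ u) (c : Fin n → Fin u) {b : Fin n}
    (hb : b ∈ bad S (full c)) (hd : (nb S b).card ≤ 2) :
    ∃ c' : Fin n → Fin u,
      bad S (full c') ⊆ (bad S (full c)).erase b ∪ (nb S b).filter (fun x => 3 ≤ (nb S x).card) := by
  have hex : ∃ k : Fin u, k ≠ c b := by
    by_cases h0 : c b = ⟨0, by omega⟩
    · refine ⟨⟨1, by omega⟩, ?_⟩
      rw [h0]
      intro h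
      have := congrArg Fin.val h
      simp at this
    · exact ⟨⟨0, by omega⟩, fun h => h0 h.symm⟩
  obtain ⟨k, hk⟩ := hex
  have hmono := ra_mono S c hb hd
  have hself : Function.update c b k b = k := Function.update_self _ _ _
  have hoth : ∀ y, y ≠ b → Function.update c b k y = c y := fun y hy =>
    Function.update_of_ne hy _ _
  refine ⟨Function.update c b k, ?_⟩
  intro x hx
  have hx0 := hx
  rw [mem_bad] at hx
  by_cases hxb : x = b
  · exfalso
    subst hxb
    have : k ∈ uq S (full (Function.update c x k)) x := by
      rw [mem_uq, card_eq_one]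
      refine ⟨x, ?_⟩
      ext y
      rw [mem_inter, mem_cls, mem_singleton]
      constructor
      · rintro ⟨h1, h2⟩
        by_contra hyx
        have h3 : Function.update c x k y = k := Option.some.inj h2
        rw [hoth y hyx, hmono y h1] at h3
        exact hk h3.symm
      · rintro rfl
        exact ⟨self_mem_cl S y, by simp [full]⟩
    rw [hx] at this
    exact notMem_empty _ this
  · by_cases hxn : x ∈ cl S b
    · have hxn' : x ∈ nb S b := by
        rw [mem_nb]
        rcases mem_cl.1 hxn with h | h
        · exact absurd h hxb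
        · exact h
      by_cases hdx : 3 ≤ (nb S x).card
      · exact mem_union_right _ (mem_filter.2 ⟨hxn', hdx⟩)
      · exfalso
        have h1 := ra_mono S (Function.update c b k) hx0 (by omega) b (mem_cl_comm.1 hxn)
        rw [hself, hoth x hxb, hmono x hxn] at h1
        exact hk h1
    · refine mem_union_left _ (mem_erase.2 ⟨hxb, ?_⟩)
      rw [mem_bad]
      rw [← hx]
      ext j
      rw [mem_uq, mem_uq]
      have : cl S x ∩ cls (full c) j = cl S x ∩ cls (full (Function.update c b k)) j := by
        ext y
        rw [mem_inter, mem_inter, mem_cls, mem_cls]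
        refine and_congr_right fun hy => ?_
        have hyb : y ≠ b := by
          rintro rfl
          exact hxn (mem_cl_comm.1 hy)
        simp [full, hoth y hyb]
      rw [this]

private lemma ra_ind (S : Finset (Sym2 (Fin n))) (hu : 2 ≤ u) (s : ℕ) : ∀ c : Fin n → Fin u,
    ((bad S (full c)).filter (fun b => (nb S b).card ≤ 2)).card ≤ s →
    ∃ c' : Fin n → Fin u,
      (bad S (full c')).card ≤ ((bad S (full c)).filter (fun b => ¬ (nb S b).card ≤ 2)).card +
        2 * ((bad S (full c)).filter (fun b => (nb S b).card ≤ 2)).card ∧
      ∀ b ∈ bad S (full c'), 3 ≤ (nb S b).card := by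
  induction s with
  | zero =>
    intro c hc
    refine ⟨c, ?_, ?_⟩
    · have := card_filter_add_card_filter_not (s := bad S (full c)) (fun b => (nb S b).card ≤ 2)
      omega
    · intro b hb
      by_contra h
      have h1 : b ∈ (bad S (full c)).filter (fun b => (nb S b).card ≤ 2) :=
        mem_filter.2 ⟨hb, by omega⟩
      have h2 : 0 < ((bad S (full c)).filter (fun b => (nb S b).card ≤ 2)).card :=
        card_pos.2 ⟨b, h1⟩
      omega
  | succ s ih =>
    intro c hc
    by_cases h0 : ((bad S (full c)).filter (fun b => (nb S b).card ≤ 2)).card ≤ s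
    · exact ih c h0
    · obtain ⟨b, hb⟩ := card_pos.1 (show 0 < ((bad S (full c)).filter
        (fun b => (nb S b).card ≤ 2)).card by omega)
      rw [mem_filter] at hb
      obtain ⟨c₁, h1⟩ := ra_step S hu c hb.1 hb.2
      have hB1 : (bad S (full c₁)).filter (fun b => (nb S b).card ≤ 2) ⊆
          ((bad S (full c)).filter (fun b => (nb S b).card ≤ 2)).erase b := by
        intro x hx
        rw [mem_filter] at hx
        have h2 := h1 hx.1
        rw [mem_union, mem_erase, mem_filter] at h2
        rw [mem_erase, mem_filter]
        rcases h2 with h2 | h2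
        · exact ⟨h2.1, h2.2, hx.2⟩
        · exact absurd hx.2 (by omega)
      have hB2 : (bad S (full c₁)).filter (fun b => ¬ (nb S b).card ≤ 2) ⊆
          (bad S (full c)).filter (fun b => ¬ (nb S b).card ≤ 2) ∪ nb S b := by
        intro x hx
        rw [mem_filter] at hx
        have h2 := h1 hx.1
        rw [mem_union, mem_erase, mem_filter] at h2
        rw [mem_union, mem_filter]
        rcases h2 with h2 | h2
        · exact Or.inl ⟨h2.2, hx.2⟩
        · exact Or.inr h2.1
      have c1 := card_le_card hB1
      rw [card_erase_of_mem (mem_filter.2 hb)] at c1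
      have c2 := (card_le_card hB2).trans (card_union_le _ _)
      have hb2 := hb.2
      obtain ⟨c', h3, h4⟩ := ih c₁ (by omega)
      exact ⟨c', by omega, h4⟩

/-- Recolouring a defect `b` of degree at most two. A defect has degree at least one, and a defect
of degree one or two sees only one colour in `N[b]`; recolour `b` by another colour. Then `b` is
not a defect. A neighbour `x` of `b` of degree at most two is not a defect afterwards: `N[x]` has
two or three elements, not all of the same colour. So at most two vertices become defects, all of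
degree at least three. Repeat (at most `|bad|` times): induct on the number of defects of degree
at most two. -/
theorem shift (S : Finset (Sym2 (Fin n))) (hu : 2 ≤ u) (c : Fin n → Fin u) :
    ∃ c' : Fin n → Fin u, (bad S (full c')).card ≤ 2 * (bad S (full c)).card ∧
      ∀ b ∈ bad S (full c'), 3 ≤ (nb S b).card := by
  obtain ⟨c', h1, h2⟩ := ra_ind S hu _ c le_rfl
  refine ⟨c', ?_, h2⟩
  have := card_filter_add_card_filter_not (s := bad S (full c)) (fun b => (nb S b).card ≤ 2)
  omega

end Pool.Agent.CFX
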