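import Pool.Agent.CFX.Props

/-! RB: sparse regime: a vertex with at most two blocked neighbours -/

namespace Pool.Agent.CFX

open Finset Pool.Agent.MD437 Pool.Agent.CFC

variable {n m u : ℕ}

private lemma rb_two {S : Finset (Sym2 (Fin n))} {Y : Finset (Fin n)} {x a a' : Fin n}
    (h : ad S x a) (h' : ad S x a') (hne : a ≠ a') (ha : a ∈ Y) (ha' : a' ∈ Y) :
    2 ≤ (nb S x ∩ Y).card := by
  have : 1 < (nb S x ∩ Y).card :=
    Finset.one_lt_card.2 ⟨a, mem_inter.2 ⟨mem_nb.2 h, ha⟩, a', mem_inter.2 ⟨mem_nb.2 h', ha'⟩, hne⟩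
  exact this

private lemma rb_case2 {S : Finset (Sym2 (Fin n))} {B : Finset (Fin n)} {b w z b' : Fin n}
    (hb : b ∈ B) (hbw : ad S b w) (hw : w ∉ B) (hz : z ∉ B) (hwz : ad S w z) (hb' : b' ∈ B)
    (hzb : ad S z b') :
    ∃ P : Finset (Fin n), (∀ x ∈ P, x ∉ B) ∧ P.card ≤ 3 ∧ w ∈ P ∪ B ∧
      ∀ x ∈ P, 2 ≤ (nb S x ∩ (P ∪ B)).card := by
  refine ⟨{w, z}, ?_, ?_, ?_, ?_⟩
  · intro x hx
    rw [mem_insert, mem_singleton] at hx
    rcases hx with rfl | rfl
    · exact hw
    · exact hz
  · exact (card_insert_le _ _).trans (by rw [card_singleton]; omega)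
  · exact mem_union_left _ (mem_insert_self _ _)
  · intro x hx
    rw [mem_insert, mem_singleton] at hx
    rcases hx with rfl | rfl
    · refine rb_two (a := b) (a' := z) (ad_symm hbw) hwz ?_ (mem_union_right _ hb)
        (mem_union_left _ (mem_insert_of_mem (mem_singleton_self _)))
      rintro rfl
      exact hz hb
    · refine rb_two (a := w) (a' := b') (ad_symm hwz) hzb ?_
        (mem_union_left _ (mem_insert_self _ _)) (mem_union_right _ hb')
      rintro rfl
      exact hw hb'

private lemma rb_case3 {S : Finset (Sym2 (Fin n))} {B : Finset (Fin n)} {b w z t b' : Fin n}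
    (hb : b ∈ B) (hbw : ad S b w) (hw : w ∉ B) (hz : z ∉ B) (ht : t ∉ B) (hwz : ad S w z)
    (hzt : ad S z t) (htw : t ≠ w) (hb' : b' ∈ B) (htb : ad S t b') :
    ∃ P : Finset (Fin n), (∀ x ∈ P, x ∉ B) ∧ P.card ≤ 3 ∧ w ∈ P ∪ B ∧
      ∀ x ∈ P, 2 ≤ (nb S x ∩ (P ∪ B)).card := by
  refine ⟨{w, z, t}, ?_, ?_, ?_, ?_⟩
  · intro x hx
    rw [mem_insert, mem_insert, mem_singleton] at hx
    rcases hx with rfl | rfl | rfl
    · exact hw
    · exact hz
    · exact ht
  · exact Finset.card_le_three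
  · exact mem_union_left _ (mem_insert_self _ _)
  · intro x hx
    rw [mem_insert, mem_insert, mem_singleton] at hx
    rcases hx with rfl | rfl | rfl
    · refine rb_two (a := b) (a' := z) (ad_symm hbw) hwz ?_ (mem_union_right _ hb)
        (mem_union_left _ (mem_insert_of_mem (mem_insert_self _ _)))
      rintro rfl
      exact hz hb
    · exact rb_two (a := t) (a' := w) hzt (ad_symm hwz) htw
        (mem_union_left _ (mem_insert_of_mem (mem_insert_of_mem (mem_singleton_self _))))
        (mem_union_left _ (mem_insert_self _ _))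
    · refine rb_two (a := z) (a' := b') (ad_symm hzt) htb ?_
        (mem_union_left _ (mem_insert_of_mem (mem_insert_self _ _))) (mem_union_right _ hb')
      rintro rfl
      exact hz hb'

private lemma rb_path {S : Finset (Sym2 (Fin n))} {B : Finset (Fin n)} {b w : Fin n}
    (hb : b ∈ B) (hbw : ad S b w) (h : blk S B b w) :
    ∃ P : Finset (Fin n), (∀ x ∈ P, x ∉ B) ∧ P.card ≤ 3 ∧ w ∈ P ∪ B ∧
      ∀ x ∈ P, 2 ≤ (nb S x ∩ (P ∪ B)).card := by
  by_cases hw : w ∈ B
  · exact ⟨∅, fun x hx => absurd hx (notMem_empty x), by simp, mem_union_right _ hw,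
      fun x hx => absurd hx (notMem_empty x)⟩
  by_cases h1 : ∃ c ∈ B, c ≠ b ∧ ad S w c
  · obtain ⟨c, hc, hcb, hwc⟩ := h1
    refine ⟨{w}, ?_, ?_, ?_, ?_⟩
    · intro x hx
      rw [mem_singleton] at hx
      rw [hx]
      exact hw
    · rw [card_singleton]
      omega
    · exact mem_union_left _ (mem_singleton_self _)
    · intro x hx
      rw [mem_singleton] at hx
      subst hx
      exact rb_two (a := b) (a' := c) (ad_symm hbw) hwc hcb.symm (mem_union_right _ hb)
        (mem_union_right _ hc)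
  have h2 : ∀ c ∈ B, c ≠ b → ¬ ad S w c := fun c hc hcb hwc => h1 ⟨c, hc, hcb, hwc⟩
  obtain ⟨z, t, b', hb', hb'b, hzb, htb, hz, ht, hbt⟩ := h
  rw [mem_cl] at hz ht hbt
  rcases hz with rfl | hz
  · rcases ht with rfl | ht
    · rcases hbt with rfl | hbt
      · exact absurd hb' hw
      · exact absurd hbt (h2 _ hb' hb'b)
    · rcases hbt with rfl | hbt
      · exact absurd ht (h2 _ hb' hb'b)
      · have htB : t ∉ B := fun h3 => h2 t h3 htb ht
        exact rb_case2 hb hbw hw htB ht hb' hbt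
  · have hzB : z ∉ B := fun h3 => h2 z h3 hzb hz
    rcases ht with rfl | ht
    · rcases hbt with rfl | hbt
      · exact absurd hb' hzB
      · exact rb_case2 hb hbw hw hzB hz hb' hbt
    · by_cases htB : t ∈ B
      · exact rb_case2 hb hbw hw hzB hz htB ht
      · rcases hbt with rfl | hbt
        · exact absurd hb' htB
        · by_cases htw : t = w
          · subst htw
            exact absurd hbt (h2 _ hb' hb'b)
          · exact rb_case3 hb hbw hw hzB htB hz ht htw hb' hbt

open Classical in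
/-- In a locally sparse graph every nonempty set `B` of vertices of degree at least three contains
a vertex with at most two blocked neighbours.

Otherwise choose three blocked neighbours `w` for every `b ∈ B`, and for each of them a shortest
walk: there is a set `P(b, w) ⊆ Bᶜ` with at most three elements, such that all its elements have at
least two neighbours in `P(b, w) ∪ B`, and `w ∈ P(b, w) ∪ B`:
* `w ∈ B`: `P = ∅`; * `w ∉ B`, `w` adjacent to some `b' ∈ B`, `b' ≠ b`: `P = {w}`;
* `w ∉ B`, not of the previous kind, adjacent to some `z ≠ b` (so `z ∉ B`) which is adjacent to some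
  `b' ∈ B`, `b' ≠ b`: `P = {w, z}`;
* otherwise `w`, `z`, `t` distinct, outside `B`, `w ~ z ~ t ~ b'`: `P = {w, z, t}`.
Let `Y = B ∪ ⋃ P(b, w)`. Then `|Y| ≤ 10 |B|`, every `b ∈ B` has at least three neighbours in `Y`,
every other vertex of `Y` at least two, so `ee S Y Y ≥ 2 |Y| + |B| ≥ (21 / 10) |Y|`. -/
theorem few_blocked (S : Finset (Sym2 (Fin n))) (B : Finset (Fin n)) (hne : B.Nonempty)
    (hdeg : ∀ b ∈ B, 3 ≤ (nb S b).card)
    (hsp : ∀ Y : Finset (Fin n), Y.Nonempty → Y.card ≤ 10 * B.card →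
      10 * ee S Y Y < 21 * Y.card) :
    ∃ b ∈ B, ((nb S b).filter (fun w => blk S B b w)).card ≤ 2 := by
  by_contra hcon
  push Not at hcon
  have hW : ∀ b : Fin n, ∃ W : Finset (Fin n), b ∈ B →
      (W ⊆ (nb S b).filter (fun w => blk S B b w) ∧ W.card = 3) := by
    intro b
    by_cases hb : b ∈ B
    · obtain ⟨W, h1, h2⟩ := Finset.exists_subset_card_eq
        (show 3 ≤ ((nb S b).filter (fun w => blk S B b w)).card from hcon b hb)
      exact ⟨W, fun _ => ⟨h1, h2⟩⟩
    · exact ⟨∅, fun h => absurd h hb⟩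
  choose W hW using hW
  have hP : ∀ b w : Fin n, ∃ P : Finset (Fin n), (b ∈ B → w ∈ W b →
      ((∀ x ∈ P, x ∉ B) ∧ P.card ≤ 3 ∧ w ∈ P ∪ B ∧
        ∀ x ∈ P, 2 ≤ (nb S x ∩ (P ∪ B)).card)) := by
    intro b w
    by_cases hb : b ∈ B
    · by_cases hw : w ∈ W b
      · have h1 := mem_filter.1 ((hW b hb).1 hw)
        obtain ⟨P, hP⟩ := rb_path hb (mem_nb.1 h1.1) h1.2
        exact ⟨P, fun _ _ => hP⟩
      · exact ⟨∅, fun _ h => absurd h hw⟩
    · exact ⟨∅, fun h => absurd h hb⟩
  choose P hP using hP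
  set Y : Finset (Fin n) := B ∪ B.biUnion (fun b => (W b).biUnion (fun w => P b w)) with hY
  have hPY : ∀ b ∈ B, ∀ w ∈ W b, P b w ∪ B ⊆ Y := by
    intro b hb w hw x hx
    rw [mem_union] at hx
    rw [hY, mem_union]
    rcases hx with hx | hx
    · right
      exact mem_biUnion.2 ⟨b, hb, mem_biUnion.2 ⟨w, hw, hx⟩⟩
    · left
      exact hx
  have hBY : B ⊆ Y := subset_union_left
  have hcard : Y.card ≤ 10 * B.card := by
    have h1 : (B.biUnion (fun b => (W b).biUnion (fun w => P b w))).card ≤ B.card * 9 := by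
      apply Finset.card_biUnion_le_card_mul
      intro b hb
      have h2 : ((W b).biUnion (fun w => P b w)).card ≤ (W b).card * 3 := by
        apply Finset.card_biUnion_le_card_mul
        intro w hw
        exact (hP b w hb hw).2.1
      rw [(hW b hb).2] at h2
      exact h2
    have h3 : Y.card ≤ B.card +
        (B.biUnion (fun b => (W b).biUnion (fun w => P b w))).card := card_union_le _ _
    omega
  have hdB : ∀ x ∈ B, 3 ≤ (nb S x ∩ Y).card := by
    intro x hx
    rw [← (hW x hx).2]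
    apply card_le_card
    intro w hw
    have h1 := mem_filter.1 ((hW x hx).1 hw)
    rw [mem_inter]
    exact ⟨h1.1, hPY x hx w hw (hP x w hx hw).2.2.1⟩
  have hdY : ∀ x ∈ Y, 2 ≤ (nb S x ∩ Y).card := by
    intro x hx
    rw [hY, mem_union] at hx
    rcases hx with hx | hx
    · have := hdB x hx
      omega
    · obtain ⟨b, hb, hx⟩ := mem_biUnion.1 hx
      obtain ⟨w, hw, hx⟩ := mem_biUnion.1 hx
      have h1 := (hP b w hb hw).2.2.2 x hx
      exact h1.trans (card_le_card (inter_subset_inter_left (hPY b hb w hw)))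
  have hee : 2 * Y.card + B.card ≤ ee S Y Y := by
    rw [ee_eq_sum]
    have h1 : ∑ x ∈ Y, (nb S x ∩ Y).card =
        ∑ x ∈ Y \ B, (nb S x ∩ Y).card + ∑ x ∈ B, (nb S x ∩ Y).card :=
      (Finset.sum_sdiff hBY).symm
    have h2 : (Y \ B).card * 2 ≤ ∑ x ∈ Y \ B, (nb S x ∩ Y).card := by
      rw [← smul_eq_mul]
      apply Finset.card_nsmul_le_sum
      intro x hx
      exact hdY x (mem_sdiff.1 hx).1
    have h3 : B.card * 3 ≤ ∑ x ∈ B, (nb S x ∩ Y).card := by
      rw [← smul_eq_mul]
      apply Finset.card_nsmul_le_sum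
      intro x hx
      exact hdB x hx
    have h4 : (Y \ B).card + B.card = Y.card := Finset.card_sdiff_add_card_eq_card hBY
    omega
  have h5 := hsp Y (hne.mono hBY) hcard
  omega

end Pool.Agent.CFX
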