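import Pool.Agent.CFX.Props

/-! RC1: recolouring a set `T` by one new colour -/

namespace Pool.Agent.CFX

open Finset Pool.Agent.MD437 Pool.Agent.CFC

variable {n m u : ℕ}

/-- Colour `T` by the new colour. A defect sees the new colour exactly once. A vertex of `X`
which is not a defect and sees `T` sees the new colour exactly once; if it does not see `T`
nothing has changed. A vertex outside `X` has at least `K + 1` unique colours, at most `K` of them
are destroyed (every vertex of `T` in the closed neighbourhood destroys at most one: its old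
colour; the other changes only remove vertices from the other classes, so a unique colour whose
witness is not in `T` stays unique). -/
theorem recolour (S : Finset (Sym2 (Fin n))) (c : Fin n → Fin u) (K : ℕ) (T X : Finset (Fin n))
    (hX : fr S (full c) K ⊆ X) (h1 : ∀ b ∈ bad S (full c), (cl S b ∩ T).card = 1)
    (h2 : ∀ z ∈ X, (cl S z ∩ T).card ≤ 1) (h3 : ∀ z ∉ X, (cl S z ∩ T).card ≤ K) :
    ∃ c' : Fin n → Fin (u + 1), IsCF (gr S) c' := by
  obtain ⟨c', hc'⟩ : ∃ c' : Fin n → Fin (u + 1), ∀ y,
      c' y = if y ∈ T then Fin.last u else (c y).castSucc := ⟨_, fun _ => rfl⟩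
  have hT : cls (full c') (Fin.last u) = T := by
    ext y
    rw [mem_cls, full, hc']
    by_cases hy : y ∈ T
    · simp [hy]
    · rw [if_neg hy]
      simp only [Option.some.injEq, hy, iff_false]
      exact (Fin.castSucc_lt_last _).ne
  have hj : ∀ j : Fin u, cls (full c') j.castSucc = cls (full c) j \ T := by
    intro j
    ext y
    rw [mem_cls, mem_sdiff, mem_cls, full, full, hc']
    by_cases hy : y ∈ T
    · rw [if_pos hy]
      simp only [Option.some.injEq, hy, not_true_eq_false, and_false, iff_false]
      exact (Fin.castSucc_lt_last _).ne'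
    · rw [if_neg hy]
      simp only [Option.some.injEq, hy, not_false_eq_true, and_true]
      exact ⟨fun h => Fin.castSucc_injective u h, fun h => by rw [h]⟩
  refine ⟨c', (isCF_iff S c').2 ?_⟩
  rw [eq_empty_iff_forall_notMem]
  intro x hx
  rw [mem_bad] at hx
  have hno : ∀ j, (cl S x ∩ cls (full c') j).card ≠ 1 := fun j h => by
    have h4 : j ∈ uq S (full c') x := mem_uq.2 h
    rw [hx] at h4
    exact notMem_empty _ h4
  have hT1 : (cl S x ∩ T).card ≠ 1 := by
    have := hno (Fin.last u)
    rwa [hT] at this
  by_cases hxb : x ∈ bad S (full c)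
  · exact hT1 (h1 x hxb)
  · by_cases hxX : x ∈ X
    · have h4 := h2 x hxX
      have h5 : cl S x ∩ T = ∅ := by
        rw [← card_eq_zero]
        omega
      rw [mem_bad] at hxb
      obtain ⟨j, hju⟩ := nonempty_iff_ne_empty.2 hxb
      rw [mem_uq] at hju
      apply hno j.castSucc
      rw [hj, ← hju]
      congr 1
      ext y
      simp only [mem_inter, mem_sdiff]
      constructor
      · rintro ⟨h6, h7, _⟩
        exact ⟨h6, h7⟩
      · rintro ⟨h6, h7⟩
        refine ⟨h6, h7, fun h8 => ?_⟩
        have h9 : y ∈ cl S x ∩ T := mem_inter.2 ⟨h6, h8⟩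
        rw [h5] at h9
        exact notMem_empty _ h9
    · have h4 := h3 x hxX
      have h5 : ¬ (uq S (full c) x).card ≤ K := fun h => hxX (hX (mem_fr.2 h))
      apply h5
      refine (card_le_card (?_ : uq S (full c) x ⊆ (cl S x ∩ T).image c)).trans
        (card_image_le.trans h4)
      intro j hju
      rw [mem_uq] at hju
      by_contra hnot
      apply hno j.castSucc
      rw [hj, ← hju]
      congr 1
      ext y
      simp only [mem_inter, mem_sdiff]
      constructor
      · rintro ⟨h6, h7, _⟩
        exact ⟨h6, h7⟩
      · rintro ⟨h6, h7⟩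
        refine ⟨h6, h7, fun h8 => hnot ?_⟩
        rw [mem_image]
        refine ⟨y, mem_inter.2 ⟨h6, h8⟩, ?_⟩
        rw [mem_cls, full] at h7
        exact Option.some.inj h7

end Pool.Agent.CFX
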