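import Pool.Agent.CFX.Props

/-! RC2: shrinking the classes to sets of witnesses -/

namespace Pool.Agent.CFX

open Finset Pool.Agent.MD437 Pool.Agent.CFC

variable {n m u : ℕ}

/-- The classes of a conflict-free colouring with `m + 1` colours, without the largest one, can be
shrunk to their sets of witnesses.

Let `j₀` be a colour with the largest class, so `n ≤ (m + 1) |C_{j₀}|`. For `i : Fin m` let
`C = {y : c y = j₀.succAbove i}` and let the new class `i` be the set of all `y ∈ C` such that
`cl S x ∩ C = {y}` for some `x`. If `b ≤ |C|` its size is at most `|see1 S C| ≤ b` (`hb`),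
otherwise at most `|C| ≤ b`. If `x` sees `C` exactly once then `x` sees the new class `i` exactly
once. So a defect of the new system sees only the colour `j₀` exactly once:
`bad S c' ⊆ see1 S C_{j₀}`. -/
theorem shrink (S : Finset (Sym2 (Fin n))) (c : Fin n → Fin (m + 1)) (hc : IsCF (gr S) c)
    {b D : ℝ} (hb : ∀ C : Finset (Fin n), b ≤ C.card → ((see1 S C).card : ℝ) ≤ b)
    (hD : ∀ C : Finset (Fin n), n ≤ (m + 1) * C.card → ((see1 S C).card : ℝ) ≤ D) :
    ∃ c' ∈ Sys n m b, ((bad S c').card : ℝ) ≤ D := by
  classical
  let C : Fin (m + 1) → Finset (Fin n) := fun j => univ.filter (fun y => c y = j)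
  have hmC : ∀ j y, y ∈ C j ↔ c y = j := by intro j y; simp [C]
  have hcls : ∀ j, cls (full c) j = C j := by
    intro j
    ext y
    rw [mem_cls, hmC]
    simp [full]
  -- the largest class
  obtain ⟨j₀, -, hj₀⟩ := exists_max_image (univ : Finset (Fin (m + 1))) (fun j => (C j).card)
    univ_nonempty
  have hn : n ≤ (m + 1) * (C j₀).card := by
    have h1 : (univ : Finset (Fin n)).card = ∑ j : Fin (m + 1), (C j).card := by
      exact card_eq_sum_card_fiberwise (f := c) (t := univ) (fun y _ => mem_univ _)
    rw [card_univ, Fintype.card_fin] at h1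
    calc n = ∑ j : Fin (m + 1), (C j).card := h1
      _ ≤ ∑ _j : Fin (m + 1), (C j₀).card := sum_le_sum (fun j _ => hj₀ j (mem_univ j))
      _ = (m + 1) * (C j₀).card := by simp
  let c' : Fin n → Option (Fin m) := fun y =>
    if (∃ x, cl S x ∩ C (c y) = {y}) then finSuccEquiv' j₀ (c y) else none
  have hmW : ∀ i y, y ∈ cls c' i ↔
      c y = j₀.succAbove i ∧ ∃ x, cl S x ∩ C (j₀.succAbove i) = {y} := by
    intro i y
    rw [mem_cls]
    constructor
    · intro h
      by_cases hx : ∃ x, cl S x ∩ C (c y) = {y}
      · have h2 : c' y = finSuccEquiv' j₀ (c y) := if_pos hx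
        rw [h2] at h
        have h3 : c y = j₀.succAbove i := by
          have := congrArg (finSuccEquiv' j₀).symm h
          rw [Equiv.symm_apply_apply, finSuccEquiv'_symm_some] at this
          exact this
        exact ⟨h3, h3 ▸ hx⟩
      · have h2 : c' y = none := if_neg hx
        rw [h2] at h
        exact absurd h (by simp)
    · rintro ⟨h1, h2⟩
      have h3 : c' y = finSuccEquiv' j₀ (c y) := by
        refine if_pos ?_
        rw [h1]
        exact h2
      rw [h3, h1, finSuccEquiv'_succAbove]
  refine ⟨c', ?_, ?_⟩
  · rw [mem_Sys]
    intro i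
    have hsub : cls c' i ⊆ C (j₀.succAbove i) := by
      intro y hy
      rw [hmC]
      exact ((hmW i y).1 hy).1
    rcases le_or_gt b ((C (j₀.succAbove i)).card : ℝ) with hbC | hbC
    · refine le_trans ?_ (hb _ hbC)
      have : (cls c' i).card ≤ (see1 S (C (j₀.succAbove i))).card := by
        have hch : ∀ y, y ∈ cls c' i → ∃ x, cl S x ∩ C (j₀.succAbove i) = {y} :=
          fun y hy => ((hmW i y).1 hy).2
        refine card_le_card_of_injOn
          (fun y => if h : y ∈ cls c' i then (hch y h).choose else y) ?_ ?_
        · intro y hy
          have hy' : y ∈ cls c' i := hy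
          simp only [dif_pos hy']
          have := (hch y hy').choose_spec
          simp only [see1, coe_filter, mem_univ, true_and, Set.mem_ofPred_eq]
          rw [this, card_singleton]
        · intro y hy z hz hyz
          have hy' : y ∈ cls c' i := hy
          have hz' : z ∈ cls c' i := hz
          simp only [dif_pos hy', dif_pos hz'] at hyz
          have h1 := (hch y hy').choose_spec
          have h2 := (hch z hz').choose_spec
          rw [hyz, h2] at h1
          exact (singleton_injective h1).symm
      exact_mod_cast this
    · refine le_trans ?_ hbC.le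
      exact_mod_cast card_le_card hsub
  · refine le_trans ?_ (hD (C j₀) hn)
    have : bad S c' ⊆ see1 S (C j₀) := by
      intro x hx
      rw [mem_bad] at hx
      have hcf := (isCF_iff S c).1 hc
      have hx2 : x ∉ bad S (full c) := by rw [hcf]; exact notMem_empty _
      rw [mem_bad] at hx2
      obtain ⟨j, hj⟩ := nonempty_iff_ne_empty.2 hx2
      rw [mem_uq, hcls] at hj
      by_cases hjj : j = j₀
      · subst hjj
        simp only [see1, mem_filter, mem_univ, true_and]
        exact hj
      · exfalso
        obtain ⟨i, hi⟩ := Fin.exists_succAbove_eq hjj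
        rw [card_eq_one] at hj
        obtain ⟨y, hy⟩ := hj
        have hyC : y ∈ cl S x ∩ C j := by rw [hy]; exact mem_singleton_self y
        rw [mem_inter, hmC] at hyC
        have hiu : i ∈ uq S c' x := by
          rw [mem_uq, card_eq_one]
          refine ⟨y, ?_⟩
          ext z
          rw [mem_inter, mem_singleton, hmW]
          constructor
          · rintro ⟨h1, h2, -⟩
            have : z ∈ cl S x ∩ C j := by
              rw [mem_inter, hmC]
              exact ⟨h1, h2.trans hi⟩
            rw [hy, mem_singleton] at this
            exact this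
          · rintro rfl
            refine ⟨hyC.1, ?_, x, ?_⟩
            · rw [hyC.2, hi]
            · rw [hi]; exact hy
        rw [hx] at hiu
        exact absurd hiu (notMem_empty _)
    exact_mod_cast card_le_card this

end Pool.Agent.CFX
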