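import Pool.Agent.CFX.RB

/-! RD: sparse regime: the set `T` -/

namespace Pool.Agent.CFX

open Finset Pool.Agent.MD437 Pool.Agent.CFC

variable {n m u : ℕ}

private lemma rd_aux (S : Finset (Sym2 (Fin n))) (k : ℕ) :
    ∀ B : Finset (Fin n), B.card = k →
    (∀ b ∈ B, 3 ≤ (nb S b).card) →
    (∀ Y : Finset (Fin n), Y.Nonempty → Y.card ≤ 10 * B.card → 10 * ee S Y Y < 21 * Y.card) →
    ∃ T : Finset (Fin n), (∀ b ∈ B, (cl S b ∩ T).card = 1) ∧ (∀ z, (cl S z ∩ T).card ≤ 1) ∧
      ∀ t ∈ T, ∃ b ∈ B, ad S b t := by
  classical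
  induction k with
  | zero =>
    intro B hB _ _
    rw [card_eq_zero] at hB
    subst hB
    exact ⟨∅, by simp, by simp, by simp⟩
  | succ k ih =>
    intro B hB hdeg hsp
    have hne : B.Nonempty := by
      rw [← card_pos, hB]
      exact Nat.succ_pos k
    obtain ⟨b, hb, hfew⟩ := few_blocked S B hne hdeg hsp
    have hcard : (B.erase b).card = k := by
      rw [card_erase_of_mem hb, hB]
      rfl
    obtain ⟨T', h1, h2, h3⟩ := ih (B.erase b) hcard
      (fun b' hb' => hdeg b' (mem_of_mem_erase hb'))
      (fun Y hY hc => hsp Y hY (hc.trans (by rw [hcard, hB]; omega)))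
    by_cases hmeet : (cl S b ∩ T').Nonempty
    · refine ⟨T', fun b' hb' => ?_, h2, fun t ht => ?_⟩
      · by_cases hbb : b' = b
        · subst hbb
          have := card_pos.2 hmeet
          have := h2 b'
          omega
        · exact h1 b' (mem_erase.2 ⟨hbb, hb'⟩)
      · obtain ⟨b', hb', had⟩ := h3 t ht
        exact ⟨b', mem_of_mem_erase hb', had⟩
    · rw [not_nonempty_iff_eq_empty] at hmeet
      have hno : ∀ t ∈ T', t ∉ cl S b := by
        intro t ht hc
        have : t ∈ cl S b ∩ T' := mem_inter.2 ⟨hc, ht⟩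
        rw [hmeet] at this
        exact notMem_empty _ this
      obtain ⟨w, hw, hnb⟩ : ∃ w ∈ nb S b, ¬ blk S B b w := by
        by_contra hcon
        push Not at hcon
        have : (nb S b).filter (fun w => blk S B b w) = nb S b := filter_true_of_mem hcon
        have h4 := hdeg b hb
        have h5 : ((nb S b).filter (fun w => blk S B b w)).card = (nb S b).card := by rw [this]
        have h6 : ((nb S b).filter (fun w => blk S B b w)).card ≤ 2 := by convert hfew
        omega
      have hwb : w ∈ cl S b := nb_sub_cl S b hw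
      have key : ∀ z, w ∈ cl S z → cl S z ∩ T' = ∅ := by
        intro z hz
        rw [eq_empty_iff_forall_notMem]
        intro t ht
        rw [mem_inter] at ht
        obtain ⟨b', hb', had⟩ := h3 t ht.2
        rw [mem_erase] at hb'
        apply hnb
        refine ⟨z, t, b', hb'.2, hb'.1, ?_, ?_, mem_cl_comm.1 hz, ht.1, ?_⟩
        · rintro rfl
          exact hno t ht.2 ht.1
        · rintro rfl
          exact hno t ht.2 (self_mem_cl S t)
        · rw [mem_cl]
          exact Or.inr (ad_symm had)
      have hone : ∀ z, w ∈ cl S z → cl S z ∩ insert w T' = {w} := by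
        intro z hz
        rw [inter_insert_of_mem hz, key z hz]
        rfl
      refine ⟨insert w T', fun b' hb' => ?_, fun z => ?_, fun t ht => ?_⟩
      · by_cases hbb : b' = b
        · subst hbb
          rw [hone b' hwb, card_singleton]
        · have h4 := h1 b' (mem_erase.2 ⟨hbb, hb'⟩)
          have h5 : w ∉ cl S b' := by
            intro hc
            rw [key b' hc, card_empty] at h4
            omega
          rw [inter_insert_of_notMem h5]
          exact h4
      · by_cases hz : w ∈ cl S z
        · rw [hone z hz, card_singleton]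
        · rw [inter_insert_of_notMem hz]
          exact h2 z
      · rw [mem_insert] at ht
        rcases ht with rfl | ht
        · exact ⟨b, hb, mem_nb.1 hw⟩
        · obtain ⟨b', hb', had⟩ := h3 t ht
          exact ⟨b', mem_of_mem_erase hb', had⟩

/-- Induction on `|B|`: claim with the additional property that every `t ∈ T` is adjacent to an
element of `B`. Take `b` from `few_blocked`, `T'` for `B.erase b`. If `N[b]` meets `T'` (then in
exactly one vertex, since `b` is seen at most once) take `T = T'`. Otherwise let `w ∈ N(b)` be a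
neighbour which is not blocked for `b`, `B`, and `T = insert w T'`. If `z ∈ N[w] ∩ N[t]`, `t ∈ T'`,
`t` adjacent to `b' ∈ B.erase b`, then `z ≠ b` and `t ≠ b` (as `N[b] ∩ T' = ∅`), so `w, z, t, b'`
shows that `w` is blocked, a contradiction. So every vertex is still seen at most once; and `w` is
not in `N[b']` for `b' ∈ B.erase b`. -/
theorem sparse_T (S : Finset (Sym2 (Fin n))) (B : Finset (Fin n))
    (hdeg : ∀ b ∈ B, 3 ≤ (nb S b).card)
    (hsp : ∀ Y : Finset (Fin n), Y.Nonempty → Y.card ≤ 10 * B.card →
      10 * ee S Y Y < 21 * Y.card) :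
    ∃ T : Finset (Fin n), (∀ b ∈ B, (cl S b ∩ T).card = 1) ∧ ∀ z, (cl S z ∩ T).card ≤ 1 := by
  obtain ⟨T, h1, h2, -⟩ := rd_aux S B.card B rfl hdeg hsp
  exact ⟨T, h1, h2⟩

end Pool.Agent.CFX
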