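import Pool.Agent.CFX.RA
import Pool.Agent.CFX.RD
import Pool.Agent.CFX.RC1

/-! RE: sparse regime: the patch -/

namespace Pool.Agent.CFX

open Finset Pool.Agent.MD437 Pool.Agent.CFC

variable {n m u : ℕ}

/-- `shift`, `sparse_T`, `recolour` (with `X = univ`, `K = 0`). -/
theorem sparse_patch (S : Finset (Sym2 (Fin n))) (hu : 2 ≤ u) (c : Fin n → Fin u)
    (hsp : ∀ Y : Finset (Fin n), Y.Nonempty → Y.card ≤ 20 * (bad S (full c)).card →
      10 * ee S Y Y < 21 * Y.card) :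
    ∃ c' : Fin n → Fin (u + 1), IsCF (gr S) c' := by
  obtain ⟨c₁, h1, h2⟩ := shift S hu c
  obtain ⟨T, hT1, hT2⟩ := sparse_T S (bad S (full c₁)) h2
    (fun Y hY hc => hsp Y hY (by omega))
  exact recolour S c₁ 0 T univ (subset_univ _) hT1 (fun z _ => hT2 z)
    (fun z hz => absurd (mem_univ z) hz)

end Pool.Agent.CFX
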