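import Pool.Agent.CFX.Props

/-! SR: small sets span few edges -/

namespace Pool.Agent.CFX

open Finset Pool.Agent.MD437 Pool.Agent.CFC

variable {n : ℕ}

private lemma sr_sub {ι : Type*} [DecidableEq ι] (p : ℝ) {A F : Finset ι} (hF : F ⊆ A) :
    pr p A (fun S => F ⊆ S) = p ^ F.card := by
  classical
  have h := pr_blocks p F (fun i => ({i} : Finset ι)) (fun i _ j _ hij => by simpa using hij) A
    (fun i hi => by simpa using hF hi) (fun i T => i ∈ T)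
  have h2 : ∀ i ∈ F, pr p ({i} : Finset ι) (fun T => i ∈ T) = p := fun i _ => by
    rw [pr_def]
    exact ex_mem p (mem_singleton_self i)
  rw [prod_congr rfl h2, prod_const] at h
  rw [← h]
  refine pr_congr p fun S _ => ?_
  constructor
  · intro hFS i hi
    exact mem_inter.2 ⟨hFS hi, mem_singleton_self i⟩
  · intro h i hi
    exact (mem_inter.1 (h i hi)).1

private lemma sr_ee (S : Finset (Sym2 (Fin n))) (Y : Finset (Fin n)) :
    ee S Y Y ≤ 2 * (S ∩ prs Y).card := by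
  unfold ee
  refine (card_le_mul_card_image (f := fun q : Fin n × Fin n => s(q.1, q.2))
    ((Y ×ˢ Y).filter (fun q => ad S q.1 q.2)) 2 ?_).trans
    (Nat.mul_le_mul_left 2 (card_le_card ?_))
  · intro e he
    obtain ⟨q, -, rfl⟩ := mem_image.1 he
    have hsub : ((Y ×ˢ Y).filter (fun q => ad S q.1 q.2)).filter
        (fun x => s(x.1, x.2) = s(q.1, q.2)) ⊆ {(q.1, q.2), (q.2, q.1)} := by
      intro x hx
      rw [mem_filter] at hx
      rw [mem_insert, mem_singleton]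
      rcases Sym2.eq_iff.1 hx.2 with h | h
      · exact Or.inl (Prod.ext h.1 h.2)
      · exact Or.inr (Prod.ext h.1 h.2)
    exact (card_le_card hsub).trans card_le_two
  · intro e he
    obtain ⟨q, hq, rfl⟩ := mem_image.1 he
    rw [mem_filter, mem_product] at hq
    rw [mem_inter, mem_prs]
    exact ⟨hq.2.2, hq.1.1, hq.1.2, hq.2.1⟩

private lemma sr_choose (N k : ℕ) (hk : 1 ≤ k) : (N.choose k : ℝ) ≤ (3 * N / k) ^ k := by
  have hk0 : (0 : ℝ) < k := by exact_mod_cast hk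
  have h1 : (N.choose k : ℝ) ≤ (N : ℝ) ^ k / (k.factorial : ℝ) := Nat.choose_le_pow_div k N
  have h2 : (k : ℝ) ^ k / (k.factorial : ℝ) ≤ 3 ^ k := by
    have h3 := Real.pow_div_factorial_le_exp (k : ℝ) hk0.le k
    have h4 : Real.exp (k : ℝ) = Real.exp 1 ^ k := by rw [← Real.exp_nat_mul, mul_one]
    rw [h4] at h3
    refine h3.trans (pow_le_pow_left₀ (Real.exp_pos _).le ?_ k)
    exact Real.exp_one_lt_d9.le.trans (by norm_num)
  refine h1.trans ?_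
  have hf : (0 : ℝ) < (k.factorial : ℝ) := by exact_mod_cast Nat.factorial_pos k
  have hkk : (0 : ℝ) < (k : ℝ) ^ k := pow_pos hk0 k
  rw [div_pow, mul_pow, div_le_div_iff₀ hf hkk]
  rw [div_le_iff₀ hf] at h2
  have := mul_le_mul_of_nonneg_left h2 (pow_nonneg (Nat.cast_nonneg N) k : (0 : ℝ) ≤ (N : ℝ) ^ k)
  linarith

private lemma sr_term {p ρ : ℝ} (hp0 : 0 ≤ p) (hρ : 0 < ρ) (hρ1 : ρ ≤ 1 / 2) {y0 y : ℕ}
    (h : 10 ^ 20 * (n : ℝ) ^ 20 * y0 * p ^ 21 ≤ ρ ^ 20) (hy : 1 ≤ y) (hy0 : y ≤ y0) {k : ℕ}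
    (hk : 21 * y ≤ 20 * k) :
    (n.choose y : ℝ) * (((y.choose 2).choose k : ℝ) * p ^ k) ≤ ρ ^ y := by
  rcases Nat.lt_or_ge n y with hn | hn
  · rw [Nat.choose_eq_zero_of_lt hn]
    simp only [Nat.cast_zero, zero_mul]
    positivity
  have hyr : (0 : ℝ) < y := by exact_mod_cast hy
  have hk1 : 1 ≤ k := by omega
  have hkr : (0 : ℝ) < k := by exact_mod_cast hk1
  have hky : (y : ℝ) ≤ k := by exact_mod_cast (show y ≤ k by omega)
  have hnr : (y : ℝ) ≤ n := by exact_mod_cast hn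
  have hy0r : (y : ℝ) ≤ y0 := by exact_mod_cast hy0
  obtain ⟨t, ht⟩ : ∃ t : ℝ, t = 3 * y * p / 2 := ⟨_, rfl⟩
  have ht0 : 0 ≤ t := by rw [ht]; positivity
  have ht1 : t ≤ 1 := by
    by_contra hcon
    rw [not_le] at hcon
    have h2 : (2 / 3 : ℝ) ≤ y * p := by rw [ht] at hcon; linarith
    have h3 : (2 / 3 : ℝ) ^ 21 ≤ (y * p) ^ 21 := pow_le_pow_left₀ (by norm_num) h2 21
    have h4 : (y * p) ^ 21 ≤ (n : ℝ) ^ 20 * y0 * p ^ 21 := by
      rw [mul_pow]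
      refine mul_le_mul_of_nonneg_right ?_ (by positivity)
      rw [pow_succ]
      exact mul_le_mul (pow_le_pow_left₀ hyr.le hnr 20) hy0r hyr.le (by positivity)
    have h5 : ρ ^ 20 ≤ 1 := pow_le_one₀ hρ.le (by linarith)
    have h6 : (10 : ℝ) ^ 20 * (2 / 3) ^ 21 ≤ 10 ^ 20 * (n : ℝ) ^ 20 * y0 * p ^ 21 := by
      have := mul_le_mul_of_nonneg_left (h3.trans h4) (show (0 : ℝ) ≤ 10 ^ 20 by norm_num)
      linarith
    have h7 : (1 : ℝ) < 10 ^ 20 * (2 / 3) ^ 21 := by norm_num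
    linarith
  have hA : (n.choose y : ℝ) ≤ (3 * n / y) ^ y := sr_choose n y hy
  have hM : ((y.choose 2 : ℕ) : ℝ) ≤ y ^ 2 / 2 := by
    rw [Nat.cast_choose_two]
    nlinarith
  have hBk : ((y.choose 2).choose k : ℝ) * p ^ k ≤ t ^ k := by
    have h2 := sr_choose (y.choose 2) k hk1
    have h3 : 3 * ((y.choose 2 : ℕ) : ℝ) / k ≤ 3 * y / 2 := by
      rw [div_le_iff₀ hkr]
      have h4 : (y : ℝ) ^ 2 / 2 ≤ y * k / 2 := by nlinarith
      nlinarith
    have h4 : (3 * ((y.choose 2 : ℕ) : ℝ) / k) ^ k ≤ (3 * y / 2) ^ k :=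
      pow_le_pow_left₀ (by positivity) h3 k
    have h5 := mul_le_mul_of_nonneg_right (h2.trans h4) (pow_nonneg hp0 k)
    rw [← mul_pow] at h5
    refine h5.trans (le_of_eq ?_)
    rw [ht]
    congr 1
    ring
  have hmain : (n.choose y : ℝ) * (((y.choose 2).choose k : ℝ) * p ^ k) ≤
      (3 * n / y) ^ y * t ^ k :=
    mul_le_mul hA hBk (by positivity) (by positivity)
  refine hmain.trans ?_
  rw [← pow_le_pow_iff_left₀ (by positivity) (by positivity) (show 20 ≠ 0 by norm_num)]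
  have e1 : ((3 * n / y : ℝ) ^ y * t ^ k) ^ 20 = ((3 * n / y : ℝ) ^ 20) ^ y * t ^ (20 * k) := by
    rw [mul_pow, ← pow_mul, ← pow_mul, ← pow_mul, mul_comm y 20, mul_comm k 20]
  have e2 : t ^ (20 * k) ≤ (t ^ 21) ^ y := by
    rw [← pow_mul]
    exact pow_le_pow_of_le_one ht0 ht1 hk
  have e3 : (3 * n / y : ℝ) ^ 20 * t ^ 21 ≤ ρ ^ 20 := by
    have e4 : (3 * n / y : ℝ) ^ 20 * t ^ 21 =
        (3 ^ 20 * (3 / 2) ^ 21) * ((n : ℝ) ^ 20 * y * p ^ 21) := by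
      rw [ht]
      field_simp
    rw [e4]
    have e5 : (n : ℝ) ^ 20 * y * p ^ 21 ≤ (n : ℝ) ^ 20 * y0 * p ^ 21 :=
      mul_le_mul_of_nonneg_right (mul_le_mul_of_nonneg_left hy0r (by positivity)) (by positivity)
    have e6 : (3 ^ 20 * (3 / 2) ^ 21 : ℝ) ≤ 10 ^ 20 := by norm_num
    have e7 : 0 ≤ (n : ℝ) ^ 20 * y * p ^ 21 := by positivity
    calc (3 ^ 20 * (3 / 2) ^ 21 : ℝ) * ((n : ℝ) ^ 20 * y * p ^ 21)
        ≤ 10 ^ 20 * ((n : ℝ) ^ 20 * y0 * p ^ 21) := mul_le_mul e6 e5 e7 (by norm_num)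
      _ = 10 ^ 20 * (n : ℝ) ^ 20 * y0 * p ^ 21 := by ring
      _ ≤ ρ ^ 20 := h
  calc ((3 * n / y : ℝ) ^ y * t ^ k) ^ 20 = ((3 * n / y : ℝ) ^ 20) ^ y * t ^ (20 * k) := e1
    _ ≤ ((3 * n / y : ℝ) ^ 20) ^ y * (t ^ 21) ^ y := mul_le_mul_of_nonneg_left e2 (by positivity)
    _ = ((3 * n / y : ℝ) ^ 20 * t ^ 21) ^ y := by rw [mul_pow]
    _ ≤ (ρ ^ 20) ^ y := pow_le_pow_left₀ (by positivity) e3 y
    _ = (ρ ^ y) ^ 20 := by rw [← pow_mul, ← pow_mul, mul_comm]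

/-- Union bound over the sets `Y` with `|Y| = y` and over the sets of exactly
`k = ⌈21 y / 20⌉` pairs inside `Y` (`10 ee ≥ 21 y` means at least `21 y / 20` edges):
`C(n, y) C(C(y,2), k) p^k ≤ (3 n / y)^y (3 y² p / (2 k))^k ≤ (3 n / y)^y (3 y p / 2)^k`, and
`(3 / 2) y p ≤ 1` (otherwise `4^20 n^20 y0 p^21 ≥ (4 y p)^20 (y0 p) > 1`, using `y ≤ n`,
`y ≤ y0`), so this is at most
`q_y^y` with `q_y^20 = (3 n / y)^20 (3 y p / 2)^21 = 3^20 (3/2)^21 n^20 y p^21`. The hypothesis is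
made so that `q_y ≤ ρ`: `3^20 (3/2)^21 ≤ 10^20`. The sum over `y ≥ 1` is at most
`ρ / (1 - ρ) ≤ 2 ρ`. (Use `k! ≥ (k / 3)^k`, i.e. `C(N, k) ≤ (3 N / k)^k`; if `y` vertices span
at least `21 y / 20` edges then `y ≥ 4`, not needed.) -/
theorem sparse_pr {p ρ : ℝ} (hp0 : 0 ≤ p) (hp1 : p ≤ 1) (hρ : 0 < ρ) (hρ1 : ρ ≤ 1 / 2) (y0 : ℕ)
    (h : 10 ^ 20 * (n : ℝ) ^ 20 * y0 * p ^ 21 ≤ ρ ^ 20) :
    pr p (E n) (fun S => ∃ Y : Finset (Fin n), Y.Nonempty ∧ Y.card ≤ y0 ∧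
      21 * Y.card ≤ 10 * ee S Y Y) ≤ 2 * ρ := by
  classical
  have hev : pr p (E n) (fun S => ∃ Y : Finset (Fin n), Y.Nonempty ∧ Y.card ≤ y0 ∧
      21 * Y.card ≤ 10 * ee S Y Y) ≤ pr p (E n) (fun S => ∃ i ∈ Finset.range y0,
        ∃ Y ∈ powersetCard (i + 1) (univ : Finset (Fin n)),
          ∃ R ∈ powersetCard ((21 * (i + 1) + 19) / 20) (prs Y), R ⊆ S) := by
    refine pr_mono hp0 hp1 fun S _ hS => ?_
    obtain ⟨Y, hY, hY0, hYe⟩ := hS
    have hYc := card_pos.2 hY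
    refine ⟨Y.card - 1, Finset.mem_range.2 (by omega), Y, ?_, ?_⟩
    · rw [mem_powersetCard]
      exact ⟨subset_univ _, by omega⟩
    · have h2 := sr_ee S Y
      have h3 : (21 * (Y.card - 1 + 1) + 19) / 20 ≤ (S ∩ prs Y).card := by omega
      obtain ⟨R, hR, hRc⟩ := exists_subset_card_eq h3
      refine ⟨R, ?_, hR.trans inter_subset_left⟩
      rw [mem_powersetCard]
      exact ⟨hR.trans inter_subset_right, hRc⟩
  refine hev.trans ?_
  refine (pr_union hp0 hp1 (E n) (Finset.range y0) _).trans ?_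
  have hterm : ∀ i ∈ Finset.range y0, pr p (E n) (fun S =>
        ∃ Y ∈ powersetCard (i + 1) (univ : Finset (Fin n)),
          ∃ R ∈ powersetCard ((21 * (i + 1) + 19) / 20) (prs Y), R ⊆ S) ≤
      ρ * (1 / 2 : ℝ) ^ i := by
    intro i hi
    rw [Finset.mem_range] at hi
    refine (pr_union hp0 hp1 (E n) _ _).trans ?_
    have h2 : ∀ Y ∈ powersetCard (i + 1) (univ : Finset (Fin n)), pr p (E n) (fun S =>
        ∃ R ∈ powersetCard ((21 * (i + 1) + 19) / 20) (prs Y), R ⊆ S) ≤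
        (((i + 1).choose 2).choose ((21 * (i + 1) + 19) / 20) : ℝ) *
          p ^ ((21 * (i + 1) + 19) / 20) := by
      intro Y hY
      rw [mem_powersetCard] at hY
      refine (pr_union hp0 hp1 (E n) _ _).trans ?_
      have h3 : ∀ R ∈ powersetCard ((21 * (i + 1) + 19) / 20) (prs Y),
          pr p (E n) (fun S => R ⊆ S) = p ^ ((21 * (i + 1) + 19) / 20) := by
        intro R hR
        rw [mem_powersetCard] at hR
        rw [sr_sub p (hR.1.trans (prs_sub Y)), hR.2]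
      rw [sum_congr rfl h3, sum_const, nsmul_eq_mul, card_powersetCard, card_prs, hY.2]
    refine (sum_le_sum h2).trans ?_
    rw [sum_const, nsmul_eq_mul, card_powersetCard, card_univ, Fintype.card_fin]
    refine (sr_term hp0 hρ hρ1 h (by omega) (by omega) (by omega)).trans ?_
    rw [pow_succ, mul_comm]
    exact mul_le_mul_of_nonneg_left (pow_le_pow_left₀ hρ.le hρ1 i) hρ.le
  refine (sum_le_sum hterm).trans ?_
  rw [← mul_sum]
  have := sum_geometric_two_le y0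
  have h2 := mul_le_mul_of_nonneg_left this hρ.le
  linarith

end Pool.Agent.CFX
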