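import Pool.Agent.CFX.Props

/-! VC: a crude bound for the variance of the number of defects -/

namespace Pool.Agent.CFX

open Finset Pool.Agent.MD437 Pool.Agent.CFC

variable {n m : ℕ}

private lemma cl_congr {S S' : Finset (Sym2 (Fin n))} {z : Fin n}
    (h : ∀ w, ad S z w ↔ ad S' z w) : cl S z = cl S' z := by
  ext w
  rw [mem_cl, mem_cl, h w]

private lemma bad_congr {S S' : Finset (Sym2 (Fin n))} {T : Finset (Fin n)}
    (h : ∀ z ∉ T, ∀ w, ad S z w ↔ ad S' z w) (c : Fin n → Option (Fin m)) :
    (bad S c).card ≤ (bad S' c).card + T.card := by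
  have h1 : bad S c ⊆ bad S' c ∪ T := by
    intro z hz
    rw [mem_union]
    by_cases hT : z ∈ T
    · exact Or.inr hT
    · refine Or.inl ?_
      rw [mem_bad] at hz ⊢
      rw [← hz]
      unfold uq
      rw [cl_congr (h z hT)]
  exact (card_le_card h1).trans (card_union_le _ _)

private lemma defect_congr {S S' : Finset (Sym2 (Fin n))} {T : Finset (Fin n)}
    (h : ∀ z ∉ T, ∀ w, ad S z w ↔ ad S' z w) (F : Finset (Fin n → Option (Fin m))) (t : ℕ) :
    defect F t S ≤ defect F t S' + T.card := by
  by_cases h1 : defect F t S' < t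
  · obtain ⟨c, hc, h2⟩ := exists_of_defect_lt h1
    have h3 := defect_le hc t S
    have h4 := bad_congr h c
    omega
  · have h2 := defect_le_t F t S
    omega

private lemma defect_edge {e : Sym2 (Fin n)} (F : Finset (Fin n → Option (Fin m))) (t : ℕ)
    (S : Finset (Sym2 (Fin n))) :
    |(defect F t (insert e S) : ℝ) - (defect F t (S.erase e) : ℝ)| ≤ 2 := by
  induction e using Sym2.ind with
  | _ x y =>
    have key : ∀ z ∉ ({x, y} : Finset (Fin n)), ∀ w,
        ad (insert s(x, y) S) z w ↔ ad (S.erase s(x, y)) z w := by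
      intro z hz w
      rw [mem_insert, mem_singleton] at hz
      push Not at hz
      have hne : s(z, w) ≠ s(x, y) := by
        intro h
        rw [Sym2.eq_iff] at h
        rcases h with h | h
        · exact hz.1 h.1
        · exact hz.2 h.1
      unfold ad
      rw [mem_insert, mem_erase]
      tauto
    have hc : ({x, y} : Finset (Fin n)).card ≤ 2 := card_le_two
    have h1 := defect_congr key F t
    have h2 := defect_congr (fun z hz w => (key z hz w).symm) F t
    have h3 : defect F t (insert s(x, y) S) ≤ defect F t (S.erase s(x, y)) + 2 := by omega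
    have h4 : defect F t (S.erase s(x, y)) ≤ defect F t (insert s(x, y) S) + 2 := by omega
    have h5 : (defect F t (insert s(x, y) S) : ℝ) ≤ defect F t (S.erase s(x, y)) + 2 := by
      exact_mod_cast h3
    have h6 : (defect F t (S.erase s(x, y)) : ℝ) ≤ defect F t (insert s(x, y) S) + 2 := by
      exact_mod_cast h4
    rw [abs_le]
    constructor <;> linarith

/-- Crude bound. An edge changes the status of at most two vertices, so every term of
`efron_stein` is at most `4`, and `|E n| ≤ n² / 2`. -/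
theorem var_crude {p : ℝ} (hp0 : 0 ≤ p) (hp1 : p ≤ 1) (F : Finset (Fin n → Option (Fin m)))
    (t : ℕ) :
    ex p (E n) (fun S => (defect F t S : ℝ) ^ 2) -
      (ex p (E n) (fun S => (defect F t S : ℝ))) ^ 2 ≤ 2 * p * n ^ 2 := by
  refine (efron_stein hp0 hp1 (E n) (fun S => (defect F t S : ℝ))).trans ?_
  have h1 : ∑ i ∈ E n, ex p (E n) (fun S => ((defect F t (insert i S) : ℝ) -
      (defect F t (S.erase i) : ℝ)) ^ 2) ≤ ∑ i ∈ E n, (4 : ℝ) := by
    refine sum_le_sum fun i _ => ?_
    refine (ex_mono hp0 hp1 (g := fun _ => (4 : ℝ)) fun S _ => ?_).trans (ex_const p _ _).le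
    have h2 := defect_edge (e := i) F t S
    rw [← sq_abs]
    have h3 := abs_nonneg ((defect F t (insert i S) : ℝ) - (defect F t (S.erase i) : ℝ))
    nlinarith
  rw [sum_const, nsmul_eq_mul, card_E'] at h1
  have h4 : ((n.choose 2 : ℕ) : ℝ) ≤ (n : ℝ) ^ 2 / 2 := by
    rw [Nat.cast_choose_two]
    have h5 : (0 : ℝ) ≤ n := Nat.cast_nonneg n
    nlinarith
  calc p * ∑ i ∈ E n, ex p (E n) (fun S => ((defect F t (insert i S) : ℝ) -
      (defect F t (S.erase i) : ℝ)) ^ 2) ≤ p * (((n.choose 2 : ℕ) : ℝ) * 4) :=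
        mul_le_mul_of_nonneg_left h1 hp0
    _ ≤ p * ((n : ℝ) ^ 2 / 2 * 4) :=
        mul_le_mul_of_nonneg_left (mul_le_mul_of_nonneg_right h4 (by norm_num)) hp0
    _ = 2 * p * n ^ 2 := by ring

end Pool.Agent.CFX
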