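import Pool.Agent.CFX.RE
import Pool.Agent.CFX.SR
import Pool.Agent.CFX.VC
import Pool.Agent.CFX.BO

/-! S1A: the sparse regime, two or more colours -/

namespace Pool.Agent.CFX

open Finset Filter Topology Pool.Agent.MD437 Pool.Agent.CFC

private lemma S1A_exists {n u : ℕ} (hu : 2 ≤ u) (S : Finset (Sym2 (Fin n))) :
    ∃ c : Fin n → Fin u, (bad S (full c)).card ≤ defect (Full n u) n S := by
  by_cases hlt : defect (Full n u) n S < n
  · obtain ⟨c, hc, hcard⟩ := exists_of_defect_lt hlt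
    obtain ⟨c', rfl⟩ := exists_full_of_mem hc
    exact ⟨c', hcard.le⟩
  · refine ⟨fun _ => ⟨0, by omega⟩, ?_⟩
    refine (card_le_univ _).trans ?_
    rw [Fintype.card_fin]
    exact not_lt.1 hlt

/-- The case `u ≥ 2`, for one `n`. Let `F = Full n u`, `f = defect F n` (`t = n`; `defect_le_t` is
harmless as `|bad| ≤ n`). `f = 0` has probability at least `η / 2`. `var_crude`:
`V = 2 p n² ≤ 2 (p n² + 1)`; `boost` with `a = 0`, `t₁ = t₂ = τ := √(32 (p n² + 1) / η)`: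
`V ≤ (η / 2) τ²` and `V / τ² ≤ η / 16`. So `f < 2 τ` with probability at least `1 - η / 16`; by
`sparse_pr` (with `y0 ≥ 40 τ`, `2 ρ ≤ η / 4`) and `sparse_patch` there is a colouring with `u + 1`
colours with probability at least `1 - η / 2`. -/
theorem step_sparse_two {n : ℕ} {p η ρ : ℝ} (hn : 0 < n) (hp0 : 0 ≤ p) (hp1 : p ≤ 1) (hη : 0 < η)
    (hη1 : η ≤ 1) (hρ : 0 < ρ) (hρ1 : ρ ≤ η / 8) {y0 : ℕ}
    (hy : 40 * Real.sqrt (32 * (p * n ^ 2 + 1) / η) ≤ y0)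
    (h : 10 ^ 20 * (n : ℝ) ^ 20 * y0 * p ^ 21 ≤ ρ ^ 20) {u : ℕ} (hu : 2 ≤ u) :
    Step n p η u := by
  intro hpr
  set τ : ℝ := Real.sqrt (32 * (p * n ^ 2 + 1) / η) with hτ
  have hpn : 0 ≤ p * (n : ℝ) ^ 2 := by positivity
  have hτ2 : τ ^ 2 = 32 * (p * n ^ 2 + 1) / η := by
    rw [hτ, Real.sq_sqrt (by positivity)]
  have hτ0 : 0 < τ := by
    rw [hτ]
    exact Real.sqrt_pos.2 (by positivity)
  have hP : η / 2 ≤ pr p (E n) (fun S => (defect (Full n u) n S : ℝ) ≤ 0) := by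
    refine hpr.trans (pr_mono hp0 hp1 fun S _ hS => ?_)
    obtain ⟨c, hc⟩ := hS
    have h1 := (isCF_iff S c).1 hc
    have h2 := defect_le (full_mem_Full c) n S
    rw [h1, card_empty] at h2
    exact_mod_cast h2
  have hb := boost hp0 hp1 (E n) (fun S => (defect (Full n u) n S : ℝ)) (V := 2 * p * n ^ 2)
    (a := 0) (t₁ := τ) (t₂ := τ) (η := η / 2) hτ0 hτ0 (by positivity)
    (var_crude hp0 hp1 (Full n u) n) (by
      rw [hτ2]
      have e : η / 2 * (32 * (p * (n : ℝ) ^ 2 + 1) / η) = 16 * (p * (n : ℝ) ^ 2 + 1) := by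
        field_simp
        ring
      rw [e]
      linarith) hP
  have hV : 2 * p * (n : ℝ) ^ 2 / τ ^ 2 ≤ η / 16 := by
    rw [hτ2, div_le_iff₀ (by positivity)]
    have e : η / 16 * (32 * (p * (n : ℝ) ^ 2 + 1) / η) = 2 * (p * (n : ℝ) ^ 2 + 1) := by
      field_simp
      ring
    rw [e]
    linarith
  have hs := sparse_pr hp0 hp1 hρ (by linarith) y0 h
  have hor := pr_or hp0 hp1 (E n) (fun S => 0 + τ + τ ≤ (defect (Full n u) n S : ℝ))
    (fun S => ∃ Y : Finset (Fin n), Y.Nonempty ∧ Y.card ≤ y0 ∧ 21 * Y.card ≤ 10 * ee S Y Y)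
  have hnot := pr_not p (E n) (fun S => (0 + τ + τ ≤ (defect (Full n u) n S : ℝ)) ∨
    ∃ Y : Finset (Fin n), Y.Nonempty ∧ Y.card ≤ y0 ∧ 21 * Y.card ≤ 10 * ee S Y Y)
  have hle : pr p (E n) (fun S => ¬ ((0 + τ + τ ≤ (defect (Full n u) n S : ℝ)) ∨
      ∃ Y : Finset (Fin n), Y.Nonempty ∧ Y.card ≤ y0 ∧ 21 * Y.card ≤ 10 * ee S Y Y)) ≤
      pr p (E n) (fun S => ∃ c : Fin n → Fin (u + 1), IsCF (gr S) c) := by
    refine pr_mono hp0 hp1 fun S _ hS => ?_
    rw [not_or] at hS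
    obtain ⟨h1, h2⟩ := hS
    obtain ⟨c, hc⟩ := S1A_exists hu S
    refine sparse_patch S hu c fun Y hY hYc => ?_
    by_contra hcon
    refine h2 ⟨Y, hY, ?_, not_lt.1 hcon⟩
    have h3 : (Y.card : ℝ) ≤ 20 * (defect (Full n u) n S : ℝ) := by
      have : Y.card ≤ 20 * defect (Full n u) n S := hYc.trans (Nat.mul_le_mul_left _ hc)
      exact_mod_cast this
    have h4 : (Y.card : ℝ) ≤ y0 := by
      have := not_le.1 h1
      linarith
    exact_mod_cast h4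
  rw [hnot] at hle
  linarith

end Pool.Agent.CFX
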