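import Pool.Agent.CFX.Props

/-! S1B: the sparse regime, one colour -/

namespace Pool.Agent.CFX

open Finset Filter Topology Pool.Agent.MD437 Pool.Agent.CFC

private lemma S1B_two {n : ℕ} {p : ℝ} {e f : Sym2 (Fin n)} (he : e ∈ E n) (hf : f ∈ E n)
    (hef : e ≠ f) : pr p (E n) (fun S => e ∈ S ∧ f ∈ S) = p ^ 2 := by
  classical
  have h := pr_blocks p ({e, f} : Finset (Sym2 (Fin n))) (fun i => {i}) (by
    intro i _ j _ hij
    rw [disjoint_singleton]
    exact hij) (E n) (by
    intro i hi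
    rw [mem_insert, mem_singleton] at hi
    rw [singleton_subset_iff]
    rcases hi with rfl | rfl
    · exact he
    · exact hf) (fun i T => i ∈ T)
  have h2 : ∀ i : Sym2 (Fin n), pr p ({i} : Finset (Sym2 (Fin n))) (fun T => i ∈ T) = p := by
    intro i
    rw [pr_def]
    exact ex_mem p (mem_singleton_self i)
  rw [prod_pair hef, h2, h2] at h
  rw [sq, ← h]
  refine pr_congr p fun S _ => ?_
  simp

private lemma S1B_col {n : ℕ} {S : Finset (Sym2 (Fin n))}
    (hS : ∀ x y z : Fin n, ad S x y → ad S x z → y = z) :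
    ∃ c : Fin n → Fin 2, IsCF (gr S) c := by
  classical
  refine ⟨fun x => if ∃ y, ad S x y ∧ x < y then 1 else 0, ?_⟩
  intro x
  refine ⟨x, Or.inl rfl, ?_⟩
  intro z hz hc
  rcases hz with hz | hz
  · exact hz
  · exfalso
    have hxz : ad S x z := ⟨(gr_adj.1 hz).2, (gr_adj.1 hz).1⟩
    have hzx := ad_symm hxz
    rcases lt_or_gt_of_ne hxz.1 with hlt | hlt
    · have h1 : ∃ y, ad S x y ∧ x < y := ⟨z, hxz, hlt⟩
      have h2 : ¬ ∃ y, ad S z y ∧ z < y := by
        rintro ⟨y, hy, hy2⟩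
        have := hS z y x hy hzx
        rw [this] at hy2
        exact absurd hy2 (not_lt.2 hlt.le)
      simp only [if_pos h1, if_neg h2] at hc
      exact absurd hc (by decide)
    · have h1 : ∃ y, ad S z y ∧ z < y := ⟨x, hzx, hlt⟩
      have h2 : ¬ ∃ y, ad S x y ∧ x < y := by
        rintro ⟨y, hy, hy2⟩
        have := hS x y z hy hxz
        rw [this] at hy2
        exact absurd hy2 (not_lt.2 hlt.le)
      simp only [if_pos h1, if_neg h2] at hc
      exact absurd hc (by decide)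

private lemma S1B_one {n : ℕ} {S : Finset (Sym2 (Fin n))} (hSE : S ⊆ E n)
    (h : ∃ c : Fin n → Fin 1, IsCF (gr S) c) : Disjoint S (E n) := by
  obtain ⟨c, hc⟩ := h
  rw [Finset.disjoint_left]
  intro e he _
  induction e using Sym2.ind with
  | _ x y =>
    have hxy : x ≠ y := mk_mem_E.1 (hSE he)
    obtain ⟨w, hw, hu⟩ := hc x
    have h1 : x = w := hu x (Or.inl rfl) (Subsingleton.elim _ _)
    have h2 : y = w := hu y (Or.inr (gr_adj.2 ⟨he, hxy⟩)) (Subsingleton.elim _ _)
    exact hxy (h1.trans h2.symm)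

private lemma S1B_cherry {n : ℕ} {p : ℝ} (hp0 : 0 ≤ p) (hp1 : p ≤ 1) :
    pr p (E n) (fun S => ∃ q ∈ (univ : Finset (Fin n × Fin n × Fin n)),
      q.2.1 ≠ q.2.2 ∧ ad S q.1 q.2.1 ∧ ad S q.1 q.2.2) ≤ (n : ℝ) ^ 3 * p ^ 2 := by
  refine (pr_union hp0 hp1 (E n) univ _).trans ?_
  have h : ∀ q ∈ (univ : Finset (Fin n × Fin n × Fin n)),
      pr p (E n) (fun S => q.2.1 ≠ q.2.2 ∧ ad S q.1 q.2.1 ∧ ad S q.1 q.2.2) ≤ p ^ 2 := by
    rintro ⟨x, y, z⟩ _
    by_cases hg : y ≠ z ∧ x ≠ y ∧ x ≠ z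
    · obtain ⟨h1, h2, h3⟩ := hg
      rw [← S1B_two (p := p) (mk_mem_E.2 h2) (mk_mem_E.2 h3)]
      · refine pr_mono hp0 hp1 fun S _ hS => ⟨hS.2.1.2, hS.2.2.2⟩
      · intro hh
        rw [Sym2.eq_iff] at hh
        rcases hh with hh | hh
        · exact h1 hh.2
        · exact h3 hh.1
    · have : pr p (E n) (fun S => y ≠ z ∧ ad S x y ∧ ad S x z) ≤ pr p (E n) (fun _ => False) := by
        refine pr_mono hp0 hp1 fun S _ hS => hg ⟨hS.1, hS.2.1.1, hS.2.2.1⟩
      refine this.trans ?_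
      have h0 : pr p (E n) (fun _ => False) = 0 := by
        rw [pr_def]
        simp [ex_const]
      rw [h0]
      positivity
  refine (sum_le_sum h).trans (le_of_eq ?_)
  rw [sum_const, nsmul_eq_mul, card_univ, Fintype.card_prod, Fintype.card_prod, Fintype.card_fin]
  push_cast
  ring

/-- The case `u ≤ 1`. There is no colouring with `0` colours (`n > 0`). For `u = 1` a conflict-free
colouring with one colour exists iff there is no edge; if this has probability
`(1 - p)^|E n| ≥ η / 2` then `p |E n| ≤ log (2 / η)`, so `n² p ≤ 4 log (2 / η)`, and the expected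
number of pairs of adjacent edges is at most `n³ p² ≤ 16 log (2 / η)² / n ≤ η / 2`. Without two
adjacent edges there is a conflict-free colouring with two colours (colour `x` by `1` iff it has a
neighbour `y > x`). -/
theorem step_sparse_one {n : ℕ} {p η : ℝ} (hn : 2 ≤ n) (hp0 : 0 ≤ p) (hp1 : p ≤ 1) (hη : 0 < η)
    (hη1 : η ≤ 1) (h : 16 * Real.log (2 / η) ^ 2 ≤ η / 2 * n) {u : ℕ} (hu : u ≤ 1) :
    Step n p η u := by
  intro hpr
  have hu' : u = 0 ∨ u = 1 := by omega
  rcases hu' with rfl | rfl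
  · exfalso
    have h1 : pr p (E n) (fun S => ∃ c : Fin n → Fin 0, IsCF (gr S) c) ≤
        pr p (E n) (fun _ => False) := by
      refine pr_mono hp0 hp1 fun S _ hS => ?_
      obtain ⟨c, -⟩ := hS
      exact (c ⟨0, by omega⟩).elim0
    have h0 : pr p (E n) (fun _ => False) = 0 := by
      rw [pr_def]
      simp [ex_const]
    rw [h0] at h1
    linarith
  · have h1 : η / 2 ≤ (1 - p) ^ (E n).card := by
      rw [← ex_miss p (Finset.Subset.refl (E n)), ← pr_def]
      refine hpr.trans (pr_mono hp0 hp1 fun S hS hc => S1B_one hS hc)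
    have hnR : (2 : ℝ) ≤ n := by exact_mod_cast hn
    have hL0 : 0 ≤ Real.log (2 / η) := by
      apply Real.log_nonneg
      rw [le_div_iff₀ hη]
      linarith
    have h2 : (1 - p) ^ (E n).card ≤ Real.exp (-(p * (E n).card)) := by
      have h3 : 1 - p ≤ Real.exp (-p) := by
        have := Real.add_one_le_exp (-p)
        linarith
      refine (pow_le_pow_left₀ (by linarith) h3 _).trans (le_of_eq ?_)
      rw [← Real.exp_nat_mul]
      congr 1
      ring
    have h3 : p * (E n).card ≤ Real.log (2 / η) := by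
      have h4 := h1.trans h2
      have h5 := Real.log_le_log (by positivity) h4
      rw [Real.log_exp] at h5
      have h6 : Real.log (η / 2) = - Real.log (2 / η) := by
        rw [← Real.log_inv, inv_div]
      rw [h6] at h5
      linarith
    have hE : (n : ℝ) ^ 2 / 4 ≤ (E n).card := by
      rw [card_E', Nat.cast_choose_two]
      nlinarith
    have h4 : p * (n : ℝ) ^ 2 ≤ 4 * Real.log (2 / η) := by
      have := mul_le_mul_of_nonneg_left hE hp0
      linarith
    have h5 : (n : ℝ) ^ 3 * p ^ 2 ≤ η / 2 := by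
      have hn0 : (0 : ℝ) < n := by linarith
      have h6 : (p * (n : ℝ) ^ 2) ^ 2 ≤ (4 * Real.log (2 / η)) ^ 2 :=
        pow_le_pow_left₀ (by positivity) h4 2
      have h7 : (n : ℝ) ^ 3 * p ^ 2 * n ≤ η / 2 * n := by
        calc (n : ℝ) ^ 3 * p ^ 2 * n = (p * (n : ℝ) ^ 2) ^ 2 := by ring
          _ ≤ (4 * Real.log (2 / η)) ^ 2 := h6
          _ = 16 * Real.log (2 / η) ^ 2 := by ring
          _ ≤ η / 2 * n := h
      exact le_of_mul_le_mul_right h7 hn0
    have h6 := (S1B_cherry (n := n) hp0 hp1).trans h5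
    have h7 : pr p (E n) (fun S => ¬ ∃ q ∈ (univ : Finset (Fin n × Fin n × Fin n)),
        q.2.1 ≠ q.2.2 ∧ ad S q.1 q.2.1 ∧ ad S q.1 q.2.2) ≤
        pr p (E n) (fun S => ∃ c : Fin n → Fin (1 + 1), IsCF (gr S) c) := by
      refine pr_mono hp0 hp1 fun S _ hS => S1B_col fun x y z hy hz => ?_
      by_contra hyz
      exact hS ⟨(x, y, z), mem_univ _, hyz, hy, hz⟩
    rw [pr_not] at h7
    linarith

end Pool.Agent.CFX
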