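import Pool.Agent.CFX.S1A
import Pool.Agent.CFX.S1B

/-! S1C: the sparse regime -/

namespace Pool.Agent.CFX

open Finset Filter Topology Pool.Agent.MD437 Pool.Agent.CFC

private lemma s1c_num {η N p : ℝ} (hη : 0 < η) (hN : 1 ≤ N) (hp0 : 0 ≤ p)
    (hp : p ≤ N ^ (-(43 / 44) : ℝ)) {y : ℝ} (_hy0 : 0 ≤ y)
    (hy : y ≤ 40 * Real.sqrt (32 * (p * N ^ 2 + 1) / η) + 1)
    (hC : 10 ^ 20 * (320 / Real.sqrt η + 1) * N ^ (-(1 / 88) : ℝ) ≤ (η / 8) ^ 20) :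
    10 ^ 20 * N ^ 20 * y * p ^ 21 ≤ (η / 8) ^ 20 := by
  have hN0 : 0 < N := lt_of_lt_of_le one_pos hN
  have hsη : 0 < Real.sqrt η := Real.sqrt_pos.2 hη
  obtain ⟨s, hs⟩ : ∃ s, s = N ^ (45 / 88 : ℝ) := ⟨_, rfl⟩
  obtain ⟨P, hP⟩ : ∃ P, P = N ^ (-(43 / 44) : ℝ) := ⟨_, rfl⟩
  have hs0 : 0 < s := by rw [hs]; exact Real.rpow_pos_of_pos hN0 _
  have hP0 : 0 < P := by rw [hP]; exact Real.rpow_pos_of_pos hN0 _
  have hs1 : 1 ≤ s := by rw [hs]; exact Real.one_le_rpow hN (by norm_num)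
  have hPN : P * N ^ 2 = s ^ 2 := by
    rw [hP, hs, ← Real.rpow_natCast N 2, ← Real.rpow_add hN0,
      ← Real.rpow_natCast (N ^ (45 / 88 : ℝ)) 2, ← Real.rpow_mul hN0.le]
    norm_num
  have hNs : N ^ 20 * s * P ^ 21 = N ^ (-(1 / 88) : ℝ) := by
    rw [hP, hs, ← Real.rpow_natCast N 20, ← Real.rpow_natCast (N ^ (-(43 / 44) : ℝ)) 21,
      ← Real.rpow_mul hN0.le, ← Real.rpow_add hN0, ← Real.rpow_add hN0]
    norm_num
  rw [← hP] at hp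
  have h1 : Real.sqrt (32 * (p * N ^ 2 + 1) / η) ≤ 8 * s / Real.sqrt η := by
    have h2 : 32 * (p * N ^ 2 + 1) / η ≤ (8 * s / Real.sqrt η) ^ 2 := by
      rw [div_pow, Real.sq_sqrt hη.le]
      refine div_le_div_of_nonneg_right ?_ hη.le
      have h3 : p * N ^ 2 ≤ s ^ 2 := by
        rw [← hPN]
        exact mul_le_mul_of_nonneg_right hp (by positivity)
      nlinarith
    calc Real.sqrt (32 * (p * N ^ 2 + 1) / η) ≤ Real.sqrt ((8 * s / Real.sqrt η) ^ 2) :=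
          Real.sqrt_le_sqrt h2
      _ = 8 * s / Real.sqrt η := Real.sqrt_sq (by positivity)
  have h4 : y ≤ (320 / Real.sqrt η + 1) * s := by
    refine hy.trans ?_
    have h5 : 40 * (8 * s / Real.sqrt η) = 320 / Real.sqrt η * s := by ring
    have h6 := mul_le_mul_of_nonneg_left h1 (show (0 : ℝ) ≤ 40 by norm_num)
    rw [h5] at h6
    rw [add_mul, one_mul]
    exact add_le_add h6 hs1
  have hp21 : p ^ 21 ≤ P ^ 21 := pow_le_pow_left₀ hp0 hp 21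
  calc 10 ^ 20 * N ^ 20 * y * p ^ 21
      ≤ 10 ^ 20 * N ^ 20 * ((320 / Real.sqrt η + 1) * s) * P ^ 21 := by
        refine mul_le_mul (mul_le_mul_of_nonneg_left h4 (by positivity)) hp21 (by positivity) ?_
        positivity
    _ = 10 ^ 20 * (320 / Real.sqrt η + 1) * (N ^ 20 * s * P ^ 21) := by ring
    _ = 10 ^ 20 * (320 / Real.sqrt η + 1) * N ^ (-(1 / 88) : ℝ) := by rw [hNs]
    _ ≤ (η / 8) ^ 20 := hC

/-- The regime. `y0 = ⌈40 √(32 (p n² + 1) / η)⌉`, `ρ = η / 8`. Since `p ≤ n^(-43/44)`: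
`n^20 √(p n²) p^21 = n^21 p^(43/2) ≤ n^(21 - 43 · 43 / 88) = n^(-1/88)` and
`n^20 p^21 ≤ n^(20 - 21 · 43/44) → 0`. -/
theorem step_r1 {η : ℝ} (hη : 0 < η) (hη1 : η ≤ 1) :
    ∀ᶠ n : ℕ in atTop, ∀ p : ℝ, 0 ≤ p → p ≤ (n : ℝ) ^ (-(43 / 44) : ℝ) → ∀ u, Step n p η u := by
  have ht : Tendsto (fun n : ℕ => 10 ^ 20 * (320 / Real.sqrt η + 1) *
      (n : ℝ) ^ (-(1 / 88) : ℝ)) atTop (𝓝 0) := by
    have h0 := (tendsto_rpow_neg_atTop (show (0 : ℝ) < 1 / 88 by norm_num)).comp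
      (tendsto_natCast_atTop_atTop (R := ℝ))
    have h1 := h0.const_mul (10 ^ 20 * (320 / Real.sqrt η + 1))
    rw [mul_zero] at h1
    exact h1
  have h1 : ∀ᶠ n : ℕ in atTop, 10 ^ 20 * (320 / Real.sqrt η + 1) *
      (n : ℝ) ^ (-(1 / 88) : ℝ) ≤ (η / 8) ^ 20 :=
    (ht.eventually_lt_const (show (0 : ℝ) < (η / 8) ^ 20 by positivity)).mono fun _ h => h.le
  have h2 : ∀ᶠ n : ℕ in atTop, 16 * Real.log (2 / η) ^ 2 ≤ η / 2 * (n : ℝ) := by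
    have h3 : Tendsto (fun n : ℕ => η / 2 * (n : ℝ)) atTop atTop :=
      (tendsto_natCast_atTop_atTop (R := ℝ)).const_mul_atTop (by positivity)
    exact h3.eventually_ge_atTop _
  filter_upwards [h1, h2, eventually_ge_atTop 2] with n hn1 hn2 hn p hp0 hp u
  have hN : (1 : ℝ) ≤ n := by exact_mod_cast (by omega : 1 ≤ n)
  have hp1 : p ≤ 1 := hp.trans (Real.rpow_le_one_of_one_le_of_nonpos hN (by norm_num))
  rcases Nat.lt_or_ge u 2 with hu | hu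
  · exact step_sparse_one hn hp0 hp1 hη hη1 hn2 (by omega)
  · refine step_sparse_two (ρ := η / 8)
      (y0 := ⌈40 * Real.sqrt (32 * (p * (n : ℝ) ^ 2 + 1) / η)⌉₊) (by omega) hp0 hp1 hη hη1
      (by positivity) le_rfl (Nat.le_ceil _) ?_ hu
    refine s1c_num hη hN hp0 hp (Nat.cast_nonneg _) ?_ hn1
    exact (Nat.ceil_lt_add_one (by positivity)).le

end Pool.Agent.CFX
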