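import Pool.Agent.CFX.CO
import Pool.Agent.CFX.UN

/-! U3: the property `u3` -/

namespace Pool.Agent.CFX

open Finset Pool.Agent.MD437 Pool.Agent.CFC

variable {n m : ℕ} {p l : ℝ}

private def U3P (B A : Finset (Fin n)) (S : Finset (Sym2 (Fin n))) (v w : Fin n) : Prop :=
  (v ∉ B ∧ (∃ b ∈ B, ad S v b) ∧ v ∉ A ∧ ∀ a ∈ A, ¬ ad S v a) ∧
    (w ∉ A ∧ w ∉ B ∧ ∃ a ∈ A, ad S w a)

private lemma U3_ad (W : Finset (Fin n)) (S : Finset (Sym2 (Fin n))) {x y : Fin n}
    (hy : y ∈ W) : ad (S ∩ EW W) x y ↔ ad S x y := by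
  unfold ad
  rw [mem_inter, mk_mem_EW]
  constructor
  · rintro ⟨h1, h2, -⟩
    exact ⟨h1, h2⟩
  · rintro ⟨h1, h2⟩
    exact ⟨h1, h2, h1, Or.inr hy⟩

private lemma U3_loc (B A : Finset (Fin n)) (S : Finset (Sym2 (Fin n))) (v w : Fin n) :
    U3P B A S v w ↔ U3P B A (S ∩ EW (B ∪ A)) v w := by
  have hb : ∀ (x b : Fin n), b ∈ B → (ad (S ∩ EW (B ∪ A)) x b ↔ ad S x b) := fun x b hb =>
    U3_ad _ S (mem_union_left _ hb)
  have ha : ∀ (x a : Fin n), a ∈ A → (ad (S ∩ EW (B ∪ A)) x a ↔ ad S x a) := fun x a ha =>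
    U3_ad _ S (mem_union_right _ ha)
  unfold U3P
  constructor
  · rintro ⟨⟨h1, ⟨b, hb1, hb2⟩, h3, h4⟩, h5, h6, a, ha1, ha2⟩
    exact ⟨⟨h1, ⟨b, hb1, (hb v b hb1).2 hb2⟩, h3, fun a' ha' h => h4 a' ha' ((ha v a' ha').1 h)⟩,
      h5, h6, a, ha1, (ha w a ha1).2 ha2⟩
  · rintro ⟨⟨h1, ⟨b, hb1, hb2⟩, h3, h4⟩, h5, h6, a, ha1, ha2⟩
    exact ⟨⟨h1, ⟨b, hb1, (hb v b hb1).1 hb2⟩, h3, fun a' ha' h => h4 a' ha' ((ha v a' ha').2 h)⟩,
      h5, h6, a, ha1, (ha w a ha1).1 ha2⟩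

private noncomputable def U3c (B A : Finset (Fin n)) (S : Finset (Sym2 (Fin n))) (v w : Fin n) :
    ℝ := by
  classical exact if U3P B A S v w then 1 else 0

private lemma U3c_le (B A : Finset (Fin n)) (S : Finset (Sym2 (Fin n))) (v w : Fin n) :
    U3c B A S v w ≤ 1 := by
  unfold U3c
  split_ifs <;> norm_num

private lemma U3c_nonneg (B A : Finset (Fin n)) (S : Finset (Sym2 (Fin n))) (v w : Fin n) :
    0 ≤ U3c B A S v w := by
  unfold U3c
  split_ifs <;> norm_num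

/-- the number of vertices with a neighbour in `A` -/
private lemma U3_nbh {d : ℝ} {S : Finset (Sym2 (Fin n))} (hd : DegOK d S) (A : Finset (Fin n)) :
    (((univ : Finset (Fin n)).filter (fun w => ∃ a ∈ A, ad S w a)).card : ℝ) ≤ A.card * (2 * d) := by
  have h1 : (univ : Finset (Fin n)).filter (fun w => ∃ a ∈ A, ad S w a) ⊆
      A.biUnion fun a => nb S a := by
    intro w hw
    obtain ⟨a, ha, h⟩ := (mem_filter.1 hw).2
    exact mem_biUnion.2 ⟨a, ha, mem_nb.2 (ad_symm h)⟩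
  have h2 : (((univ : Finset (Fin n)).filter (fun w => ∃ a ∈ A, ad S w a)).card : ℝ) ≤
      ∑ a ∈ A, ((nb S a).card : ℝ) := by
    exact_mod_cast (card_le_card h1).trans card_biUnion_le
  refine h2.trans ((sum_le_sum fun a _ => (hd a).2).trans ?_)
  rw [sum_const, nsmul_eq_mul]

private lemma U3_total {d : ℝ} {S : Finset (Sym2 (Fin n))} (hd : DegOK d S) (hd0 : 0 ≤ d)
    (B A : Finset (Fin n)) :
    ∑ v, ∑ w, U3c B A S v w ≤ (B.card * (2 * d)) * (A.card * (2 * d)) := by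
  classical
  have h1 : ∀ v w, U3c B A S v w ≤
      (if ∃ b ∈ B, ad S v b then (1 : ℝ) else 0) * (if ∃ a ∈ A, ad S w a then (1 : ℝ) else 0) := by
    intro v w
    unfold U3c
    by_cases h : U3P B A S v w
    · rw [if_pos h, if_pos h.1.2.1, if_pos h.2.2.2]
      norm_num
    · rw [if_neg h]
      positivity
  have h2 : ∑ v, ∑ w, U3c B A S v w ≤
      (∑ v, if ∃ b ∈ B, ad S v b then (1 : ℝ) else 0) *
        (∑ w, if ∃ a ∈ A, ad S w a then (1 : ℝ) else 0) := by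
    rw [sum_mul_sum]
    exact sum_le_sum fun v _ => sum_le_sum fun w _ => h1 v w
  refine h2.trans ?_
  rw [← Finset.sum_filter, ← Finset.sum_filter, sum_const, sum_const, nsmul_eq_mul, nsmul_eq_mul,
    mul_one, mul_one]
  exact mul_le_mul (U3_nbh hd B) (U3_nbh hd A) (Nat.cast_nonneg _) (by positivity)

private lemma U3_near (B A : Finset (Fin n)) (S : Finset (Sym2 (Fin n))) :
    ((near S B A).card : ℝ) ≤ ∑ v, ∑ w ∈ nb S v, U3c B A S v w := by
  classical
  have h1 : ((near S B A).card : ℝ) = ∑ v ∈ near S B A, (1 : ℝ) := by simp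
  rw [h1]
  calc ∑ v ∈ near S B A, (1 : ℝ) ≤ ∑ v ∈ near S B A, ∑ w ∈ nb S v, U3c B A S v w := by
        refine sum_le_sum fun v hv => ?_
        rw [near, mem_filter] at hv
        obtain ⟨h2, h3, h4, z, h5, h6, h7, a, h8, h9⟩ := hv
        rw [QQ, mem_filter, mem_compl] at h2
        obtain ⟨h10, h11⟩ := h2
        obtain ⟨b, hb⟩ := card_pos.1 (lt_of_lt_of_le one_pos h11)
        rw [mem_inter, mem_nb] at hb
        have h12 : U3c B A S v z = 1 := by
          unfold U3c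
          rw [if_pos]
          exact ⟨⟨h10, ⟨b, hb.2, hb.1⟩, h3, h4⟩, h6, h7, a, h8, h9⟩
        rw [← h12]
        exact single_le_sum (fun w _ => U3c_nonneg B A S v w) (mem_nb.2 h5)
    _ ≤ ∑ v, ∑ w ∈ nb S v, U3c B A S v w :=
        sum_le_sum_of_subset_of_nonneg (subset_univ _) fun v _ _ =>
          sum_nonneg fun w _ => U3c_nonneg B A S v w

private lemma U3_false {p : ℝ} (A : Finset (Sym2 (Fin n))) (Q : Finset (Sym2 (Fin n)) → Prop)
    (h : ∀ S, ¬ Q S) : pr p A Q = 0 := by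
  classical
  rw [pr_def]
  have : (fun S : Finset (Sym2 (Fin n)) => if Q S then (1 : ℝ) else 0) = fun _ => 0 := by
    funext S
    rw [if_neg (h S)]
  rw [this, ex_const]

private lemma U3_one (hB : Big n l) (hp0 : 0 ≤ p) (hp1 : p ≤ 1) (h1 : l ^ 222 ≤ n * p)
    (B A : Finset (Fin n)) (hne : B.Nonempty)
    (hAB : (A.card : ℝ) * RR n p B.card * l ^ 8 ≤ B.card) :
    pr p (E n) (fun S => DegOK (n * p) S ∧ (B.card : ℝ) * (n * p) / l ^ 2 <
      ((near S B A).card : ℝ)) ≤ (1 / (n : ℝ) ^ 6) ^ (B.card + A.card + 0 + 1) := by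
  have hl := hB.one_le
  have hl0 := hB.pos
  have hn0 := hB.n_pos'
  have hd0 : 0 ≤ (n : ℝ) * p := mul_nonneg hn0.le hp0
  have hr1 : (1 : ℝ) ≤ B.card := by exact_mod_cast hne.card_pos
  set r : ℝ := (B.card : ℝ) with hr
  set a : ℝ := (A.card : ℝ) with ha
  have ha0 : 0 ≤ a := Nat.cast_nonneg _
  set μ : ℝ := p * ((r * (2 * (n * p))) * (a * (2 * (n * p)))) with hμ
  have key := pair_sum_tail hp0 hp1 (B ∪ A) (U3c B A) (h := 1) (μ := μ)
    (x := r * (n * p) / l ^ 2) one_pos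
    (by
      intro S
      funext v w
      unfold U3c
      by_cases h : U3P B A S v w
      · rw [if_pos h, if_pos ((U3_loc B A S v w).1 h)]
      · rw [if_neg h, if_neg fun h' => h ((U3_loc B A S v w).2 h')])
    (fun S v w => U3c_nonneg B A S v w) (fun S v w => U3c_le B A S v w)
    (by
      intro S v w hvw
      unfold U3c
      rw [if_neg]
      rintro ⟨⟨h2, -, h3, -⟩, h4, h5, -⟩
      rw [mem_union, mem_union] at hvw
      tauto)
  have hmono : pr p (E n) (fun S => DegOK (n * p) S ∧ r * (n * p) / l ^ 2 <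
      ((near S B A).card : ℝ)) ≤ pr p (E n) (fun S => p * ∑ v, ∑ w, U3c B A S v w ≤ μ ∧
        r * (n * p) / l ^ 2 ≤ ∑ v, ∑ w ∈ nb S v, U3c B A S v w) := by
    refine pr_mono hp0 hp1 fun S _ hS => ⟨?_, ?_⟩
    · exact mul_le_mul_of_nonneg_left (U3_total hS.1 hd0 B A) hp0
    · exact hS.2.le.trans (U3_near B A S)
  refine (hmono.trans key).trans ?_
  have hR1 : 1 ≤ RR n p B.card := by
    unfold RR
    have : 0 ≤ (B.card : ℝ) * n * p ^ 2 := by positivity
    linarith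
  -- the mean
  have hμ1 : μ ≤ 4 * (n * p) * (a * RR n p B.card) := by
    have h2 : RR n p B.card = 1 + r * n * p ^ 2 := rfl
    rw [h2, hμ]
    have h3 : 4 * (n * p) * (a * (1 + r * n * p ^ 2)) -
        p * ((r * (2 * (n * p))) * (a * (2 * (n * p)))) = 4 * (n * p) * a := by ring
    have h4 : 0 ≤ 4 * (n * p) * a := by positivity
    linarith
  have hμ2 : μ * l ^ 8 ≤ 4 * (n * p) * r := by
    have h2 : μ * l ^ 8 ≤ 4 * (n * p) * (a * RR n p B.card) * l ^ 8 :=
      mul_le_mul_of_nonneg_right hμ1 (hB.pow_pos' 8).le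
    have h3 : 4 * (n * p) * (a * RR n p B.card) * l ^ 8 =
        4 * (n * p) * (a * RR n p B.card * l ^ 8) := by ring
    rw [h3] at h2
    exact h2.trans (mul_le_mul_of_nonneg_left hAB (by positivity))
  have hl6 : (14 : ℝ) ≤ l ^ 6 := by
    have h2 := hB.pow_le (show 1 ≤ 6 by norm_num)
    rw [pow_one] at h2
    exact le_trans (by norm_num) (hB.big.trans h2)
  set x : ℝ := r * (n * p) / l ^ 2 with hx
  have hx0 : 0 ≤ x := by positivity
  have hμ3 : 7 / 4 * μ ≤ x / 2 := by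
    have hl8 := hB.pow_pos' 8
    have h2 : 7 / 4 * μ * l ^ 8 ≤ x / 2 * l ^ 8 := by
      have h3 : x / 2 * l ^ 8 = r * (n * p) * l ^ 6 / 2 := by
        rw [hx]
        field_simp
      rw [h3]
      have h4 : r * (n * p) * 14 ≤ r * (n * p) * l ^ 6 :=
        mul_le_mul_of_nonneg_left hl6 (by positivity)
      linarith
    exact le_of_mul_le_mul_right h2 hl8
  have hfin : Real.exp ((7 / 4 * μ - x) / (2 * 1)) ≤ Real.exp (-(x / 4)) :=
    Real.exp_le_exp.2 (by linarith)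
  refine hfin.trans (hB.exp_le' ?_)
  -- the number of sets
  have haR : a ≤ r := by
    have h2 : a * 1 ≤ a * (RR n p B.card * l ^ 8) := by
      refine mul_le_mul_of_nonneg_left ?_ ha0
      calc (1 : ℝ) = 1 * 1 := by ring
        _ ≤ RR n p B.card * l ^ 8 := mul_le_mul hR1 (hB.one_le_pow 8) zero_le_one (by linarith)
    rw [mul_one, ← mul_assoc] at h2
    exact h2.trans hAB
  have hcast : ((B.card + A.card + 0 + 1 : ℕ) : ℝ) = r + a + 1 := by
    push_cast
    rw [hr, ha]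
    ring
  rw [hcast]
  have h3 : l * (r + a + 1) ≤ l * (3 * r) := mul_le_mul_of_nonneg_left (by linarith) hl0.le
  refine h3.trans ?_
  have hl2 := hB.pow_pos' 2
  have h4 : l ^ 222 = l ^ 2 * (l * l ^ 219) := by
    rw [← pow_succ', ← pow_add]
  have h5 : l ^ 2 * (l * l ^ 219) ≤ n * p := h4 ▸ h1
  have h6 : 2 ≤ l ^ 219 := by
    have h2 := hB.pow_le (show 1 ≤ 219 by norm_num)
    rw [pow_one] at h2
    exact le_trans (by norm_num) (hB.big.trans h2)
  have h7 : l * 2 ≤ n * p / l ^ 2 := by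
    rw [le_div_iff₀ hl2]
    calc l * 2 * l ^ 2 = l ^ 2 * (l * 2) := by ring
      _ ≤ l ^ 2 * (l * l ^ 219) :=
        mul_le_mul_of_nonneg_left (mul_le_mul_of_nonneg_left h6 hl0.le) hl2.le
      _ ≤ n * p := h5
  have h8 : x = r * (n * p / l ^ 2) := by
    rw [hx]
    ring
  rw [h8]
  have h9 : r * (l * 2) ≤ r * (n * p / l ^ 2) := mul_le_mul_of_nonneg_left h7 (by linarith)
  nlinarith [h9, mul_nonneg (by linarith : (0 : ℝ) ≤ r) hl0.le]

/-- For fixed `B ≠ ∅` and `A`, `r = |B|`: `pair_sum_tail` with `W = B ∪ A`, `h = 1`,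
`c S v w = 1` if `v ∈ QQ S B`, `v ∉ A`, `v` has no neighbour in `A`, and `w ∉ A ∪ B` has a
neighbour in `A`, otherwise `0`. By the degree condition the total weight is at most
`(2 n p r) (2 n p |A|)`, so `μ = 4 n² p³ r |A| ≤ 4 R (n p) |A| ≤ 4 r (n p) / l^8`;
`x = r (n p) / l²`; the bound is at most `exp (- r (n p) / (4 l²))`, and `n p ≥ l ^ 222`. Note
`|A| ≤ r`. Then `union3` over `B, A`. For `B = ∅` the set `near` is empty. -/
theorem u3_prob (hB : Big n l) (hp0 : 0 ≤ p) (hp1 : p ≤ 1) (h1 : l ^ 222 ≤ n * p) :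
    pr p (E n) (fun S => DegOK (n * p) S ∧ ∃ B A : Finset (Fin n),
      (A.card : ℝ) * RR n p B.card * l ^ 8 ≤ B.card ∧
      (B.card : ℝ) * (n * p) / l ^ 2 < ((near S B A).card : ℝ)) ≤ 1 / (n : ℝ) ^ 5 := by
  classical
  have h2 := union3 hp0 hp1 hB.two_le_n (fun B A C S => C = ∅ ∧ B.Nonempty ∧
      (A.card : ℝ) * RR n p B.card * l ^ 8 ≤ B.card ∧ DegOK (n * p) S ∧
      (B.card : ℝ) * (n * p) / l ^ 2 < ((near S B A).card : ℝ)) ?_
  · refine le_trans (pr_mono hp0 hp1 fun S _ hS => ?_) h2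
    obtain ⟨hd, B, A, h3, h4⟩ := hS
    refine ⟨B, A, ∅, rfl, ?_, h3, hd, h4⟩
    by_contra hne
    rw [not_nonempty_iff_eq_empty] at hne
    subst hne
    have h5 : near S ∅ A = ∅ := by
      rw [eq_empty_iff_forall_notMem]
      intro w hw
      rw [near, mem_filter, QQ, mem_filter] at hw
      have h6 := hw.1.2
      simp [aB] at h6
    rw [h5] at h4
    simp at h4
  · intro B A C
    by_cases hC : C = ∅
    · subst hC
      by_cases hne : B.Nonempty
      · by_cases hAB : (A.card : ℝ) * RR n p B.card * l ^ 8 ≤ B.card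
        · rw [card_empty]
          refine le_trans (pr_mono hp0 hp1 fun S _ hS => ?_) (U3_one hB hp0 hp1 h1 B A hne hAB)
          exact ⟨hS.2.2.2.1, hS.2.2.2.2⟩
        · rw [U3_false _ _ fun S hS => hAB hS.2.2.1]
          positivity
      · rw [U3_false _ _ fun S hS => hne hS.2.1]
        positivity
    · rw [U3_false _ _ fun S hS => hC hS.1]
      positivity

end Pool.Agent.CFX
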