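import Pool.Agent.CFX.DG
import Pool.Agent.CFX.CD
import Pool.Agent.CFX.DI
import Pool.Agent.CFX.PT
import Pool.Agent.CFX.H1
import Pool.Agent.CFX.H2
import Pool.Agent.CFX.H3A
import Pool.Agent.CFX.H3B
import Pool.Agent.CFX.U3

/-! S2A: the good properties hold with high probability -/

namespace Pool.Agent.CFX

open Finset Pool.Agent.MD437 Pool.Agent.CFC

variable {n m : ℕ} {p l : ℝ}

private lemma or_le {p : ℝ} (hp0 : 0 ≤ p) (hp1 : p ≤ 1) {A : Finset (Sym2 (Fin n))}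
    {Q R : Finset (Sym2 (Fin n)) → Prop} {a b : ℝ} (h1 : pr p A Q ≤ a) (h2 : pr p A R ≤ b) :
    pr p A (fun S => Q S ∨ R S) ≤ a + b :=
  (pr_or hp0 hp1 A Q R).trans (add_le_add h1 h2)

/-- The good properties hold with high probability (`l (1 + n p²) ≤ 2 l` as `n p² ≤ 1`). -/
theorem good_r2 (hB : Big n l) (hp1 : p ≤ 1) (h1 : l ^ 222 ≤ n * p)
    (h2 : n * p ≤ l ^ 4200) :
    pr p (E n) (fun S => ¬ GoodR2 p l S) ≤ 9 / (n : ℝ) ^ 5 := by
  have hn := hB.n_pos'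
  have hl := hB.pos
  have hp0 : 0 ≤ p := by
    by_contra h
    push Not at h
    have h3 : (n : ℝ) * p < 0 := mul_neg_of_pos_of_neg hn h
    have h4 := hB.pow_pos' 222
    linarith
  have hnp : (n : ℝ) * p ^ 2 ≤ 1 := by
    have h3 : ((n : ℝ) * p) ^ 2 ≤ (l ^ 4200) ^ 2 :=
      pow_le_pow_left₀ (mul_nonneg hn.le hp0) h2 2
    rw [← pow_mul] at h3
    have h4 : l ^ (4200 * 2) ≤ l ^ 10000 := hB.pow_le (by norm_num)
    rw [hB.pow] at h4
    have h5 : (n : ℝ) * ((n : ℝ) * p ^ 2) ≤ n * 1 := by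
      calc (n : ℝ) * ((n : ℝ) * p ^ 2) = ((n : ℝ) * p) ^ 2 := by ring
        _ ≤ (n : ℝ) := h3.trans h4
        _ = (n : ℝ) * 1 := (mul_one _).symm
    exact le_of_mul_le_mul_left h5 hn
  have hcod : ∀ S : Finset (Sym2 (Fin n)), CodOK (l * (1 + n * p ^ 2)) S → CodOK (2 * l) S := by
    intro S h x y hxy
    refine (h x y hxy).trans ?_
    have h3 : l * (1 + n * p ^ 2) ≤ l * (1 + 1) :=
      mul_le_mul_of_nonneg_left (by linarith) hl.le
    linarith
  have main := or_le hp0 hp1 (deg_prob hB hp0 hp1 h1) <| or_le hp0 hp1 (cod_prob hB hp0 hp1) <|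
    or_le hp0 hp1 (dist_prob hB hp0 hp1) <| or_le hp0 hp1 (path_prob hB hp0 hp1 h1 h2) <|
    or_le hp0 hp1 (h1_prob hB hp0 hp1 h1 h2) <| or_le hp0 hp1 (h2_prob hB hp0 hp1) <|
    or_le hp0 hp1 (h3a_prob hB hp0 hp1) <| or_le hp0 hp1 (h3b_prob hB hp0 hp1)
      (u3_prob hB hp0 hp1 h1)
  refine (pr_mono hp0 hp1 fun S _ hS => ?_).trans (main.trans (le_of_eq ?_))
  · by_contra hcon
    simp only [not_or] at hcon
    obtain ⟨c1, c2, c3, c4, c5, c6, c7, c8, c9⟩ := hcon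
    have d1 : DegOK (n * p) S := not_not.1 c1
    have d2 : CodOK (2 * l) S := hcod S (not_not.1 c2)
    have d3 : DistOK p l S := not_not.1 c3
    have d4 : PathOK (n * p / l ^ 50) S := by
      by_contra h
      exact c4 ⟨d2, h⟩
    refine hS ⟨⟨d1, d3, ?_, ?_, ?_, ?_, ?_⟩, d2, d4⟩
    · intro B hb
      by_contra h
      push Not at h
      exact c5 ⟨B, hb, h⟩
    · intro B
      by_contra h
      push Not at h
      exact c6 ⟨d1, B, h⟩
    · intro B
      by_contra h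
      push Not at h
      exact c7 ⟨d1, B, h⟩
    · intro B hb
      by_contra h
      push Not at h
      exact c8 ⟨d1, B, hb, h⟩
    · intro B A hb
      by_contra h
      push Not at h
      exact c9 ⟨d1, B, A, hb, h⟩
  · ring

end Pool.Agent.CFX
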