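import Pool.Agent.CFX.LU

/-! SM: the case of many colours -/

namespace Pool.Agent.CFX

open Finset Pool.Agent.MD437 Pool.Agent.CFC

variable {n m : ℕ} {p l : ℝ}

/-- more colours -/
lemma exists_more {S : Finset (Sym2 (Fin n))} {a b : ℕ} (hab : a ≤ b)
    (h : ∃ c : Fin n → Fin a, IsCF (gr S) c) : ∃ c : Fin n → Fin b, IsCF (gr S) c := by
  obtain ⟨c, hc⟩ := h
  refine ⟨fun x => Fin.castLE hab (c x), ?_⟩
  intro x
  obtain ⟨y, hy, hu⟩ := hc x
  refine ⟨y, hy, fun z hz he => hu z hz ?_⟩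
  exact Fin.castLE_injective hab he

/-- the case of many colours -/
lemma step_many {η : ℝ} (hB : Big n l) (hp1 : p ≤ 1) (hl : 1000 ≤ η * l)
    (h1 : l ^ 222 ≤ n * p) (h2 : n * p ≤ l ^ 6000) {u : ℕ} (hu : 15 * Real.log n < u) :
    Step n p η u := by
  intro _
  have hn := hB.n_pos'
  have hp0 : 0 ≤ p := by
    by_contra hcon
    push Not at hcon
    have := mul_neg_of_pos_of_neg hn hcon
    have h3 := hB.pow_pos' 222
    linarith
  have h3 := log_upper hB hp1 h1 h2
  have h4 : pr p (E n) (fun S => ¬ ∃ c : Fin n → Fin (u + 1), IsCF (gr S) c) ≤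
      pr p (E n) (fun S => ¬ ∃ c : Fin n → Fin ⌊15 * Real.log n⌋₊, IsCF (gr S) c) := by
    refine pr_mono hp0 hp1 fun S _ h hc => h ?_
    refine exists_more ?_ hc
    have h5 : ⌊15 * Real.log n⌋₊ ≤ u := by
      refine Nat.floor_le_of_le ?_
      exact hu.le
    omega
  rw [pr_not] at h4
  have h5 := hB.inv_n_le
  have hl0 := hB.pos
  have h6 : 1 / l ≤ η / 2 := by
    rw [div_le_iff₀ hl0]
    linarith
  linarith

end Pool.Agent.CFX
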