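import Pool.Agent.CFX.Props

/-! TN: numerical condition for the sequential choice -/

namespace Pool.Agent.CFX

open Finset Pool.Agent.MD437 Pool.Agent.CFC

variable {n m : ℕ} {p l : ℝ}

/-- `5005 log l` is much smaller than `3 l^50 / 32`, and `36000 log l ≥ 3 log n`. -/
theorem trans_num (hB : Big n l) {N : ℕ} (hN : (N : ℝ) ≤ l ^ 5005) :
    (N : ℝ) * Real.exp (-(3 * l ^ 50 / 32)) + n * Real.exp (1 - 4000 * (9 * Real.log l)) < 1 := by
  have hl := hB.pos
  have hn := hB.n_pos'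
  have hbn := hB.big_n
  have hlg := hB.lg_le
  have h50 : (10 : ℝ) ^ 9 * l ^ 1 ≤ l ^ 50 := hB.mul_pow_le le_rfl (by norm_num)
  rw [pow_one] at h50
  have hN' : (N : ℝ) ≤ n := by
    refine hN.trans ?_
    have := hB.pow_le (show 5005 ≤ 10000 by norm_num)
    rwa [hB.pow] at this
  have h1 : Real.exp (-(3 * l ^ 50 / 32)) ≤ (1 / (n : ℝ) ^ 6) ^ 1 := by
    refine hB.exp_le ?_
    rw [Nat.cast_one, mul_one]
    generalize l ^ 50 = L at h50 ⊢
    nlinarith
  have h2 : Real.exp (1 - 4000 * (9 * Real.log l)) ≤ 1 / ((n : ℝ) * n) := by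
    have e : 1 / ((n : ℝ) * n) = Real.exp (-(Real.log n + Real.log n)) := by
      rw [Real.exp_neg, Real.exp_add, Real.exp_log hn, one_div]
    rw [e]
    refine Real.exp_le_exp.2 ?_
    have := hB.log_n
    have := hB.log_l_ge
    linarith
  have h3 : (N : ℝ) * Real.exp (-(3 * l ^ 50 / 32)) ≤ 1 / 4 := by
    calc (N : ℝ) * Real.exp (-(3 * l ^ 50 / 32)) ≤ n * (1 / (n : ℝ) ^ 6) ^ 1 :=
          mul_le_mul hN' h1 (Real.exp_pos _).le hn.le
      _ ≤ 1 / 4 := by
          rw [pow_one, mul_one_div, div_le_div_iff₀ (by positivity) (by norm_num)]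
          have h6 : (n : ℝ) ^ 6 = n * n * (n : ℝ) ^ 4 := by ring
          have h4 : (1 : ℝ) ≤ (n : ℝ) ^ 4 := one_le_pow₀ (le_trans (by norm_num) hbn)
          rw [h6]
          have : (n : ℝ) * n * 1 ≤ n * n * (n : ℝ) ^ 4 :=
            mul_le_mul_of_nonneg_left h4 (by positivity)
          nlinarith
  have h4 : (n : ℝ) * Real.exp (1 - 4000 * (9 * Real.log l)) ≤ 1 / 4 := by
    calc (n : ℝ) * Real.exp (1 - 4000 * (9 * Real.log l)) ≤ n * (1 / ((n : ℝ) * n)) :=
          mul_le_mul_of_nonneg_left h2 hn.le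
      _ = 1 / n := by field_simp
      _ ≤ 1 / 4 := one_div_le_one_div_of_le (by norm_num) (le_trans (by norm_num) hbn)
  linarith

end Pool.Agent.CFX
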