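import Pool.Agent.CFX.SC
import Pool.Agent.CFX.L2
import Pool.Agent.CFX.L3
import Pool.Agent.CFX.TN

/-! TR1: the choices -/

namespace Pool.Agent.CFX

open Finset Pool.Agent.MD437 Pool.Agent.CFC

variable {n m : ℕ} {p l : ℝ}

/-- The choices. `P i = lst S X (n p) l b i`, `L = d / 8`, `d = n p`, `M = d / l^50`. `seq_choice`
with constraints `κ = ℕ ⊕ Fin n`, `Q` = all `inl i`, `i < N`, and all `inr z`, `z ∉ X`:
* `y (inl i) j w' = (1 / M) #{w ∈ P i : N[w] ∩ N[w'] ∩ X ≠ ∅}` if `j < i < N` and `w' ∉ N[b i]`,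
  otherwise `0`; this is at most `1` (`lst_one`); `m (inl i) j = (2 / L) ∑_{w' ∈ P j} y`
  (`exp y - 1 ≤ 2 y` on `[0, 1]`); `∑_j m ≤ (16 / (d M)) d² / 512 = d / (32 M) = l^50 / 32`
  (`lst_conf`); `cap = d / (8 M) = l^50 / 8`;
* `y (inr z) j w = θ` if `w ∈ N[z]`, otherwise `0`, `θ = 9 log l`;
  `m (inr z) j = (8 / d) l^9 |P j ∩ N[z]|`, `∑_j m ≤ 16 / l³ ≤ 1` (`lst_inc`); `cap = 4000 θ`.
So `Φ ≤ N exp (l^50/32 - l^50/8) + n exp (1 - 4000 θ) < 1` by `trans_num`. `ok i f := okc ... i f`.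
Step: if some earlier choice is in `N[b i]` skip. Otherwise
`A = {w ∈ P i : N[w] ∩ N[w'] ∩ X = ∅ for all earlier choices w'}`; the number of other `w ∈ P i` is
at most `M ∑_{j < i} y (inl i) j (f j) < M cap = d / 8`, so `|A| ≥ 7 d / 16 - d / 8 ≥ d / 8`. -/
theorem trans_choice (hB : Big n l) (hp0 : 0 < p) (h1 : l ^ 222 ≤ n * p)
    {S : Finset (Sym2 (Fin n))} (hG : GoodR2 p l S) {X : Finset (Fin n)} {b : ℕ → Fin n} {N : ℕ}
    (hN : (N : ℝ) ≤ l ^ 5005) (hinj : Set.InjOn b (Finset.range N : Set ℕ)) (hX : pre b N ⊆ X)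
    (hl : ∀ i < N, 7 / 16 * (n * p) ≤ ((lst S X (n * p) l b i).card : ℝ)) :
    ∃ f : ℕ → Option (Fin n), (∀ i < N, okc S X (n * p) l b i f) ∧
      ∀ z ∉ X, ((Finset.range N).filter (fun j => ∃ w ∈ cl S z, f j = some w)).card ≤ 4000 := by
  classical
  have hl0 := hB.pos
  have hlog := hB.log_l_ge
  set d : ℝ := n * p with hd
  have hd0 : 0 < d := lt_of_lt_of_le (hB.pow_pos' 222) h1
  have hM0 : 0 < d / l ^ 50 := div_pos hd0 (hB.pow_pos' 50)
  obtain ⟨θ, hθ⟩ : ∃ θ : ℝ, θ = 9 * Real.log l := ⟨_, rfl⟩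
  have hθ0 : 0 < θ := by rw [hθ]; linarith
  have hexpθ : Real.exp θ = l ^ 9 := by
    rw [hθ, show (9 : ℝ) * Real.log l = ((9 : ℕ) : ℝ) * Real.log l by norm_num, Real.exp_nat_mul,
      Real.exp_log hl0]
  obtain ⟨cn, hcn⟩ : ∃ cn : ℕ → Fin n → ℕ, ∀ i w', cn i w' = ((lst S X d l b i).filter
      (fun w => (cl S w ∩ cl S w' ∩ X).Nonempty)).card := ⟨_, fun _ _ => rfl⟩
  obtain ⟨y, hyl, hyr⟩ : ∃ y : ℕ ⊕ Fin n → ℕ → Fin n → ℝ,
      (∀ i j w, y (Sum.inl i) j w = if j < i ∧ w ∉ cl S (b i) then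
        (d / l ^ 50)⁻¹ * (cn i w : ℝ) else 0) ∧
      (∀ z j w, y (Sum.inr z) j w = if w ∈ cl S z then θ else 0) :=
    ⟨fun q j w => Sum.elim (fun i => if j < i ∧ w ∉ cl S (b i) then
        (d / l ^ 50)⁻¹ * (cn i w : ℝ) else 0) (fun z => if w ∈ cl S z then θ else 0) q,
      fun _ _ _ => rfl, fun _ _ _ => rfl⟩
  obtain ⟨mm, hml, hmr⟩ : ∃ mm : ℕ ⊕ Fin n → ℕ → ℝ,
      (∀ i j, mm (Sum.inl i) j = 16 / d * ∑ w ∈ lst S X d l b j, y (Sum.inl i) j w) ∧
      (∀ z j, mm (Sum.inr z) j = 8 / d * l ^ 9 * ((lst S X d l b j ∩ cl S z).card : ℝ)) :=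
    ⟨fun q j => Sum.elim (fun i => 16 / d * ∑ w ∈ lst S X d l b j, y (Sum.inl i) j w)
        (fun z => 8 / d * l ^ 9 * ((lst S X d l b j ∩ cl S z).card : ℝ)) q,
      fun _ _ => rfl, fun _ _ => rfl⟩
  obtain ⟨cap, hcl, hcr⟩ : ∃ cap : ℕ ⊕ Fin n → ℝ, (∀ i, cap (Sum.inl i) = l ^ 50 / 8) ∧
      (∀ z, cap (Sum.inr z) = 4000 * θ) :=
    ⟨fun q => Sum.elim (fun _ => l ^ 50 / 8) (fun _ => 4000 * θ) q, fun _ => rfl, fun _ => rfl⟩
  have hy0 : ∀ q j w, 0 ≤ y q j w := by
    intro q j w
    rcases q with i | z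
    · rw [hyl]
      split_ifs
      · positivity
      · exact le_rfl
    · rw [hyr]
      split_ifs
      · exact hθ0.le
      · exact le_rfl
  have hm0 : ∀ q j, 0 ≤ mm q j := by
    intro q j
    rcases q with i | z
    · rw [hml]
      exact mul_nonneg (by positivity) (sum_nonneg fun w _ => hy0 _ _ _)
    · rw [hmr]
      have := hB.pow_pos' 9
      positivity
  have hcn1 : ∀ i w, w ∉ cl S (b i) → (cn i w : ℝ) ≤ d / l ^ 50 := by
    intro i w hw
    rw [hcn]
    exact lst_one hG hw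
  have hy1 : ∀ i j w, y (Sum.inl i) j w ≤ 1 := by
    intro i j w
    rw [hyl]
    split_ifs with h
    · rw [inv_mul_le_iff₀ hM0, mul_one]
      exact hcn1 i w h.2
    · exact zero_le_one
  obtain ⟨Q, hQ⟩ : ∃ Q : Finset (ℕ ⊕ Fin n), Q = (Finset.range N).disjSum
    ((univ : Finset (Fin n)).filter (fun z => z ∉ X)) := ⟨_, rfl⟩
  have hQl : ∀ i, Sum.inl i ∈ Q ↔ i < N := by
    intro i
    rw [hQ, inl_mem_disjSum, Finset.mem_range]
  have hQr : ∀ z, Sum.inr z ∈ Q ↔ z ∉ X := by
    intro z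
    rw [hQ, inr_mem_disjSum, mem_filter]
    simp
  have hm : ∀ q ∈ Q, ∀ j < N, ∑ w ∈ lst S X d l b j, (Real.exp (y q j w) - 1) ≤
      d / 8 * mm q j := by
    intro q _ j _
    rcases q with i | z
    · rw [hml]
      have e : d / 8 * (16 / d * ∑ w ∈ lst S X d l b j, y (Sum.inl i) j w) =
          ∑ w ∈ lst S X d l b j, 2 * y (Sum.inl i) j w := by
        rw [← mul_sum]
        field_simp
        ring
      rw [e]
      refine sum_le_sum fun w _ => ?_
      have h2 := hy0 (Sum.inl i) j w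
      have h3 := hy1 i j w
      have h4 : |y (Sum.inl i) j w| ≤ 1 := by rw [abs_of_nonneg h2]; exact h3
      have h5 := (abs_le.1 (Real.abs_exp_sub_one_sub_id_le h4)).2
      have h6 : y (Sum.inl i) j w ^ 2 ≤ y (Sum.inl i) j w := by nlinarith
      linarith
    · rw [hmr]
      have e : d / 8 * (8 / d * l ^ 9 * ((lst S X d l b j ∩ cl S z).card : ℝ)) =
          l ^ 9 * ((lst S X d l b j ∩ cl S z).card : ℝ) := by
        field_simp
      rw [e]
      have e2 : ∑ w ∈ lst S X d l b j, (Real.exp (y (Sum.inr z) j w) - 1) =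
          ∑ w ∈ lst S X d l b j ∩ cl S z, (Real.exp θ - 1) := by
        rw [← filter_mem_eq_inter, sum_filter]
        refine sum_congr rfl fun w _ => ?_
        rw [hyr]
        by_cases hw : w ∈ cl S z
        · rw [if_pos hw, if_pos hw]
        · rw [if_neg hw, if_neg hw]
          simp
      rw [e2, sum_const, nsmul_eq_mul, hexpθ]
      have : (0 : ℝ) ≤ ((lst S X d l b j ∩ cl S z).card : ℝ) := Nat.cast_nonneg _
      nlinarith
  have hS1 : ∀ i < N, ∑ j ∈ Finset.range N, mm (Sum.inl i) j ≤ l ^ 50 / 32 := by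
    intro i hi
    have hc := lst_conf hB hp0 h1 hG (X := X) hinj hi
    have e : ∑ j ∈ Finset.range N, mm (Sum.inl i) j = 16 / d * (d / l ^ 50)⁻¹ *
        ((∑ j ∈ Finset.range i, ∑ w' ∈ lst S X d l b j \ cl S (b i),
        ((lst S X d l b i).filter (fun w => (cl S w ∩ cl S w' ∩ X).Nonempty)).card : ℕ) : ℝ) := by
      rw [sum_congr rfl (fun j _ => hml i j), ← mul_sum, mul_assoc]
      congr 1
      push_cast
      rw [mul_sum]
      symm
      have hss : Finset.range i ⊆ Finset.range N := by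
        intro j hj
        rw [Finset.mem_range] at hj ⊢
        omega
      rw [← sum_subset hss]
      · refine sum_congr rfl fun j hj => ?_
        rw [Finset.mem_range] at hj
        rw [mul_sum]
        have hs2 : lst S X d l b j \ cl S (b i) ⊆ lst S X d l b j := sdiff_subset
        rw [← sum_subset hs2]
        · refine sum_congr rfl fun w hw => ?_
          rw [mem_sdiff] at hw
          rw [hyl, if_pos ⟨hj, hw.2⟩, hcn]
        · intro w hw hw2
          rw [hyl, if_neg]
          rintro ⟨-, h⟩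
          exact hw2 (mem_sdiff.2 ⟨hw, h⟩)
      · intro j _ hj
        refine sum_eq_zero fun w _ => ?_
        rw [hyl, if_neg]
        rintro ⟨h, -⟩
        exact hj (Finset.mem_range.2 h)
    rw [e]
    have h2 : 0 ≤ 16 / d * (d / l ^ 50)⁻¹ := by positivity
    refine (mul_le_mul_of_nonneg_left hc h2).trans (le_of_eq ?_)
    have h50 : l ^ 50 ≠ 0 := (hB.pow_pos' 50).ne'
    generalize l ^ 50 = l50 at h50 ⊢
    field_simp
    ring
  have hS2 : ∀ z ∉ X, ∑ j ∈ Finset.range N, mm (Sum.inr z) j ≤ 1 := by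
    intro z hz
    have hc := lst_inc hB hp0 h1 hG hinj hX hz
    rw [sum_congr rfl (fun j _ => hmr z j), ← mul_sum]
    push_cast at hc
    have h2 : 0 ≤ 8 / d * l ^ 9 := by
      have := hB.pow_pos' 9
      positivity
    refine (mul_le_mul_of_nonneg_left hc h2).trans ?_
    have e : 8 / d * l ^ 9 * (2 * d / l ^ 12) = 16 / l ^ 3 := by
      have : l ^ 12 = l ^ 9 * l ^ 3 := by ring
      rw [this]
      have h9 : l ^ 9 ≠ 0 := (hB.pow_pos' 9).ne'
      have h3 : l ^ 3 ≠ 0 := (hB.pow_pos' 3).ne'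
      generalize l ^ 9 = l9 at h9 ⊢
      generalize l ^ 3 = l3 at h3 ⊢
      field_simp
      ring
    have h3 : 16 * l ^ 0 ≤ l ^ 3 := hB.mul_pow_le (by norm_num) (by norm_num)
    rw [e, div_le_one (hB.pow_pos' 3)]
    simpa using h3
  have hΦ : ∑ q ∈ Q, Real.exp (∑ j ∈ Finset.range N, mm q j - cap q) < 1 := by
    rw [hQ, sum_disjSum]
    refine lt_of_le_of_lt (add_le_add (b := (N : ℝ) * Real.exp (-(3 * l ^ 50 / 32)))
      (d := n * Real.exp (1 - 4000 * (9 * Real.log l))) ?_ ?_) (trans_num hB hN)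
    · have : ∑ i ∈ Finset.range N, Real.exp (∑ j ∈ Finset.range N, mm (Sum.inl i) j -
          cap (Sum.inl i)) ≤ ∑ _i ∈ Finset.range N, Real.exp (-(3 * l ^ 50 / 32)) := by
        refine sum_le_sum fun i hi => Real.exp_le_exp.2 ?_
        rw [Finset.mem_range] at hi
        rw [hcl]
        have := hS1 i hi
        linarith
      refine this.trans (le_of_eq ?_)
      rw [sum_const, nsmul_eq_mul, card_range]
    · have : ∑ z ∈ (univ : Finset (Fin n)).filter (fun z => z ∉ X),
          Real.exp (∑ j ∈ Finset.range N, mm (Sum.inr z) j - cap (Sum.inr z)) ≤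
          ∑ _z ∈ (univ : Finset (Fin n)).filter (fun z => z ∉ X),
            Real.exp (1 - 4000 * (9 * Real.log l)) := by
        refine sum_le_sum fun z hz => Real.exp_le_exp.2 ?_
        rw [mem_filter] at hz
        rw [hcr, hθ]
        have := hS2 z hz.2
        linarith
      refine this.trans ?_
      rw [sum_const, nsmul_eq_mul]
      refine mul_le_mul_of_nonneg_right ?_ (Real.exp_pos _).le
      have h2 := card_le_univ ((univ : Finset (Fin n)).filter (fun z => z ∉ X))
      rw [Fintype.card_fin] at h2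
      exact_mod_cast h2
  have hdep : ∀ (i : ℕ) (f g : ℕ → Option (Fin n)), (∀ k ≤ i, f k = g k) →
      okc S X d l b i f → okc S X d l b i g := by
    intro i f g hfg hok
    unfold okc at hok ⊢
    rcases hok with ⟨h2, j, hj, w, h3, h4⟩ | ⟨w, hw, h2, h3⟩
    · exact Or.inl ⟨by rw [← hfg i le_rfl]; exact h2, j, hj, w, by rw [← hfg j hj.le]; exact h3, h4⟩
    · refine Or.inr ⟨w, hw, by rw [← hfg i le_rfl]; exact h2, ?_⟩
      intro j hj w' hw'
      exact h3 j hj w' (by rw [hfg j hj.le]; exact hw')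
  have hstep : ∀ j < N, ∀ f : ℕ → Option (Fin n), (∀ i < j, okc S X d l b i f) →
      (∀ q ∈ Q, ∑ i ∈ Finset.range j, yv y q i (f i) < cap q) →
      okc S X d l b j (Function.update f j none) ∨
        ∃ A ⊆ lst S X d l b j, d / 8 ≤ A.card ∧
          ∀ w ∈ A, okc S X d l b j (Function.update f j (some w)) := by
    intro j hj f _ hcap
    by_cases hskip : ∃ i < j, ∃ w, f i = some w ∧ w ∈ cl S (b j)
    · left
      obtain ⟨i, hi, w, h2, h3⟩ := hskip
      refine Or.inl ⟨Function.update_self _ _ _, i, hi, w, ?_, h3⟩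
      rw [Function.update_of_ne (by omega)]
      exact h2
    · right
      push Not at hskip
      have hcj := hcap (Sum.inl j) ((hQl j).2 hj)
      rw [hcl] at hcj
      obtain ⟨A, hA⟩ : ∃ A : Finset (Fin n), A = (lst S X d l b j).filter
        (fun w => ∀ i < j, ∀ w', f i = some w' → cl S w ∩ cl S w' ∩ X = ∅) := ⟨_, rfl⟩
      refine ⟨A, ?_, ?_, ?_⟩
      · rw [hA]
        exact filter_subset _ _
      · have hcompl : (lst S X d l b j).filter
            (fun w => ¬ ∀ i < j, ∀ w', f i = some w' → cl S w ∩ cl S w' ∩ X = ∅) ⊆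
            (Finset.range j).biUnion (fun i => (lst S X d l b j).filter
              (fun w => ∃ w', f i = some w' ∧ (cl S w ∩ cl S w' ∩ X).Nonempty)) := by
          intro w hw
          rw [mem_filter] at hw
          obtain ⟨hw1, hw2⟩ := hw
          push Not at hw2
          obtain ⟨i, hi, w', hw', hne⟩ := hw2
          rw [mem_biUnion]
          exact ⟨i, Finset.mem_range.2 hi, mem_filter.2
            ⟨hw1, w', hw', hne⟩⟩
        have hc1 := (card_le_card hcompl).trans card_biUnion_le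
        have hc2 : ((∑ i ∈ Finset.range j, ((lst S X d l b j).filter
              (fun w => ∃ w', f i = some w' ∧ (cl S w ∩ cl S w' ∩ X).Nonempty)).card : ℕ) : ℝ) =
            d / l ^ 50 * ∑ i ∈ Finset.range j, yv y (Sum.inl j) i (f i) := by
          rw [Nat.cast_sum, mul_sum]
          refine sum_congr rfl fun i hi => ?_
          rw [Finset.mem_range] at hi
          rcases hfi : f i with _ | w'
          · simp [yv]
          · simp only [yv]
            rw [hyl, if_pos ⟨hi, hskip i hi w' hfi⟩, ← mul_assoc, mul_inv_cancel₀ hM0.ne', one_mul,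
              hcn]
            congr 2
            refine filter_congr fun w _ => ?_
            constructor
            · rintro ⟨w'', h, h'⟩
              rw [← Option.some.inj h] at h'
              exact h'
            · intro h
              exact ⟨w', rfl, h⟩
        have hc3 : d / l ^ 50 * ∑ i ∈ Finset.range j, yv y (Sum.inl j) i (f i) ≤ d / 8 := by
          refine (mul_le_mul_of_nonneg_left hcj.le hM0.le).trans (le_of_eq ?_)
          have h50 : l ^ 50 ≠ 0 := (hB.pow_pos' 50).ne'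
          generalize l ^ 50 = l50 at h50 ⊢
          field_simp
        have hc4 := card_filter_add_card_filter_not (s := lst S X d l b j)
          (fun w => ∀ i < j, ∀ w', f i = some w' → cl S w ∩ cl S w' ∩ X = ∅)
        rw [← hA] at hc4
        have hc5 := hl j hj
        have hc4' : (A.card : ℝ) + (((lst S X d l b j).filter
            (fun w => ¬ ∀ i < j, ∀ w', f i = some w' → cl S w ∩ cl S w' ∩ X = ∅)).card : ℝ) =
            ((lst S X d l b j).card : ℝ) := by exact_mod_cast hc4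
        have hc1' : (((lst S X d l b j).filter
            (fun w => ¬ ∀ i < j, ∀ w', f i = some w' → cl S w ∩ cl S w' ∩ X = ∅)).card : ℝ) ≤
            ((∑ i ∈ Finset.range j, ((lst S X d l b j).filter
              (fun w => ∃ w', f i = some w' ∧ (cl S w ∩ cl S w' ∩ X).Nonempty)).card : ℕ) : ℝ) := by
          exact_mod_cast hc1
        linarith
      · intro w hw
        rw [hA, mem_filter] at hw
        refine Or.inr ⟨w, hw.1, Function.update_self _ _ _, ?_⟩
        intro i hi w' hw'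
        rw [Function.update_of_ne (by omega)] at hw'
        exact ⟨hskip i hi w' hw', hw.2 i hi w' hw'⟩
  obtain ⟨f, hf1, hf2⟩ := seq_choice N (fun j => lst S X d l b j) (L := d / 8) (by positivity) Q y
    mm cap hm0 hy0 hm hΦ (fun i f => okc S X d l b i f) hdep hstep
  refine ⟨f, hf1, ?_⟩
  intro z hz
  have h2 := hf2 (Sum.inr z) ((hQr z).2 hz)
  rw [hcr] at h2
  have e : ∑ i ∈ Finset.range N, yv y (Sum.inr z) i (f i) =
      (((Finset.range N).filter (fun j => ∃ w ∈ cl S z, f j = some w)).card : ℝ) * θ := by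
    rw [card_filter, Nat.cast_sum, sum_mul]
    refine sum_congr rfl fun i _ => ?_
    rcases hfi : f i with _ | w
    · rw [if_neg]
      · simp [yv]
      · rintro ⟨w, -, h⟩
        exact absurd h (by simp)
    · simp only [yv]
      rw [hyr]
      by_cases hw : w ∈ cl S z
      · rw [if_pos hw, if_pos ⟨w, hw, rfl⟩]
        simp
      · rw [if_neg hw, if_neg]
        · simp
        · rintro ⟨w', hw', h⟩
          exact hw (Option.some.inj h ▸ hw')
  rw [e] at h2
  have h3 := lt_of_mul_lt_mul_right h2 hθ0.le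
  have h4 : ((Finset.range N).filter (fun j => ∃ w ∈ cl S z, f j = some w)).card < 4000 := by
    exact_mod_cast h3
  omega

end Pool.Agent.CFX
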