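import Pool.Agent.CFX.L1
import Pool.Agent.CFX.TR1

/-! TR2: the set `T` which receives the new colour, for `l^222 ≤ n p ≤ l^4200` -/

namespace Pool.Agent.CFX

open Finset Pool.Agent.MD437 Pool.Agent.CFC

variable {n m : ℕ} {p l : ℝ}

/-- Every `b ∈ B` is hit exactly once, every `z ∈ X` at most once, and every other vertex at most
4000 times. Proof: `exists_enum`, `trans_choice` with `N = |B|`; `T` = the set of all choices
`f i`, `i < N`. If two different choices `w` (at `i`), `w'` (at `j < i`) are both in `N[z]`,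
`z ∈ X`, then `z ∈ N[w] ∩ N[w'] ∩ X`, a contradiction; every `b i` is hit (by an earlier choice or
by `w_i ∈ N(b i)`), and `b i ∈ X`; for `z ∉ X` the number of `j` with `f j ∈ N[z]` is at most
`4000`. -/
theorem trans (hB : Big n l) (hp0 : 0 < p) (hp1 : p ≤ 1) (h1 : l ^ 222 ≤ n * p)
    (h2 : n * p ≤ l ^ 4200) {S : Finset (Sym2 (Fin n))} (hG : GoodR2 p l S)
    (B X : Finset (Fin n)) (hs : (B.card : ℝ) ≤ l ^ 5005) (hBX : B ⊆ X)
    (hX : (X.card : ℝ) ≤ l ^ 8 / p) :
    ∃ T : Finset (Fin n), (∀ b ∈ B, (cl S b ∩ T).card = 1) ∧ (∀ z ∈ X, (cl S z ∩ T).card ≤ 1) ∧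
      ∀ z ∉ X, (cl S z ∩ T).card ≤ 4000 := by
  classical
  obtain ⟨b, hinj, hpre, hl⟩ := exists_enum hB hp0 hp1 h1 h2 hG B X hs hBX hX
  obtain ⟨f, hok, hcount⟩ := trans_choice hB hp0 h1 hG hs hinj
    (by rw [hpre]; exact hBX) hl
  set T : Finset (Fin n) := univ.filter (fun w => ∃ i < B.card, f i = some w) with hT
  have memT : ∀ w, w ∈ T ↔ ∃ i < B.card, f i = some w := by
    intro w
    rw [hT, mem_filter]
    exact ⟨fun h => h.2, fun h => ⟨mem_univ _, h⟩⟩
  have key : ∀ z ∈ X, ∀ i < B.card, ∀ j < i, ∀ w w', f i = some w → f j = some w' →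
      w ∈ cl S z → w' ∈ cl S z → False := by
    intro z hz i hi j hj w w' hw hw' h3 h4
    rcases hok i hi with h5 | ⟨v, -, hv, h5⟩
    · rw [h5.1] at hw
      exact absurd hw (by simp)
    · rw [hw] at hv
      have hvw : w = v := Option.some.inj hv
      have h6 := (h5 j hj w' hw').2
      rw [← hvw] at h6
      have h7 : z ∈ cl S w ∩ cl S w' ∩ X := by
        rw [mem_inter, mem_inter]
        exact ⟨⟨mem_cl_comm.1 h3, mem_cl_comm.1 h4⟩, hz⟩
      rw [h6] at h7
      exact absurd h7 (notMem_empty _)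
  have atmost : ∀ z ∈ X, (cl S z ∩ T).card ≤ 1 := by
    intro z hz
    rw [card_le_one]
    intro w hw w' hw'
    rw [mem_inter, memT] at hw hw'
    obtain ⟨hw1, i, hi, hfi⟩ := hw
    obtain ⟨hw2, j, hj, hfj⟩ := hw'
    rcases lt_trichotomy i j with h | h | h
    · exact absurd (key z hz j hj i h w' w hfj hfi hw2 hw1) id
    · subst h
      rw [hfi] at hfj
      exact Option.some.inj hfj
    · exact absurd (key z hz i hi j h w w' hfi hfj hw1 hw2) id
  refine ⟨T, ?_, atmost, ?_⟩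
  · intro x hx
    refine le_antisymm (atmost x (hBX hx)) ?_
    rw [Nat.one_le_iff_ne_zero, ← Nat.pos_iff_ne_zero, card_pos]
    rw [← hpre, pre, mem_image] at hx
    obtain ⟨i, hi, rfl⟩ := hx
    rw [mem_range] at hi
    rcases hok i hi with h5 | ⟨v, hv1, hv, h5⟩
    · obtain ⟨-, j, hj, w, hw, hw2⟩ := h5
      exact ⟨w, mem_inter.2 ⟨hw2, (memT w).2 ⟨j, hj.trans hi, hw⟩⟩⟩
    · refine ⟨v, mem_inter.2 ⟨?_, (memT v).2 ⟨i, hi, hv⟩⟩⟩
      unfold lst at hv1
      exact nb_sub_cl S _ (mem_filter.1 hv1).1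
  · intro z hz
    refine le_trans ?_ (hcount z hz)
    have h6 : cl S z ∩ T ⊆ ((Finset.range B.card).filter
        (fun j => ∃ w ∈ cl S z, f j = some w)).image (fun j => (f j).getD z) := by
      intro w hw
      rw [mem_inter, memT] at hw
      obtain ⟨hw1, i, hi, hfi⟩ := hw
      rw [mem_image]
      refine ⟨i, mem_filter.2 ⟨mem_range.2 hi, w, hw1, hfi⟩, ?_⟩
      rw [hfi]
      rfl
    refine (card_le_card h6).trans (card_image_le.trans (le_of_eq ?_))
    congr 1

end Pool.Agent.CFX
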