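import Pool.Agent.CFX.Props

/-! VD: one step of Efron-Stein for the number of defects -/

namespace Pool.Agent.CFX

open Finset Pool.Agent.MD437 Pool.Agent.CFC

variable {n m : ℕ}

private lemma VD_cl_other (S : Finset (Sym2 (Fin n))) {x y v : Fin n} (hx : v ≠ x) (hy : v ≠ y) :
    cl (insert s(x, y) S) v = cl S v := by
  ext z
  rw [mem_cl, mem_cl, ad, ad, mem_insert]
  have : ¬ s(v, z) = s(x, y) := by
    intro h
    rcases Sym2.eq_iff.1 h with ⟨h1, -⟩ | ⟨h1, -⟩
    · exact hx h1
    · exact hy h1
  tauto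

private lemma VD_cl_end (S : Finset (Sym2 (Fin n))) {v w : Fin n} (hvw : v ≠ w) :
    cl (insert s(v, w) S) v = insert w (cl S v) := by
  ext z
  rw [mem_insert, mem_cl, mem_cl, ad, ad, mem_insert]
  constructor
  · rintro (h | ⟨h1, h2 | h2⟩)
    · exact Or.inr (Or.inl h)
    · rcases Sym2.eq_iff.1 h2 with ⟨-, h3⟩ | ⟨h3, h4⟩
      · exact Or.inl h3
      · exact absurd h3 hvw
    · exact Or.inr (Or.inr ⟨h1, h2⟩)
  · rintro (rfl | h | ⟨h1, h2⟩)
    · exact Or.inr ⟨hvw, Or.inl rfl⟩
    · exact Or.inl h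
    · exact Or.inr ⟨h1, Or.inr h2⟩

private lemma VD_notMem {S : Finset (Sym2 (Fin n))} {v w : Fin n} (hvw : v ≠ w)
    (he : s(v, w) ∉ S) : w ∉ cl S v := by
  rw [mem_cl, ad]
  rintro (h | ⟨-, h⟩)
  · exact hvw h.symm
  · exact he h

private lemma VD_up {S : Finset (Sym2 (Fin n))} {c : Fin n → Option (Fin m)} {v w : Fin n}
    (hvw : v ≠ w) (he : s(v, w) ∉ S) (h0 : v ∉ bad S c)
    (h1 : v ∈ bad (insert s(v, w) S) c) : (v, w) ∈ upP S c := by
  have hw := VD_notMem hvw he
  rw [mem_bad] at h0 h1
  have key : ∀ j ∈ uq S c v, w ∈ cls c j := by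
    intro j hj
    by_contra hn
    have : j ∈ uq (insert s(v, w) S) c v := by
      rw [mem_uq, VD_cl_end S hvw, insert_inter_of_notMem hn]
      exact mem_uq.1 hj
    rw [h1] at this
    exact notMem_empty _ this
  obtain ⟨j, hj⟩ := nonempty_iff_ne_empty.2 h0
  unfold upP
  rw [mem_filter]
  refine ⟨mem_univ _, hvw, ?_, ?_, j, hj, key j hj⟩
  · rintro ⟨-, h⟩
    exact he h
  · rw [mem_fr, card_le_one]
    intro i hi k hk
    have h2 := mem_cls.1 (key i hi)
    have h3 := mem_cls.1 (key k hk)
    rw [h2] at h3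
    exact Option.some.inj h3

private lemma VD_dn {S : Finset (Sym2 (Fin n))} {c : Fin n → Option (Fin m)} {v w : Fin n}
    (hvw : v ≠ w) (he : s(v, w) ∉ S) (h0 : v ∈ bad S c)
    (h1 : v ∉ bad (insert s(v, w) S) c) : (v, w) ∈ dnP (insert s(v, w) S) c := by
  have hw := VD_notMem hvw he
  rw [mem_bad] at h0 h1
  have key : ∀ j ∈ uq (insert s(v, w) S) c v,
      cl (insert s(v, w) S) v ∩ cls c j = {w} := by
    intro j hj
    have h2 := mem_uq.1 hj
    have hwj : w ∈ cls c j := by
      by_contra hn
      have : j ∈ uq S c v := by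
        rw [VD_cl_end S hvw, insert_inter_of_notMem hn] at h2
        exact mem_uq.2 h2
      rw [h0] at this
      exact notMem_empty _ this
    obtain ⟨u, hu⟩ := card_eq_one.1 h2
    have : w ∈ cl (insert s(v, w) S) v ∩ cls c j := by
      rw [mem_inter]
      refine ⟨?_, hwj⟩
      rw [VD_cl_end S hvw]
      exact mem_insert_self _ _
    rw [hu, mem_singleton] at this
    rw [hu, this]
  obtain ⟨j, hj⟩ := nonempty_iff_ne_empty.2 h1
  unfold dnP
  rw [mem_filter]
  refine ⟨mem_univ _, ⟨hvw, mem_insert_self _ _⟩, ?_, j, hj, key j hj⟩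
  rw [mem_fr, card_le_one]
  intro i hi k hk
  have hi' : w ∈ cl (insert s(v, w) S) v ∩ cls c i := by
    rw [key i hi]; exact mem_singleton_self w
  have hk' : w ∈ cl (insert s(v, w) S) v ∩ cls c k := by
    rw [key k hk]; exact mem_singleton_self w
  have h2 := mem_cls.1 (mem_inter.1 hi').2
  have h3 := mem_cls.1 (mem_inter.1 hk').2
  rw [h2] at h3
  exact Option.some.inj h3

private lemma VD_bad_other (S : Finset (Sym2 (Fin n))) (c : Fin n → Option (Fin m))
    {x y v : Fin n} (hx : v ≠ x) (hy : v ≠ y) :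
    v ∈ bad (insert s(x, y) S) c ↔ v ∈ bad S c := by
  rw [mem_bad, mem_bad]
  have : uq (insert s(x, y) S) c v = uq S c v := by
    ext j
    rw [mem_uq, mem_uq, VD_cl_other S hx hy]
  rw [this]

/-- the other end -/
private lemma VD_card {x y : Fin n} (hxy : x ≠ y) (D : Finset (Fin n))
    (P : Finset (Fin n × Fin n)) (hD : ∀ v ∈ D, v = x ∨ v = y)
    (hx : x ∈ D → (x, y) ∈ P) (hy : y ∈ D → (y, x) ∈ P) :
    D.card ≤ 2 ∧ D.card ≤ (P.filter (fun q => s(q.1, q.2) = s(x, y))).card := by
  constructor
  · have : D ⊆ {x, y} := by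
      intro v hv
      rw [mem_insert, mem_singleton]
      exact hD v hv
    exact (card_le_card this).trans card_le_two
  · refine card_le_card_of_injOn (fun v => (v, if v = x then y else x)) ?_ ?_
    · intro v hv
      rw [mem_coe] at hv ⊢
      rw [mem_filter]
      rcases hD v hv with h | h
      · subst h
        have e : (if v = v then y else v) = y := if_pos rfl
        show (v, if v = v then y else v) ∈ P ∧ s(v, if v = v then y else v) = s(v, y)
        rw [e]
        exact ⟨hx hv, rfl⟩
      · subst h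
        have e : (if v = x then v else x) = x := if_neg (Ne.symm hxy)
        show (v, if v = x then v else x) ∈ P ∧ s(v, if v = x then v else x) = s(x, v)
        rw [e]
        exact ⟨hy hv, Sym2.eq_swap⟩
    · intro a _ b _ h
      exact (Prod.ext_iff.1 h).1

/-- One step of Efron-Stein. Let `e = s(x, y)`, `S⁻ = S.erase e`, `S⁺ = insert e S`.
(a) If `defect S⁻ < defect S⁺ (≤ t)` let `c = mn F t S⁻`. The difference is at most the number
`N ≤ 2` of ends `v` of `e` with `v ∉ bad S⁻ c`, `v ∈ bad S⁺ c`, and `N² ≤ 2 N`. For such an end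
`v` with the other end `w`: adding `w` to `cl S⁻ v` only affects the colour of `w`, so
`uq S⁻ c v = {j}` with `c w = some j`; so `(v, w) ∈ upP S⁻ c`.
(b) If `defect S⁺ < defect S⁻` let `c = mn F t S⁺`; an end `v` which is in `bad S⁻ c` but not in
`bad S⁺ c` has `uq S⁺ c v = {j}`, and `w` is the only vertex of `cl S⁺ v ∩ cls c j`; so
`(v, w) ∈ dnP S⁺ c`. -/
theorem diff_sq (F : Finset (Fin n → Option (Fin m))) (t : ℕ) {x y : Fin n} (hxy : x ≠ y)
    (S : Finset (Sym2 (Fin n))) :
    ((defect F t (insert s(x, y) S) : ℝ) - (defect F t (S.erase s(x, y)) : ℝ)) ^ 2 ≤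
      (if defect F t (S.erase s(x, y)) < t then
        2 * (((upP (S.erase s(x, y)) (mn F t (S.erase s(x, y)))).filter
          (fun q => s(q.1, q.2) = s(x, y))).card : ℝ) else 0) +
      (if defect F t (insert s(x, y) S) < t then
        2 * (((dnP (insert s(x, y) S) (mn F t (insert s(x, y) S))).filter
          (fun q => s(q.1, q.2) = s(x, y))).card : ℝ) else 0) := by
  have hins : insert s(x, y) S = insert s(x, y) (S.erase s(x, y)) := by
    ext e
    simp only [mem_insert, mem_erase]
    tauto
  have he : s(x, y) ∉ S.erase s(x, y) := notMem_erase _ _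
  have he' : s(y, x) ∉ S.erase s(x, y) := by
    have e : s(y, x) = s(x, y) := Sym2.eq_swap
    rw [e]
    exact he
  rw [hins]
  generalize S.erase s(x, y) = S0 at he he'
  have hsw : insert s(x, y) S0 = insert s(y, x) S0 := by
    rw [Sym2.eq_swap]
  have n1 : (0 : ℝ) ≤ (if defect F t S0 < t then
        2 * (((upP S0 (mn F t S0)).filter (fun q => s(q.1, q.2) = s(x, y))).card : ℝ)
          else 0) := by
    split_ifs <;> positivity
  have n2 : (0 : ℝ) ≤ (if defect F t (insert s(x, y) S0) < t then
        2 * (((dnP (insert s(x, y) S0) (mn F t (insert s(x, y) S0))).filter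
          (fun q => s(q.1, q.2) = s(x, y))).card : ℝ) else 0) := by
    split_ifs <;> positivity
  rcases lt_trichotomy (defect F t S0) (defect F t (insert s(x, y) S0)) with h | h | h
  · have ht : defect F t S0 < t := lt_of_lt_of_le h (defect_le_t _ _ _)
    obtain ⟨hc1, hc2⟩ := mn_spec ht
    refine le_trans ?_ (le_add_of_nonneg_right n2)
    rw [if_pos ht]
    generalize mn F t S0 = c at hc1 hc2
    obtain ⟨k1, k2⟩ := VD_card hxy (bad (insert s(x, y) S0) c \ bad S0 c) (upP S0 c) (by
      intro v hv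
      rw [mem_sdiff] at hv
      by_contra hcon
      push Not at hcon
      exact hv.2 ((VD_bad_other S0 c hcon.1 hcon.2).1 hv.1)) (by
      intro hv
      rw [mem_sdiff] at hv
      exact VD_up hxy he hv.2 hv.1) (by
      intro hv
      rw [mem_sdiff, hsw] at hv
      exact VD_up hxy.symm he' hv.2 hv.1)
    have k3 : (bad (insert s(x, y) S0) c).card ≤
        (bad (insert s(x, y) S0) c \ bad S0 c).card + (bad S0 c).card := by
      have := card_le_card_sdiff_add_card (s := bad (insert s(x, y) S0) c) (t := bad S0 c)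
      exact this
    have k4 := defect_le hc1 t (insert s(x, y) S0)
    have k5 : defect F t (insert s(x, y) S0) ≤
        (bad (insert s(x, y) S0) c \ bad S0 c).card + defect F t S0 := by omega
    have r1 : ((defect F t (insert s(x, y) S0) : ℕ) : ℝ) ≤
        ((bad (insert s(x, y) S0) c \ bad S0 c).card : ℝ) + (defect F t S0 : ℝ) := by
      exact_mod_cast k5
    have r2 : ((bad (insert s(x, y) S0) c \ bad S0 c).card : ℝ) ≤ 2 := by exact_mod_cast k1
    have r3 : ((bad (insert s(x, y) S0) c \ bad S0 c).card : ℝ) ≤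
        (((upP S0 c).filter (fun q => s(q.1, q.2) = s(x, y))).card : ℝ) := by exact_mod_cast k2
    have r4 : (defect F t S0 : ℝ) ≤ (defect F t (insert s(x, y) S0) : ℝ) := by
      exact_mod_cast h.le
    nlinarith [r1, r2, r3, r4]
  · rw [h]
    simp only [sub_self]
    have := add_nonneg n1 n2
    rw [h] at this
    simpa using this
  · have ht : defect F t (insert s(x, y) S0) < t := lt_of_lt_of_le h (defect_le_t _ _ _)
    obtain ⟨hc1, hc2⟩ := mn_spec ht
    refine le_trans ?_ (le_add_of_nonneg_left n1)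
    rw [if_pos ht]
    generalize mn F t (insert s(x, y) S0) = c at hc1 hc2
    obtain ⟨k1, k2⟩ := VD_card hxy (bad S0 c \ bad (insert s(x, y) S0) c)
      (dnP (insert s(x, y) S0) c) (by
      intro v hv
      rw [mem_sdiff] at hv
      by_contra hcon
      push Not at hcon
      exact hv.2 ((VD_bad_other S0 c hcon.1 hcon.2).2 hv.1)) (by
      intro hv
      rw [mem_sdiff] at hv
      exact VD_dn hxy he hv.1 hv.2) (by
      intro hv
      rw [mem_sdiff, hsw] at hv
      rw [hsw]
      exact VD_dn hxy.symm he' hv.1 hv.2)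
    have k3 : (bad S0 c).card ≤
        (bad S0 c \ bad (insert s(x, y) S0) c).card + (bad (insert s(x, y) S0) c).card := by
      have := card_le_card_sdiff_add_card (s := bad S0 c) (t := bad (insert s(x, y) S0) c)
      exact this
    have k4 := defect_le hc1 t S0
    have k5 : defect F t S0 ≤
        (bad S0 c \ bad (insert s(x, y) S0) c).card + defect F t (insert s(x, y) S0) := by omega
    have r1 : ((defect F t S0 : ℕ) : ℝ) ≤
        ((bad S0 c \ bad (insert s(x, y) S0) c).card : ℝ) +
          (defect F t (insert s(x, y) S0) : ℝ) := by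
      exact_mod_cast k5
    have r2 : ((bad S0 c \ bad (insert s(x, y) S0) c).card : ℝ) ≤ 2 := by exact_mod_cast k1
    have r3 : ((bad S0 c \ bad (insert s(x, y) S0) c).card : ℝ) ≤
        (((dnP (insert s(x, y) S0) c).filter (fun q => s(q.1, q.2) = s(x, y))).card : ℝ) := by
      exact_mod_cast k2
    have r4 : (defect F t (insert s(x, y) S0) : ℝ) ≤ (defect F t S0 : ℝ) := by
      exact_mod_cast h.le
    nlinarith [r1, r2, r3, r4]

end Pool.Agent.CFX
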