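import Pool.Agent.CFX.Props
import Pool.Agent.CFX.VD

/-! VB: the variance of the number of defects -/

namespace Pool.Agent.CFX

open Finset Pool.Agent.MD437 Pool.Agent.CFC

variable {n m : ℕ}

private lemma vb_erase {ι : Type*} [DecidableEq ι] {p : ℝ} (hp0 : 0 ≤ p) (hp1 : p ≤ 1 / 2)
    {A : Finset ι} {e : ι} (he : e ∈ A) (g : Finset ι → ℝ) (hg : ∀ S, 0 ≤ g S) :
    ex p A (fun S => g (S.erase e)) ≤ 2 * ex p A g := by
  have hp1' : p ≤ 1 := by linarith
  have hA : A = insert e (A.erase e) := (Finset.insert_erase he).symm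
  rw [hA, ex_insert p (Finset.notMem_erase e A), ex_insert p (Finset.notMem_erase e A)]
  have h1 : ex p (A.erase e) (fun S => g (S.erase e)) = ex p (A.erase e) g := by
    refine ex_congr p fun S hS => ?_
    rw [Finset.erase_eq_of_notMem (fun h => Finset.notMem_erase e A (hS h))]
  have h2 : ex p (A.erase e) (fun S => g ((insert e S).erase e)) = ex p (A.erase e) g := by
    refine ex_congr p fun S hS => ?_
    rw [Finset.erase_insert (fun h => Finset.notMem_erase e A (hS h))]
  rw [h1, h2]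
  have h3 : 0 ≤ ex p (A.erase e) g := ex_nonneg hp0 hp1' fun S _ => hg S
  have h4 : 0 ≤ ex p (A.erase e) (fun S => g (insert e S)) :=
    ex_nonneg hp0 hp1' fun S _ => hg _
  nlinarith [mul_nonneg hp0 h4, mul_nonneg (show 0 ≤ 1 / 2 - p by linarith) h3]

private lemma vb_insert {ι : Type*} [DecidableEq ι] {p : ℝ} (hp0 : 0 ≤ p) (hp1 : p ≤ 1)
    {A : Finset ι} {e : ι} (he : e ∈ A) (g : Finset ι → ℝ) (hg : ∀ S, 0 ≤ g S) :
    p * ex p A (fun S => g (insert e S)) ≤ ex p A g := by
  have hA : A = insert e (A.erase e) := (Finset.insert_erase he).symm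
  rw [hA, ex_insert p (Finset.notMem_erase e A), ex_insert p (Finset.notMem_erase e A)]
  have h2 : ex p (A.erase e) (fun S => g (insert e (insert e S))) =
      ex p (A.erase e) (fun S => g (insert e S)) := by
    refine ex_congr p fun S _ => ?_
    rw [Finset.insert_idem]
  rw [h2]
  have h3 : 0 ≤ ex p (A.erase e) g := ex_nonneg hp0 hp1 fun S _ => hg S
  have h4 : 0 ≤ ex p (A.erase e) (fun S => g (insert e S)) :=
    ex_nonneg hp0 hp1 fun S _ => hg _
  nlinarith [mul_nonneg (show 0 ≤ 1 - p by linarith) h3]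

private lemma vb_up (S : Finset (Sym2 (Fin n))) (c : Fin n → Option (Fin m)) {M : ℝ}
    (hM0 : 0 ≤ M) (hM : ∀ j, ((cls c j).card : ℝ) ≤ M) :
    ((upP S c).card : ℝ) ≤ M * (fr S c 1).card := by
  have h0 : ∀ q ∈ upP S c, q.1 ∈ fr S c 1 := by
    intro q hq
    rw [upP, mem_filter] at hq
    exact hq.2.2.2.1
  rw [card_eq_sum_card_fiberwise h0, Nat.cast_sum, mul_comm, ← nsmul_eq_mul, ← sum_const]
  refine sum_le_sum fun v hv => ?_
  have h1 : (((upP S c).filter (fun q => q.1 = v)).card : ℕ) ≤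
      ∑ j ∈ uq S c v, (cls c j).card := by
    have h2 : ((upP S c).filter (fun q => q.1 = v)).card ≤
        ((uq S c v).biUnion (fun j => cls c j)).card := by
      refine card_le_card_of_injOn (fun q => q.2) ?_ ?_
      · intro q hq
        rw [mem_coe, mem_filter, upP, mem_filter] at hq
        obtain ⟨⟨-, -, -, -, j, hj, hq2⟩, rfl⟩ := hq
        exact mem_coe.2 (mem_biUnion.2 ⟨j, hj, hq2⟩)
      · intro q hq q' hq' hqq
        rw [mem_coe, mem_filter] at hq hq'
        exact Prod.ext (hq.2.trans hq'.2.symm) hqq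
    exact h2.trans card_biUnion_le
  have h3 : (((upP S c).filter (fun q => q.1 = v)).card : ℝ) ≤
      ∑ j ∈ uq S c v, ((cls c j).card : ℝ) := by exact_mod_cast h1
  refine h3.trans ((sum_le_sum fun j _ => hM j).trans ?_)
  rw [sum_const, nsmul_eq_mul]
  rw [mem_fr] at hv
  have h4 : ((uq S c v).card : ℝ) ≤ 1 := by exact_mod_cast hv
  nlinarith

private lemma vb_dn (S : Finset (Sym2 (Fin n))) (c : Fin n → Option (Fin m)) :
    ((dnP S c).card : ℝ) ≤ (fr S c 1).card := by
  have h0 : ∀ q ∈ dnP S c, q.1 ∈ fr S c 1 := by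
    intro q hq
    rw [dnP, mem_filter] at hq
    exact hq.2.2.1
  have h1 : (dnP S c).card ≤ (fr S c 1).card := by
    rw [card_eq_sum_card_fiberwise h0, card_eq_sum_ones (fr S c 1)]
    refine sum_le_sum fun v hv => ?_
    rw [card_le_one]
    intro q hq q' hq'
    rw [mem_filter, dnP, mem_filter] at hq hq'
    obtain ⟨⟨-, -, -, j, hj, hq2⟩, hv1⟩ := hq
    obtain ⟨⟨-, -, -, j', hj', hq2'⟩, hv2⟩ := hq'
    rw [hv1] at hj hq2
    rw [hv2] at hj' hq2'
    rw [mem_fr] at hv
    have hjj : j = j' := card_le_one.1 hv j hj j' hj'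
    subst hjj
    rw [hq2] at hq2'
    exact Prod.ext (hv1.trans hv2.symm) (singleton_injective hq2')
  exact_mod_cast h1

/-- The bound by the number of vertices with exactly one unique colour. Hypothesis `hgood`: with
probability at least `1 - δ` every colouring of the family with fewer than `t` defects has at most
`x0` vertices with at most one unique colour.

Proof. By `efron_stein` and `diff_sq` the variance is at most
`p ∑_e E [U_e (S.erase e) + D_e (insert e S)]`. Here `E g(S.erase e) = E [g(S); e ∉ S] / (1 - p)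
≤ 2 E [g(S); e ∉ S]` and `p E g(insert e S) = E [g(S); e ∈ S]`. So it is at most
`E [4 p |upP S c| + 2 |dnP S c| ; defect < t]` with `c = mn F t S`, and `|upP S c| ≤ M |fr S c 1|`,
`|dnP S c| ≤ |fr S c 1|` (a vertex of `fr S c 1` has at most one unique colour). Finally
`E [|fr S c 1| ; defect < t] ≤ x0 + n δ`. -/
theorem var_bound {p : ℝ} (hp0 : 0 ≤ p) (hp1 : p ≤ 1 / 2)
    (F : Finset (Fin n → Option (Fin m))) (t : ℕ) {M x0 δ : ℝ} (hM0 : 0 ≤ M) (hx0 : 0 ≤ x0)
    (hM : ∀ c ∈ F, ∀ j, ((cls c j).card : ℝ) ≤ M)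
    (hgood : pr p (E n) (fun S => ¬ ∀ c ∈ F, (bad S c).card < t → ((fr S c 1).card : ℝ) ≤ x0)
      ≤ δ) :
    ex p (E n) (fun S => (defect F t S : ℝ) ^ 2) -
      (ex p (E n) (fun S => (defect F t S : ℝ))) ^ 2 ≤ (4 * p * M + 2) * (x0 + n * δ) := by
  classical
  have hp1' : p ≤ 1 := by linarith
  obtain ⟨U, hU⟩ : ∃ U : Sym2 (Fin n) → Finset (Sym2 (Fin n)) → ℝ, ∀ e S, U e S =
      if defect F t S < t then
        2 * (((upP S (mn F t S)).filter (fun q => s(q.1, q.2) = e)).card : ℝ) else 0 :=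
    ⟨_, fun _ _ => rfl⟩
  obtain ⟨D, hD⟩ : ∃ D : Sym2 (Fin n) → Finset (Sym2 (Fin n)) → ℝ, ∀ e S, D e S =
      if defect F t S < t then
        2 * (((dnP S (mn F t S)).filter (fun q => s(q.1, q.2) = e)).card : ℝ) else 0 :=
    ⟨_, fun _ _ => rfl⟩
  have hU0 : ∀ e S, 0 ≤ U e S := fun e S => by rw [hU]; split_ifs <;> positivity
  have hD0 : ∀ e S, 0 ≤ D e S := fun e S => by rw [hD]; split_ifs <;> positivity
  have h1 : p * ∑ e ∈ E n, ex p (E n) (fun S =>
      ((defect F t (insert e S) : ℝ) - (defect F t (S.erase e) : ℝ)) ^ 2) ≤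
      ex p (E n) (fun S => ∑ e ∈ E n, (2 * p * U e S + D e S)) := by
    rw [ex_sum, mul_sum]
    refine sum_le_sum fun e he => ?_
    have h2 : ex p (E n) (fun S =>
        ((defect F t (insert e S) : ℝ) - (defect F t (S.erase e) : ℝ)) ^ 2) ≤
        ex p (E n) (fun S => U e (S.erase e)) + ex p (E n) (fun S => D e (insert e S)) := by
      rw [← ex_add]
      refine ex_mono hp0 hp1' fun S _ => ?_
      induction e using Sym2.ind with
      | _ x y =>
        rw [hU, hD]
        exact diff_sq F t (mk_mem_E.1 he) S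
    have h3 := vb_erase hp0 hp1 he (U e) (hU0 e)
    have h4 := vb_insert hp0 hp1' he (D e) (hD0 e)
    have h5 := mul_le_mul_of_nonneg_left h2 hp0
    have h6 := mul_le_mul_of_nonneg_left h3 hp0
    rw [ex_add, ex_mul_left]
    rw [mul_add] at h5
    refine h5.trans ?_
    have h7 : p * (2 * ex p (E n) (U e)) = 2 * p * ex p (E n) (fun S => U e S) := by ring
    rw [h7] at h6
    exact add_le_add h6 h4
  refine (efron_stein hp0 hp1' (E n) (fun S => (defect F t S : ℝ))).trans (h1.trans ?_)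
  have hK : 0 ≤ 4 * p * M + 2 := by positivity
  have h8 : ∀ S : Finset (Sym2 (Fin n)), ∑ e ∈ E n, (2 * p * U e S + D e S) ≤
      (4 * p * M + 2) * (x0 + n *
        (if ¬ ∀ c ∈ F, (bad S c).card < t → ((fr S c 1).card : ℝ) ≤ x0 then (1 : ℝ) else 0)) := by
    intro S
    have hind : (0 : ℝ) ≤
        (if ¬ ∀ c ∈ F, (bad S c).card < t → ((fr S c 1).card : ℝ) ≤ x0 then (1 : ℝ) else 0) := by
      split_ifs <;> norm_num
    rcases Nat.lt_or_ge (defect F t S) t with hlt | hge
    · obtain ⟨hc, hb⟩ := mn_spec hlt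
      obtain ⟨c, hcc⟩ : ∃ c, c = mn F t S := ⟨_, rfl⟩
      rw [← hcc] at hc hb
      have e1 : ∑ e ∈ E n, (2 * p * U e S + D e S) =
          4 * p * ((upP S c).card : ℝ) + 2 * ((dnP S c).card : ℝ) := by
        have e2 : ((upP S c).card : ℝ) =
            ∑ e ∈ E n, (((upP S c).filter (fun q => s(q.1, q.2) = e)).card : ℝ) := by
          rw [← Nat.cast_sum, ← card_eq_sum_card_fiberwise]
          intro q hq
          rw [mem_coe, upP, mem_filter] at hq
          exact mem_coe.2 (mk_mem_E.2 hq.2.1)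
        have e3 : ((dnP S c).card : ℝ) =
            ∑ e ∈ E n, (((dnP S c).filter (fun q => s(q.1, q.2) = e)).card : ℝ) := by
          rw [← Nat.cast_sum, ← card_eq_sum_card_fiberwise]
          intro q hq
          rw [mem_coe, dnP, mem_filter] at hq
          exact mem_coe.2 (mk_mem_E.2 hq.2.1.1)
        rw [e2, e3, mul_sum, mul_sum, ← sum_add_distrib]
        refine sum_congr rfl fun e _ => ?_
        rw [hU, hD, if_pos hlt, if_pos hlt, ← hcc]
        ring
      rw [e1]
      have e4 := vb_up S c hM0 (hM c hc)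
      have e5 := vb_dn S c
      have e6 : ((fr S c 1).card : ℝ) ≤ x0 + n *
          (if ¬ ∀ c ∈ F, (bad S c).card < t → ((fr S c 1).card : ℝ) ≤ x0 then (1 : ℝ)
            else 0) := by
        by_cases hg : ∀ c ∈ F, (bad S c).card < t → ((fr S c 1).card : ℝ) ≤ x0
        · rw [if_neg (not_not.2 hg), mul_zero, add_zero]
          exact hg c hc (by rw [hb]; exact hlt)
        · rw [if_pos hg, mul_one]
          have e7 : (fr S c 1).card ≤ n := by
            refine (card_le_univ _).trans ?_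
            simp
          have e8 : ((fr S c 1).card : ℝ) ≤ n := by exact_mod_cast e7
          linarith
      have e9 := mul_le_mul_of_nonneg_left e6 hK
      refine le_trans ?_ e9
      have e10 := mul_le_mul_of_nonneg_left e4 (show 0 ≤ 4 * p by positivity)
      calc 4 * p * ((upP S c).card : ℝ) + 2 * ((dnP S c).card : ℝ)
          ≤ 4 * p * (M * (fr S c 1).card) + 2 * (fr S c 1).card := by linarith
        _ = (4 * p * M + 2) * (fr S c 1).card := by ring
    · have e1 : ∑ e ∈ E n, (2 * p * U e S + D e S) = 0 := by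
        refine sum_eq_zero fun e _ => ?_
        rw [hU, hD, if_neg (not_lt.2 hge), if_neg (not_lt.2 hge)]
        ring
      rw [e1]
      exact mul_nonneg hK (add_nonneg hx0 (mul_nonneg (Nat.cast_nonneg _) hind))
  refine (ex_mono hp0 hp1' fun S _ => h8 S).trans ?_
  rw [ex_mul_left, ex_add, ex_const, ex_mul_left]
  refine mul_le_mul_of_nonneg_left ?_ hK
  rw [← pr_def]
  exact add_le_add_right (mul_le_mul_of_nonneg_left hgood (Nat.cast_nonneg _)) x0

end Pool.Agent.CFX
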