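import Pool.Agent.CFX.S2A
import Pool.Agent.CFX.FS
import Pool.Agent.CFX.SM
import Pool.Agent.CFX.TR2
import Pool.Agent.CFX.RC1
import Pool.Agent.CFX.VB
import Pool.Agent.CFX.BO

/-! S2B: the regime `l^222 ≤ n p ≤ l^4200` -/

namespace Pool.Agent.CFX

open Finset Pool.Agent.MD437 Pool.Agent.CFC

variable {n m : ℕ} {p l : ℝ}

/-- `F = Full n u`, `t = ⌊l / p⌋`, `f = defect F t`. By `fragile_all` (`K = 1`) and `var_bound`
(`M = n`, `x0 = l^8 / p`, `δ = 3 / n^5`): `V = (4 p n + 2) (l^8 / p + 3 / n^4) ≤ 12 n l^8`. `boost`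
with `a = 0`, `t₁ = t₂ = l^5005 / 2` (`l^10010 = n l^10`): `V ≤ (η / 2) t₁²`,
`V / t₂² = 48 / l² ≤ η / 8`. So with probability at least `1 - η / 8` there is a full
colouring `c` with `|bad S c| < l^5005` (`< t ≤ l / p`). By `good_r2`, `fragile_all` (`K = 4000`),
`trans` (`B = bad S c`, `X = fr S c 4000`) and `recolour` there is a conflict-free colouring with
`u + 1` colours. If `15 log n < u` use `log_upper`. -/
theorem step_r2 {η : ℝ} (hB : Big n l) (hp1 : p ≤ 1) (hη : 0 < η) (hη1 : η ≤ 1)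
    (hl : 1000 ≤ η * l) (h1 : l ^ 222 ≤ n * p) (h2 : n * p ≤ l ^ 4200) (u : ℕ) :
    Step n p η u := by
  classical
  have hn := hB.n_pos'
  have hl1 := hB.one_le
  have hl0 := hB.pos
  have hbig : (10 : ℝ) ^ 9 ≤ l := hB.big
  have hnbig : (10 : ℝ) ^ 9 ≤ n := hB.big_n
  have hd0 : 0 < (n : ℝ) * p := lt_of_lt_of_le (hB.pow_pos' _) h1
  have hp0 : 0 < p := by
    by_contra hcon
    push Not at hcon
    have := mul_nonpos_of_nonneg_of_nonpos hn.le hcon
    linarith
  have h26 : (n : ℝ) * p ≤ l ^ 6000 := h2.trans (hB.pow_le (by norm_num))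
  rcases lt_or_ge (15 * Real.log n) u with hu | hu
  · exact step_many hB hp1 hl h1 h26 hu
  intro hstart
  -- `p` is small
  have hp4 : p * l ^ 5800 ≤ 1 := by
    have h3 : (n : ℝ) = l ^ 5800 * l ^ 4200 := by rw [← hB.pow, ← pow_add]
    have h4 : l ^ 4200 * (p * l ^ 5800) ≤ l ^ 4200 * 1 := by
      calc l ^ 4200 * (p * l ^ 5800) = n * p := by rw [h3]; ring
        _ ≤ l ^ 4200 * 1 := by linarith
    exact le_of_mul_le_mul_left h4 (hB.pow_pos' _)
  have hp5 : l ^ 5800 ≤ 1 / p := by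
    rw [le_div_iff₀ hp0]
    linarith
  have hp2 : p ≤ 1 / 2 := by
    have h3 : p * l ≤ 1 := by
      refine le_trans (mul_le_mul_of_nonneg_left ?_ hp0.le) hp4
      have := hB.pow_le (show 1 ≤ 5800 by norm_num)
      rwa [pow_one] at this
    have h4 : p * 10 ^ 9 ≤ p * l := mul_le_mul_of_nonneg_left hbig hp0.le
    linarith
  set t := ⌊l / p⌋₊ with ht
  have htle : (t : ℝ) ≤ l / p := Nat.floor_le (by positivity)
  have hlt : l / p < (t : ℝ) + 1 := Nat.lt_floor_add_one _
  have htbig : l ^ 5005 < (t : ℝ) := by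
    have h3 : l ^ 5801 ≤ l / p := by
      calc l ^ 5801 = l * l ^ 5800 := by rw [pow_succ]; ring
        _ ≤ l * (1 / p) := mul_le_mul_of_nonneg_left hp5 hl0.le
        _ = l / p := by ring
    have h4 : 2 * l ^ 5005 ≤ l ^ 5801 := hB.mul_pow_le (by norm_num) (by norm_num)
    have h5 : 1 ≤ l ^ 5005 := hB.one_le_pow _
    have h6 : 2 * l ^ 5005 + 2 * l ^ 5005 ≤ l ^ 5801 + l ^ 5801 := by linarith
    have h7 : 4 * l ^ 5005 ≤ l ^ 5801 := hB.mul_pow_le (by norm_num) (by norm_num)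
    linarith
  -- the variance
  have hn5 : (0 : ℝ) < (n : ℝ) ^ 5 := by positivity
  have hgood := fragile_all (m := u) (K := 1) hB hp1 h1 h26 hu (by norm_num)
  have hvar := var_bound (n := n) (m := u) hp0.le hp2 (Full n u) t (M := n) (x0 := l ^ 8 / p)
    (δ := 3 / (n : ℝ) ^ 5) hn.le (by positivity)
    (by
      intro c _ j
      have : (cls c j).card ≤ n := by
        have := Finset.card_le_univ (cls c j)
        simpa using this
      exact_mod_cast this)
    (by
      refine le_trans (pr_mono hp0.le hp1 fun S _ h => ?_) hgood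
      push Not at h
      obtain ⟨c, _, hc1, hc2⟩ := h
      refine ⟨c, ?_, hc2⟩
      have : ((bad S c).card : ℝ) < t := by exact_mod_cast hc1
      linarith)
  have hV : (4 * p * n + 2) * (l ^ 8 / p + n * (3 / (n : ℝ) ^ 5)) ≤ 12 * n * l ^ 8 := by
    have hd2 : 2 ≤ (n : ℝ) * p := by
      have h3 : l ≤ l ^ 222 := by
        have := hB.pow_le (show 1 ≤ 222 by norm_num)
        rwa [pow_one] at this
      linarith
    have h3 : 4 * p * n + 2 ≤ 5 * (n * p) := by linarith
    have h4 : (n : ℝ) * (3 / (n : ℝ) ^ 5) ≤ l ^ 8 / p := by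
      have h5 : (n : ℝ) * (3 / (n : ℝ) ^ 5) = 3 / (n : ℝ) ^ 4 := by
        field_simp
      have h6 : 3 / (n : ℝ) ^ 4 ≤ 3 := by
        rw [div_le_iff₀ (by positivity)]
        have : (1 : ℝ) ≤ (n : ℝ) ^ 4 := one_le_pow₀ (by linarith)
        linarith
      have h7 : (3 : ℝ) ≤ l ^ 8 := by
        have := hB.pow_le (show 1 ≤ 8 by norm_num)
        rw [pow_one] at this
        linarith
      have h8 : l ^ 8 ≤ l ^ 8 / p := by
        rw [le_div_iff₀ hp0]
        have := mul_le_mul_of_nonneg_left hp1 (hB.pow_pos' 8).le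
        linarith
      rw [h5]
      linarith
    calc (4 * p * n + 2) * (l ^ 8 / p + n * (3 / (n : ℝ) ^ 5))
        ≤ (5 * (n * p)) * (2 * (l ^ 8 / p)) := by
          refine mul_le_mul h3 (by linarith) (by positivity) (by positivity)
      _ = 10 * n * l ^ 8 := by field_simp; norm_num
      _ ≤ 12 * n * l ^ 8 := by
          have : 0 < (n : ℝ) * l ^ 8 := by positivity
          linarith
  have hsq : l ^ 10010 = n * l ^ 10 := by rw [← hB.pow, ← pow_add]
  have hη2 : 0 < η / 2 := by linarith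
  have hl10 : l ^ 10 = l ^ 8 * (l * l) := by ring
  have hηl : 1000 * l ≤ η * (l * l) := by
    have := mul_le_mul_of_nonneg_right hl hl0.le
    linarith
  have hboost := boost hp0.le hp1 (E n) (fun S => (defect (Full n u) t S : ℝ))
    (V := 12 * n * l ^ 8) (a := 0) (t₁ := l ^ 5005 / 2) (t₂ := l ^ 5005 / 2) (η := η / 2)
    (by positivity) (by positivity) hη2 (hvar.trans hV)
    (by
      have e : η / 2 * (l ^ 5005 / 2) ^ 2 = η * (n * l ^ 10) / 8 := by
        rw [← hsq]; ring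
      rw [e, hl10]
      have h3 : 0 < (n : ℝ) * l ^ 8 := by positivity
      have h4 : 96 ≤ η * (l * l) := by linarith
      have h5 := mul_le_mul_of_nonneg_left h4 h3.le
      linarith)
    (by
      refine hstart.trans (pr_mono hp0.le hp1 fun S _ h => ?_)
      obtain ⟨c, hc⟩ := h
      have h3 : defect (Full n u) t S ≤ (bad S (full c)).card := defect_le (full_mem_Full c) t S
      rw [(isCF_iff S c).1 hc, card_empty] at h3
      have : defect (Full n u) t S = 0 := by omega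
      show (defect (Full n u) t S : ℝ) ≤ 0
      rw [this]; simp)
  have hb2 : 12 * n * l ^ 8 / (l ^ 5005 / 2) ^ 2 ≤ η / 8 := by
    have e : (l ^ 5005 / 2) ^ 2 = n * l ^ 10 / 4 := by
      rw [← hsq]; ring
    rw [e, hl10, div_le_iff₀ (by positivity)]
    have h3 : 0 < (n : ℝ) * l ^ 8 := by positivity
    have h4 : 384 ≤ η * (l * l) := by linarith
    have h5 := mul_le_mul_of_nonneg_left h4 h3.le
    linarith
  have hgood2 := good_r2 hB hp1 h1 h2
  have hfr := fragile_all (m := u) (K := 4000) hB hp1 h1 h26 hu le_rfl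
  -- the union of the bad events
  have hfail : pr p (E n) (fun S => ¬ ∃ c : Fin n → Fin (u + 1), IsCF (gr S) c) ≤
      pr p (E n) (fun S => (0 + l ^ 5005 / 2 + l ^ 5005 / 2 ≤ (defect (Full n u) t S : ℝ)) ∨
        (¬ GoodR2 p l S ∨ ∃ c : Fin n → Option (Fin u), ((bad S c).card : ℝ) ≤ l / p ∧
          l ^ 8 / p < ((fr S c 4000).card : ℝ))) := by
    refine pr_mono hp0.le hp1 fun S _ h => ?_
    by_contra hcon
    push Not at hcon
    obtain ⟨g1, g2, g3⟩ := hcon
    apply h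
    have hlt2 : (defect (Full n u) t S : ℝ) < l ^ 5005 := by linarith
    have hlt3 : defect (Full n u) t S < t := by
      have : (defect (Full n u) t S : ℝ) < t := hlt2.trans htbig
      exact_mod_cast this
    obtain ⟨c, hc, hcard⟩ := exists_of_defect_lt hlt3
    obtain ⟨c', rfl⟩ := exists_full_of_mem hc
    have hbad : ((bad S (full c')).card : ℝ) ≤ l ^ 5005 := by
      rw [hcard]; exact hlt2.le
    have hX := g3 (full c') (by linarith)
    obtain ⟨T, t1, t2, t3⟩ := trans hB hp0 hp1 h1 h2 g2 (bad S (full c'))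
      (fr S (full c') 4000) hbad (bad_sub_fr S _ _) hX
    exact recolour S c' 4000 T _ (subset_refl _) t1 t2 t3
  have h3 := pr_or hp0.le hp1 (E n)
    (fun S => 0 + l ^ 5005 / 2 + l ^ 5005 / 2 ≤ (defect (Full n u) t S : ℝ))
    (fun S => ¬ GoodR2 p l S ∨ ∃ c : Fin n → Option (Fin u), ((bad S c).card : ℝ) ≤ l / p ∧
          l ^ 8 / p < ((fr S c 4000).card : ℝ))
  have h4 := pr_or hp0.le hp1 (E n) (fun S => ¬ GoodR2 p l S)
    (fun S => ∃ c : Fin n → Option (Fin u), ((bad S c).card : ℝ) ≤ l / p ∧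
          l ^ 8 / p < ((fr S c 4000).card : ℝ))
  have h5 : 9 / (n : ℝ) ^ 5 + 3 / (n : ℝ) ^ 5 ≤ η / 8 := by
    have h6 : 9 / (n : ℝ) ^ 5 + 3 / (n : ℝ) ^ 5 = 12 / (n : ℝ) ^ 5 := by ring
    rw [h6, div_le_iff₀ hn5]
    have h7 : (n : ℝ) ≤ (n : ℝ) ^ 5 := by
      have : (n : ℝ) ^ 1 ≤ (n : ℝ) ^ 5 := pow_le_pow_right₀ (by linarith) (by norm_num)
      rwa [pow_one] at this
    have h8 : 1000 ≤ η * (n : ℝ) ^ 5 := by
      refine hl.trans (mul_le_mul_of_nonneg_left ?_ hη.le)
      exact hB.l_le_n.trans h7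
    linarith
  rw [pr_not] at hfail
  linarith

end Pool.Agent.CFX
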