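import Pool.Agent.CFX.GR
import Pool.Agent.CFX.PA

/-! S3A: the patch in the regime `l^4100 ≤ n p ≤ l^6000` -/

namespace Pool.Agent.CFX

open Finset Pool.Agent.MD437 Pool.Agent.CFC

variable {n m : ℕ} {p l : ℝ}

private lemma s3a_num (hB : Big n l) (hp0 : 0 < p) (h1 : l ^ 4100 ≤ n * p)
    (h2 : n * p ≤ l ^ 6000) :
    ((1 + 1 / (n * p ^ 2)) * (1 + n * p ^ 2)) ^ 2 * l ^ 18 ≤ n * p := by
  have hn := hB.n_pos'
  set d := (n : ℝ) * p with hd
  have hd0 : 0 < d := mul_pos hn hp0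
  set a := (n : ℝ) * p ^ 2 with ha
  have ha0 : 0 < a := by positivity
  have han : a * n = d ^ 2 := by rw [ha, hd]; ring
  have hl1 := hB.one_le
  have hl0 := hB.pos
  have h18 : 0 < l ^ 18 := hB.pow_pos' 18
  rcases le_total 1 a with h | h
  · have hq : (1 + 1 / a) * (1 + a) ≤ 4 * a := by
      have h3 : 1 / a ≤ 1 := by rw [div_le_one ha0]; exact h
      have h4 : (1 + 1 / a) ≤ 2 := by linarith
      have h5 : 1 + a ≤ 2 * a := by linarith
      calc (1 + 1 / a) * (1 + a) ≤ 2 * (2 * a) :=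
            mul_le_mul h4 h5 (by positivity) (by norm_num)
        _ = 4 * a := by ring
    have hq2 : ((1 + 1 / a) * (1 + a)) ^ 2 ≤ (4 * a) ^ 2 :=
      pow_le_pow_left₀ (by positivity) hq 2
    have hkey : (4 * a) ^ 2 * l ^ 18 ≤ d := by
      -- `a² n² = d⁴`, `16 d³ l^18 ≤ n²`
      have h3 : 16 * l ^ 18 * d ^ 3 ≤ (n : ℝ) ^ 2 := by
        have h4 : d ^ 3 ≤ l ^ 18000 := by
          calc d ^ 3 ≤ (l ^ 6000) ^ 3 := pow_le_pow_left₀ hd0.le h2 3
            _ = l ^ 18000 := by rw [← pow_mul]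
        have h5 : (n : ℝ) ^ 2 = l ^ 20000 := by rw [← hB.pow, ← pow_mul]
        rw [h5]
        calc 16 * l ^ 18 * d ^ 3 ≤ 16 * l ^ 18 * l ^ 18000 :=
              mul_le_mul_of_nonneg_left h4 (by positivity)
          _ = 16 * l ^ 18018 := by rw [mul_assoc, ← pow_add]
          _ ≤ l ^ 20000 := hB.mul_pow_le (by norm_num) (by norm_num)
      have h6 : ((4 * a) ^ 2 * l ^ 18) * (n : ℝ) ^ 2 ≤ d * (n : ℝ) ^ 2 := by
        have e : ((4 * a) ^ 2 * l ^ 18) * (n : ℝ) ^ 2 = d * (16 * l ^ 18 * d ^ 3) := by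
          have : (a * n) ^ 2 = d ^ 4 := by rw [han]; ring
          calc ((4 * a) ^ 2 * l ^ 18) * (n : ℝ) ^ 2 = 16 * l ^ 18 * (a * n) ^ 2 := by ring
            _ = _ := by rw [this]; ring
        rw [e]
        exact mul_le_mul_of_nonneg_left h3 hd0.le
      exact le_of_mul_le_mul_right h6 (by positivity)
    exact (mul_le_mul_of_nonneg_right hq2 h18.le).trans hkey
  · have hq : (1 + 1 / a) * (1 + a) ≤ 4 / a := by
      have h3 : 1 ≤ 1 / a := by rw [le_div_iff₀ ha0]; linarith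
      have h4 : (1 + 1 / a) ≤ 2 * (1 / a) := by linarith
      have h5 : 1 + a ≤ 2 := by linarith
      calc (1 + 1 / a) * (1 + a) ≤ (2 * (1 / a)) * 2 :=
            mul_le_mul h4 h5 (by positivity) (by positivity)
        _ = 4 / a := by ring
    have hq2 : ((1 + 1 / a) * (1 + a)) ^ 2 ≤ (4 / a) ^ 2 :=
      pow_le_pow_left₀ (by positivity) hq 2
    have hkey : (4 / a) ^ 2 * l ^ 18 ≤ d := by
      have h3 : 16 * l ^ 18 * (n : ℝ) ^ 2 ≤ d ^ 5 := by
        have h4 : l ^ 20500 ≤ d ^ 5 := by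
          calc l ^ 20500 = (l ^ 4100) ^ 5 := by rw [← pow_mul]
            _ ≤ d ^ 5 := pow_le_pow_left₀ (hB.pow_pos' _).le h1 5
        refine le_trans ?_ h4
        have h5 : (n : ℝ) ^ 2 = l ^ 20000 := by rw [← hB.pow, ← pow_mul]
        rw [h5]
        calc 16 * l ^ 18 * l ^ 20000 = 16 * l ^ 20018 := by rw [mul_assoc, ← pow_add]
          _ ≤ l ^ 20500 := hB.mul_pow_le (by norm_num) (by norm_num)
      have ha' : a = d ^ 2 / n := by rw [← han]; field_simp
      have e : (4 / a) ^ 2 * l ^ 18 = 16 * l ^ 18 * (n : ℝ) ^ 2 / d ^ 4 := by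
        rw [ha']
        field_simp
        norm_num
      rw [e, div_le_iff₀ (by positivity)]
      calc 16 * l ^ 18 * (n : ℝ) ^ 2 ≤ d ^ 5 := h3
        _ = d * d ^ 4 := by ring
    exact (mul_le_mul_of_nonneg_right hq2 h18.le).trans hkey

/-- Deterministic part: `greedy` with `d = n p`, `κ = l (1 + n p²)`, `A` = the vertices of
`B = bad S c` with fewer than `n p / l` private neighbours, `X = fr S c 2`,
`e0 = (1 + 1 / (n p²)) l^5`, `x0 = l^8 / p`, `KE = (1 + 1 / (n p²)) l^10`; then `patch` with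
`z1 = e0 KE`, `L = n p / l`. The numerical conditions follow from `l^4100 ≤ n p ≤ l^6000`,
distinguishing `n p² ≥ 1` and `n p² ≤ 1`. -/
theorem patch_r3 (hB : Big n l) (hp1 : p ≤ 1) (h1 : l ^ 4100 ≤ n * p) (h2 : n * p ≤ l ^ 6000)
    {S : Finset (Sym2 (Fin n))} (hdeg : DegOK (n * p) S) (hcod : CodOK (l * (1 + n * p ^ 2)) S)
    (c : Fin n → Option (Fin m)) (hfr : ((fr S c 2).card : ℝ) ≤ l ^ 8 / p)
    (hpriv : (((bad S c).filter
      (fun b => ((priv S (bad S c) (supp c) b).card : ℝ) < n * p / l)).card : ℝ)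
        ≤ (1 + 1 / (n * p ^ 2)) * l ^ 5) :
    ∃ c' : Fin n → Fin (m + 2), IsCF (gr S) c' := by
  have hn := hB.n_pos'
  have hl1 := hB.one_le
  have hl0 := hB.pos
  have hd0 : 0 < (n : ℝ) * p := lt_of_lt_of_le (hB.pow_pos' _) h1
  have hp0 : 0 < p := by
    by_contra hcon
    push Not at hcon
    have := mul_nonpos_of_nonneg_of_nonpos hn.le hcon
    linarith
  have hnum := s3a_num hB hp0 h1 h2
  set q := 1 + 1 / ((n : ℝ) * p ^ 2) with hq
  set w := 1 + (n : ℝ) * p ^ 2 with hw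
  have ha0 : 0 < (n : ℝ) * p ^ 2 := by positivity
  have hq1 : 1 ≤ q := by
    have : 0 < 1 / ((n : ℝ) * p ^ 2) := by positivity
    linarith
  have hw1 : 1 ≤ w := by linarith
  have hbig : (10 : ℝ) ^ 9 ≤ l := hB.big
  have hqw : w = q * (n * p ^ 2) := by
    rw [hq, hw]; field_simp; ring
  -- numerical conditions
  have c1 : 8 * (l ^ 8 / p * (l * w + 1) + 2 * (n * p)) ≤ (n * p) * (q * l ^ 10) := by
    have e1 : l ^ 8 / p * (l * w + 1) = (n * p) * (l ^ 9 * q + l ^ 8 * (1 / (n * p ^ 2))) := by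
      rw [hqw]; field_simp
    rw [e1]
    have e2 : 1 / ((n : ℝ) * p ^ 2) ≤ q := by linarith
    have e3 : l ^ 8 * (1 / ((n : ℝ) * p ^ 2)) ≤ l ^ 9 * q := by
      refine mul_le_mul (hB.pow_le (by norm_num)) e2 (by positivity) (by positivity)
    have e4 : (1 : ℝ) ≤ l ^ 9 * q := by
      calc (1 : ℝ) = 1 * 1 := by ring
        _ ≤ l ^ 9 * q := mul_le_mul (hB.one_le_pow 9) hq1 zero_le_one (by positivity)
    have e5 : 32 * (l ^ 9 * q) ≤ q * l ^ 10 := by
      have : 32 * l ^ 9 ≤ l ^ 10 := hB.mul_pow_le (by norm_num) (by norm_num)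
      calc 32 * (l ^ 9 * q) = (32 * l ^ 9) * q := by ring
        _ ≤ l ^ 10 * q := mul_le_mul_of_nonneg_right this (by linarith)
        _ = _ := by ring
    calc 8 * ((n * p) * (l ^ 9 * q + l ^ 8 * (1 / (n * p ^ 2))) + 2 * (n * p))
        = (n * p) * (8 * (l ^ 9 * q + l ^ 8 * (1 / (n * p ^ 2)) + 2)) := by ring
      _ ≤ (n * p) * (q * l ^ 10) := by
          refine mul_le_mul_of_nonneg_left ?_ hd0.le
          linarith
  have hqw2 : q ^ 2 * w ^ 2 * l ^ 18 ≤ n * p := by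
    calc q ^ 2 * w ^ 2 * l ^ 18 = (q * w) ^ 2 * l ^ 18 := by ring
      _ ≤ _ := hnum
  have hlw : l * w + 2 ≤ 3 * (l * w) := by
    have : (1 : ℝ) * 1 ≤ l * w := mul_le_mul hl1 hw1 zero_le_one hl0.le
    linarith
  have hlw0 : 0 < l * w := by positivity
  have hww : w ≤ w ^ 2 := by nlinarith
  have c2 : 16 * ((q * l ^ 5) * (q * l ^ 10) * (l * w + 2)) ≤ n * p := by
    refine le_trans ?_ hqw2
    calc 16 * ((q * l ^ 5) * (q * l ^ 10) * (l * w + 2))
        ≤ 16 * ((q * l ^ 5) * (q * l ^ 10) * (3 * (l * w))) := by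
          refine mul_le_mul_of_nonneg_left (mul_le_mul_of_nonneg_left hlw (by positivity))
            (by norm_num)
      _ = (48 * l ^ 16) * (q ^ 2 * w) := by ring
      _ ≤ l ^ 18 * (q ^ 2 * w ^ 2) := by
          refine mul_le_mul (hB.mul_pow_le (by norm_num) (by norm_num))
            (mul_le_mul_of_nonneg_left hww (by positivity)) (by positivity) (by positivity)
      _ = _ := by ring
  have c3 : 16 * ((q * l ^ 5) ^ 2 * (l * w + 2) ^ 2) ≤ n * p := by
    refine le_trans ?_ hqw2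
    have h3 : (l * w + 2) ^ 2 ≤ (3 * (l * w)) ^ 2 := pow_le_pow_left₀ (by positivity) hlw 2
    calc 16 * ((q * l ^ 5) ^ 2 * (l * w + 2) ^ 2)
        ≤ 16 * ((q * l ^ 5) ^ 2 * (3 * (l * w)) ^ 2) := by
          refine mul_le_mul_of_nonneg_left (mul_le_mul_of_nonneg_left h3 (by positivity))
            (by norm_num)
      _ = (144 * l ^ 12) * (q ^ 2 * w ^ 2) := by ring
      _ ≤ l ^ 18 * (q ^ 2 * w ^ 2) := by
          refine mul_le_mul_of_nonneg_right (hB.mul_pow_le (by norm_num) (by norm_num))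
            (by positivity)
      _ = _ := by ring
  have c4 : (q * l ^ 5) * (q * l ^ 10) * (l * w + 1) < n * p / l := by
    rw [lt_div_iff₀ hl0]
    refine lt_of_lt_of_le ?_ hqw2
    calc (q * l ^ 5) * (q * l ^ 10) * (l * w + 1) * l
        ≤ (q * l ^ 5) * (q * l ^ 10) * (3 * (l * w)) * l := by
          refine mul_le_mul_of_nonneg_right (mul_le_mul_of_nonneg_left ?_ (by positivity)) hl0.le
          linarith
      _ = (3 * l ^ 17) * (q ^ 2 * w) := by ring
      _ ≤ (3 * l ^ 17) * (q ^ 2 * w ^ 2) :=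
          mul_le_mul_of_nonneg_left (mul_le_mul_of_nonneg_left hww (by positivity))
            (by positivity)
      _ < l ^ 18 * (q ^ 2 * w ^ 2) := by
          refine mul_lt_mul_of_pos_right ?_ (by positivity)
          calc 3 * l ^ 17 < l * l ^ 17 :=
                mul_lt_mul_of_pos_right (by linarith) (hB.pow_pos' 17)
            _ = l ^ 18 := by ring
      _ = _ := by ring
  set A := (bad S c).filter
      (fun b => ((priv S (bad S c) (supp c) b).card : ℝ) < n * p / l) with hA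
  have hAB : A ⊆ bad S c := filter_subset _ _
  obtain ⟨T, t1, t2, t3, t4⟩ := greedy S (d := n * p) (κ := l * w) (e0 := q * l ^ 5)
    (x0 := l ^ 8 / p) (KE := q * l ^ 10) hd0 hlw0.le (by positivity) hdeg hcod A (fr S c 2)
    (hAB.trans (bad_sub_fr S c 2)) hpriv hfr c1 c2 c3
  refine patch S c hlw0.le hcod A T hAB t1 t2 t3 t4 (L := n * p / l) ?_ c4
  intro b hb hbA
  by_contra hcon
  push Not at hcon
  exact hbA (mem_filter.2 ⟨hb, hcon⟩)

end Pool.Agent.CFX
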