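import Pool.Agent.CFX.S3A
import Pool.Agent.CFX.DG
import Pool.Agent.CFX.CD
import Pool.Agent.CFX.FS
import Pool.Agent.CFX.LC
import Pool.Agent.CFX.SM
import Pool.Agent.CFX.PV
import Pool.Agent.CFX.RC2
import Pool.Agent.CFX.VB
import Pool.Agent.CFX.BO

/-! S3B: the regime `l^4100 ≤ n p ≤ l^6000` -/

namespace Pool.Agent.CFX

open Finset Pool.Agent.MD437 Pool.Agent.CFC

variable {n m : ℕ} {p l : ℝ}

/-- Write `u = m + 1` (`u = 0` is trivial). If `15 log n < u` use `log_upper`. Let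
`D = 16 (1 + log (m + 1)) / p`, `F = Sys n m (l / p)`, `t = ⌊l / p⌋`, `f = defect F t`. By `shrink`,
`big_prob` (`16 log n / p ≤ l / p`), `largest_prob`: `f ≤ D` with probability at least
`η / 2 - 2 / n^5 ≥ η / 4`. By `fragile_sys` (`K = 1`), `var_bound` (`M = l / p`, `x0 = l^8 / p`,
`δ = 2 / n^5`): `V = (4 l + 2) (l^8 / p + 2 / n^4) ≤ l^10 / p`. `boost` with `a = D`,
`t₁ = t₂ = D / 2`: `V ≤ (η / 4) D² / 4` as `D ≥ 16 / p`, `1 / p ≥ l^4000`; `V / t₂² ≤ 1 / l`. So
with probability at least `1 - 1 / l` there is a `c ∈ Sys n m (l / p)` with `|bad S c| < 2 D`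
(`2 D < t`). Then `priv_prob` (with `B = bad S c`, `U = supp c`; `p |B| ≤ 32 (1 + log (m + 1)) ≤
log l / 8` by `Big.loglog`, `|U| ≤ m l / p ≤ l² / p`), `fragile_sys` (`K = 2`), `deg_prob`,
`cod_prob` and `patch_r3`. -/
theorem step_r3 {η : ℝ} (hB : Big n l) (hp1 : p ≤ 1) (hη : 0 < η) (hη1 : η ≤ 1)
    (hl : 1000 ≤ η * l) (h1 : l ^ 4100 ≤ n * p) (h2 : n * p ≤ l ^ 6000) (u : ℕ) :
    Step n p η u := by
  classical
  have hn := hB.n_pos'
  have hl1 := hB.one_le
  have hl0 := hB.pos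
  have hbig : (10 : ℝ) ^ 9 ≤ l := hB.big
  have hnbig : (10 : ℝ) ^ 9 ≤ n := hB.big_n
  have hd0 : 0 < (n : ℝ) * p := lt_of_lt_of_le (hB.pow_pos' _) h1
  have h1' : l ^ 222 ≤ n * p := (hB.pow_le (by norm_num)).trans h1
  have hp0 : 0 < p := by
    by_contra hcon
    push Not at hcon
    have := mul_nonpos_of_nonneg_of_nonpos hn.le hcon
    linarith
  rcases lt_or_ge (15 * Real.log n) u with hu | hu
  · exact step_many hB hp1 hl h1' h2 hu
  obtain _ | m := u
  · -- no colours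
    intro hstart
    exfalso
    have hzero : pr p (E n) (fun S => ∃ c : Fin n → Fin 0, IsCF (gr S) c) = 0 := by
      rw [pr_def]
      have : ∀ S ⊆ E n, (if ∃ c : Fin n → Fin 0, IsCF (gr S) c then (1 : ℝ) else 0) = 0 := by
        intro S _
        rw [if_neg]
        rintro ⟨c, -⟩
        exact (c ⟨0, hB.n_pos⟩).elim0
      rw [ex_congr p this, ex_const]
    rw [hzero] at hstart
    linarith
  intro hstart
  have hm : (m : ℝ) ≤ 15 * Real.log n := by
    push_cast at hu
    linarith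
  -- `p` is small
  have hp4 : p * l ^ 4000 ≤ 1 := by
    have h3 : (n : ℝ) = l ^ 4000 * l ^ 6000 := by rw [← hB.pow, ← pow_add]
    have h4 : l ^ 6000 * (p * l ^ 4000) ≤ l ^ 6000 * 1 := by
      calc l ^ 6000 * (p * l ^ 4000) = n * p := by rw [h3]; ring
        _ ≤ l ^ 6000 * 1 := by linarith
    exact le_of_mul_le_mul_left h4 (hB.pow_pos' _)
  have hp5 : l ^ 4000 ≤ 1 / p := by
    rw [le_div_iff₀ hp0]
    linarith
  have hp2 : p ≤ 1 / 2 := by
    have h3 : p * l ≤ 1 := by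
      refine le_trans (mul_le_mul_of_nonneg_left ?_ hp0.le) hp4
      have := hB.pow_le (show 1 ≤ 4000 by norm_num)
      rwa [pow_one] at this
    have h4 : p * 10 ^ 9 ≤ p * l := mul_le_mul_of_nonneg_left hbig hp0.le
    linarith
  have hinvp : 1 ≤ 1 / p := (hB.one_le_pow _).trans hp5
  have hinv0 : 0 < 1 / p := by positivity
  -- logarithms
  have hlog1 := hB.log_n_ge
  have hloglog := hB.loglog
  have hlg := hB.lg_le
  set Lm := 1 + Real.log (m + 1) with hLm
  have hm0 : (0 : ℝ) ≤ m := Nat.cast_nonneg m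
  have hLm1 : 1 ≤ Lm := by
    have : 0 ≤ Real.log ((m : ℝ) + 1) := Real.log_nonneg (by linarith)
    linarith
  have hLm2 : Lm ≤ Real.log (100 * Real.log n) := by
    have h3 : (m : ℝ) + 1 ≤ 16 * Real.log n := by linarith
    have h4 : Lm ≤ Real.log (Real.exp 1 * (16 * Real.log n)) := by
      rw [Real.log_mul (Real.exp_pos 1).ne' (by linarith), Real.log_exp]
      have := Real.log_le_log (by linarith) h3
      linarith
    refine h4.trans (Real.log_le_log (by positivity) ?_)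
    have h5 := Real.exp_one_lt_d9
    have h6 : Real.exp 1 * (16 * Real.log n) ≤ 2.7182818286 * (16 * Real.log n) :=
      mul_le_mul_of_nonneg_right h5.le (by linarith)
    linarith
  have hLm3 : Lm ≤ 100 * Real.log n := by
    have h3 : Real.log (100 * Real.log n) ≤ 100 * Real.log n - 1 :=
      Real.log_le_sub_one_of_pos (by linarith)
    linarith
  set D := 16 * Lm / p with hD
  have hD16 : 16 * (1 / p) ≤ D := by
    rw [hD, mul_div_assoc]
    rw [show Lm / p = Lm * (1 / p) by ring]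
    have := mul_le_mul_of_nonneg_right hLm1 hinv0.le
    linarith
  have hDpos : 0 < D := by linarith
  set t := ⌊l / p⌋₊ with ht
  have htle : (t : ℝ) ≤ l / p := Nat.floor_le (by positivity)
  have hlt : l / p < (t : ℝ) + 1 := Nat.lt_floor_add_one _
  -- `(100 log n)^2 ≤ l`
  have hlg2 : (100 * Real.log n) ^ 2 ≤ l := hB.lg_pow (by norm_num)
  have hDt : 2 * D < t := by
    have h3 : 2 * D = 32 * Lm * (1 / p) := by rw [hD]; ring
    have h4 : l / p = l * (1 / p) := by ring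
    have h5 : 32 * Lm + 1 < l := by
      have h6 : 32 * Lm + 1 ≤ 33 * (100 * Real.log n) := by linarith
      have h7 : 34 * (100 * Real.log n) ≤ (100 * Real.log n) ^ 2 := by
        rw [sq]
        exact mul_le_mul_of_nonneg_right (by linarith) (by linarith)
      linarith
    have h6 : (32 * Lm + 1) * (1 / p) < l * (1 / p) := mul_lt_mul_of_pos_right h5 hinv0
    have h7 : (32 * Lm + 1) * (1 / p) = 32 * Lm * (1 / p) + 1 / p := by ring
    rw [h3]
    rw [h4] at hlt
    linarith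
  have hsee : 16 * Real.log n / p ≤ l / p := by
    refine div_le_div_of_nonneg_right ?_ hp0.le
    linarith
  have hl2p : l / p ≤ l ^ 2 / p := by
    refine div_le_div_of_nonneg_right ?_ hp0.le
    have := hB.pow_le (show 1 ≤ 2 by norm_num)
    rwa [pow_one] at this
  -- powers of `n`
  have hn5 : (0 : ℝ) < (n : ℝ) ^ 5 := by positivity
  have hnn5 : (n : ℝ) ≤ (n : ℝ) ^ 5 := by
    have : (n : ℝ) ^ 1 ≤ (n : ℝ) ^ 5 := pow_le_pow_right₀ (by linarith) (by norm_num)
    rwa [pow_one] at this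
  have hηn : 1000 ≤ η * (n : ℝ) ^ 5 :=
    hl.trans (mul_le_mul_of_nonneg_left (hB.l_le_n.trans hnn5) hη.le)
  have hsmall : ∀ k : ℝ, 0 ≤ k → k ≤ 100 → k / (n : ℝ) ^ 5 ≤ η / 10 := by
    intro k _ hk
    rw [div_le_iff₀ hn5]
    linarith
  -- the variance
  have hfrag1 := fragile_sys (m := m) (K := 1) hB hp1 h1' h2 hm (by norm_num)
  have hvar := var_bound (n := n) (m := m) hp0.le hp2 (Sys n m (l / p)) t (M := l / p)
    (x0 := l ^ 8 / p) (δ := 2 / (n : ℝ) ^ 5) (by positivity) (by positivity)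
    (fun c hc j => mem_Sys.1 hc j)
    (by
      refine le_trans (pr_mono hp0.le hp1 fun S _ h => ?_) hfrag1
      push Not at h
      obtain ⟨c, hc, hc1, hc2⟩ := h
      refine ⟨c, hc, ?_, hc2⟩
      have : ((bad S c).card : ℝ) < t := by exact_mod_cast hc1
      linarith)
  have hV : (4 * p * (l / p) + 2) * (l ^ 8 / p + n * (2 / (n : ℝ) ^ 5)) ≤ l ^ 10 / p := by
    have h3 : 4 * p * (l / p) + 2 ≤ 5 * l := by
      have : 4 * p * (l / p) = 4 * l := by field_simp
      rw [this]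
      linarith
    have h4 : (n : ℝ) * (2 / (n : ℝ) ^ 5) ≤ l ^ 8 / p := by
      have h5 : (n : ℝ) * (2 / (n : ℝ) ^ 5) = 2 / (n : ℝ) ^ 4 := by
        field_simp
      have h6 : 2 / (n : ℝ) ^ 4 ≤ 2 := by
        rw [div_le_iff₀ (by positivity)]
        have : (1 : ℝ) ≤ (n : ℝ) ^ 4 := one_le_pow₀ (by linarith)
        linarith
      have h7 : (2 : ℝ) ≤ l ^ 8 := by
        have := hB.pow_le (show 1 ≤ 8 by norm_num)
        rw [pow_one] at this
        linarith
      have h8 : l ^ 8 ≤ l ^ 8 / p := by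
        rw [le_div_iff₀ hp0]
        have := mul_le_mul_of_nonneg_left hp1 (hB.pow_pos' 8).le
        linarith
      rw [h5]
      linarith
    calc (4 * p * (l / p) + 2) * (l ^ 8 / p + n * (2 / (n : ℝ) ^ 5))
        ≤ (5 * l) * (2 * (l ^ 8 / p)) := by
          refine mul_le_mul h3 (by linarith) (by positivity) (by positivity)
      _ = (10 * l ^ 9) / p := by ring
      _ ≤ l ^ 10 / p :=
          div_le_div_of_nonneg_right (hB.mul_pow_le (by norm_num) (by norm_num)) hp0.le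
  have hbigp := big_prob hB hp1 h1' h2
  have hlargep := largest_prob (m := m) hB hp1 h1' h2 hm
  -- start of the boost
  have hPD : η / 4 ≤ pr p (E n) (fun S => (defect (Sys n m (l / p)) t S : ℝ) ≤ D) := by
    have h3 : pr p (E n) (fun S => ∃ c : Fin n → Fin (m + 1), IsCF (gr S) c) ≤
        pr p (E n) (fun S => (defect (Sys n m (l / p)) t S : ℝ) ≤ D ∨
          ((∃ C : Finset (Fin n), l / p ≤ C.card ∧
            16 * Real.log n / p < ((see1 S C).card : ℝ)) ∨
          ∃ C : Finset (Fin n), n ≤ (m + 1) * C.card ∧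
            16 * (1 + Real.log (m + 1)) / p < ((see1 S C).card : ℝ))) := by
      refine pr_mono hp0.le hp1 fun S _ h => ?_
      obtain ⟨c, hc⟩ := h
      by_contra hcon
      push Not at hcon
      obtain ⟨g1, g2, g3⟩ := hcon
      obtain ⟨c', hc', hcard⟩ := shrink S c hc (b := l / p) (D := D)
        (fun C hC => (g2 C hC).trans hsee) (fun C hC => g3 C hC)
      have h4 : (defect (Sys n m (l / p)) t S : ℝ) ≤ ((bad S c').card : ℝ) := by
        exact_mod_cast defect_le hc' t S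
      linarith
    have h4 := pr_or hp0.le hp1 (E n)
      (fun S => (defect (Sys n m (l / p)) t S : ℝ) ≤ D)
      (fun S => (∃ C : Finset (Fin n), l / p ≤ C.card ∧
            16 * Real.log n / p < ((see1 S C).card : ℝ)) ∨
          ∃ C : Finset (Fin n), n ≤ (m + 1) * C.card ∧
            16 * (1 + Real.log (m + 1)) / p < ((see1 S C).card : ℝ))
    have h5 := pr_or hp0.le hp1 (E n)
      (fun S => ∃ C : Finset (Fin n), l / p ≤ C.card ∧
            16 * Real.log n / p < ((see1 S C).card : ℝ))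
      (fun S => ∃ C : Finset (Fin n), n ≤ (m + 1) * C.card ∧
            16 * (1 + Real.log (m + 1)) / p < ((see1 S C).card : ℝ))
    have h6 := hsmall 1 zero_le_one (by norm_num)
    linarith
  have hη4 : 0 < η / 4 := by linarith
  have hl10 : l ^ 10 / p ≤ η / 4 * (D / 2) ^ 2 := by
    have h3 : (8 * (1 / p)) ^ 2 ≤ (D / 2) ^ 2 :=
      pow_le_pow_left₀ (by positivity) (by linarith) 2
    have h4 : l ^ 10 ≤ 16 * η * (1 / p) := by
      have h5 : l ^ 10 ≤ 16 * (η * l ^ 4000) := by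
        have h6 : η * l ^ 4000 = (η * l) * l ^ 3999 := by
          have : l ^ 4000 = l * l ^ 3999 := by rw [← pow_succ']
          rw [this]; ring
        have h7 : l ^ 10 ≤ l ^ 3999 := hB.pow_le (by norm_num)
        have h8 : 1000 * l ^ 3999 ≤ (η * l) * l ^ 3999 :=
          mul_le_mul_of_nonneg_right hl (hB.pow_pos' _).le
        have h9 := hB.pow_pos' 3999
        rw [h6]
        linarith
      have h6 := mul_le_mul_of_nonneg_left hp5 hη.le
      linarith
    calc l ^ 10 / p = l ^ 10 * (1 / p) := by ring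
      _ ≤ (16 * η * (1 / p)) * (1 / p) := mul_le_mul_of_nonneg_right h4 hinv0.le
      _ = η / 4 * (8 * (1 / p)) ^ 2 := by ring
      _ ≤ η / 4 * (D / 2) ^ 2 := mul_le_mul_of_nonneg_left h3 hη4.le
  have hboost := boost hp0.le hp1 (E n) (fun S => (defect (Sys n m (l / p)) t S : ℝ))
    (V := l ^ 10 / p) (a := D) (t₁ := D / 2) (t₂ := D / 2) (η := η / 4)
    (by positivity) (by positivity) hη4 (hvar.trans hV) hl10 hPD
  have hb2 : l ^ 10 / p / (D / 2) ^ 2 ≤ η / 8 := by
    have h3 : (8 * (1 / p)) ^ 2 ≤ (D / 2) ^ 2 :=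
      pow_le_pow_left₀ (by positivity) (by linarith) 2
    rw [div_le_iff₀ (by positivity)]
    refine le_trans ?_ (mul_le_mul_of_nonneg_left h3 (show (0 : ℝ) ≤ η / 8 by linarith))
    have h4 : l ^ 10 ≤ 8 * η * (1 / p) := by
      have h5 : l ^ 10 ≤ 8 * (η * l ^ 4000) := by
        have h6 : η * l ^ 4000 = (η * l) * l ^ 3999 := by
          have : l ^ 4000 = l * l ^ 3999 := by rw [← pow_succ']
          rw [this]; ring
        have h7 : l ^ 10 ≤ l ^ 3999 := hB.pow_le (by norm_num)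
        have h8 : 1000 * l ^ 3999 ≤ (η * l) * l ^ 3999 :=
          mul_le_mul_of_nonneg_right hl (hB.pow_pos' _).le
        have h9 := hB.pow_pos' 3999
        rw [h6]
        linarith
      have h6 := mul_le_mul_of_nonneg_left hp5 hη.le
      linarith
    calc l ^ 10 / p = l ^ 10 * (1 / p) := by ring
      _ ≤ (8 * η * (1 / p)) * (1 / p) := mul_le_mul_of_nonneg_right h4 hinv0.le
      _ = η / 8 * (8 * (1 / p)) ^ 2 := by ring
  have hdegp := deg_prob hB hp0.le hp1 h1'
  have hcodp := cod_prob hB hp0.le hp1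
  have hfr := fragile_sys (m := m) (K := 2) hB hp1 h1' h2 hm (by norm_num)
  have hprivp := priv_prob hB hp1 h1 h2
  -- the union of the bad events
  have hfail : pr p (E n) (fun S => ¬ ∃ c : Fin n → Fin (m + 1 + 1), IsCF (gr S) c) ≤
      pr p (E n) (fun S => (D + D / 2 + D / 2 ≤ (defect (Sys n m (l / p)) t S : ℝ)) ∨
        (¬ DegOK (n * p) S ∨ (¬ CodOK (l * (1 + n * p ^ 2)) S ∨
        ((∃ c : Fin n → Option (Fin m), c ∈ Sys n m (l / p) ∧
          ((bad S c).card : ℝ) ≤ l ^ 2 / p ∧ l ^ 8 / p < ((fr S c 2).card : ℝ)) ∨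
        ∃ B U : Finset (Fin n), p * B.card ≤ Real.log l / 8 ∧
          (U.card : ℝ) ≤ l ^ 2 / p ∧ (1 + 1 / (n * p ^ 2)) * l ^ 5 <
          ((B.filter (fun b => ((priv S B U b).card : ℝ) < n * p / l)).card : ℝ))))) := by
    refine pr_mono hp0.le hp1 fun S _ h => ?_
    by_contra hcon
    push Not at hcon
    obtain ⟨g1, g2, g3, g4, g5⟩ := hcon
    apply h
    have hlt2 : (defect (Sys n m (l / p)) t S : ℝ) < 2 * D := by linarith
    have hlt3 : defect (Sys n m (l / p)) t S < t := by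
      have : (defect (Sys n m (l / p)) t S : ℝ) < t := hlt2.trans hDt
      exact_mod_cast this
    obtain ⟨c, hc, hcard⟩ := exists_of_defect_lt hlt3
    have hbad : ((bad S c).card : ℝ) ≤ 2 * D := by
      rw [hcard]; exact hlt2.le
    have hbad2 : ((bad S c).card : ℝ) ≤ l ^ 2 / p := by linarith
    have hX := g4 c hc hbad2
    refine patch_r3 hB hp1 h1 h2 g2 g3 c hX (g5 (bad S c) (supp c) ?_ ?_)
    · have h3 : p * ((bad S c).card : ℝ) ≤ p * (2 * D) := mul_le_mul_of_nonneg_left hbad hp0.le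
      have h4 : p * (2 * D) = 32 * Lm := by rw [hD]; field_simp; ring
      linarith
    · have h3 := card_supp_le hc
      have h4 : (m : ℝ) * (l / p) ≤ l ^ 2 / p := by
        have h5 : (m : ℝ) ≤ l := by linarith
        calc (m : ℝ) * (l / p) ≤ l * (l / p) := mul_le_mul_of_nonneg_right h5 (by positivity)
          _ = l ^ 2 / p := by ring
      linarith
  have o1 := pr_or hp0.le hp1 (E n)
    (fun S => D + D / 2 + D / 2 ≤ (defect (Sys n m (l / p)) t S : ℝ))
    (fun S => ¬ DegOK (n * p) S ∨ (¬ CodOK (l * (1 + n * p ^ 2)) S ∨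
        ((∃ c : Fin n → Option (Fin m), c ∈ Sys n m (l / p) ∧
          ((bad S c).card : ℝ) ≤ l ^ 2 / p ∧ l ^ 8 / p < ((fr S c 2).card : ℝ)) ∨
        ∃ B U : Finset (Fin n), p * B.card ≤ Real.log l / 8 ∧
          (U.card : ℝ) ≤ l ^ 2 / p ∧ (1 + 1 / (n * p ^ 2)) * l ^ 5 <
          ((B.filter (fun b => ((priv S B U b).card : ℝ) < n * p / l)).card : ℝ))))
  have o2 := pr_or hp0.le hp1 (E n) (fun S => ¬ DegOK (n * p) S)
    (fun S => ¬ CodOK (l * (1 + n * p ^ 2)) S ∨
        ((∃ c : Fin n → Option (Fin m), c ∈ Sys n m (l / p) ∧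
          ((bad S c).card : ℝ) ≤ l ^ 2 / p ∧ l ^ 8 / p < ((fr S c 2).card : ℝ)) ∨
        ∃ B U : Finset (Fin n), p * B.card ≤ Real.log l / 8 ∧
          (U.card : ℝ) ≤ l ^ 2 / p ∧ (1 + 1 / (n * p ^ 2)) * l ^ 5 <
          ((B.filter (fun b => ((priv S B U b).card : ℝ) < n * p / l)).card : ℝ)))
  have o3 := pr_or hp0.le hp1 (E n) (fun S => ¬ CodOK (l * (1 + n * p ^ 2)) S)
    (fun S => (∃ c : Fin n → Option (Fin m), c ∈ Sys n m (l / p) ∧
          ((bad S c).card : ℝ) ≤ l ^ 2 / p ∧ l ^ 8 / p < ((fr S c 2).card : ℝ)) ∨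
        ∃ B U : Finset (Fin n), p * B.card ≤ Real.log l / 8 ∧
          (U.card : ℝ) ≤ l ^ 2 / p ∧ (1 + 1 / (n * p ^ 2)) * l ^ 5 <
          ((B.filter (fun b => ((priv S B U b).card : ℝ) < n * p / l)).card : ℝ))
  have o4 := pr_or hp0.le hp1 (E n)
    (fun S => ∃ c : Fin n → Option (Fin m), c ∈ Sys n m (l / p) ∧
          ((bad S c).card : ℝ) ≤ l ^ 2 / p ∧ l ^ 8 / p < ((fr S c 2).card : ℝ))
    (fun S => ∃ B U : Finset (Fin n), p * B.card ≤ Real.log l / 8 ∧
          (U.card : ℝ) ≤ l ^ 2 / p ∧ (1 + 1 / (n * p ^ 2)) * l ^ 5 <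
          ((B.filter (fun b => ((priv S B U b).card : ℝ) < n * p / l)).card : ℝ))
  have h6 := hsmall 5 (by norm_num) (by norm_num)
  have h7 : 1 / (n : ℝ) ^ 5 + 1 / (n : ℝ) ^ 5 + 2 / (n : ℝ) ^ 5 + 1 / (n : ℝ) ^ 5
      = 5 / (n : ℝ) ^ 5 := by ring
  rw [pr_not] at hfail
  linarith

end Pool.Agent.CFX
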