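import Pool.Agent.CFX.SP
import Pool.Agent.CFX.ST
import Pool.Agent.CFX.UN

/-! SB: systems with few defects have small weight -/

namespace Pool.Agent.CFX

open Finset Pool.Agent.MD437 Pool.Agent.CFC

variable {n m : ℕ} {p l : ℝ}

private lemma SB_pos (hB : Big n l) {k : ℕ} (h1 : l ^ k ≤ n * p) : 0 < p := by
  have h2 : 0 < (n : ℝ) * p := lt_of_lt_of_le (hB.pow_pos' k) h1
  exact pos_of_mul_pos_right h2 hB.n_pos'.le

private lemma SB_one (hB : Big n l) (hp1 : p ≤ 1) (h1 : l ^ 222 ≤ n * p)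
    (hm : (m : ℝ) ≤ 15 * Real.log n) (c : Fin n → Option (Fin m))
    (hc : c ∈ Sys n m (l / p)) (hw : l ^ 4 / (n * p) < wt p c) :
    pr p (E n) (fun S => ((bad S c).card : ℝ) ≤ l ^ 2 / p) ≤
      (1 / (n : ℝ) ^ 6) ^ ((supp c).card + 1) := by
  classical
  have hp0 : 0 < p := SB_pos hB h1
  have hn0 : (0 : ℝ) < n := hB.n_pos'
  have hl0 : 0 < l := hB.pos
  have hl1 : (1000 : ℝ) ≤ l := le_trans (by norm_num) hB.big
  have hml : (m : ℝ) ≤ 15 / 100 * l := by
    have := hB.lg_le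
    linarith
  have hs1 : ((supp c).card : ℝ) ≤ 15 / 100 * (l ^ 2 / p) := by
    refine (card_supp_le hc).trans ?_
    calc (m : ℝ) * (l / p) ≤ (15 / 100 * l) * (l / p) :=
          mul_le_mul_of_nonneg_right hml (by positivity)
      _ = 15 / 100 * (l ^ 2 / p) := by ring
  have hlp : (1 : ℝ) ≤ 1 / p := by rw [le_div_iff₀ hp0]; linarith
  have hl2 : l ^ 2 / p = l ^ 2 * (1 / p) := by ring
  have h2 : l ^ 2 / p ≤ n / 2 := by
    rw [div_le_iff₀ hp0]
    have h3 : 2 * l ^ 2 ≤ l ^ 222 := hB.mul_pow_le (by norm_num) (by norm_num)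
    linarith
  have h3 : (l ^ 2 / p : ℝ) ≥ 0 := by positivity
  -- the number of vertices outside
  have hZ : (n : ℝ) / 2 ≤ (((supp c)ᶜ).card : ℝ) := by
    rw [card_compl, Fintype.card_fin, Nat.cast_sub (by
      have := card_le_univ (supp c)
      rwa [Fintype.card_fin] at this)]
    linarith
  have hmain : pr p (E n) (fun S => ((bad S c).card : ℝ) ≤ l ^ 2 / p) ≤
      Real.exp (l ^ 2 / p - 1 / 2 * ∑ _x ∈ (supp c)ᶜ, pr p (supp c) (fun T => uT c T = ∅)) := by
    refine le_trans ?_ (star_lower hp0.le hp1 (E n) (supp c) ((supp c)ᶜ)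
      (disjoint_compl_right) ?_ (fun _ T => uT c T = ∅) (l ^ 2 / p))
    · refine pr_mono hp0.le hp1 fun S _ hS => ?_
      refine le_trans ?_ hS
      have : ((supp c)ᶜ.filter (fun x => uT c ((supp c).filter (fun y => s(x, y) ∈ S)) = ∅)) ⊆
          bad S c := by
        intro x hx
        rw [mem_filter, mem_compl] at hx
        rw [mem_bad, uq_eq_uT S c hx.1]
        exact hx.2
      exact_mod_cast card_le_card this
    · intro x hx y hy
      rw [mk_mem_E]
      rintro rfl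
      exact (mem_compl.1 hx) hy
  refine hmain.trans ?_
  rw [sum_const, nsmul_eq_mul, pr_uT_empty hp0.le hp1]
  have hw0 : 0 ≤ wt p c := le_trans (by positivity) hw.le
  have h4 : l ^ 2 / p - 1 / 2 * ((((supp c)ᶜ).card : ℝ) * wt p c) ≤ - (l ^ 3 / p) := by
    have h5 : (n : ℝ) / 2 * (l ^ 4 / (n * p)) ≤ (((supp c)ᶜ).card : ℝ) * wt p c :=
      mul_le_mul hZ hw.le (by positivity) (Nat.cast_nonneg _)
    have h6 : (n : ℝ) / 2 * (l ^ 4 / (n * p)) = 1 / 2 * (l ^ 4 / p) := by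
      field_simp
    have h7 : l ^ 2 / p + l ^ 3 / p ≤ 1 / 4 * (l ^ 4 / p) := by
      have h8 : l ^ 2 + l ^ 3 ≤ 1 / 4 * l ^ 4 := by
        have a1 : 8 * l ^ 2 ≤ l ^ 4 := hB.mul_pow_le (by norm_num) (by norm_num)
        have a2 : 8 * l ^ 3 ≤ l ^ 4 := hB.mul_pow_le (by norm_num) (by norm_num)
        linarith
      have h9 := div_le_div_of_nonneg_right h8 hp0.le
      calc l ^ 2 / p + l ^ 3 / p = (l ^ 2 + l ^ 3) / p := by ring
        _ ≤ 1 / 4 * l ^ 4 / p := h9
        _ = 1 / 4 * (l ^ 4 / p) := by ring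
    rw [h6] at h5
    linarith
  refine (Real.exp_le_exp.2 h4).trans (hB.exp_le' ?_)
  push_cast
  have h10 : (1 : ℝ) ≤ l ^ 2 / p := by
    rw [hl2]
    have := hB.one_le_pow 2
    calc (1 : ℝ) = 1 * 1 := by ring
      _ ≤ l ^ 2 * (1 / p) := mul_le_mul this hlp (by norm_num) (by positivity)
  calc l * (((supp c).card : ℝ) + 1) ≤ l * (2 * (l ^ 2 / p)) := by
        refine mul_le_mul_of_nonneg_left ?_ hl0.le
        linarith
    _ = 2 * (l ^ 3 / p) := by ring
    _ ≤ 10 * (l ^ 3 / p) := by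
        have : 0 ≤ l ^ 3 / p := by positivity
        linarith

/-- For a fixed system `c` with `wt p c > l⁴ / (n p)`: the vertices outside `supp c`
(`|supp c| ≤ m l / p ≤ l² / p ≤ n / 2`) without unique colour are at least ... : by `star_lower`
(`W = supp c`, `Z = Wᶜ`, `Q x T := uT c T = ∅`) the probability of at most `l² / p` defects is at
most `exp (l² / p - n wt / 4) ≤ exp (l² / p - l⁴ / (4 p)) ≤ exp (- l³ / p)`, and
`|supp c| + 1 ≤ l² / p`. Then `union_sys`. -/
theorem sysbad_prob (hB : Big n l) (hp1 : p ≤ 1) (h1 : l ^ 222 ≤ n * p)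
    (h2 : n * p ≤ l ^ 6000) (hm : (m : ℝ) ≤ 15 * Real.log n) :
    pr p (E n) (fun S => ∃ c : Fin n → Option (Fin m), c ∈ Sys n m (l / p) ∧
      ((bad S c).card : ℝ) ≤ l ^ 2 / p ∧ l ^ 4 / (n * p) < wt p c) ≤ 1 / (n : ℝ) ^ 5 := by
  classical
  have _ := h2
  have hp0 : 0 < p := SB_pos hB h1
  have hmn : m ≤ n := by
    have h3 := hB.lg_le
    have h4 := hB.l_le_n
    have h5 := hB.pos
    have : (m : ℝ) ≤ n := by linarith
    exact_mod_cast this
  refine union_sys hp0.le hp1 hB.two_le_n hmn _ fun c => ?_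
  by_cases hc : c ∈ Sys n m (l / p) ∧ l ^ 4 / (n * p) < wt p c
  · refine le_trans ?_ (SB_one hB hp1 h1 hm c hc.1 hc.2)
    exact pr_mono hp0.le hp1 fun S _ hS => hS.2.1
  · have : pr p (E n) (fun S => c ∈ Sys n m (l / p) ∧
        ((bad S c).card : ℝ) ≤ l ^ 2 / p ∧ l ^ 4 / (n * p) < wt p c) = 0 := by
      rw [pr_congr p (R := fun _ => False) (fun S _ => ?_), pr_def]
      · simp [ex_const]
      · constructor
        · rintro ⟨a, -, b⟩
          exact hc ⟨a, b⟩
        · exact False.elim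
    rw [this]
    have := hB.n_pos'
    positivity

end Pool.Agent.CFX
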