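import Pool.Agent.CFX.Props

/-! SC: derandomised sequential choice -/

namespace Pool.Agent.CFX

open Finset

/-- Sequential choice with constraints (derandomisation). At step `j < N` we either skip
(`f j = none`) or choose `f j = some w` with `w` in a set `A ⊆ P j` with at least `L` elements;
`ok j f` says that the `j`-th choice is fine, and depends only on the choices up to `j`.
Hypothesis `hstep`: if the first `j` choices are fine and all constraints hold so far then
skipping is fine, or there is a set `A ⊆ P j`, `|A| ≥ L`, of choices which are fine.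

Proof. For `f` and `j` let
`Φ j f = ∑_q exp (∑_{i < j} yv y q i (f i) + ∑_{j ≤ i < N} m q i - cap q)`. By induction on `j ≤ N`
there is an `f` with `ok i f` for all `i < j` and `Φ j f ≤ Φ 0`: given `f` for `j < N`, every
constraint has `∑_{i < j} yv y q i (f i) < cap q`, because `Φ j f < 1` and `m ≥ 0`. If skipping is
fine, `Φ (j+1) (update f j none) ≤ Φ j f`. Otherwise average over `w ∈ A`:
`(1/|A|) ∑_{w ∈ A} exp (y q j w) ≤ 1 + (1/L) ∑_{w ∈ P j} (exp (y q j w) - 1) ≤ 1 + m q j
≤ exp (m q j)`, so some `w ∈ A` has `Φ (j+1) (update f j (some w)) ≤ Φ j f`. -/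
theorem seq_choice {α κ : Type*} [DecidableEq α] (N : ℕ) (P : ℕ → Finset α) {L : ℝ}
    (hL : 0 < L) (Q : Finset κ) (y : κ → ℕ → α → ℝ) (m : κ → ℕ → ℝ) (cap : κ → ℝ)
    (hm0 : ∀ q j, 0 ≤ m q j) (hy0 : ∀ q j w, 0 ≤ y q j w)
    (hm : ∀ q ∈ Q, ∀ j < N, ∑ w ∈ P j, (Real.exp (y q j w) - 1) ≤ L * m q j)
    (hΦ : ∑ q ∈ Q, Real.exp (∑ j ∈ Finset.range N, m q j - cap q) < 1)
    (ok : ℕ → (ℕ → Option α) → Prop)
    (hok : ∀ (i : ℕ) (f g : ℕ → Option α), (∀ k ≤ i, f k = g k) → ok i f → ok i g)
    (hstep : ∀ j < N, ∀ f : ℕ → Option α, (∀ i < j, ok i f) →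
      (∀ q ∈ Q, ∑ i ∈ Finset.range j, yv y q i (f i) < cap q) →
      ok j (Function.update f j none) ∨
        ∃ A ⊆ P j, L ≤ A.card ∧ ∀ w ∈ A, ok j (Function.update f j (some w))) :
    ∃ f : ℕ → Option α, (∀ i < N, ok i f) ∧
      ∀ q ∈ Q, ∑ i ∈ Finset.range N, yv y q i (f i) < cap q := by
  classical
  obtain ⟨Φ, hΦd⟩ : ∃ Φ : ℕ → (ℕ → Option α) → ℝ, ∀ j f, Φ j f = ∑ q ∈ Q,
      Real.exp ((∑ i ∈ Finset.range j, yv y q i (f i)) + (∑ i ∈ Finset.Ico j N, m q i) - cap q) :=
    ⟨_, fun _ _ => rfl⟩
  have hlt : ∀ j f, Φ j f < 1 → ∀ q ∈ Q, ∑ i ∈ Finset.range j, yv y q i (f i) < cap q := by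
    intro j f h q hq
    rw [hΦd] at h
    have h1 := single_le_sum (f := fun q => Real.exp ((∑ i ∈ Finset.range j, yv y q i (f i)) +
      (∑ i ∈ Finset.Ico j N, m q i) - cap q)) (fun q _ => (Real.exp_pos _).le) hq
    have h3 : 0 ≤ ∑ i ∈ Finset.Ico j N, m q i := sum_nonneg fun i _ => hm0 q i
    by_contra hcon
    rw [not_lt] at hcon
    have h4 : 1 ≤ Real.exp ((∑ i ∈ Finset.range j, yv y q i (f i)) +
      (∑ i ∈ Finset.Ico j N, m q i) - cap q) := Real.one_le_exp (by linarith)
    linarith
  have hind : ∀ j ≤ N, ∃ f, (∀ i < j, ok i f) ∧ Φ j f < 1 := by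
    intro j
    induction j with
    | zero =>
      intro _
      refine ⟨fun _ => none, by simp, ?_⟩
      rw [hΦd]
      simpa [Nat.Ico_zero_eq_range] using hΦ
    | succ j ih =>
      intro hj
      obtain ⟨f, hf1, hf2⟩ := ih (by omega)
      have hcap := hlt j f hf2
      have hold : ∀ (v : Option α) (i : ℕ), i < j → ok i (Function.update f j v) := by
        intro v i hi
        refine hok i f _ ?_ (hf1 i hi)
        intro k hk
        rw [Function.update_of_ne (by omega)]
      have hsum : ∀ (v : Option α) (q : κ), ∑ i ∈ Finset.range (j + 1),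
          yv y q i (Function.update f j v i) =
            (∑ i ∈ Finset.range j, yv y q i (f i)) + yv y q j v := by
        intro v q
        rw [sum_range_succ, Function.update_self]
        congr 1
        refine sum_congr rfl fun i hi => ?_
        rw [Function.update_of_ne (by have := Finset.mem_range.1 hi; omega)]
      have hIco : ∀ q, ∑ i ∈ Finset.Ico j N, m q i = m q j + ∑ i ∈ Finset.Ico (j + 1) N, m q i :=
        fun q => sum_eq_sum_Ico_succ_bot (by omega) _
      rcases hstep j (by omega) f hf1 hcap with h | ⟨A, hA, hAc, hA2⟩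
      · refine ⟨Function.update f j none, ?_, ?_⟩
        · intro i hi
          rcases Nat.lt_succ_iff_lt_or_eq.1 hi with h1 | h1
          · exact hold none i h1
          · rw [h1]; exact h
        · refine lt_of_le_of_lt ?_ hf2
          rw [hΦd, hΦd]
          refine sum_le_sum fun q _ => Real.exp_le_exp.2 ?_
          rw [hsum none q, hIco q]
          have := hm0 q j
          simp only [yv]
          linarith
      · have hA0 : (0 : ℝ) < A.card := lt_of_lt_of_le hL hAc
        have hs : ∑ w ∈ A, Φ (j + 1) (Function.update f j (some w)) < ∑ _w ∈ A, (1 : ℝ) := by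
          have e1 : ∑ w ∈ A, Φ (j + 1) (Function.update f j (some w)) =
              ∑ q ∈ Q, Real.exp ((∑ i ∈ Finset.range j, yv y q i (f i)) +
                (∑ i ∈ Finset.Ico (j + 1) N, m q i) - cap q) * ∑ w ∈ A, Real.exp (y q j w) := by
            rw [sum_congr rfl (fun w _ => hΦd (j + 1) (Function.update f j (some w))), sum_comm]
            refine sum_congr rfl fun q _ => ?_
            rw [mul_sum]
            refine sum_congr rfl fun w _ => ?_
            rw [hsum (some w) q, ← Real.exp_add]
            congr 1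
            simp only [yv]
            ring
          have e2 : ∑ w ∈ A, Φ (j + 1) (Function.update f j (some w)) ≤ A.card * Φ j f := by
            rw [e1, hΦd, mul_sum]
            refine sum_le_sum fun q hq => ?_
            have h1 : ∑ w ∈ A, Real.exp (y q j w) ≤ A.card * Real.exp (m q j) := by
              have h2 : ∑ w ∈ A, Real.exp (y q j w) = A.card +
                  ∑ w ∈ A, (Real.exp (y q j w) - 1) := by
                rw [sum_sub_distrib]
                simp
              have h3 : ∑ w ∈ A, (Real.exp (y q j w) - 1) ≤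
                  ∑ w ∈ P j, (Real.exp (y q j w) - 1) := by
                refine sum_le_sum_of_subset_of_nonneg hA fun w _ _ => ?_
                have := Real.one_le_exp (hy0 q j w)
                linarith
              have h4 := hm q hq j (by omega)
              have h5 : L * m q j ≤ A.card * m q j := mul_le_mul_of_nonneg_right hAc (hm0 q j)
              have h6 := Real.add_one_le_exp (m q j)
              have h7 := mul_le_mul_of_nonneg_left h6 hA0.le
              rw [h2]
              nlinarith
            have h8 : Real.exp ((∑ i ∈ Finset.range j, yv y q i (f i)) +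
                (∑ i ∈ Finset.Ico j N, m q i) - cap q) = Real.exp ((∑ i ∈ Finset.range j,
                yv y q i (f i)) + (∑ i ∈ Finset.Ico (j + 1) N, m q i) - cap q) *
                Real.exp (m q j) := by
              rw [← Real.exp_add, hIco q]
              congr 1
              ring
            rw [h8]
            have h9 := mul_le_mul_of_nonneg_left h1 (Real.exp_pos ((∑ i ∈ Finset.range j,
              yv y q i (f i)) + (∑ i ∈ Finset.Ico (j + 1) N, m q i) - cap q)).le
            linarith
          refine lt_of_le_of_lt e2 ?_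
          simp only [sum_const, nsmul_eq_mul, mul_one]
          have := mul_lt_mul_of_pos_left hf2 hA0
          linarith
        obtain ⟨w, hw, hw2⟩ := exists_lt_of_sum_lt hs
        refine ⟨Function.update f j (some w), ?_, hw2⟩
        intro i hi
        rcases Nat.lt_succ_iff_lt_or_eq.1 hi with h1 | h1
        · exact hold (some w) i h1
        · rw [h1]; exact hA2 w hw
  obtain ⟨f, h1, h2⟩ := hind N le_rfl
  exact ⟨f, h1, hlt N f h2⟩

end Pool.Agent.CFX
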