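import Pool.Agent.CFX.Props

/-! SP: the unique colours of a vertex outside a system of classes -/

namespace Pool.Agent.CFX

open Finset Pool.Agent.MD437 Pool.Agent.CFC

variable {n m : ℕ} {p l : ℝ}

/-- for `x` outside the support, `uq` is `uT` of `N(x) ∩ supp c` -/
lemma uq_eq_uT (S : Finset (Sym2 (Fin n))) (c : Fin n → Option (Fin m)) {x : Fin n}
    (hx : x ∉ supp c) :
    uq S c x = uT c ((supp c).filter (fun y => s(x, y) ∈ S)) := by
  ext j
  rw [mem_uq]
  simp only [uT, mem_filter, mem_univ, true_and]
  have : cl S x ∩ cls c j = (supp c).filter (fun y => s(x, y) ∈ S) ∩ cls c j := by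
    ext y
    rw [mem_inter, mem_inter, mem_filter]
    constructor
    · rintro ⟨h1, h2⟩
      have hy : y ∈ supp c := by
        rw [mem_supp, mem_cls.1 h2]
        simp
      rcases mem_cl.1 h1 with h | h
      · exact absurd (h ▸ hy) hx
      · exact ⟨⟨hy, h.2⟩, h2⟩
    · rintro ⟨⟨h1, h2⟩, h3⟩
      refine ⟨mem_cl.2 (Or.inr ⟨?_, h2⟩), h3⟩
      rintro rfl
      exact hx h1
  rw [this]

/-- The classes are disjoint blocks of `supp c` (`pr_blocks`, `pr_ne_one`). -/
lemma pr_uT_empty (hp0 : 0 ≤ p) (hp1 : p ≤ 1) (c : Fin n → Option (Fin m)) :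
    pr p (supp c) (fun T => uT c T = ∅) = wt p c := by
  have h1 := pr_blocks p univ (fun j => cls c j) (fun i _ j _ hij => by
      rw [disjoint_left]
      intro y hy1 hy2
      rw [mem_cls] at hy1 hy2
      exact hij (Option.some.inj (hy1.symm.trans hy2))) (supp c) (fun j _ => by
      intro y hy
      rw [mem_cls] at hy
      rw [mem_supp, hy]
      simp) (fun j T => T.card ≠ 1)
  unfold wt
  rw [← prod_congr rfl (fun j _ => pr_ne_one p (cls c j)), ← h1]
  refine pr_congr p fun T _ => ?_
  constructor
  · intro h j _ hj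
    have : j ∈ uT c T := by
      simp only [uT, mem_filter, mem_univ, true_and]
      exact hj
    rw [h] at this
    exact notMem_empty _ this
  · intro h
    rw [eq_empty_iff_forall_notMem]
    intro j hj
    simp only [uT, mem_filter, mem_univ, true_and] at hj
    exact h j (mem_univ _) hj

end Pool.Agent.CFX
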