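import Pool.Agent.CFX.Props

/-! TC0: conflicts of typical vertices -/

namespace Pool.Agent.CFX

open Finset Pool.Agent.MD437 Pool.Agent.CFC

variable {n m : ℕ} {p l : ℝ}

/-- pairs counted by `gz` have `w' ∈ N[z]` and `b' ∈ N(w') ∩ B` -/
theorem gz_le (S : Finset (Sym2 (Fin n))) (B B' : Finset (Fin n)) (hB' : B' ⊆ B) (w z : Fin n) :
    gz S B' w z ≤ ∑ w' ∈ cl S z, aB S B w' := by
  have h1 : ∑ w' ∈ cl S z, aB S B w' = ((cl S z).sigma fun w' => nb S w' ∩ B).card := by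
    rw [card_sigma]
    rfl
  rw [h1, gz]
  refine card_le_card_of_injOn (fun q => (⟨q.2, q.1⟩ : (_ : Fin n) × Fin n)) ?_ ?_
  · intro q hq
    rw [mem_coe, mem_filter, mem_product] at hq
    obtain ⟨⟨h2, -⟩, h3, h4, -⟩ := hq
    rw [mem_coe, mem_sigma]
    refine ⟨h4, ?_⟩
    rw [mem_inter, mem_nb]
    exact ⟨ad_symm (mem_nb.1 h3), hB' h2⟩
  · rintro ⟨a, a'⟩ - ⟨b, b'⟩ - h
    simp only [Sigma.mk.injEq, heq_eq_eq] at h
    rw [h.1, h.2]

/-- Let `w` be typical, `b ∈ B` its neighbour in `B`. Every pair `(b', w')` counted by `conf` has a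
`z ∈ N[w] ∩ N[w'] ∩ X`; `z ∉ B` (otherwise `z ∈ N(w) ∩ B = {b}`, as `w ∉ B`, but `w' ∉ N[b]`). So
the pair is counted by `gz` at a `z ∈ (N[w] ∩ X) \ B`. -/
theorem conf_le (hB : Big n l) {S : Finset (Sym2 (Fin n))} {X B : Finset (Fin n)}
    {b w : Fin n} (hb : b ∈ B) (hbw : w ∈ nb S b) (hw : w ∈ typ p l S B) :
    conf S X (B.erase b) b w ≤ ∑ z ∈ (cl S w ∩ X) \ B, gz S (B.erase b) w z := by
  classical
  have hw1 : w ∈ QQ S B ∧ aB S B w = 1 := by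
    simp only [typ, mem_filter] at hw
    exact ⟨hw.1, hw.2.1⟩
  have hwB : w ∉ B := by
    have h1 := hw1.1
    rw [QQ, mem_filter, mem_compl] at h1
    exact h1.1
  obtain ⟨c, hc⟩ := card_eq_one.1 hw1.2
  have hbc : b = c := by
    have h1 : b ∈ nb S w ∩ B := by
      rw [mem_inter, mem_nb]
      exact ⟨ad_symm (mem_nb.1 hbw), hb⟩
    rw [hc, mem_singleton] at h1
    exact h1
  have hsub : ((B.erase b ×ˢ (univ : Finset (Fin n))).filter (fun q : Fin n × Fin n =>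
      q.2 ∈ nb S q.1 ∧ q.2 ∉ cl S b ∧ q.2 ≠ w ∧ (cl S w ∩ cl S q.2 ∩ X).Nonempty)) ⊆
      ((cl S w ∩ X) \ B).biUnion fun z => ((B.erase b ×ˢ (univ : Finset (Fin n))).filter
        (fun q : Fin n × Fin n => q.2 ∈ nb S q.1 ∧ q.2 ∈ cl S z ∧ q.2 ≠ w)) := by
    intro q hq
    rw [mem_filter] at hq
    obtain ⟨h0, h1, h2, h3, z, hz⟩ := hq
    rw [mem_inter, mem_inter] at hz
    obtain ⟨⟨hz1, hz2⟩, hz3⟩ := hz
    have hzB : z ∉ B := by
      intro hzB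
      rcases mem_cl.1 hz1 with h4 | h4
      · exact hwB (h4 ▸ hzB)
      · have h5 : z ∈ nb S w ∩ B := by
          rw [mem_inter, mem_nb]
          exact ⟨h4, hzB⟩
        rw [hc, mem_singleton, ← hbc] at h5
        rw [h5] at hz2
        exact h2 (mem_cl_comm.1 hz2)
    rw [mem_biUnion]
    refine ⟨z, ?_, ?_⟩
    · rw [mem_sdiff, mem_inter]
      exact ⟨⟨hz1, hz3⟩, hzB⟩
    · rw [mem_filter]
      exact ⟨h0, h1, mem_cl_comm.1 (mem_cl_comm.1 (mem_cl_comm.1 hz2)), h3⟩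
  exact (card_le_card hsub).trans card_biUnion_le

end Pool.Agent.CFX
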