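import Pool.Agent.CFX.TY1

/-! TY2: the number of exceptions -/

namespace Pool.Agent.CFX

open Finset Pool.Agent.MD437 Pool.Agent.CFC

variable {n m : ℕ} {p l : ℝ}

private lemma ty2_mem_HH {h : ℝ} {S : Finset (Sym2 (Fin n))} {B : Finset (Fin n)} {v : Fin n} :
    v ∈ HH h S B ↔ h ≤ (aB S B v : ℝ) := by
  unfold HH
  rw [mem_filter]
  exact ⟨fun h => h.2, fun h => ⟨mem_univ _, h⟩⟩

private lemma ty2_mem_QQ {S : Finset (Sym2 (Fin n))} {B : Finset (Fin n)} {v : Fin n} :
    v ∈ QQ S B ↔ v ∉ B ∧ 1 ≤ aB S B v := by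
  unfold QQ
  rw [mem_filter, mem_compl]

/-- closed neighbourhoods of a set -/
private lemma ty2_biUnion {S : Finset (Sym2 (Fin n))} {d : ℝ} (hdeg : DegOK d S)
    (A : Finset (Fin n)) :
    ((A.biUnion (fun z => cl S z)).card : ℝ) ≤ A.card * (2 * d + 1) := by
  have h1 : (A.biUnion (fun z => cl S z)).card ≤ ∑ z ∈ A, (cl S z).card := card_biUnion_le
  have h2 : ((∑ z ∈ A, (cl S z).card : ℕ) : ℝ) ≤ A.card * (2 * d + 1) := by
    push_cast
    calc (∑ z ∈ A, ((cl S z).card : ℝ)) ≤ ∑ _z ∈ A, (2 * d + 1) := by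
          refine sum_le_sum fun z _ => ?_
          rw [card_cl]
          push_cast
          linarith [(hdeg z).2]
      _ = A.card * (2 * d + 1) := by rw [sum_const, nsmul_eq_mul]
  exact (Nat.cast_le.2 h1).trans h2

/-- The number of pairs `(b, w)`, `b ∈ B`, `w ∈ N(b)`, `w` not typical, is at most
`|B| n p / 200`. With `r = |B|`, `d = n p`, `H = HH (R l^10)`:
* `w ∈ B`: `ee B B ≤ 2 l r + l p r² ≤ 3 l r`;
* `w ∈ Q2 S B`: `ee B Q2 ≤ l (r + |Q2|) + l p r |Q2| ≤ l r + 2 r d / l²` by `h1`;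
the other `w` have `aB w = 1`, so every `w` is in one pair:
* `w` has a neighbour in `H`: at most `2 d |H| ≤ 4 r d / l^9` (`level_card`, `R ≥ 1`);
* `w ∈ near S B H`: at most `r d / l²` by `u3`, since `|H| R l^8 ≤ 2 r / l ≤ r`;
* `N[w]` meets `heavy`: at most `(2 d + 1) r / l^6` by `h2`;
* `N[w]` contains a `z` with `aB z ≥ l^7`: at most `(2 d + 1) 2 r / l^6` (`level_card`).
The sum is at most `4 l r + 20 r d / l² ≤ r d / 200`. -/
theorem typ_count (hB : Big n l) (hp0 : 0 ≤ p) (hp1 : p ≤ 1) (h1 : l ^ 222 ≤ n * p)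
    (h2 : n * p ≤ l ^ 4200) {S : Finset (Sym2 (Fin n))} (hG : GoodH p l S)
    (B : Finset (Fin n)) (hs : (B.card : ℝ) ≤ l ^ 5005) :
    ((∑ b ∈ B, (nb S b \ typ p l S B).card : ℕ) : ℝ) ≤ B.card * (n * p) / 200 := by
  classical
  have hl := hB.pos
  have hl1 := hB.one_le
  have hn := hB.n_pos'
  have hR : 1 ≤ RR n p B.card := by
    unfold RR
    have : 0 ≤ (B.card : ℝ) * n * p ^ 2 := by positivity
    linarith
  set R := RR n p B.card with hRdef
  set H := HH (R * l ^ 10) S B with hHdef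
  set d : ℝ := n * p with hddef
  have hr0 : (0 : ℝ) ≤ B.card := Nat.cast_nonneg _
  -- numerical facts
  have hd3 : 4 * l ^ 3 ≤ d := (hB.mul_pow_le (by norm_num) (by norm_num)).trans h1
  have hd1 : 1 ≤ d := (hB.one_le_pow 222).trans h1
  have hl2 : 4000 * l ^ 0 ≤ l ^ 2 := hB.mul_pow_le (by norm_num) (by norm_num)
  rw [pow_zero, mul_one] at hl2
  have hl2p : 0 < l ^ 2 := hB.pow_pos' 2
  have h4 : l * p * B.card ≤ 1 := by
    have e1 : l * p * B.card * n ≤ l ^ 9206 := by
      calc l * p * B.card * n = l ^ 1 * (n * p) * B.card := by rw [pow_one]; ring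
        _ ≤ l ^ 1 * l ^ 4200 * l ^ 5005 := by
            refine mul_le_mul ?_ hs (Nat.cast_nonneg _)
              (mul_nonneg (hB.pow_pos' _).le (hB.pow_pos' _).le)
            exact mul_le_mul_of_nonneg_left h2 (hB.pow_pos' _).le
        _ = l ^ 9206 := by rw [← pow_add, ← pow_add]
    have e2 : l ^ 9206 ≤ n := by
      have := hB.pow_le (show 9206 ≤ 10000 by norm_num)
      rwa [hB.pow] at this
    have e3 : l * p * B.card * n ≤ 1 * n := by
      rw [one_mul]
      exact e1.trans e2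
    exact le_of_mul_le_mul_right e3 hn
  -- e = r d / l^2
  set e : ℝ := B.card * d / l ^ 2 with hedef
  have he0 : 0 ≤ e := by positivity
  have hel : e * l ^ 2 = B.card * d := by
    rw [hedef]; field_simp
  -- |H|
  have hHc : R * l ^ 10 * (H.card : ℝ) ≤ 2 * l * B.card := by
    refine level_card hB hp0 h2 hG.dist B hs ?_
    have e1 : 4 * l ^ 1 ≤ l ^ 10 := hB.mul_pow_le (by norm_num) (by norm_num)
    rw [pow_one] at e1
    have e2 : 1 * l ^ 10 ≤ R * l ^ 10 := mul_le_mul_of_nonneg_right hR (hB.pow_pos' _).le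
    linarith
  -- decomposition
  set W : Finset (Fin n) := univ.filter (fun w => w ∉ B ∧ aB S B w = 1 ∧ w ∉ typ p l S B)
    with hWdef
  have hdec : ∑ b ∈ B, (nb S b \ typ p l S B).card ≤ ee S B B + ee S B (Q2 S B) + ee S B W := by
    rw [ee_eq_sum, ee_eq_sum, ee_eq_sum, ← sum_add_distrib, ← sum_add_distrib]
    refine sum_le_sum fun b hb => ?_
    have hsub : nb S b \ typ p l S B ⊆ (nb S b ∩ B ∪ nb S b ∩ Q2 S B) ∪ nb S b ∩ W := by
      intro w hw
      rw [mem_sdiff] at hw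
      rw [mem_union, mem_union, mem_inter, mem_inter, mem_inter]
      by_cases hwB : w ∈ B
      · exact Or.inl (Or.inl ⟨hw.1, hwB⟩)
      · have ha1 : 1 ≤ aB S B w := by
          unfold aB
          refine card_pos.2 ⟨b, ?_⟩
          rw [mem_inter, mem_nb]
          exact ⟨ad_symm (mem_nb.1 hw.1), hb⟩
        by_cases ha2 : 2 ≤ aB S B w
        · left; right
          refine ⟨hw.1, ?_⟩
          unfold Q2
          rw [mem_filter, mem_compl]
          exact ⟨hwB, ha2⟩
        · right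
          refine ⟨hw.1, ?_⟩
          rw [hWdef, mem_filter]
          exact ⟨mem_univ _, hwB, by omega, hw.2⟩
    exact (card_le_card hsub).trans ((card_union_le _ _).trans
      (Nat.add_le_add_right (card_union_le _ _) _))
  have hW1 : ee S B W = W.card := by
    rw [ee_comm, ee_eq_sum, card_eq_sum_ones]
    refine sum_congr rfl fun w hw => ?_
    rw [hWdef, mem_filter] at hw
    exact hw.2.2.1
  have hWsub : W ⊆ (H.biUnion (fun z => cl S z) ∪ near S B H) ∪
      ((heavy (R * l ^ 10) (R * l ^ 17) S B).biUnion (fun z => cl S z) ∪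
        (HH (l ^ 7) S B).biUnion (fun z => cl S z)) := by
    intro w hw
    rw [hWdef, mem_filter] at hw
    obtain ⟨-, hwB, hw1, hwt⟩ := hw
    by_contra hcon
    rw [mem_union, not_or, mem_union, not_or, mem_union, not_or, mem_biUnion, mem_biUnion,
      mem_biUnion] at hcon
    obtain ⟨⟨hc1, hc2⟩, hc3, hc4⟩ := hcon
    apply hwt
    unfold typ
    rw [mem_filter]
    refine ⟨ty2_mem_QQ.2 ⟨hwB, by omega⟩, hw1, ?_, hc2, ?_⟩
    · intro v hv hwv
      exact hc1 ⟨v, hv, mem_cl.2 (Or.inr (ad_symm hwv))⟩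
    · intro z hz
      refine ⟨fun hzh => hc3 ⟨z, hzh, mem_cl_comm.1 hz⟩, fun _ => ?_⟩
      by_contra hlt
      rw [not_lt] at hlt
      exact hc4 ⟨z, ty2_mem_HH.2 hlt, mem_cl_comm.1 hz⟩
  have hWc : (W.card : ℝ) ≤ H.card * (2 * d + 1) + (near S B H).card +
      ((heavy (R * l ^ 10) (R * l ^ 17) S B).card * (2 * d + 1) +
        (HH (l ^ 7) S B).card * (2 * d + 1)) := by
    have c1 := card_le_card hWsub
    have c2 := c1.trans ((card_union_le _ _).trans
      (Nat.add_le_add (card_union_le _ _) (card_union_le _ _)))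
    have c3 : (W.card : ℝ) ≤ (H.biUnion (fun z => cl S z)).card + (near S B H).card +
      (((heavy (R * l ^ 10) (R * l ^ 17) S B).biUnion (fun z => cl S z)).card +
        ((HH (l ^ 7) S B).biUnion (fun z => cl S z)).card) := by exact_mod_cast c2
    have c4 := ty2_biUnion hG.deg H
    have c5 := ty2_biUnion hG.deg (heavy (R * l ^ 10) (R * l ^ 17) S B)
    have c6 := ty2_biUnion hG.deg (HH (l ^ 7) S B)
    linarith
  -- bounds of the terms by multiples of e
  have hlr : l * (B.card : ℝ) ≤ e := by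
    rw [hedef, le_div_iff₀ hl2p]
    have : l * (B.card : ℝ) * l ^ 2 = B.card * l ^ 3 := by ring
    rw [this]
    refine mul_le_mul_of_nonneg_left ?_ hr0
    linarith [hB.pow_pos' 3]
  have t1 : (ee S B B : ℝ) ≤ 3 * e := by
    have := hG.dist B B
    have h5 : l * p * (B.card : ℝ) * B.card ≤ 1 * B.card :=
      mul_le_mul_of_nonneg_right h4 hr0
    have h6 : 1 * (B.card : ℝ) ≤ l * B.card := mul_le_mul_of_nonneg_right hl1 hr0
    linarith
  have t2 : (ee S B (Q2 S B) : ℝ) ≤ 3 * e := by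
    have := hG.dist B (Q2 S B)
    have q := hG.h1 B hs
    rw [← hddef] at q
    have q0 : (0 : ℝ) ≤ (Q2 S B).card := Nat.cast_nonneg _
    have h5 : l * p * (B.card : ℝ) * (Q2 S B).card ≤ 1 * (Q2 S B).card :=
      mul_le_mul_of_nonneg_right h4 q0
    have h6 : 1 * ((Q2 S B).card : ℝ) ≤ l * (Q2 S B).card := mul_le_mul_of_nonneg_right hl1 q0
    have h7 : l * ((Q2 S B).card : ℝ) ≤ e := by
      calc l * ((Q2 S B).card : ℝ) ≤ l * (B.card * d / l ^ 3) :=
            mul_le_mul_of_nonneg_left q hl.le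
        _ = e := by rw [hedef]; field_simp
    linarith
  have h2d : 2 * d + 1 ≤ 3 * d := by linarith
  have h2d0 : 0 ≤ 2 * d + 1 := by linarith
  -- the small factor
  have hH1 : (H.card : ℝ) ≤ B.card / l ^ 2 := by
    rw [le_div_iff₀ hl2p]
    have a1 : 1 * l ^ 10 ≤ R * l ^ 10 := mul_le_mul_of_nonneg_right hR (hB.pow_pos' _).le
    have a2 : 2 * l ^ 3 ≤ l ^ 10 := hB.mul_pow_le (by norm_num) (by norm_num)
    have a3 : (2 * l ^ 3) * (H.card : ℝ) ≤ R * l ^ 10 * H.card :=
      mul_le_mul_of_nonneg_right (by linarith) (Nat.cast_nonneg _)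
    have a4 : (2 * l) * ((H.card : ℝ) * l ^ 2) ≤ (2 * l) * B.card := by
      calc (2 * l) * ((H.card : ℝ) * l ^ 2) = (2 * l ^ 3) * (H.card : ℝ) := by ring
        _ ≤ _ := a3.trans hHc
        _ = _ := by ring
    exact le_of_mul_le_mul_left a4 (by linarith)
  have hH2 : (H.card : ℝ) * R * l ^ 8 ≤ B.card := by
    have a2 : 2 * l ^ 1 ≤ l ^ 2 := hB.mul_pow_le (by norm_num) (by norm_num)
    rw [pow_one] at a2
    have a5 : 0 ≤ (H.card : ℝ) * R * l ^ 8 := by
      have := Nat.cast_nonneg (α := ℝ) H.card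
      positivity
    have a4 : (2 * l) * ((H.card : ℝ) * R * l ^ 8) ≤ (2 * l) * B.card := by
      calc (2 * l) * ((H.card : ℝ) * R * l ^ 8) ≤ l ^ 2 * ((H.card : ℝ) * R * l ^ 8) :=
            mul_le_mul_of_nonneg_right a2 a5
        _ = R * l ^ 10 * H.card := by ring
        _ ≤ _ := hHc
    exact le_of_mul_le_mul_left a4 (by linarith)
  have hde : d * ((B.card : ℝ) / l ^ 2) = e := by
    rw [hedef]; ring
  have t3 : (H.card : ℝ) * (2 * d + 1) ≤ 3 * e := by
    calc (H.card : ℝ) * (2 * d + 1) ≤ (B.card / l ^ 2) * (3 * d) :=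
          mul_le_mul hH1 h2d h2d0 (by positivity)
      _ = 3 * e := by rw [← hde]; ring
  have t4 : ((near S B H).card : ℝ) ≤ e := by
    have := hG.u3 B H hH2
    rwa [← hddef] at this
  have t5 : ((heavy (R * l ^ 10) (R * l ^ 17) S B).card : ℝ) * (2 * d + 1) ≤ 3 * e := by
    have q := hG.h2 B
    rw [← hRdef] at q
    have q' : ((heavy (R * l ^ 10) (R * l ^ 17) S B).card : ℝ) ≤ B.card / l ^ 2 :=
      q.trans (div_le_div_of_nonneg_left hr0 hl2p (hB.pow_le (by norm_num)))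
    calc _ ≤ (B.card / l ^ 2) * (3 * d) :=
          mul_le_mul q' h2d h2d0 (by positivity)
      _ = 3 * e := by rw [← hde]; ring
  have t6 : ((HH (l ^ 7) S B).card : ℝ) * (2 * d + 1) ≤ 3 * e := by
    have q : l ^ 7 * ((HH (l ^ 7) S B).card : ℝ) ≤ 2 * l * B.card := by
      refine level_card hB hp0 h2 hG.dist B hs ?_
      have e1 : 4 * l ^ 1 ≤ l ^ 7 := hB.mul_pow_le (by norm_num) (by norm_num)
      rwa [pow_one] at e1
    have q' : ((HH (l ^ 7) S B).card : ℝ) ≤ B.card / l ^ 2 := by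
      rw [le_div_iff₀ hl2p]
      have a2 : 2 * l ^ 3 ≤ l ^ 7 := hB.mul_pow_le (by norm_num) (by norm_num)
      have a3 : (2 * l ^ 3) * ((HH (l ^ 7) S B).card : ℝ) ≤ l ^ 7 * (HH (l ^ 7) S B).card :=
        mul_le_mul_of_nonneg_right a2 (Nat.cast_nonneg _)
      have a4 : (2 * l) * (((HH (l ^ 7) S B).card : ℝ) * l ^ 2) ≤ (2 * l) * B.card := by
        calc (2 * l) * (((HH (l ^ 7) S B).card : ℝ) * l ^ 2)
            = (2 * l ^ 3) * ((HH (l ^ 7) S B).card : ℝ) := by ring
          _ ≤ _ := a3.trans q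
      exact le_of_mul_le_mul_left a4 (by linarith)
    calc _ ≤ (B.card / l ^ 2) * (3 * d) :=
          mul_le_mul q' h2d h2d0 (by positivity)
      _ = 3 * e := by rw [← hde]; ring
  have hfin : ((∑ b ∈ B, (nb S b \ typ p l S B).card : ℕ) : ℝ) ≤
      (ee S B B : ℝ) + ee S B (Q2 S B) + W.card := by
    have := hdec
    rw [hW1] at this
    exact_mod_cast this
  have h20 : 20 * e ≤ B.card * d / 200 := by
    rw [← hel]
    have := mul_le_mul_of_nonneg_left hl2 he0
    linarith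
  linarith

end Pool.Agent.CFX
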