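import Pool.Agent.CFX.QT
import Pool.Agent.CFX.S1C
import Pool.Agent.CFX.S2B
import Pool.Agent.CFX.S3B

/-! UA: the uniform statement for all `p` -/

namespace Pool.Agent.CFX

open Finset Filter Topology Pool.Agent.MD437 Pool.Agent.CFC

/-- For all large `n` and all `p`: `step_r1` for `p ≤ n^(-43/44)`; with `l = n^(1/10000)`
`step_r2` for `l^222 ≤ n p ≤ l^4200` (`n^(1/44) ≥ l^222`), `step_r3` for `l^4100 ≤ n p ≤ l^6000`,
`uniform` (`CFC/Final.lean`) with `ε = 1/10` for `n p ≥ l^6000 = n^(6/10)`. -/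
theorem uniform_all {η : ℝ} (hη : 0 < η) (hη1 : η ≤ 1) :
    ∀ᶠ n : ℕ in atTop, ∀ p : ℝ, 0 ≤ p → p ≤ 1 →
      ∃ a : ℕ, 1 - η ≤ gnp n p (fun G => chiCF G = a ∨ chiCF G = a + 1) := by
  filter_upwards [step_r1 hη hη1, big_eventually,
    scale_tendsto.eventually (eventually_ge_atTop (1000 / η)),
    uniform (ε := 1 / 10) (η := η) (by norm_num) (by norm_num) hη] with n hr1 hB hl hdense p hp0 hp1
  set l := (n : ℝ) ^ (1 / 10000 : ℝ) with hldef
  have hn := hB.n_pos'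
  have hηl : 1000 ≤ η * l := by
    rw [div_le_iff₀ hη] at hl
    linarith
  rcases le_total p ((n : ℝ) ^ (-(43 / 44) : ℝ)) with h | h
  · exact quantile hB.n_pos hp0 hp1 hη hη1 (hr1 p hp0 h)
  have h222 : l ^ 222 ≤ n * p := by
    have h3 : (n : ℝ) * (n : ℝ) ^ (-(43 / 44) : ℝ) ≤ n * p :=
      mul_le_mul_of_nonneg_left h hn.le
    refine le_trans ?_ h3
    have h4 : (n : ℝ) * (n : ℝ) ^ (-(43 / 44) : ℝ) = (n : ℝ) ^ (1 / 44 : ℝ) := by
      nth_rewrite 1 [← Real.rpow_one (n : ℝ)]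
      rw [← Real.rpow_add hn]
      norm_num
    rw [h4, hldef, ← Real.rpow_natCast, ← Real.rpow_mul hn.le]
    refine Real.rpow_le_rpow_of_exponent_le ?_ (by norm_num)
    have := hB.big_n
    linarith
  rcases le_total ((n : ℝ) * p) (l ^ 4200) with h2 | h2
  · exact quantile hB.n_pos hp0 hp1 hη hη1 (fun u => step_r2 hB hp1 hη hη1 hηl h222 h2 u)
  have h4100 : l ^ 4100 ≤ n * p := (hB.pow_le (by norm_num)).trans h2
  rcases le_total ((n : ℝ) * p) (l ^ 6000) with h3 | h3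
  · exact quantile hB.n_pos hp0 hp1 hη hη1 (fun u => step_r3 hB hp1 hη hη1 hηl h4100 h3 u)
  refine hdense p ?_ hp1
  have h4 : (n : ℝ) * Real.exp ((-(1 / 2) + 1 / 10) * Real.log n) = l ^ 6000 := by
    have h5 : Real.exp ((-(1 / 2) + 1 / 10) * Real.log n) = (n : ℝ) ^ (-(4 / 10) : ℝ) := by
      rw [Real.rpow_def_of_pos hn]
      congr 1
      ring
    rw [h5]
    nth_rewrite 1 [← Real.rpow_one (n : ℝ)]
    rw [← Real.rpow_add hn, hldef, ← Real.rpow_natCast, ← Real.rpow_mul hn.le]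
    norm_num
  have h5 : (n : ℝ) * Real.exp ((-(1 / 2) + 1 / 10) * Real.log n) ≤ n * p := by
    rw [h4]; exact h3
  exact le_of_mul_le_mul_left h5 hn

/-- As `Pool.Agent.CFC.main`. -/
theorem main_all (p : ℕ → ℝ) (hp : ∀ n, 0 ≤ p n ∧ p n ≤ 1) :
    ∃ a : ℕ → ℕ, Tendsto (fun n : ℕ => gnp n (p n) (fun G => chiCF G = a n ∨ chiCF G = a n + 1))
      atTop (𝓝 1) := by
  have hbest : ∀ n : ℕ, ∃ a : ℕ, ∀ b ∈ Finset.range (n + 1),
      gnp n (p n) (fun G => chiCF G = b ∨ chiCF G = b + 1) ≤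
        gnp n (p n) (fun G => chiCF G = a ∨ chiCF G = a + 1) := by
    intro n
    obtain ⟨a, _, ha⟩ := Finset.exists_max_image (Finset.range (n + 1))
      (fun b => gnp n (p n) (fun G => chiCF G = b ∨ chiCF G = b + 1)) ⟨0, by simp⟩
    exact ⟨a, ha⟩
  choose a ha using hbest
  refine ⟨a, ?_⟩
  rw [Metric.tendsto_atTop']
  have key : ∀ η : ℝ, 0 < η → ∀ᶠ n : ℕ in atTop,
      1 - η ≤ gnp n (p n) (fun G => chiCF G = a n ∨ chiCF G = a n + 1) ∧
      gnp n (p n) (fun G => chiCF G = a n ∨ chiCF G = a n + 1) ≤ 1 := by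
    intro η hη
    filter_upwards [uniform_all (show 0 < min η (1 / 2) from lt_min hη (by norm_num))
      ((min_le_right η (1 / 2)).trans (by norm_num)), eventually_gt_atTop 0] with n h1 hn
    obtain ⟨b, hb⟩ := h1 (p n) (hp n).1 (hp n).2
    refine ⟨?_, gnp_le_one (hp n).1 (hp n).2 _⟩
    have hmin := min_le_left η (1 / 2)
    have hmin2 := min_le_right η (1 / 2)
    rcases Nat.lt_or_ge b (n + 1) with hbn | hbn
    · have := ha n b (by simpa using hbn)
      linarith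
    · exfalso
      have h3 : gnp n (p n) (fun G => chiCF G = b ∨ chiCF G = b + 1) = 0 := by
        unfold gnp
        refine sum_eq_zero fun G _ => ?_
        rw [if_neg]
        have := chiCF_le G
        omega
      rw [h3] at hb
      linarith
  intro δ hδ
  obtain ⟨N, hN⟩ := (key (δ / 2) (by linarith)).exists_forall_of_atTop
  refine ⟨N, fun n hn => ?_⟩
  obtain ⟨h1, h2⟩ := hN n hn.le
  rw [Real.dist_eq, abs_lt]
  constructor <;> linarith

end Pool.Agent.CFX
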